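import Mathlib

/-! Finite product identities. -/

namespace K3h21.PP

open Finset

section ring
variable {R : Type*} [CommRing R]

/-- the tail product `(1 - x^(N+1)) ⋯ (1 - x^(2N))` -/
def E (N : ℕ) (x : R) : R := ∏ i ∈ range N, (1 - x ^ (N + 1 + i))

/-- the approximating polynomial -/
def P (N : ℕ) (x : R) : R :=
  (∏ j ∈ range N, (1 + 2 * x ^ (j + 1))) * ∏ j ∈ range N, (1 - x ^ (2 * j + 1))

/-- quintic factor -/
def G (w : R) : R := 1 + w - w ^ 2 + w ^ 3 - w ^ 4 + 2 * w ^ 5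

lemma E_succ (N : ℕ) (x : R) : E (N + 1) x = E N x * ((1 + x ^ (N + 1)) * (1 - x ^ (2 * N + 1))) := by
  rcases N with _ | N
  · simp [E]; ring
  · have h1 : E (N + 1) x = (∏ i ∈ range N, (1 - x ^ (N + 3 + i))) * (1 - x ^ (N + 2)) := by
      unfold E
      rw [prod_range_succ']
      congr 1
      apply prod_congr rfl
      intro i _
      congr 2; ring
    have h2 : E (N + 1 + 1) x = (∏ i ∈ range N, (1 - x ^ (N + 3 + i))) * (1 - x ^ (2 * N + 3))
        * (1 - x ^ (2 * N + 4)) := by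
      unfold E
      rw [prod_range_succ, prod_range_succ]
      congr 2
      · congr 2; ring
      · congr 1; ring
    rw [h1, h2]
    have h3 : x ^ (2 * N + 4) = x ^ (N + 2) * x ^ (N + 2) := by rw [← pow_add]; congr 1; ring
    rw [h3, show 2 * (N + 1) + 1 = 2 * N + 3 by ring]
    ring

lemma plus_mul_odd (N : ℕ) (x : R) :
    (∏ j ∈ range N, (1 + x ^ (j + 1))) * (∏ j ∈ range N, (1 - x ^ (2 * j + 1))) = E N x := by
  induction N with
  | zero => simp [E]
  | succ N ih =>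
    rw [prod_range_succ, prod_range_succ, E_succ, ← ih]; ring

lemma G_mul (w : R) : (1 + 2 * w) * (1 + w ^ 5) = G w * (1 + w) := by
  unfold G; ring

lemma P_mul_E (N : ℕ) (x : R) :
    P N x * E N (x ^ 5) = (∏ j ∈ range N, G (x ^ (j + 1))) *
      (∏ j ∈ range N, (1 - (x ^ 5) ^ (2 * j + 1))) * E N x := by
  have h : (∏ j ∈ range N, (1 + 2 * x ^ (j + 1))) * (∏ j ∈ range N, (1 + (x ^ 5) ^ (j + 1)))
      = (∏ j ∈ range N, G (x ^ (j + 1))) * (∏ j ∈ range N, (1 + x ^ (j + 1))) := by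
    rw [← prod_mul_distrib, ← prod_mul_distrib]
    apply prod_congr rfl
    intro j _
    rw [← G_mul, ← pow_mul, ← pow_mul, mul_comm 5]
  rw [← plus_mul_odd, ← plus_mul_odd]
  unfold P
  linear_combination (∏ j ∈ range N, (1 - x ^ (2 * j + 1))) * (∏ j ∈ range N, (1 - (x ^ 5) ^ (2 * j + 1))) * h

/-- with the denominators -/
lemma P_mul_plus (N : ℕ) (x : R) :
    P N x * (∏ j ∈ range N, (1 + x ^ (j + 1))) = (∏ j ∈ range N, (1 + 2 * x ^ (j + 1))) * E N x := by
  rw [← plus_mul_odd]; unfold P; ring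

end ring

open Filter Topology

lemma E_tendsto {q : ℂ} (hq : ‖q‖ < 1) : Tendsto (fun N => E N q) atTop (𝓝 1) := by
  have hr0 : 0 ≤ ‖q‖ := norm_nonneg q
  have hden : 0 < 1 - ‖q‖ := by linarith
  have hb : ∀ N : ℕ, ‖E N q - 1‖ ≤ Real.exp (‖q‖ ^ (N + 1) / (1 - ‖q‖)) - 1 := by
    intro N
    have h1 := Finset.norm_prod_one_add_sub_one_le (range N) (fun i => - q ^ (N + 1 + i))
    have h2 : ∑ i ∈ range N, ‖-q ^ (N + 1 + i)‖ ≤ ‖q‖ ^ (N + 1) / (1 - ‖q‖) := by
      have : ∀ i, ‖-q ^ (N + 1 + i)‖ = ‖q‖ ^ (N + 1) * ‖q‖ ^ i := by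
        intro i; rw [norm_neg, norm_pow, pow_add]
      simp_rw [this]
      rw [← mul_sum, div_eq_mul_inv]
      apply mul_le_mul_of_nonneg_left _ (by positivity)
      have := (summable_geometric_of_lt_one hr0 hq).sum_le_tsum (range N) (fun i _ => by positivity)
      rwa [tsum_geometric_of_lt_one hr0 hq] at this
    have h3 : E N q = ∏ i ∈ range N, (1 + - q ^ (N + 1 + i)) := by
      unfold E; apply prod_congr rfl; intro i _; ring
    rw [h3]
    refine h1.trans ?_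
    have := Real.exp_le_exp.2 h2
    linarith
  have hz : Tendsto (fun N : ℕ => Real.exp (‖q‖ ^ (N + 1) / (1 - ‖q‖)) - 1) atTop (𝓝 0) := by
    have h1 : Tendsto (fun N : ℕ => ‖q‖ ^ (N + 1) / (1 - ‖q‖)) atTop (𝓝 (0 / (1 - ‖q‖))) :=
      ((tendsto_pow_atTop_nhds_zero_of_lt_one hr0 hq).comp (tendsto_add_atTop_nat 1)).div_const _
    have h2 := (Real.continuous_exp.tendsto (0 / (1 - ‖q‖))).comp h1
    have h3 := h2.sub_const 1
    simpa using h3
  rw [tendsto_iff_norm_sub_tendsto_zero]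
  exact squeeze_zero (fun _ => norm_nonneg _) hb hz

/-- the polynomials converge on the open disc -/
lemma P_tendsto {q : ℂ} (hq : ‖q‖ < 1) : ∃ L : ℂ, Tendsto (fun N => P N q) atTop (𝓝 L) := by
  have hr0 : 0 ≤ ‖q‖ := norm_nonneg q
  have s1 : Summable (fun j : ℕ => ‖2 * q ^ (j + 1)‖) := by
    have : (fun j : ℕ => ‖2 * q ^ (j + 1)‖) = fun j : ℕ => (2 * ‖q‖) * ‖q‖ ^ j := by
      ext j; rw [norm_mul, norm_pow, pow_succ']; norm_num; ring
    rw [this]
    exact (summable_geometric_of_lt_one hr0 hq).mul_left _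
  have s2 : Summable (fun j : ℕ => ‖- q ^ (2 * j + 1)‖) := by
    have : (fun j : ℕ => ‖- q ^ (2 * j + 1)‖) = fun j : ℕ => ‖q‖ * (‖q‖ ^ 2) ^ j := by
      ext j; rw [norm_neg, norm_pow, pow_succ', pow_mul]
    rw [this]
    exact (summable_geometric_of_lt_one (by positivity) (by nlinarith)).mul_left _
  have m1 := (multipliable_one_add_of_summable s1).hasProd.tendsto_prod_nat
  have m2 := (multipliable_one_add_of_summable s2).hasProd.tendsto_prod_nat
  refine ⟨_, (m1.mul m2).congr ?_⟩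
  intro N
  unfold P
  simp only [← sub_eq_add_neg]

end K3h21.PP
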