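import Pool.Agent.K3h21.PP.Main3

/-! The limit function and Cauchy's formula. -/

namespace K3h21.PP

open Filter Topology MeasureTheory Set Finset

/-- value on the main arc -/
theorem main_arc {t η : ℝ} (ht : 0 < t) (ht1 : t ≤ 1 / 160) (hη : |η| ≤ 3 / 4) {L : ℂ}
    (hL : Tendsto (fun N => P N (q t (η * t))) atTop (𝓝 L)) :
    ∃ ε : ℂ, ‖ε‖ ≤ 2 * t ∧
      L = Complex.exp (c1 / (t * cc η) - ((1 / 2 * Real.log (3 / 2) : ℝ) : ℂ) + ε) := by
  obtain ⟨S, hS, hS2⟩ := main_sum ht ht1 hη
  refine ⟨S - (c1 / (t * cc η) - ((1 / 2 * Real.log (3 / 2) : ℝ) : ℂ)), hS2, ?_⟩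
  rw [add_sub_cancel]
  have hq : ‖q t (η * t)‖ < 1 := by rw [norm_q]; exact Real.exp_lt_one_iff.2 (by linarith)
  have hE := E_tendsto hq
  have h1 : ∀ N, P N (q t (η * t)) =
      Complex.exp (∑ j ∈ range N, f ((t * (j + 1) : ℝ) * cc η)) * E N (q t (η * t)) := by
    intro N
    have hw : ∀ j : ℕ, q t (η * t) ^ (j + 1) = Complex.exp (-((t * (j + 1) : ℝ) * cc η)) := by
      intro j
      unfold q cc
      rw [← Complex.exp_nat_mul]
      congr 1; push_cast; ring
    have hp : ∀ j : ℕ, 0 < (1 + Complex.exp (-((t * (j + 1) : ℝ) * cc η))).re ∧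
        0 < (1 + 2 * Complex.exp (-((t * (j + 1) : ℝ) * cc η))).re := by
      intro j
      exact hf_pos (x := t * (j + 1)) (by positivity) (by linarith)
    have hn1 : ∀ j : ℕ, 1 + Complex.exp (-((t * (j + 1) : ℝ) * cc η)) ≠ 0 := by
      intro j h; have := (hp j).1; rw [h] at this; simp at this
    have hn2 : ∀ j : ℕ, 1 + 2 * Complex.exp (-((t * (j + 1) : ℝ) * cc η)) ≠ 0 := by
      intro j h; have := (hp j).2; rw [h] at this; simp at this
    have h2 := P_mul_plus N (q t (η * t))
    have h3 : (∏ j ∈ range N, (1 + q t (η * t) ^ (j + 1))) ≠ 0 := by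
      rw [prod_ne_zero_iff]; intro j _; rw [hw]; exact hn1 j
    apply mul_right_cancel₀ h3
    rw [h2, Complex.exp_sum]
    have h4 : ∀ j : ℕ, Complex.exp (f ((t * (j + 1) : ℝ) * cc η)) =
        (1 + 2 * Complex.exp (-((t * (j + 1) : ℝ) * cc η))) / (1 + Complex.exp (-((t * (j + 1) : ℝ) * cc η))) := by
      intro j
      unfold f
      rw [Complex.exp_sub, Complex.exp_log (hn2 j), Complex.exp_log (hn1 j)]
    simp_rw [h4, prod_div_distrib, hw]
    have h3' : (∏ j ∈ range N, (1 + Complex.exp (-((t * (j + 1) : ℝ) * cc η)))) ≠ 0 := by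
      rw [prod_ne_zero_iff]; intro j _; exact hn1 j
    rw [div_mul_eq_mul_div, div_mul_cancel₀ _ h3']
  have h2 : Tendsto (fun N => P N (q t (η * t))) atTop (𝓝 (Complex.exp S * 1)) := by
    simp_rw [h1]
    exact ((Complex.continuous_exp.tendsto S).comp hS).mul hE
  rw [mul_one] at h2
  exact tendsto_nhds_unique hL h2

/-- the limit function -/
noncomputable def Lf (t θ : ℝ) : ℂ := if h : 0 < t then
  Classical.choose (P_tendsto (q := q t θ) (by rw [norm_q]; exact Real.exp_lt_one_iff.2 (by linarith))) else 0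

lemma Lf_spec {t : ℝ} (ht : 0 < t) (θ : ℝ) : Tendsto (fun N => P N (q t θ)) atTop (𝓝 (Lf t θ)) := by
  unfold Lf
  rw [dif_pos ht]
  exact Classical.choose_spec (P_tendsto (q := q t θ) (by rw [norm_q]; exact Real.exp_lt_one_iff.2 (by linarith)))

lemma cont_P (t : ℝ) (N : ℕ) : Continuous (fun θ : ℝ => P N (q t θ)) := by
  unfold P q
  fun_prop

lemma meas_Lf {t : ℝ} (ht : 0 < t) : Measurable (Lf t) := by
  apply measurable_of_tendsto_metrizable (f := fun N θ => P N (q t θ))
  · intro N; exact (cont_P t N).measurable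
  · rw [tendsto_pi_nhds]; exact fun θ => Lf_spec ht θ

/-- crude bound -/
noncomputable def Cb (t : ℝ) : ℝ := Real.exp (3 / (1 - Real.exp (-t)))

lemma P_bound {t : ℝ} (ht : 0 < t) (θ : ℝ) (N : ℕ) : ‖P N (q t θ)‖ ≤ Cb t := by
  unfold Cb P
  set r := Real.exp (-t) with hr
  have hr0 : 0 < r := Real.exp_pos _
  have hr1 : r < 1 := Real.exp_lt_one_iff.2 (by linarith)
  have hq : ‖q t θ‖ = r := norm_q t θ
  rw [norm_mul, norm_prod, norm_prod]
  have hg : ∀ M : ℕ, ∑ i ∈ range M, r ^ i ≤ 1 / (1 - r) := by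
    intro M
    have := (summable_geometric_of_lt_one hr0.le hr1).sum_le_tsum (range M) (fun i _ => by positivity)
    rwa [tsum_geometric_of_lt_one hr0.le hr1, ← one_div] at this
  have h1 : ∏ j ∈ range N, ‖1 + 2 * q t θ ^ (j + 1)‖ ≤ Real.exp (2 / (1 - r)) := by
    have a1 : ∏ j ∈ range N, ‖1 + 2 * q t θ ^ (j + 1)‖ ≤ ∏ j ∈ range N, Real.exp (2 * r ^ j) := by
      apply prod_le_prod (fun _ _ => norm_nonneg _)
      intro j _
      refine (norm_add_le _ _).trans ?_
      rw [norm_one, norm_mul, norm_pow, hq]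
      norm_num
      have h2 : r ^ (j + 1) ≤ r ^ j := pow_le_pow_of_le_one hr0.le hr1.le (by omega)
      have := Real.add_one_le_exp (2 * r ^ j)
      linarith
    refine a1.trans ?_
    rw [← Real.exp_sum, Real.exp_le_exp, ← mul_sum]
    have := hg N
    have e : 2 / (1 - r) = 2 * (1 / (1 - r)) := by ring
    rw [e]; linarith
  have h2 : ∏ j ∈ range N, ‖1 - q t θ ^ (2 * j + 1)‖ ≤ Real.exp (1 / (1 - r)) := by
    have a1 : ∏ j ∈ range N, ‖1 - q t θ ^ (2 * j + 1)‖ ≤ ∏ j ∈ range N, Real.exp (r ^ j) := by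
      apply prod_le_prod (fun _ _ => norm_nonneg _)
      intro j _
      refine (norm_sub_le _ _).trans ?_
      rw [norm_one, norm_pow, hq]
      have h2 : r ^ (2 * j + 1) ≤ r ^ j := pow_le_pow_of_le_one hr0.le hr1.le (by omega)
      have := Real.add_one_le_exp (r ^ j)
      linarith
    refine a1.trans ?_
    rw [← Real.exp_sum, Real.exp_le_exp]
    exact hg N
  calc _ ≤ Real.exp (2 / (1 - r)) * Real.exp (1 / (1 - r)) :=
        mul_le_mul h1 h2 (prod_nonneg fun _ _ => norm_nonneg _) (Real.exp_nonneg _)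
    _ = _ := by rw [← Real.exp_add]; congr 1; ring

lemma Lf_bound {t : ℝ} (ht : 0 < t) (θ : ℝ) : ‖Lf t θ‖ ≤ Cb t :=
  le_of_tendsto' (Lf_spec ht θ).norm (P_bound ht θ)

/-- the integrand -/
noncomputable def integrand (t : ℝ) (n : ℕ) (θ : ℝ) : ℂ := Lf t θ * Complex.exp (-(n * θ) * Complex.I)

lemma norm_osc (n : ℕ) (θ : ℝ) : ‖Complex.exp (-(n * θ) * Complex.I)‖ = 1 := by
  have : (-(n * θ) * Complex.I : ℂ) = ((-(n * θ) : ℝ) : ℂ) * Complex.I := by push_cast; ring
  rw [this, Complex.norm_exp_ofReal_mul_I]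

lemma integrand_int {t : ℝ} (ht : 0 < t) (n : ℕ) (a b : ℝ) :
    IntervalIntegrable (integrand t n) volume a b := by
  apply (intervalIntegrable_const (c := Cb t)).mono_fun
  · apply Measurable.aestronglyMeasurable
    unfold integrand
    exact (meas_Lf ht).mul (Continuous.measurable (by fun_prop))
  · apply Eventually.of_forall
    intro θ
    show ‖integrand t n θ‖ ≤ ‖Cb t‖
    unfold integrand
    rw [norm_mul, norm_osc, mul_one]
    exact (Lf_bound ht θ).trans (le_abs_self _)

lemma poly_cauchy (p : Polynomial ℂ) (t : ℝ) (n : ℕ) :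
    ∫ θ in (-Real.pi)..Real.pi, p.eval (q t θ) * Complex.exp (-(n * θ) * Complex.I)
      = 2 * Real.pi * (p.coeff n * Real.exp (-t) ^ n) := by
  have h1 : ∀ θ : ℝ, p.eval (q t θ) * Complex.exp (-(n * θ) * Complex.I)
      = ∑ k ∈ range (p.natDegree + 1), p.coeff k * Real.exp (-t) ^ k *
        Complex.exp (((k : ℂ) - n) * Complex.I * θ) := by
    intro θ
    rw [Polynomial.eval_eq_sum_range, sum_mul]
    apply sum_congr rfl
    intro k _
    unfold q
    rw [mul_assoc, mul_assoc, ← Complex.exp_nat_mul, Complex.ofReal_exp, ← Complex.exp_nat_mul,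
      ← Complex.exp_add, ← Complex.exp_add]
    congr 2
    push_cast; ring
  simp_rw [h1]
  rw [intervalIntegral.integral_finsetSum]
  · have h2 : ∀ k ∈ range (p.natDegree + 1),
        (∫ θ in (-Real.pi)..Real.pi, p.coeff k * Real.exp (-t) ^ k *
          Complex.exp (((k : ℂ) - n) * Complex.I * θ))
          = if k = n then 2 * Real.pi * (p.coeff n * Real.exp (-t) ^ n) else 0 := by
      intro k _
      rw [intervalIntegral.integral_const_mul]
      split_ifs with hk
      · subst hk
        simp; ring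
      · have hc : ((k : ℂ) - n) * Complex.I ≠ 0 := by
          apply mul_ne_zero _ Complex.I_ne_zero
          rw [sub_ne_zero]
          exact_mod_cast hk
        rw [integral_exp_mul_complex hc]
        have : Complex.exp (((k : ℂ) - n) * Complex.I * (Real.pi : ℝ))
            = Complex.exp (((k : ℂ) - n) * Complex.I * ((-Real.pi : ℝ) : ℂ)) := by
          rw [Complex.exp_eq_exp_iff_exists_int]
          refine ⟨(k : ℤ) - n, ?_⟩
          push_cast; ring
        rw [this, sub_self]; simp
    rw [sum_congr rfl h2, sum_ite_eq' ]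
    split_ifs with hn
    · rfl
    · have : p.coeff n = 0 := by
        apply Polynomial.coeff_eq_zero_of_natDegree_lt
        simp at hn; omega
      rw [this]; simp
  · intro k _
    apply Continuous.intervalIntegrable
    fun_prop

lemma coeff_formula {t : ℝ} (ht : 0 < t) {n : ℕ} {a : ℤ}
    (ha : ∀ N, n ≤ N → (P N (Polynomial.X : Polynomial ℤ)).coeff n = a) :
    ∫ θ in (-Real.pi)..Real.pi, integrand t n θ = 2 * Real.pi * (a * Real.exp (-t) ^ n) := by
  have h1 : ∀ N, n ≤ N → ∫ θ in (-Real.pi)..Real.pi, P N (q t θ) * Complex.exp (-(n * θ) * Complex.I)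
      = 2 * Real.pi * (a * Real.exp (-t) ^ n) := by
    intro N hN
    have h2 := poly_cauchy ((P N (Polynomial.X : Polynomial ℤ)).map (Int.castRingHom ℂ)) t n
    rw [Polynomial.coeff_map, ha N hN] at h2
    simp only [eq_intCast] at h2
    rw [← h2]
    congr 1
    ext θ
    congr 1
    unfold P
    simp [Polynomial.eval_prod, Polynomial.map_prod]
  have h2 : Tendsto (fun N => ∫ θ in (-Real.pi)..Real.pi, P N (q t θ) * Complex.exp (-(n * θ) * Complex.I))
      atTop (𝓝 (∫ θ in (-Real.pi)..Real.pi, integrand t n θ)) := by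
    apply intervalIntegral.tendsto_integral_filter_of_dominated_convergence (fun _ => Cb t)
    · apply Eventually.of_forall
      intro N
      apply Continuous.aestronglyMeasurable
      exact (cont_P t N).mul (by fun_prop)
    · apply Eventually.of_forall
      intro N
      apply Eventually.of_forall
      intro θ _
      rw [norm_mul, norm_osc, mul_one]
      exact P_bound ht θ N
    · exact intervalIntegrable_const
    · apply Eventually.of_forall
      intro θ _
      unfold integrand
      exact (Lf_spec ht θ).mul_const _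
  refine tendsto_nhds_unique h2 ?_
  refine tendsto_const_nhds.congr' ?_
  filter_upwards [eventually_ge_atTop n] with N hN
  exact (h1 N hN).symm

end K3h21.PP
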