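import Pool.Agent.K3h21.PP.Alg

/-! Partitions and missing integers. -/

namespace K3h21.PP

open Finset PowerSeries PowerSeries.WithPiTopology

/-- number of missing integers of a partition: the positive integers below the largest part which
are not parts -/
def missing {n : ℕ} (p : n.Partition) : ℕ :=
  ((range p.parts.sup).filter (fun k => 1 ≤ k ∧ k ∉ p.parts)).card

lemma le_sup {n : ℕ} (p : n.Partition) {k : ℕ} (hk : k ∈ p.parts) : k ≤ p.parts.sup :=
  Multiset.le_sup hk

lemma sup_mem {n : ℕ} (p : n.Partition) (h : 0 < p.parts.sup) : p.parts.sup ∈ p.parts := by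
  by_contra hcon
  have : p.parts.sup ≤ p.parts.sup - 1 := by
    rw [Multiset.sup_le]
    intro b hb
    have h1 := le_sup p hb
    have h2 : b ≠ p.parts.sup := fun h => hcon (h ▸ hb)
    omega
  omega

lemma missing_add {n : ℕ} (p : n.Partition) : missing p + p.parts.toFinset.card = p.parts.sup := by
  have h1 : (Icc 1 p.parts.sup) = (range p.parts.sup).filter (fun k => 1 ≤ k ∧ k ∉ p.parts) ∪ p.parts.toFinset := by
    ext k
    simp only [mem_Icc, mem_union, mem_filter, mem_range, Multiset.mem_toFinset]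
    constructor
    · rintro ⟨h1, h2⟩
      by_cases hk : k ∈ p.parts
      · exact Or.inr hk
      · left
        refine ⟨?_, h1, hk⟩
        rcases lt_or_eq_of_le h2 with h3 | h3
        · exact h3
        · exfalso; apply hk; rw [h3]; exact sup_mem p (by omega)
    · rintro (⟨h1, h2, -⟩ | h)
      · exact ⟨h2, h1.le⟩
      · exact ⟨p.parts_pos h, le_sup p h⟩
  have h2 : Disjoint ((range p.parts.sup).filter (fun k => 1 ≤ k ∧ k ∉ p.parts)) p.parts.toFinset := by
    rw [Finset.disjoint_left]
    intro k hk hk2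
    simp only [mem_filter, Multiset.mem_toFinset] at hk hk2
    exact hk.2.2 hk2
  have h3 := congrArg Finset.card h1
  rw [Finset.card_union_of_disjoint h2] at h3
  simp only [Nat.card_Icc, Nat.add_sub_cancel] at h3
  unfold missing
  exact h3.symm

/-- the signed count -/
def sgn (n : ℕ) : ℤ := ∑ p : n.Partition, (-1) ^ missing p

lemma sgn_term {n : ℕ} (p : n.Partition) :
    ((-1 : ℤ)) ^ missing p = (-1) ^ p.parts.sup * (-1) ^ p.parts.toFinset.card := by
  rw [← missing_add p, pow_add, mul_assoc, ← mul_pow]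
  simp

/-- the character -/
def fch (l : ℕ) (i _c : ℕ) : ℤ := if i ≤ l then -1 else 0

/-- its generating function -/
noncomputable def WW (l : ℕ) : ℤ⟦X⟧ := Nat.Partition.genFun (fch l)

lemma coeff_WW (l n : ℕ) : coeff n (WW l) =
    ∑ p : n.Partition, if p.parts.sup ≤ l then (-1 : ℤ) ^ p.parts.toFinset.card else 0 := by
  unfold WW
  rw [Nat.Partition.coeff_genFun]
  apply sum_congr rfl
  intro p _
  rw [Finsupp.prod, Multiset.toFinsupp_support]
  unfold fch
  split_ifs with h
  · rw [prod_congr rfl (g := fun _ => (-1 : ℤ))]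
    · simp
    · intro x hx
      rw [if_pos]
      exact (le_sup p (Multiset.mem_toFinset.1 hx)).trans h
  · push Not at h
    apply prod_eq_zero (i := p.parts.sup)
    · rw [Multiset.mem_toFinset]; exact sup_mem p (by omega)
    · rw [if_neg (by omega)]

lemma coeff_diff (l n : ℕ) : coeff n (WW (l + 1)) - coeff n (WW l) =
    ∑ p : n.Partition, if p.parts.sup = l + 1 then (-1 : ℤ) ^ p.parts.toFinset.card else 0 := by
  rw [coeff_WW, coeff_WW, ← sum_sub_distrib]
  apply sum_congr rfl
  intro p _
  by_cases h : p.parts.sup ≤ l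
  · rw [if_pos (by omega), if_pos h, if_neg (by omega)]; ring
  · by_cases h2 : p.parts.sup = l + 1
    · rw [if_pos (by omega), if_neg h, if_pos h2]; ring
    · rw [if_neg (by omega), if_neg h, if_neg h2]; ring

/-- signed differences -/
noncomputable def TT : ℕ → ℤ⟦X⟧
  | 0 => WW 0
  | l + 1 => (-1) ^ (l + 1) * (WW (l + 1) - WW l)

lemma sup_le_self {n : ℕ} (p : n.Partition) : p.parts.sup ≤ n := by
  rw [Multiset.sup_le]
  intro b hb
  exact p.le_of_mem_parts hb

lemma coeff_TT (l n : ℕ) : coeff n (TT l) =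
    ∑ p : n.Partition, if p.parts.sup = l then (-1 : ℤ) ^ p.parts.sup * (-1) ^ p.parts.toFinset.card else 0 := by
  rcases l with _ | l
  · show coeff n (WW 0) = _
    rw [coeff_WW]
    apply sum_congr rfl
    intro p _
    by_cases h : p.parts.sup = 0
    · rw [if_pos (by omega), if_pos h, h]; simp
    · rw [if_neg (by omega), if_neg h]
  · have e : TT (l + 1) = PowerSeries.C ((-1 : ℤ) ^ (l + 1)) * (WW (l + 1) - WW l) := by
      show (-1) ^ (l + 1) * (WW (l + 1) - WW l) = _
      congr 1
      simp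
    rw [e, coeff_C_mul, map_sub, coeff_diff, mul_sum]
    apply sum_congr rfl
    intro p _
    split_ifs with h
    · rw [h]
    · simp

lemma sgn_eq (n : ℕ) : sgn n = coeff n (∑ l ∈ range (n + 1), TT l) := by
  rw [map_sum]
  simp_rw [coeff_TT]
  rw [sum_comm]
  unfold sgn
  apply sum_congr rfl
  intro p _
  rw [sgn_term, sum_ite_eq, if_pos]
  rw [mem_range]
  have := sup_le_self p
  omega

/-- product formula -/
lemma WW_zero : WW 0 = 1 := by
  ext n
  rw [coeff_WW, coeff_one]
  split_ifs with h
  · subst h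
    rw [Fintype.sum_eq_single default]
    · simp
    · intro p hp; exact absurd (Subsingleton.elim _ _) hp
  · apply sum_eq_zero
    intro p _
    rw [if_neg]
    intro h2
    have h3 : p.parts = 0 := by
      rw [Multiset.eq_zero_iff_forall_notMem]
      intro k hk
      have := le_sup p hk
      have := p.parts_pos hk
      omega
    have := p.parts_sum
    rw [h3] at this
    simp at this
    exact h this.symm

lemma WW_succ (l : ℕ) : (1 - (X : ℤ⟦X⟧) ^ (l + 1)) * WW (l + 1) = (1 - 2 * X ^ (l + 1)) * WW l := by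
  have hdisc : ∀ l, WW l = ∏ i ∈ range l, (1 + (-1 : ℤ⟦X⟧) * (∑' j : ℕ, (X ^ (i + 1)) ^ j) * X ^ (i + 1)) := by
    intro l
    have h := Nat.Partition.hasProd_genFun (fch l)
    have h2 : HasProd (fun i ↦ (1 : ℤ⟦X⟧) + ∑' j, fch l (i + 1) (j + 1) • X ^ ((i + 1) * (j + 1)))
        (∏ i ∈ range l, (1 + ∑' j, fch l (i + 1) (j + 1) • X ^ ((i + 1) * (j + 1)))) := by
      apply hasProd_prod_of_ne_finset_one
      intro i hi
      have hi' : l ≤ i := by simpa using hi
      have : ∀ j, fch l (i + 1) (j + 1) • (X : ℤ⟦X⟧) ^ ((i + 1) * (j + 1)) = 0 := by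
        intro j; unfold fch; rw [if_neg (by omega), zero_smul]
      simp_rw [this]
      simp
    have h3 := h.unique h2
    unfold WW
    rw [h3]
    apply prod_congr rfl
    intro i hi
    have hi' : i < l := by simpa using hi
    congr 1
    have h4 : ∀ j, fch l (i + 1) (j + 1) • (X : ℤ⟦X⟧) ^ ((i + 1) * (j + 1)) = (-1 : ℤ⟦X⟧) * ((X ^ (i + 1)) ^ j * X ^ (i + 1)) := by
      intro j; unfold fch; rw [if_pos (by omega), ← pow_mul, ← pow_add, neg_one_smul, neg_one_mul]
      congr 2
    simp_rw [h4]
    have hs : Summable (fun j : ℕ => ((X : ℤ⟦X⟧) ^ (i + 1)) ^ j) :=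
      summable_pow_of_constantCoeff_eq_zero (by simp)
    rw [Summable.tsum_mul_left _ (hs.mul_right _), Summable.tsum_mul_right _ hs, mul_assoc]
  have hg := tsum_pow_mul_one_sub_of_constantCoeff_eq_zero (f := (X : ℤ⟦X⟧) ^ (l + 1)) (by simp)
  rw [hdisc (l + 1), prod_range_succ, ← hdisc l]
  linear_combination (-(X : ℤ⟦X⟧) ^ (l + 1)) * WW l * hg

end K3h21.PP
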