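import Pool.Agent.K3h21.PP.Comb

/-! The signed count is the coefficient of the product. -/

namespace K3h21.PP

open Finset PowerSeries

/-- one step recursion for `TT` -/
lemma TT_succ (l : ℕ) : TT (l + 1) * (1 - (X : ℤ⟦X⟧) ^ (l + 1)) = (-X + 2 * X ^ (l + 1)) * TT l := by
  have hu : ∀ l : ℕ, (1 - (X : ℤ⟦X⟧) ^ (l + 1)) ≠ 0 := by
    intro l h
    have := congrArg (constantCoeff) h
    simp at this
  have h1 : ∀ l, TT (l + 1) * (1 - (X : ℤ⟦X⟧) ^ (l + 1)) = (-1) ^ l * X ^ (l + 1) * WW l := by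
    intro l
    show (-1) ^ (l + 1) * (WW (l + 1) - WW l) * _ = _
    have := WW_succ l
    linear_combination (-1) ^ (l + 1) * this
  rcases l with _ | l
  · rw [h1 0]
    show _ = _ * WW 0
    rw [WW_zero]; ring
  · apply mul_right_cancel₀ (hu l)
    rw [h1 (l + 1)]
    have h2 := h1 l
    have h3 := WW_succ l
    calc (-1) ^ (l + 1) * X ^ (l + 1 + 1) * WW (l + 1) * (1 - X ^ (l + 1))
        = (-1) ^ (l + 1) * X ^ (l + 1 + 1) * ((1 - X ^ (l + 1)) * WW (l + 1)) := by ring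
      _ = (-X + 2 * X ^ (l + 1 + 1)) * ((-1) ^ l * X ^ (l + 1) * WW l) := by rw [h3]; ring
      _ = _ := by rw [← h2]; ring

lemma TT_dvd (l : ℕ) : (X : ℤ⟦X⟧) ^ l ∣ TT l := by
  induction l with
  | zero => simp
  | succ l ih =>
    obtain ⟨c, hc⟩ := ih
    have h := TT_succ l
    have hu : IsUnit (1 - (X : ℤ⟦X⟧) ^ (l + 1)) := by
      rw [PowerSeries.isUnit_iff_constantCoeff]; simp
    obtain ⟨v, hv⟩ := hu.exists_right_inv
    refine ⟨(-1 + 2 * X ^ l) * c * v, ?_⟩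
    calc TT (l + 1) = TT (l + 1) * ((1 - X ^ (l + 1)) * v) := by rw [hv, mul_one]
      _ = TT (l + 1) * (1 - X ^ (l + 1)) * v := by ring
      _ = X ^ (l + 1) * ((-1 + 2 * X ^ l) * c * v) := by rw [h, hc]; ring

/-- weighted partial sums -/
noncomputable def UU (M K : ℕ) : ℤ⟦X⟧ := ∑ l ∈ range (M + 1), X ^ (K * l) * TT l

lemma UU_step (M K : ℕ) : (X : ℤ⟦X⟧) ^ (M + 1) ∣
    (1 + X ^ (K + 1)) * UU M K - (1 + 2 * X ^ (K + 1)) * UU M (K + 1) := by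
  have e1 : UU M K - UU M (K + 1) = ∑ l ∈ range M, X ^ (K * (l + 1)) * ((-X + 2 * X ^ (l + 1)) * TT l) := by
    unfold UU
    rw [← sum_sub_distrib, sum_range_succ']
    simp only [mul_zero, pow_zero, sub_self, add_zero]
    apply sum_congr rfl
    intro l _
    rw [← TT_succ]
    have : (X : ℤ⟦X⟧) ^ ((K + 1) * (l + 1)) = X ^ (K * (l + 1)) * X ^ (l + 1) := by
      rw [← pow_add]; congr 1; ring
    rw [this]; ring
  have e2 : ∑ l ∈ range M, X ^ (K * (l + 1)) * ((-X + 2 * X ^ (l + 1)) * TT l)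
      = -X ^ (K + 1) * ∑ l ∈ range M, X ^ (K * l) * TT l + 2 * X ^ (K + 1) * ∑ l ∈ range M, X ^ ((K + 1) * l) * TT l := by
    rw [mul_sum, mul_sum, ← sum_add_distrib]
    apply sum_congr rfl
    intro l _
    have h1 : (X : ℤ⟦X⟧) ^ (K * (l + 1)) = X ^ (K * l) * X ^ K := by rw [← pow_add]; congr 1
    have h2 : (X : ℤ⟦X⟧) ^ ((K + 1) * l) = X ^ (K * l) * X ^ l := by rw [← pow_add]; congr 1; ring
    rw [h1, h2, pow_succ (X : ℤ⟦X⟧) K, pow_succ (X : ℤ⟦X⟧) l]; ring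
  have e3 : ∀ K', UU M K' = (∑ l ∈ range M, X ^ (K' * l) * TT l) + X ^ (K' * M) * TT M := by
    intro K'; unfold UU; rw [sum_range_succ]
  obtain ⟨c, hc⟩ := TT_dvd M
  have e4 : (1 + X ^ (K + 1)) * UU M K - (1 + 2 * X ^ (K + 1)) * UU M (K + 1)
      = X ^ (K + 1) * (X ^ (K * M) * TT M) - 2 * X ^ (K + 1) * (X ^ ((K + 1) * M) * TT M) := by
    have h5 := e3 K
    have h6 := e3 (K + 1)
    rw [e2] at e1
    linear_combination e1 + X ^ (K + 1) * h5 - 2 * X ^ (K + 1) * h6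
  rw [e4, hc]
  refine ⟨X ^ K * (X ^ (K * M) * c) - 2 * X ^ K * (X ^ ((K + 1) * M) * c), ?_⟩
  rw [pow_succ (X : ℤ⟦X⟧) K, pow_succ (X : ℤ⟦X⟧) M]; ring

lemma UU_last (M : ℕ) : (X : ℤ⟦X⟧) ^ (M + 1) ∣ UU M M - 1 := by
  unfold UU
  rw [sum_range_succ']
  have h0 : TT 0 = 1 := WW_zero
  simp only [mul_zero, pow_zero, one_mul, h0, add_sub_cancel_right]
  apply dvd_sum
  intro l _
  obtain ⟨c, hc⟩ := TT_dvd (l + 1)
  rw [hc]
  refine ⟨X ^ (M * l) * X ^ l * c, ?_⟩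
  rw [show M * (l + 1) = M * l + M by ring, pow_add, pow_succ (X : ℤ⟦X⟧) l, pow_succ (X : ℤ⟦X⟧) M]; ring

lemma UU_prod (M K : ℕ) : (X : ℤ⟦X⟧) ^ (M + 1) ∣
    (∏ k ∈ range K, (1 + X ^ (k + 1))) * UU M 0 - (∏ k ∈ range K, (1 + 2 * X ^ (k + 1))) * UU M K := by
  induction K with
  | zero => simp
  | succ K ih =>
    rw [prod_range_succ, prod_range_succ]
    have h := UU_step M K
    have e : (∏ k ∈ range K, (1 + (X : ℤ⟦X⟧) ^ (k + 1))) * (1 + X ^ (K + 1)) * UU M 0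
        - (∏ k ∈ range K, (1 + 2 * X ^ (k + 1))) * (1 + 2 * X ^ (K + 1)) * UU M (K + 1)
        = (1 + X ^ (K + 1)) * ((∏ k ∈ range K, (1 + X ^ (k + 1))) * UU M 0 - (∏ k ∈ range K, (1 + 2 * X ^ (k + 1))) * UU M K)
          + (∏ k ∈ range K, (1 + 2 * X ^ (k + 1))) * ((1 + X ^ (K + 1)) * UU M K - (1 + 2 * X ^ (K + 1)) * UU M (K + 1)) := by
      ring
    rw [e]
    exact dvd_add (Dvd.dvd.mul_left ih _) (Dvd.dvd.mul_left h _)

lemma E_dvd (M : ℕ) : (X : ℤ⟦X⟧) ^ (M + 1) ∣ E M (X : ℤ⟦X⟧) - 1 := by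
  have : ∀ K, (X : ℤ⟦X⟧) ^ (M + 1) ∣ (∏ i ∈ range K, (1 - (X : ℤ⟦X⟧) ^ (M + 1 + i))) - 1 := by
    intro K
    induction K with
    | zero => simp
    | succ K ih =>
      rw [prod_range_succ]
      have e : (∏ i ∈ range K, (1 - (X : ℤ⟦X⟧) ^ (M + 1 + i))) * (1 - X ^ (M + 1 + K)) - 1
          = ((∏ i ∈ range K, (1 - (X : ℤ⟦X⟧) ^ (M + 1 + i))) - 1)
            - X ^ (M + 1) * (X ^ K * ∏ i ∈ range K, (1 - (X : ℤ⟦X⟧) ^ (M + 1 + i))) := by
        rw [pow_add]; ring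
      rw [e]
      exact dvd_sub ih (dvd_mul_right _ _)
  exact this M

lemma UU_eq_P (M : ℕ) : (X : ℤ⟦X⟧) ^ (M + 1) ∣ UU M 0 - P M (X : ℤ⟦X⟧) := by
  have h1 := UU_prod M M
  have h2 := UU_last M
  have h3 := E_dvd M
  have h4 := plus_mul_odd M (X : ℤ⟦X⟧)
  have e : UU M 0 - P M (X : ℤ⟦X⟧) =
      (∏ j ∈ range M, (1 - (X : ℤ⟦X⟧) ^ (2 * j + 1))) *
        ((∏ k ∈ range M, (1 + X ^ (k + 1))) * UU M 0 - (∏ k ∈ range M, (1 + 2 * X ^ (k + 1))) * UU M M)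
      + P M (X : ℤ⟦X⟧) * (UU M M - 1) - UU M 0 * (E M (X : ℤ⟦X⟧) - 1) := by
    rw [← h4]
    unfold P
    ring
  rw [e]
  exact dvd_sub (dvd_add (Dvd.dvd.mul_left h1 _) (Dvd.dvd.mul_left h2 _)) (Dvd.dvd.mul_left h3 _)

lemma map_P {R S : Type*} [CommRing R] [CommRing S] (φ : R →+* S) (M : ℕ) (x : R) :
    φ (P M x) = P M (φ x) := by
  unfold P
  rw [map_mul, map_prod, map_prod]
  congr 1
  · apply prod_congr rfl; intro j _
    rw [map_add, map_mul, map_pow, map_one, map_ofNat]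
  · apply prod_congr rfl; intro j _; simp

lemma P_coe (M : ℕ) : P M (X : ℤ⟦X⟧) = ((P M (Polynomial.X : Polynomial ℤ) : Polynomial ℤ) : ℤ⟦X⟧) := by
  have h := map_P (Polynomial.coeToPowerSeries.ringHom (R := ℤ)) M Polynomial.X
  simp only [Polynomial.coeToPowerSeries.ringHom_apply, Polynomial.coe_X] at h
  exact h.symm

/-- the signed count of missing integers is the coefficient of the product -/
theorem sgn_eq_coeff (n : ℕ) : sgn n = (P n (Polynomial.X : Polynomial ℤ)).coeff n := by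
  rw [sgn_eq]
  have h0 : ∑ l ∈ range (n + 1), TT l = UU n 0 := by unfold UU; simp
  rw [h0]
  have h := UU_eq_P n
  rw [PowerSeries.X_pow_dvd_iff] at h
  have h1 := h n (Nat.lt_succ_self n)
  rw [map_sub, P_coe, Polynomial.coeff_coe] at h1
  linarith

end K3h21.PP
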