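import Pool.Agent.K3h21.PP.Digits

/-! The finite computation. -/

namespace K3h21.PP

/-- Kronecker value of the truncated product -/
def val (B : ℕ) (ME rE MO rO : ℕ) : ℕ :=
  Nat.mul (run B 1 (fun _ W => Nat.add 1 (Nat.mul 2 W)) ME rE 1)
    (run B 2 (fun K W => Nat.add 1 (Nat.sub (Nat.shiftLeft 1 K) W)) MO rO 1)

set_option maxRecDepth 100000 in
theorem comp1 : chk 291 16383 35 (val 291 180 94 127 255) = true := by decide +kernel

end K3h21.PP
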