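import Pool.Agent.K3h21.PP.Comp

/-! The second finite computation. -/

namespace K3h21.PP

/-- Kronecker value of the difference -/
def val2 (B N ME rE MO rO : ℕ) : ℕ :=
  Nat.add (run B 1 (fun _ W => Nat.add 1 (Nat.mul 1 W)) ME rE 1)
    (Nat.sub (Nat.shiftLeft 1 (Nat.mul B (Nat.add N 1)))
      (Nat.land (val B ME rE MO rO) (Nat.sub (Nat.shiftLeft 1 (Nat.mul B (Nat.add N 1))) 1)))

set_option maxRecDepth 100000 in
theorem comp2 : chk 371 16383 11 (val2 371 16383 180 94 127 255) = true := by decide +kernel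

end K3h21.PP
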