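import Pool.Agent.K3h21.PP.Main3

/-! Numerical bounds for the constant. -/

namespace K3h21.PP

open Filter Topology MeasureTheory Set

lemma log52_lower : 0.9162 ≤ Real.log (5 / 2) := by
  rw [Real.le_log_iff_exp_le (by norm_num)]
  have h := Real.exp_bound' (x := 0.9162) (by norm_num) (by norm_num) (n := 10) (by norm_num)
  refine h.trans ?_
  simp only [Finset.sum_range_succ, Finset.sum_range_zero, Nat.factorial]
  norm_num

lemma log52_upper : Real.log (5 / 2) ≤ 0.9164 := by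
  rw [Real.log_le_iff_le_exp (by norm_num)]
  have h := Real.sum_le_exp_of_nonneg (x := 0.9164) (by norm_num) 10
  refine le_trans ?_ h
  simp only [Finset.sum_range_succ, Finset.sum_range_zero, Nat.factorial]
  norm_num

lemma artanh_lower {s : ℝ} (h0 : 0 ≤ s) (h1 : s < 1) :
    2 * s + 2 / 3 * s ^ 3 ≤ Real.log (1 + s) - Real.log (1 - s) := by
  have h := Real.hasSum_log_sub_log_of_abs_lt_one (x := s) (by rw [abs_of_nonneg h0]; exact h1)
  have := sum_le_hasSum (Finset.range 2) (fun k _ => by positivity) h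
  simp only [Finset.sum_range_succ, Finset.sum_range_zero] at this
  norm_num at this
  linarith

lemma artanh_upper {s : ℝ} (h0 : 0 ≤ s) (h1 : s ≤ 1 / 5) :
    Real.log (1 + s) - Real.log (1 - s) ≤ 2 * s + 25 / 24 * (2 / 3 * s ^ 3) := by
  have h := Real.hasSum_log_sub_log_of_abs_lt_one (x := s) (by rw [abs_of_nonneg h0]; linarith)
  have h2 := (hasSum_nat_add_iff' 1).2 h
  have h3 : HasSum (fun k : ℕ => 2 / 3 * s ^ 3 * (s ^ 2) ^ k) (2 / 3 * s ^ 3 * (1 - s ^ 2)⁻¹) :=
    (hasSum_geometric_of_lt_one (by positivity) (by nlinarith)).mul_left _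
  have h4 := hasSum_le (fun k => ?_) h2 h3
  · simp only [Finset.sum_range_one] at h4
    norm_num at h4
    have h5 : (1 - s ^ 2)⁻¹ ≤ 25 / 24 := by
      rw [← one_div, div_le_div_iff₀ (by nlinarith) (by norm_num)]; nlinarith
    have h6 : 2 / 3 * s ^ 3 * (1 - s ^ 2)⁻¹ ≤ 2 / 3 * s ^ 3 * (25 / 24) :=
      mul_le_mul_of_nonneg_left h5 (by positivity)
    linarith
  · have e : s ^ (2 * (k + 1) + 1) = s ^ 3 * (s ^ 2) ^ k := by rw [← pow_mul, ← pow_add]; congr 1; ring
    rw [e]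
    have : 2 * (1 / (2 * ((k + 1 : ℕ) : ℝ) + 1)) ≤ 2 / 3 := by
      rw [mul_one_div, div_le_div_iff₀ (by positivity) (by norm_num)]
      push_cast
      have : (0 : ℝ) ≤ k := by positivity
      linarith
    have h7 : 0 ≤ s ^ 3 * (s ^ 2) ^ k := by positivity
    calc _ ≤ 2 / 3 * (s ^ 3 * (s ^ 2) ^ k) := mul_le_mul_of_nonneg_right this h7
      _ = _ := by ring

noncomputable def sv (x : ℝ) : ℝ := Real.exp (-x) / (2 + 3 * Real.exp (-x))

lemma sv_nonneg (x : ℝ) : 0 ≤ sv x := by unfold sv; positivity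

lemma sv_le {x : ℝ} (hx : 0 ≤ x) : sv x ≤ 1 / 5 := by
  unfold sv
  have h1 : Real.exp (-x) ≤ 1 := Real.exp_le_one_iff.2 (by linarith)
  have h2 := Real.exp_pos (-x)
  rw [div_le_div_iff₀ (by positivity) (by norm_num)]
  linarith

lemma h_eq (x : ℝ) : Real.log (1 + 2 * Real.exp (-x)) - Real.log (1 + Real.exp (-x))
    = Real.log (1 + sv x) - Real.log (1 - sv x) := by
  have h2 := Real.exp_pos (-x)
  have e1 : 1 + sv x = 2 * (1 + 2 * Real.exp (-x)) / (2 + 3 * Real.exp (-x)) := by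
    unfold sv; field_simp; ring
  have e2 : 1 - sv x = 2 * (1 + Real.exp (-x)) / (2 + 3 * Real.exp (-x)) := by
    unfold sv; field_simp; ring
  rw [e1, e2, Real.log_div (by positivity) (by positivity), Real.log_div (by positivity) (by positivity),
    Real.log_mul (by norm_num) (by positivity), Real.log_mul (by norm_num) (by positivity)]
  ring

/-- antiderivative -/
noncomputable def GG (l : ℝ) (x : ℝ) : ℝ := -(2 / 3) * Real.log (2 + 3 * Real.exp (-x))
  - l * (2 / 81) * (Real.log (2 + 3 * Real.exp (-x)) + 4 * (2 + 3 * Real.exp (-x))⁻¹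
    - 2 * ((2 + 3 * Real.exp (-x))⁻¹) ^ 2)

lemma GG_deriv (l x : ℝ) : HasDerivAt (GG l) (2 * sv x + l * (2 / 3 * sv x ^ 3)) x := by
  have h2 := Real.exp_pos (-x)
  have hv : (2 + 3 * Real.exp (-x)) ≠ 0 := by positivity
  have e : HasDerivAt (fun x : ℝ => 2 + 3 * Real.exp (-x)) (3 * (-Real.exp (-x))) x := by
    have := ((hasDerivAt_neg x).exp.const_mul 3).const_add 2
    simpa using this
  have a1 := e.log hv
  have a2 := e.inv hv
  have a3 := a2.pow 2
  have := (a1.const_mul (-(2 / 3))).sub (((a1.add (a2.const_mul 4)).sub (a3.const_mul 2)).const_mul (l * (2 / 81)))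
  refine HasDerivAt.congr_deriv this ?_
  unfold sv
  simp only [Pi.inv_apply, Nat.reduceSub, pow_one, Nat.cast_ofNat]
  field_simp
  ring

lemma GG_lim (l : ℝ) : Tendsto (GG l) atTop (𝓝 (-(2 / 3) * Real.log 2 - l * (2 / 81) * (Real.log 2 + 3 / 2))) := by
  have h1 : Tendsto (fun x : ℝ => 2 + 3 * Real.exp (-x)) atTop (𝓝 (2 + 3 * 0)) :=
    (Real.tendsto_exp_neg_atTop_nhds_zero.const_mul 3).const_add 2
  rw [mul_zero, add_zero] at h1
  have h2 := h1.log (by norm_num)
  have h3 := h1.inv₀ (by norm_num)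
  have h4 := h3.pow 2
  have := (h2.const_mul (-(2 / 3))).sub (((h2.add (h3.const_mul 4)).sub (h4.const_mul 2)).const_mul (l * (2 / 81)))
  refine this.trans (le_of_eq ?_)
  congr 1
  ring

lemma GG_zero (l : ℝ) : GG l 0 = -(2 / 3) * Real.log 5 - l * (2 / 81) * (Real.log 5 + 18 / 25) := by
  unfold GG
  rw [neg_zero, Real.exp_zero]
  norm_num
  left; ring

lemma int_GG {l : ℝ} (hl : 0 ≤ l) : IntegrableOn (fun x => 2 * sv x + l * (2 / 3 * sv x ^ 3)) (Ioi 0) ∧
    ∫ x in Ioi (0 : ℝ), (2 * sv x + l * (2 / 3 * sv x ^ 3))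
      = 2 / 3 * Real.log (5 / 2) + l * (2 / 81) * (Real.log (5 / 2) - 39 / 50) := by
  have hd : ∀ x ∈ Ioi (0 : ℝ), HasDerivAt (GG l) (2 * sv x + l * (2 / 3 * sv x ^ 3)) x := fun x _ => GG_deriv l x
  have hpos : ∀ x ∈ Ioi (0 : ℝ), 0 ≤ 2 * sv x + l * (2 / 3 * sv x ^ 3) := fun x _ => by
    have := sv_nonneg x; positivity
  have hc : ContinuousWithinAt (GG l) (Ici 0) 0 := (GG_deriv l 0).continuousAt.continuousWithinAt
  refine ⟨integrableOn_Ioi_deriv_of_nonneg hc hd hpos (GG_lim l), ?_⟩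
  rw [integral_Ioi_of_hasDerivAt_of_nonneg hc hd hpos (GG_lim l), GG_zero, Real.log_div (by norm_num) (by norm_num)]
  ring

lemma h_int : IntegrableOn (fun x : ℝ => Real.log (1 + 2 * Real.exp (-x)) - Real.log (1 + Real.exp (-x))) (Ioi 0) := by
  have h := (int_GG (l := 25 / 24) (by norm_num)).1
  refine Integrable.mono' h ?_ ?_
  · apply Measurable.aestronglyMeasurable; fun_prop
  · rw [ae_restrict_iff' measurableSet_Ioi]
    refine Eventually.of_forall fun x hx => ?_
    rw [h_eq, Real.norm_of_nonneg]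
    · exact artanh_upper (sv_nonneg x) (sv_le (le_of_lt hx))
    · have := artanh_lower (sv_nonneg x) (by have := sv_le (le_of_lt hx); linarith)
      have h3 := sv_nonneg x
      have : 0 ≤ 2 * sv x + 2 / 3 * sv x ^ 3 := by positivity
      linarith

theorem c1_lower : 0.6141 ≤ c1 := by
  have h := int_GG (l := 1) (by norm_num)
  have h2 : ∫ x in Ioi (0 : ℝ), (2 * sv x + 1 * (2 / 3 * sv x ^ 3)) ≤ c1 := by
    unfold c1
    apply setIntegral_mono_on h.1 h_int measurableSet_Ioi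
    intro x hx
    rw [h_eq, one_mul]
    exact artanh_lower (sv_nonneg x) (by have := sv_le (le_of_lt hx); linarith)
  rw [h.2] at h2
  have := log52_lower
  linarith

theorem c1_upper : c1 ≤ 0.6145 := by
  have h := int_GG (l := 25 / 24) (by norm_num)
  have h2 : c1 ≤ ∫ x in Ioi (0 : ℝ), (2 * sv x + 25 / 24 * (2 / 3 * sv x ^ 3)) := by
    unfold c1
    apply setIntegral_mono_on h_int h.1 measurableSet_Ioi
    intro x hx
    rw [h_eq]
    exact artanh_upper (sv_nonneg x) (sv_le (le_of_lt hx))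
  rw [h.2] at h2
  have := log52_upper
  linarith

end K3h21.PP
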