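import Pool.Agent.K3h21.PP.Run

/-! Reading off digits. -/

namespace K3h21.PP

open Finset

lemma sum_lt {B : ℕ} (d : ℕ → ℕ) (hd : ∀ k, d k < 2 ^ B) (n : ℕ) :
    ∑ k ∈ range n, d k * 2 ^ (B * k) < 2 ^ (B * n) := by
  induction n with
  | zero => simp
  | succ n ih =>
    rw [sum_range_succ, mul_add, mul_one, pow_add]
    have h1 : d n * 2 ^ (B * n) + 2 ^ (B * n) ≤ 2 ^ (B * n) * 2 ^ B := by
      have := hd n
      calc d n * 2 ^ (B * n) + 2 ^ (B * n) = 2 ^ (B * n) * (d n + 1) := by ring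
        _ ≤ 2 ^ (B * n) * 2 ^ B := Nat.mul_le_mul_left _ this
    omega

lemma testBit_sum {B : ℕ} (d : ℕ → ℕ) (hd : ∀ k, d k < 2 ^ B) {n k i : ℕ} (hk : k < n) (hi : i < B) :
    (∑ j ∈ range n, d j * 2 ^ (B * j)).testBit (B * k + i) = (d k).testBit i := by
  obtain ⟨l, rfl⟩ := Nat.exists_eq_add_of_lt hk
  have e : ∑ j ∈ range (k + l + 1), d j * 2 ^ (B * j)
      = 2 ^ (B * k) * (2 ^ B * (∑ j ∈ range l, d (k + 1 + j) * 2 ^ (B * j)) + d k)
        + ∑ j ∈ range k, d j * 2 ^ (B * j) := by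
    rw [show k + l + 1 = (k + 1) + l by ring, sum_range_add, sum_range_succ, mul_add, mul_sum, mul_sum]
    have : ∀ j, d (k + 1 + j) * 2 ^ (B * (k + 1 + j)) = 2 ^ (B * k) * (2 ^ B * (d (k + 1 + j) * 2 ^ (B * j))) := by
      intro j
      rw [mul_add, mul_add, mul_one, pow_add, pow_add]; ring
    simp_rw [this]
    ring
  rw [e, Nat.testBit_two_pow_mul_add _ (sum_lt d hd k), if_neg (by omega), Nat.add_sub_cancel_left,
    Nat.testBit_two_pow_mul_add _ (hd k), if_pos hi]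

/-- repunit in base `2^B` -/
def rep (B n : ℕ) : ℕ := Nat.div (Nat.sub (Nat.shiftLeft 1 (Nat.mul B n)) 1) (Nat.sub (Nat.shiftLeft 1 B) 1)

lemma rep_eq {B : ℕ} (hB : 0 < B) (n : ℕ) : rep B n = ∑ j ∈ range n, 2 ^ (B * j) := by
  unfold rep
  have h1 : ∀ a b : ℕ, Nat.shiftLeft a b = a * 2 ^ b := fun a b => Nat.shiftLeft_eq a b
  rw [h1, h1, one_mul, one_mul]
  have h2 : (2 : ℕ) ≤ 2 ^ B := by
    calc 2 = 2 ^ 1 := rfl
      _ ≤ 2 ^ B := Nat.pow_le_pow_right (by norm_num) hB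
  have := Nat.geomSum_eq h2 n
  show (2 ^ (B * n) - 1) / (2 ^ B - 1) = _
  rw [pow_mul, ← this]
  apply sum_congr rfl
  intro j _
  rw [pow_mul]

/-- the test -/
def chk (B N k0 S : ℕ) : Bool :=
  Nat.beq (Nat.land (Nat.land (Nat.add S (Nat.mul (Nat.sub (Nat.shiftLeft 1 (Nat.sub B 1)) 1) (rep B (Nat.add N 1))))
      (Nat.sub (Nat.shiftLeft 1 (Nat.mul B (Nat.add N 1))) 1))
    (Nat.shiftLeft (rep B (Nat.sub (Nat.add N 1) k0)) (Nat.add (Nat.mul B k0) (Nat.sub B 1))))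
    (Nat.shiftLeft (rep B (Nat.sub (Nat.add N 1) k0)) (Nat.add (Nat.mul B k0) (Nat.sub B 1)))

theorem chk_spec {B N k0 S : ℕ} (hB : 2 ≤ B) (a : ℕ → ℤ)
    (hS : (S : ZMod (2 ^ (B * (N + 1)))) = ((∑ k ∈ range (N + 1), a k * 2 ^ (B * k) : ℤ) : ZMod (2 ^ (B * (N + 1)))))
    (ha : ∀ k, k ≤ N → |a k| < 2 ^ (B - 1)) (hk0 : k0 ≤ N + 1) (hc : chk B N k0 S = true) :
    ∀ k, k0 ≤ k → k ≤ N → 0 < a k := by
  have hB0 : 0 < B := by omega
  set H : ℕ := 2 ^ (B - 1) with hH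
  have hH2 : 2 * H = 2 ^ B := by
    rw [hH, ← pow_succ']; congr 1; omega
  have hHpos : 0 < H := by positivity
  have h1 : ∀ a b : ℕ, Nat.shiftLeft a b = a * 2 ^ b := fun a b => Nat.shiftLeft_eq a b
  -- digits
  set d : ℕ → ℕ := fun k => if k ≤ N then (a k + (H - 1)).toNat else 0 with hd
  have hda : ∀ k, k ≤ N → ((d k : ℕ) : ℤ) = a k + (H - 1) := by
    intro k hk
    simp only [hd, if_pos hk]
    have := (abs_lt.1 (ha k hk)).1
    have e : ((2 : ℤ) ^ (B - 1)) = (H : ℤ) := by rw [hH]; push_cast; rfl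
    rw [e] at this
    exact Int.toNat_of_nonneg (by omega)
  have hdlt : ∀ k, d k < 2 ^ B := by
    intro k
    by_cases hk : k ≤ N
    · have h2 := hda k hk
      have := (abs_lt.1 (ha k hk)).2
      have e : ((2 : ℤ) ^ (B - 1)) = (H : ℤ) := by rw [hH]; push_cast; rfl
      rw [e] at this
      omega
    · simp [hd, if_neg hk]
  -- the reduced number
  set S' := (S + (H - 1) * rep B (N + 1)) % 2 ^ (B * (N + 1)) with hS'
  have hS'eq : S' = ∑ k ∈ range (N + 1), d k * 2 ^ (B * k) := by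
    have hlt := sum_lt d hdlt (N + 1)
    rw [hS']
    have hcong : ((S + (H - 1) * rep B (N + 1) : ℕ) : ZMod (2 ^ (B * (N + 1))))
        = ((∑ k ∈ range (N + 1), d k * 2 ^ (B * k) : ℕ) : ZMod (2 ^ (B * (N + 1)))) := by
      rw [Nat.cast_add, hS, rep_eq hB0]
      have e1 : (((H - 1) * ∑ j ∈ range (N + 1), 2 ^ (B * j) : ℕ) : ZMod (2 ^ (B * (N + 1))))
          = (((H - 1 : ℤ) * ∑ j ∈ range (N + 1), 2 ^ (B * j) : ℤ) : ZMod (2 ^ (B * (N + 1)))) := by
        rw [Nat.cast_mul, Nat.cast_sub hHpos]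
        push_cast; rfl
      have e2 : ((∑ k ∈ range (N + 1), d k * 2 ^ (B * k) : ℕ) : ZMod (2 ^ (B * (N + 1))))
          = ((∑ k ∈ range (N + 1), (a k + (H - 1)) * 2 ^ (B * k) : ℤ) : ZMod (2 ^ (B * (N + 1)))) := by
        have : ((∑ k ∈ range (N + 1), d k * 2 ^ (B * k) : ℕ) : ℤ)
            = ∑ k ∈ range (N + 1), (a k + (H - 1)) * 2 ^ (B * k) := by
          push_cast
          apply sum_congr rfl
          intro k hk
          rw [hda k (by simpa [Nat.lt_succ_iff] using hk)]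
        rw [← this]; push_cast; rfl
      rw [e1, e2, ← Int.cast_add]
      congr 1
      rw [mul_sum, ← sum_add_distrib]
      apply sum_congr rfl
      intro k _
      ring
    have h2 := (ZMod.natCast_eq_natCast_iff' _ _ _).1 hcong
    rw [h2, Nat.mod_eq_of_lt hlt]
  -- the mask
  set mk : ℕ → ℕ := fun k => if k0 ≤ k then H else 0 with hmk
  have hmklt : ∀ k, mk k < 2 ^ B := by
    intro k; simp only [hmk]; split_ifs <;> omega
  have hmask : rep B (N + 1 - k0) * 2 ^ (B * k0 + (B - 1)) = ∑ k ∈ range (N + 1), mk k * 2 ^ (B * k) := by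
    rw [rep_eq hB0]
    conv_rhs => rw [show N + 1 = k0 + (N + 1 - k0) by omega, sum_range_add]
    have e1 : ∑ x ∈ range k0, mk x * 2 ^ (B * x) = 0 := by
      apply sum_eq_zero; intro x hx
      simp only [hmk]; rw [if_neg (by simpa using hx), zero_mul]
    rw [e1, zero_add, sum_mul]
    apply sum_congr rfl
    intro j _
    simp only [hmk]
    rw [if_pos (by omega), hH, ← pow_add, ← pow_add]
    congr 1; ring
  have hc' : S' &&& (rep B (N + 1 - k0) * 2 ^ (B * k0 + (B - 1))) = rep B (N + 1 - k0) * 2 ^ (B * k0 + (B - 1)) := by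
    have h3 := Nat.eq_of_beq_eq_true hc
    rw [h1, h1, h1, one_mul, one_mul] at h3
    have h4 : ∀ a b : ℕ, Nat.land a (Nat.sub (2 ^ b) 1) = a % 2 ^ b := fun a b => Nat.and_two_pow_sub_one_eq_mod a b
    rw [h4] at h3
    exact h3
  rw [hmask, hS'eq] at hc'
  intro k hk1 hk2
  have h5 := congrArg (fun n => Nat.testBit n (B * k + (B - 1))) hc'
  simp only [Nat.testBit_and] at h5
  rw [testBit_sum d hdlt (by omega) (by omega), testBit_sum mk hmklt (by omega) (by omega)] at h5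
  have h6 : (mk k).testBit (B - 1) = true := by
    simp only [hmk, if_pos hk1, hH, Nat.testBit_two_pow_self]
  rw [h6, Bool.and_true] at h5
  have h7 : H ≤ d k := by
    by_contra hcon
    push Not at hcon
    rw [Nat.testBit_lt_two_pow hcon] at h5
    exact Bool.false_ne_true h5
  have h8 := hda k hk2
  omega

end K3h21.PP
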