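import Mathlib

/-! Closed form and estimates for the sums `∑ exp(-a j) cos(ψ j)`. -/

namespace K3h21.PP

open Real

/-- closed form of `∑_{j ≥ 1} exp(-a j) cos (ψ j)` -/
noncomputable def S (a ψ : ℝ) : ℝ :=
  Real.sinh a / (4 * Real.sinh (a / 2) ^ 2 + 4 * Real.sin (ψ / 2) ^ 2) - 1 / 2

lemma four_sinh_sq (a : ℝ) : 4 * Real.sinh (a / 2) ^ 2 = 2 * Real.cosh a - 2 := by
  have h1 : Real.cosh a = Real.cosh (a / 2) ^ 2 + Real.sinh (a / 2) ^ 2 := by
    rw [← Real.cosh_two_mul]; ring_nf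
  have h2 := Real.cosh_sq (a / 2)
  rw [h1, h2]; ring

lemma four_sin_sq (a : ℝ) : 4 * Real.sin (a / 2) ^ 2 = 2 - 2 * Real.cos a := by
  have h1 : Real.cos a = 1 - 2 * Real.sin (a / 2) ^ 2 := by
    have := Real.cos_two_mul (a / 2)
    have h2 := Real.sin_sq_add_cos_sq (a / 2)
    rw [show 2 * (a / 2) = a by ring] at this
    rw [this]; linarith
  rw [h1]; ring

lemma hasSum_S {a : ℝ} (ha : 0 < a) (ψ : ℝ) :
    HasSum (fun j : ℕ => Real.exp (-(a * (j + 1))) * Real.cos (ψ * (j + 1))) (S a ψ) := by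
  set w : ℂ := Complex.exp (-a + ψ * Complex.I) with hw
  have hnorm : ‖w‖ = Real.exp (-a) := by
    rw [hw, Complex.norm_exp]; simp
  have hlt : ‖w‖ < 1 := by rw [hnorm]; exact Real.exp_lt_one_iff.2 (by linarith)
  have h1 : HasSum (fun j : ℕ => w * w ^ j) (w * (1 - w)⁻¹) :=
    (hasSum_geometric_of_norm_lt_one hlt).mul_left w
  have h2 := Complex.hasSum_re h1
  have hE : Real.exp (-a) ≠ 0 := (Real.exp_pos _).ne'
  have hre : w.re = Real.exp (-a) * Real.cos ψ := by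
    rw [hw, Complex.exp_re]; simp
  have him : w.im = Real.exp (-a) * Real.sin ψ := by
    rw [hw, Complex.exp_im]; simp
  convert h2 using 1
  · ext j
    rw [← pow_succ', hw, ← Complex.exp_nat_mul, Complex.exp_re]
    congr 1
    · congr 1; simp; ring
    · congr 1; simp; ring
  · unfold S
    rw [four_sinh_sq, four_sin_sq]
    rw [← div_eq_mul_inv, Complex.div_re, Complex.normSq_apply]
    simp only [Complex.sub_re, Complex.sub_im, Complex.one_re, Complex.one_im, hre, him]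
    rw [Real.sinh_eq, Real.cosh_eq]
    have hc : Real.sin ψ ^ 2 = 1 - Real.cos ψ ^ 2 := by
      have := Real.sin_sq_add_cos_sq ψ; linarith
    have hexp : Real.exp a = (Real.exp (-a))⁻¹ := by rw [Real.exp_neg, inv_inv]
    rw [hexp]
    set E := Real.exp (-a) with hEdef
    set c := Real.cos ψ
    set s := Real.sin ψ
    have hE1 : E < 1 := Real.exp_lt_one_iff.2 (by linarith)
    have hE0 : 0 < E := Real.exp_pos _
    have hc1 : c ≤ 1 := Real.cos_le_one ψ
    have hden : 0 < 1 + E ^ 2 - 2 * c * E := by nlinarith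
    have e1 : (1 - E * c) * (1 - E * c) + (0 - E * s) * (0 - E * s) = 1 + E ^ 2 - 2 * c * E := by
      have : E ^ 2 * s ^ 2 = E ^ 2 * (1 - c ^ 2) := by rw [hc]
      nlinarith
    rw [e1]
    have e2 : (E⁻¹ - E) / 2 / (2 * ((E⁻¹ + E) / 2) - 2 + (2 - 2 * c))
        = (1 - E ^ 2) / (2 * (1 + E ^ 2 - 2 * c * E)) := by
      have : (2 * ((E⁻¹ + E) / 2) - 2 + (2 - 2 * c)) = (1 + E ^ 2 - 2 * c * E) / E := by
        field_simp; ring
      rw [this]
      have : (E⁻¹ - E) / 2 = (1 - E ^ 2) / (2 * E) := by field_simp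
      rw [this]
      field_simp
    rw [e2, ← add_div, div_sub_div _ _ (by positivity) (by norm_num), div_eq_div_iff (by positivity)
      (by positivity)]
    have e3 : E * c * (1 - E * c) + E * s * (0 - E * s) = E * c - E ^ 2 := by
      have : E ^ 2 * s ^ 2 = E ^ 2 * (1 - c ^ 2) := by rw [hc]
      nlinarith
    rw [e3]; ring

lemma sinh_le {y : ℝ} (h0 : 0 ≤ y) (h1 : y ≤ 1 / 4) : Real.sinh y ≤ y + y ^ 3 / 5 := by
  have a1 := Real.exp_bound (x := y) (by rw [abs_of_nonneg h0]; linarith) (n := 5) (by norm_num)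
  have a2 := Real.exp_bound (x := -y) (by rw [abs_neg, abs_of_nonneg h0]; linarith) (n := 5) (by norm_num)
  rw [abs_neg, abs_of_nonneg h0] at a2
  rw [abs_of_nonneg h0] at a1
  have b1 := (abs_le.1 a1).2
  have b2 := (abs_le.1 a2).1
  rw [Real.sinh_eq]
  simp only [Finset.sum_range_succ, Finset.sum_range_zero, Nat.factorial] at b1 b2
  norm_num at b1 b2
  have h5 : y ^ 5 ≤ y ^ 3 / 16 := by
    have : y ^ 5 = y ^ 3 * y ^ 2 := by ring
    rw [this]
    have : y ^ 2 ≤ 1 / 16 := by nlinarith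
    have h3 : 0 ≤ y ^ 3 := by positivity
    nlinarith
  have h3 : 0 ≤ y ^ 3 := by positivity
  nlinarith

lemma le_sinh {y : ℝ} (h0 : 0 ≤ y) : y ≤ Real.sinh y := Real.self_le_sinh_iff.2 h0

/-- the main approximation -/
lemma S_approx {a ψ : ℝ} (ha : 0 < a) (ha1 : a ≤ 1 / 4) :
    |S a ψ - (a / (a ^ 2 + 4 * Real.sin (ψ / 2) ^ 2) - 1 / 2)| ≤ a / 5 := by
  set D := 4 * Real.sin (ψ / 2) ^ 2 with hD
  have hD0 : 0 ≤ D := by positivity
  have hs1 := sinh_le ha.le ha1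
  have hs2 := le_sinh ha.le
  have hh1 := sinh_le (y := a / 2) (by linarith) (by linarith)
  have hh2 := le_sinh (y := a / 2) (by linarith)
  set A := 4 * Real.sinh (a / 2) ^ 2 with hA
  have hA1 : a ^ 2 ≤ A := by
    rw [hA]; nlinarith
  have hA2 : A ≤ a ^ 2 * (1 + a ^ 2 / 9) := by
    rw [hA]
    have h3 : Real.sinh (a / 2) ^ 2 ≤ (a / 2 + (a / 2) ^ 3 / 5) ^ 2 :=
      pow_le_pow_left₀ (by linarith) hh1 2
    have h4 : 4 * (a / 2 + (a / 2) ^ 3 / 5) ^ 2 = a ^ 2 * (1 + a ^ 2 / 20) ^ 2 := by ring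
    have h5 : (1 + a ^ 2 / 20) ^ 2 ≤ 1 + a ^ 2 / 9 := by
      have : a ^ 2 ≤ 1 / 16 := by nlinarith
      nlinarith [sq_nonneg a]
    nlinarith [mul_le_mul_of_nonneg_left h5 (sq_nonneg a)]
  unfold S
  rw [← hA, ← hD]
  have ha2 : 0 < a ^ 2 + D := by positivity
  have hAD : 0 < A + D := by nlinarith
  rw [abs_le]
  constructor
  · -- lower bound
    have k1 : a / (A + D) ≤ Real.sinh a / (A + D) := by gcongr
    have k2 : a / (a ^ 2 + D) - a / (A + D) ≤ a / 9 := by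
      rw [div_sub_div _ _ ha2.ne' hAD.ne', div_le_div_iff₀ (by positivity) (by norm_num)]
      have : a * (A + D) - (a ^ 2 + D) * a = a * (A - a ^ 2) := by ring
      rw [this]
      have h6 : A - a ^ 2 ≤ a ^ 2 * (a ^ 2) / 9 := by nlinarith
      have h7 : a ^ 2 * a ^ 2 ≤ (a ^ 2 + D) * (A + D) := by
        apply mul_le_mul <;> nlinarith
      nlinarith
    linarith
  · have k1 : Real.sinh a / (A + D) ≤ Real.sinh a / (a ^ 2 + D) := by
      apply div_le_div_of_nonneg_left (by linarith) ha2 (by linarith)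
    have k2 : Real.sinh a / (a ^ 2 + D) ≤ (a + a ^ 3 / 5) / (a ^ 2 + D) := by gcongr
    have k3 : (a + a ^ 3 / 5) / (a ^ 2 + D) - a / (a ^ 2 + D) ≤ a / 5 := by
      rw [← sub_div, div_le_div_iff₀ ha2 (by norm_num)]
      nlinarith [mul_nonneg ha.le hD0]
    linarith

end K3h21.PP
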