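import Pool.Agent.K3h21.PP.Saddle

/-! Positivity and size of the coefficients for large `n`. -/

namespace K3h21.PP

open Filter Topology MeasureTheory Set

lemma re_int {t : ℝ} (ht : 0 < t) (n : ℕ) (a b : ℝ) :
    IntervalIntegrable (fun θ => (integrand t n θ).re) volume a b ∧
    ∫ θ in a..b, (integrand t n θ).re = (∫ θ in a..b, integrand t n θ).re := by
  have h := integrand_int ht n a b
  constructor
  · exact ⟨h.1.re, h.2.re⟩
  · exact Complex.reCLM.intervalIntegral_comp_comm h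

section
variable {n : ℕ} {t T Λ y : ℝ}

lemma Λ_pos (h : Sad n t T Λ y) : 0 < Λ := by rw [← h.hy]; have := h.y0; positivity

lemma lower_inner (h : Sad n t T Λ y) {η : ℝ} (hη : |η| ≤ 1 / y ^ 3) :
    0.36 * Real.exp (Λ - c0) ≤ (integrand t n (η * t)).re := by
  have hy3 := h.y3
  have hy0 := h.y0
  have hy3' : 0 < y ^ 3 := by positivity
  have h10 : 1 / y ^ 3 ≤ 1 / 10 := one_div_le_one_div_of_le (by norm_num) hy3
  obtain ⟨a, b, ha, hb, hre, -⟩ := integrand_main h (η := η) (by linarith)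
  rw [hre]
  have ht := h.t0
  have ht1 := h.t1
  have ha' := (abs_le.1 ha).1
  have hΛ := Λ_pos h
  have hΛη : Λ * η ^ 2 ≤ 1 := by
    have : η ^ 2 ≤ (1 / y ^ 3) ^ 2 := by rw [← sq_abs]; exact pow_le_pow_left₀ (abs_nonneg _) hη 2
    calc Λ * η ^ 2 ≤ Λ * (1 / y ^ 3) ^ 2 := mul_le_mul_of_nonneg_left this hΛ.le
      _ = 1 := by rw [← h.hy]; field_simp
  have e1 : Λ - 1 ≤ Λ / (1 + η ^ 2) := by
    rw [le_div_iff₀ (by positivity)]
    nlinarith [sq_nonneg η]
  have hphase : |Λ * η ^ 3 / (1 + η ^ 2) + b| ≤ 0.1125 := by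
    refine (abs_add_le _ _).trans ?_
    have : |Λ * η ^ 3 / (1 + η ^ 2)| ≤ 0.1 := by
      rw [abs_div, abs_of_pos (by positivity : (0 : ℝ) < 1 + η ^ 2), div_le_iff₀ (by positivity)]
      have e : |Λ * η ^ 3| = Λ * η ^ 2 * |η| := by
        rw [abs_mul, abs_of_pos hΛ, abs_pow, pow_succ, sq_abs]; ring
      rw [e]
      have : Λ * η ^ 2 * |η| ≤ 1 * (1 / 10) := mul_le_mul hΛη (by linarith) (abs_nonneg _) (by norm_num)
      nlinarith [sq_nonneg η]
    have : |b| ≤ 0.0125 := by linarith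
    linarith
  have hcos : 0.993 ≤ Real.cos (Λ * η ^ 3 / (1 + η ^ 2) + b) := by
    have := Real.one_sub_sq_div_two_le_cos (x := Λ * η ^ 3 / (1 + η ^ 2) + b)
    have h2 : (Λ * η ^ 3 / (1 + η ^ 2) + b) ^ 2 ≤ 0.1125 ^ 2 := by
      rw [← sq_abs]; exact pow_le_pow_left₀ (abs_nonneg _) hphase 2
    norm_num at h2 ⊢
    linarith
  have hexp : 0.363 * Real.exp (Λ - c0) ≤ Real.exp (Λ / (1 + η ^ 2) - c0 + a) := by
    have e2 : Real.exp (Λ - c0) * Real.exp (-1.0125) ≤ Real.exp (Λ / (1 + η ^ 2) - c0 + a) := by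
      rw [← Real.exp_add]; apply Real.exp_le_exp.2; linarith
    have e3 : 0.363 ≤ Real.exp (-1.0125) := by
      have e4 : Real.exp (-1.0125) = Real.exp (-1) * Real.exp (-0.0125) := by
        rw [← Real.exp_add]; norm_num
      have e5 := Real.exp_neg_one_gt_d9
      have e6 := Real.add_one_le_exp (-0.0125 : ℝ)
      rw [e4]
      calc (0.363 : ℝ) ≤ 0.3678 * 0.9875 := by norm_num
        _ ≤ _ := mul_le_mul (by linarith) (by linarith) (by norm_num) (Real.exp_nonneg _)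
    have := Real.exp_pos (Λ - c0)
    nlinarith
  have := Real.exp_pos (Λ - c0)
  calc 0.36 * Real.exp (Λ - c0) ≤ (0.363 * Real.exp (Λ - c0)) * 0.993 := by nlinarith
    _ ≤ _ := mul_le_mul hexp hcos (by norm_num) (Real.exp_nonneg _)

lemma lower_mid (h : Sad n t T Λ y) {η : ℝ} (hη : |η| ≤ 8 / 7 / y ^ 2) :
    0 ≤ (integrand t n (η * t)).re := by
  have hy3 := h.y3
  have hy0 := h.y0
  have hy2 : 2 ≤ y := by
    by_contra hcon
    push Not at hcon
    have : y ^ 3 < 2 ^ 3 := pow_lt_pow_left₀ hcon hy0.le (by norm_num)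
    norm_num at this
    linarith
  have hη2 : |η| ≤ 3 / 4 := by
    refine hη.trans ?_
    rw [div_le_iff₀ (by positivity)]
    nlinarith
  obtain ⟨a, b, ha, hb, hre, -⟩ := integrand_main h hη2
  rw [hre]
  have ht := h.t0
  have ht1 := h.t1
  have hΛ := Λ_pos h
  apply mul_nonneg (Real.exp_nonneg _)
  apply Real.cos_nonneg_of_mem_Icc
  have hphase : |Λ * η ^ 3 / (1 + η ^ 2) + b| ≤ Real.pi / 2 := by
    refine (abs_add_le _ _).trans ?_
    have : |Λ * η ^ 3 / (1 + η ^ 2)| ≤ 512 / 343 := by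
      rw [abs_div, abs_of_pos (by positivity : (0 : ℝ) < 1 + η ^ 2), div_le_iff₀ (by positivity)]
      have e : |Λ * η ^ 3| = Λ * |η| ^ 3 := by
        rw [abs_mul, abs_of_pos hΛ, abs_pow]
      rw [e]
      have e2 : |η| ^ 3 ≤ (8 / 7 / y ^ 2) ^ 3 := pow_le_pow_left₀ (abs_nonneg _) hη 3
      have e3 : Λ * (8 / 7 / y ^ 2) ^ 3 = 512 / 343 := by
        rw [← h.hy]; field_simp; norm_num
      have e4 : Λ * |η| ^ 3 ≤ 512 / 343 := by
        rw [← e3]; exact mul_le_mul_of_nonneg_left e2 hΛ.le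
      nlinarith [sq_nonneg η]
    have hb' : |b| ≤ 0.0125 := by linarith
    have := Real.pi_gt_d2
    linarith
  exact abs_le.1 hphase

lemma upper_outer (h : Sad n t T Λ y) {η : ℝ} (hη : |η| ≤ 3 / 4) (hη2 : 8 / 7 / y ^ 2 ≤ |η|) :
    ‖integrand t n (η * t)‖ ≤ 1.013 * Real.exp (Λ - c0) * Real.exp (-(1024 / 1225 * y ^ 2)) := by
  have hy0 := h.y0
  obtain ⟨a, b, ha, hb, -, hnorm⟩ := integrand_main h hη
  rw [hnorm]
  have hΛ := Λ_pos h
  have h2t := exp_small h.t1
  have ha' := (abs_le.1 ha).2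
  have e1 : Λ / (1 + η ^ 2) ≤ Λ - 1024 / 1225 * y ^ 2 := by
    have h1 : (8 / 7 / y ^ 2) ^ 2 ≤ η ^ 2 := by
      rw [← sq_abs η]; exact pow_le_pow_left₀ (by positivity) hη2 2
    have h2 : η ^ 2 ≤ (3 / 4) ^ 2 := by rw [← sq_abs]; exact pow_le_pow_left₀ (abs_nonneg _) hη 2
    have h3 : Λ * (8 / 7 / y ^ 2) ^ 2 = 64 / 49 * y ^ 2 := by
      rw [← h.hy]; field_simp; norm_num
    have h4 : 64 / 49 * y ^ 2 ≤ Λ * η ^ 2 := by rw [← h3]; exact mul_le_mul_of_nonneg_left h1 hΛ.le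
    have h5 : Λ / (1 + η ^ 2) = Λ - Λ * η ^ 2 / (1 + η ^ 2) := by field_simp; ring
    rw [h5]
    have h6 : 1024 / 1225 * y ^ 2 ≤ Λ * η ^ 2 / (1 + η ^ 2) := by
      rw [le_div_iff₀ (by positivity)]
      have h7 : 1 + η ^ 2 ≤ 25 / 16 := by norm_num at h2 ⊢; linarith
      have h8 : 0 ≤ 1024 / 1225 * y ^ 2 := by positivity
      calc 1024 / 1225 * y ^ 2 * (1 + η ^ 2) ≤ 1024 / 1225 * y ^ 2 * (25 / 16) :=
            mul_le_mul_of_nonneg_left h7 h8
        _ = 64 / 49 * y ^ 2 := by ring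
        _ ≤ _ := h4
    linarith
  calc Real.exp (Λ / (1 + η ^ 2) - c0 + a) ≤ Real.exp (2 * t + (Λ - c0) + (-(1024 / 1225 * y ^ 2))) := by
        apply Real.exp_le_exp.2; linarith
    _ = Real.exp (2 * t) * Real.exp (Λ - c0) * Real.exp (-(1024 / 1225 * y ^ 2)) := by
        rw [Real.exp_add, Real.exp_add]
    _ ≤ _ := by
        apply mul_le_mul_of_nonneg_right _ (Real.exp_nonneg _)
        apply mul_le_mul_of_nonneg_right h2t (Real.exp_nonneg _)

lemma upper_main (h : Sad n t T Λ y) {η : ℝ} (hη : |η| ≤ 3 / 4) :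
    ‖integrand t n (η * t)‖ ≤ 1.013 * Real.exp Λ := by
  obtain ⟨a, b, ha, hb, -, hnorm⟩ := integrand_main h hη
  rw [hnorm]
  have hΛ := Λ_pos h
  have h2t := exp_small h.t1
  have ha' := (abs_le.1 ha).2
  have hc0 := c0_bounds.1
  have e1 : Λ / (1 + η ^ 2) ≤ Λ := div_le_self hΛ.le (by nlinarith [sq_nonneg η])
  calc Real.exp (Λ / (1 + η ^ 2) - c0 + a) ≤ Real.exp (2 * t + Λ) := by
        apply Real.exp_le_exp.2; linarith
    _ = Real.exp (2 * t) * Real.exp Λ := by rw [Real.exp_add]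
    _ ≤ _ := mul_le_mul_of_nonneg_right h2t (Real.exp_nonneg _)

lemma upper_minor (h : Sad n t T Λ y) {θ : ℝ} (hθ : 3 / 4 * t ≤ |θ|) (hθ2 : |θ| ≤ Real.pi) :
    ‖integrand t n θ‖ ≤ Real.exp (5436 / 10000 / t + 5 / 8) := by
  unfold integrand
  rw [norm_mul, norm_osc, mul_one]
  exact minor_arc h.t0 h.t1 hθ hθ2 (Lf_spec h.t0 θ)

end

/-- positivity for large `n` -/
theorem large_pos {n : ℕ} (hn : 16384 ≤ n) {a : ℤ}
    (ha : ∀ N, n ≤ N → (P N (Polynomial.X : Polynomial ℤ)).coeff n = a) : 0 < a := by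
  obtain ⟨t, T, Λ, y, h⟩ := sad_exists hn
  have ht := h.t0
  have hy0 := h.y0
  have hy3 := h.y3
  have hy2 : 2 ≤ y := by
    by_contra hcon
    push Not at hcon
    have : y ^ 3 < 2 ^ 3 := pow_lt_pow_left₀ hcon hy0.le (by norm_num)
    norm_num at this
    linarith
  have hf := coeff_formula ht ha
  set g : ℝ → ℝ := fun θ => (integrand t n θ).re with hg
  have hint : ∀ a b, IntervalIntegrable g volume a b := fun a b => (re_int ht n a b).1
  set A0 := 1 / y ^ 3 * t with hA0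
  set A1 := 8 / 7 / y ^ 2 * t with hA1
  set A2 := 3 / 4 * t with hA2
  set M := Real.exp (5436 / 10000 / t + 5 / 8) with hM
  set Ex := Real.exp (Λ - c0) with hEx
  set K := 1.013 * Ex * Real.exp (-(1024 / 1225 * y ^ 2)) with hK
  have hpi := Real.pi_gt_d2
  have ht1 := h.t1
  have h00 : 0 < A0 := by positivity
  have h01 : A0 ≤ A1 := by
    apply mul_le_mul_of_nonneg_right _ ht.le
    rw [div_le_div_iff₀ (by positivity) (by positivity)]
    nlinarith [pow_pos hy0 2]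
  have h12 : A1 ≤ A2 := by
    apply mul_le_mul_of_nonneg_right _ ht.le
    rw [div_le_iff₀ (by positivity)]
    nlinarith
  have h23 : A2 ≤ Real.pi := by
    have : A2 ≤ 3 / 4 * (1 / 160) := by
      apply mul_le_mul_of_nonneg_left ht1 (by norm_num)
    linarith
  have hηθ : ∀ θ : ℝ, θ / t * t = θ := fun θ => by field_simp
  have habs : ∀ θ : ℝ, |θ / t| = |θ| / t := fun θ => by rw [abs_div, abs_of_pos ht]
  have b0 : ∀ θ, |θ| ≤ A0 → 0.36 * Ex ≤ g θ := by
    intro θ hθ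
    have := lower_inner h (η := θ / t) (by rw [habs, div_le_iff₀ ht]; exact hθ)
    rwa [hηθ] at this
  have b1 : ∀ θ, |θ| ≤ A1 → 0 ≤ g θ := by
    intro θ hθ
    have := lower_mid h (η := θ / t) (by rw [habs, div_le_iff₀ ht]; exact hθ)
    rwa [hηθ] at this
  have b2 : ∀ θ, |θ| ≤ A2 → A1 ≤ |θ| → -K ≤ g θ := by
    intro θ hθ hθ'
    have := upper_outer h (η := θ / t) (by rw [habs, div_le_iff₀ ht]; exact hθ)
      (by rw [habs, le_div_iff₀ ht]; exact hθ')
    rw [hηθ] at this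
    have h2 := (abs_le.1 (Complex.abs_re_le_norm (integrand t n θ))).1
    linarith
  have b3 : ∀ θ, |θ| ≤ Real.pi → A2 ≤ |θ| → -M ≤ g θ := by
    intro θ hθ hθ'
    have := upper_minor h hθ' hθ
    have h2 := (abs_le.1 (Complex.abs_re_le_norm (integrand t n θ))).1
    linarith
  -- the pieces
  have i1 := int_lower (h := g) (a := -Real.pi) (b := -A2) (c := -M) (by linarith) (hint _ _)
    (fun x hx => b3 x (abs_le.2 ⟨hx.1, by linarith [hx.2]⟩) (by rw [abs_of_nonpos (by linarith [hx.2])]; linarith [hx.2]))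
  have i2 := int_lower (h := g) (a := -A2) (b := -A1) (c := -K) (by linarith) (hint _ _)
    (fun x hx => b2 x (abs_le.2 ⟨hx.1, by linarith [hx.2]⟩) (by rw [abs_of_nonpos (by linarith [hx.2])]; linarith [hx.2]))
  have i3 := int_lower (h := g) (a := -A1) (b := -A0) (c := 0) (by linarith) (hint _ _)
    (fun x hx => b1 x (abs_le.2 ⟨hx.1, by linarith [hx.2]⟩))
  have i4 := int_lower (h := g) (a := -A0) (b := A0) (c := 0.36 * Ex) (by linarith) (hint _ _)
    (fun x hx => b0 x (abs_le.2 ⟨hx.1, hx.2⟩))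
  have i5 := int_lower (h := g) (a := A0) (b := A1) (c := 0) (by linarith) (hint _ _)
    (fun x hx => b1 x (abs_le.2 ⟨by linarith [hx.1], hx.2⟩))
  have i6 := int_lower (h := g) (a := A1) (b := A2) (c := -K) (by linarith) (hint _ _)
    (fun x hx => b2 x (abs_le.2 ⟨by linarith [hx.1], hx.2⟩) (by rw [abs_of_nonneg (by linarith [hx.1])]; exact hx.1))
  have i7 := int_lower (h := g) (a := A2) (b := Real.pi) (c := -M) (by linarith) (hint _ _)
    (fun x hx => b3 x (abs_le.2 ⟨by linarith [hx.1], hx.2⟩) (by rw [abs_of_nonneg (by linarith [hx.1])]; exact hx.1))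
  have hsum : ∫ θ in (-Real.pi)..Real.pi, g θ = (∫ θ in (-Real.pi)..(-A2), g θ) + (∫ θ in (-A2)..(-A1), g θ)
      + (∫ θ in (-A1)..(-A0), g θ) + (∫ θ in (-A0)..A0, g θ) + (∫ θ in A0..A1, g θ) + (∫ θ in A1..A2, g θ)
      + (∫ θ in A2..Real.pi, g θ) := by
    rw [intervalIntegral.integral_add_adjacent_intervals (hint _ _) (hint _ _),
      intervalIntegral.integral_add_adjacent_intervals (hint _ _) (hint _ _),
      intervalIntegral.integral_add_adjacent_intervals (hint _ _) (hint _ _),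
      intervalIntegral.integral_add_adjacent_intervals (hint _ _) (hint _ _),
      intervalIntegral.integral_add_adjacent_intervals (hint _ _) (hint _ _),
      intervalIntegral.integral_add_adjacent_intervals (hint _ _) (hint _ _)]
  have hM0 : 0 < M := Real.exp_pos _
  have hEx0 : 0 < Ex := Real.exp_pos _
  have hK0 : 0 ≤ K := by positivity
  have hnA := numA hy0 hy3
  have hnC := numC h
  rw [← hM, ← hEx] at hnC
  have hKt : 2 * (K * A2) ≤ t * (0.34 / y ^ 3) * Ex := by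
    have e1 : 2 * (K * A2) = 1.5195 * Real.exp (-(1024 / 1225 * y ^ 2)) * (t * Ex) := by
      rw [hK, hA2]; ring
    rw [e1]
    have e2 := Real.exp_pos (-(1024 / 1225 * y ^ 2))
    have e3 : 1.5195 * Real.exp (-(1024 / 1225 * y ^ 2)) ≤ 0.34 / y ^ 3 := by linarith
    calc _ ≤ 0.34 / y ^ 3 * (t * Ex) := mul_le_mul_of_nonneg_right e3 (by positivity)
      _ = _ := by ring
  have hpos : 0 < ∫ θ in (-Real.pi)..Real.pi, g θ := by
    rw [hsum]
    have e0 : 0.36 * Ex * (A0 - -A0) = t * (0.72 / y ^ 3) * Ex := by rw [hA0]; ring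
    rw [e0] at i4
    have e4 : t * (0.72 / y ^ 3) * Ex = t * (0.34 / y ^ 3) * Ex + t * (0.38 / y ^ 3) * Ex := by ring
    have e5 : -K * (-A1 - -A2) ≥ -(K * A2) := by
      have : 0 ≤ K * A1 := mul_nonneg hK0 (by linarith)
      linarith
    have e6 : -K * (A2 - A1) ≥ -(K * A2) := by
      have : 0 ≤ K * A1 := mul_nonneg hK0 (by linarith)
      linarith
    have e7 : -M * (-A2 - -Real.pi) ≥ -(Real.pi * M) := by
      have : 0 ≤ M * A2 := mul_nonneg hM0.le (by linarith)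
      linarith
    have e8 : -M * (Real.pi - A2) ≥ -(Real.pi * M) := by
      have : 0 ≤ M * A2 := mul_nonneg hM0.le (by linarith)
      linarith
    linarith
  rw [(re_int ht n _ _).2, hf] at hpos
  have e9 : (2 * (Real.pi : ℂ) * ((a : ℂ) * (Real.exp (-t) : ℂ) ^ n)).re
      = 2 * Real.pi * (a * Real.exp (-t) ^ n) := by
    rw [← Complex.ofReal_re (2 * Real.pi * (a * Real.exp (-t) ^ n))]
    congr 1
    push_cast
    rfl
  rw [e9] at hpos
  have h2 : 0 < (a : ℝ) * Real.exp (-t) ^ n := by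
    by_contra hcon
    push Not at hcon
    have : 2 * Real.pi * (a * Real.exp (-t) ^ n) ≤ 0 :=
      mul_nonpos_of_nonneg_of_nonpos (by positivity) hcon
    linarith
  have h3 : 0 < Real.exp (-t) ^ n := by positivity
  have h4 : (0 : ℝ) < a := by
    by_contra hcon
    push Not at hcon
    have := mul_nonpos_of_nonpos_of_nonneg hcon h3.le
    linarith
  exact_mod_cast h4

end K3h21.PP
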