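import Pool.Agent.K3h21.PP.Alg

/-! The logarithm of the factors in a sector. -/

namespace K3h21.PP

open Filter Topology MeasureTheory Set

/-- logarithm of the factor -/
noncomputable def f (u : ℂ) : ℂ := Complex.log (1 + 2 * Complex.exp (-u)) - Complex.log (1 + Complex.exp (-u))

noncomputable def f' (u : ℂ) : ℂ := -Complex.exp (-u) / ((1 + Complex.exp (-u)) * (1 + 2 * Complex.exp (-u)))

noncomputable def f'' (u : ℂ) : ℂ := Complex.exp (-u) * (1 - 2 * Complex.exp (-u) ^ 2) /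
  ((1 + Complex.exp (-u)) * (1 + 2 * Complex.exp (-u))) ^ 2

/-- the direction -/
noncomputable def cc (η : ℝ) : ℂ := 1 - η * Complex.I

lemma re_w {x η : ℝ} (hx : 0 ≤ x) (hη : |η| ≤ 4 / 5) :
    -(1 / 7) ≤ (Complex.exp (-(x * cc η))).re := by
  have e : (Complex.exp (-(x * cc η))).re = Real.exp (-x) * Real.cos (η * x) := by
    rw [Complex.exp_re]; unfold cc; simp [mul_comm]
  rw [e]
  rcases le_or_gt (|η * x|) (Real.pi / 2) with h | h
  · have : 0 ≤ Real.cos (η * x) := Real.cos_nonneg_of_mem_Icc (abs_le.1 h)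
    have := mul_nonneg (Real.exp_pos (-x)).le this
    linarith
  · rw [abs_mul, abs_of_nonneg hx] at h
    have hpi := Real.pi_gt_d2
    have h1 : |η| * x ≤ 4 / 5 * x := mul_le_mul_of_nonneg_right hη hx
    have hx2 : 1.96 < x := by linarith
    have hexp : Real.exp (-x) ≤ 1 / 7 := by
      rw [Real.exp_neg, ← one_div]
      apply one_div_le_one_div_of_le (by norm_num)
      have h3 : (7 : ℝ) ≤ Real.exp 1.96 := by
        have := Real.exp_one_gt_d9
        have h4 : Real.exp 1.96 = Real.exp 1 ^ 2 * Real.exp (-0.04) := by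
          rw [← Real.exp_nat_mul, ← Real.exp_add]; norm_num
        have h5 := Real.add_one_le_exp (-0.04 : ℝ)
        rw [h4]
        have h6 : (2.718 : ℝ) ^ 2 ≤ Real.exp 1 ^ 2 := pow_le_pow_left₀ (by norm_num) (by linarith) 2
        nlinarith [Real.exp_pos (1 : ℝ)]
      exact h3.trans (Real.exp_le_exp.2 hx2.le)
    have h4 := Real.neg_one_le_cos (η * x)
    nlinarith [Real.exp_pos (-x)]

lemma norm_w (x η : ℝ) : ‖Complex.exp (-(x * cc η))‖ = Real.exp (-x) := by
  rw [Complex.norm_exp]; unfold cc; simp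

lemma norm_ge_of_re {z : ℂ} {r : ℝ} (h : r ≤ z.re) : r ≤ ‖z‖ := h.trans (Complex.re_le_norm z)

lemma den1 {x η : ℝ} (hx : 0 ≤ x) (hη : |η| ≤ 4 / 5) :
    6 / 7 ≤ (1 + Complex.exp (-(x * cc η))).re := by
  have := re_w hx hη
  simp only [Complex.add_re, Complex.one_re]; linarith

lemma den2 {x η : ℝ} (hx : 0 ≤ x) (hη : |η| ≤ 4 / 5) :
    5 / 7 ≤ (1 + 2 * Complex.exp (-(x * cc η))).re := by
  have := re_w hx hη
  have h2 : (2 * Complex.exp (-(x * cc η))).re = 2 * (Complex.exp (-(x * cc η))).re := by simp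
  simp only [Complex.add_re, Complex.one_re, h2]; linarith

lemma slit_of_re {z : ℂ} {r : ℝ} (hr : 0 < r) (h : r ≤ z.re) : z ∈ Complex.slitPlane := by
  left; linarith

lemma hasDerivAt_f {u : ℂ} (h1 : 0 < (1 + Complex.exp (-u)).re) (h2 : 0 < (1 + 2 * Complex.exp (-u)).re) :
    HasDerivAt f (f' u) u := by
  have e : HasDerivAt (fun u : ℂ => Complex.exp (-u)) (-Complex.exp (-u)) u := by
    simpa using (hasDerivAt_neg u).cexp
  have a1 := (e.const_add 1).clog (Or.inl h1)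
  have a2 := ((e.const_mul 2).const_add 1).clog (Or.inl h2)
  have n1 : 1 + Complex.exp (-u) ≠ 0 := by
    intro h; rw [h] at h1; simp at h1
  have n2 : 1 + 2 * Complex.exp (-u) ≠ 0 := by
    intro h; rw [h] at h2; simp at h2
  refine HasDerivAt.congr_deriv (a2.sub a1) ?_
  unfold f'
  field_simp
  ring

lemma hasDerivAt_f' {u : ℂ} (h1 : 0 < (1 + Complex.exp (-u)).re) (h2 : 0 < (1 + 2 * Complex.exp (-u)).re) :
    HasDerivAt f' (f'' u) u := by
  have e : HasDerivAt (fun u : ℂ => Complex.exp (-u)) (-Complex.exp (-u)) u := by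
    simpa using (hasDerivAt_neg u).cexp
  have n1 : 1 + Complex.exp (-u) ≠ 0 := by
    intro h; rw [h] at h1; simp at h1
  have n2 : 1 + 2 * Complex.exp (-u) ≠ 0 := by
    intro h; rw [h] at h2; simp at h2
  have a1 := e.neg.div ((e.const_add 1).mul ((e.const_mul 2).const_add 1)) (mul_ne_zero n1 n2)
  refine HasDerivAt.congr_deriv a1 ?_
  unfold f''
  simp only [Pi.mul_apply, Pi.neg_apply, Pi.add_apply]
  field_simp
  ring

lemma norm_f' {x η : ℝ} (hx : 0 ≤ x) (hη : |η| ≤ 4 / 5) : ‖f' (x * cc η)‖ ≤ 2 * Real.exp (-x) := by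
  unfold f'
  rw [norm_div, norm_mul, norm_neg, norm_w]
  have h1 := norm_ge_of_re (den1 hx hη)
  have h2 := norm_ge_of_re (den2 hx hη)
  have h3 : (6 / 7 : ℝ) * (5 / 7) ≤ ‖1 + Complex.exp (-(x * cc η))‖ * ‖1 + 2 * Complex.exp (-(x * cc η))‖ :=
    mul_le_mul h1 h2 (by norm_num) (norm_nonneg _)
  rw [div_le_iff₀ (by linarith)]
  have := Real.exp_pos (-x)
  nlinarith

lemma norm_f'' {x η : ℝ} (hx : 0 ≤ x) (hη : |η| ≤ 4 / 5) : ‖f'' (x * cc η)‖ ≤ 9 * Real.exp (-x) := by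
  unfold f''
  rw [norm_div, norm_mul, norm_pow, norm_mul, norm_w]
  have h1 := norm_ge_of_re (den1 hx hη)
  have h2 := norm_ge_of_re (den2 hx hη)
  have h3 : (6 / 7 : ℝ) * (5 / 7) ≤ ‖1 + Complex.exp (-(x * cc η))‖ * ‖1 + 2 * Complex.exp (-(x * cc η))‖ :=
    mul_le_mul h1 h2 (by norm_num) (norm_nonneg _)
  have h4 : ((6 / 7 : ℝ) * (5 / 7)) ^ 2 ≤ (‖1 + Complex.exp (-(x * cc η))‖ * ‖1 + 2 * Complex.exp (-(x * cc η))‖) ^ 2 :=
    pow_le_pow_left₀ (by norm_num) h3 2
  have h5 : ‖1 - 2 * Complex.exp (-(x * cc η)) ^ 2‖ ≤ 3 := by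
    refine (norm_sub_le _ _).trans ?_
    rw [norm_mul, norm_pow, norm_w, norm_one]
    have hle : Real.exp (-x) ≤ 1 := Real.exp_le_one_iff.2 (by linarith)
    have := Real.exp_pos (-x)
    have h6 : Real.exp (-x) ^ 2 ≤ 1 := by nlinarith
    norm_num
    linarith
  rw [div_le_iff₀ (by positivity)]
  have := Real.exp_pos (-x)
  calc Real.exp (-x) * ‖1 - 2 * Complex.exp (-(x * cc η)) ^ 2‖ ≤ Real.exp (-x) * 3 :=
        mul_le_mul_of_nonneg_left h5 this.le
    _ ≤ 9 * Real.exp (-x) * ((6 / 7 : ℝ) * (5 / 7)) ^ 2 := by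
        have : (3 : ℝ) ≤ 9 * ((6 / 7 : ℝ) * (5 / 7)) ^ 2 := by norm_num
        nlinarith
    _ ≤ _ := mul_le_mul_of_nonneg_left h4 (by positivity)

lemma norm_log_le {z : ℂ} (hz : -(2 / 7) ≤ z.re) : ‖Complex.log (1 + z)‖ ≤ 7 / 5 * ‖z‖ := by
  have hconv : Convex ℝ {z : ℂ | -(2 / 7) ≤ z.re} := convex_halfSpace_re_ge _
  have h := hconv.norm_image_sub_le_of_norm_hasDerivWithin_le (f := fun z => Complex.log (1 + z))
    (f' := fun z => 1 / (1 + z)) (C := 7 / 5) (x := 0) (y := z) ?_ ?_ ?_ hz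
  · simpa using h
  · intro w hw
    have : 0 < (1 + w).re := by
      simp only [mem_ofPred_eq] at hw
      simp; linarith
    exact (((hasDerivAt_id w).const_add 1).clog (Or.inl this)).hasDerivWithinAt
  · intro w hw
    simp only [mem_ofPred_eq] at hw
    have : 5 / 7 ≤ (1 + w).re := by simp; linarith
    have h2 := norm_ge_of_re this
    rw [norm_div, norm_one, div_le_iff₀ (by linarith)]
    linarith
  · simp; norm_num

lemma norm_f {x η : ℝ} (hx : 0 ≤ x) (hη : |η| ≤ 4 / 5) : ‖f (x * cc η)‖ ≤ 5 * Real.exp (-x) := by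
  unfold f
  have h := re_w hx hη
  have h1 := norm_log_le (z := Complex.exp (-(x * cc η))) (by linarith)
  have h2 := norm_log_le (z := 2 * Complex.exp (-(x * cc η))) (by
    have h2 : (2 * Complex.exp (-(x * cc η))).re = 2 * (Complex.exp (-(x * cc η))).re := by simp
    rw [h2]; linarith)
  rw [norm_w] at h1
  rw [norm_mul, norm_w] at h2
  norm_num at h2
  refine (norm_sub_le _ _).trans ?_
  have := Real.exp_pos (-x)
  linarith

end K3h21.PP
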