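import Pool.Agent.K3h21.PP.Main1

/-! Rotation of the ray of integration. -/

namespace K3h21.PP

open Filter Topology MeasureTheory Set

lemma hf_pos {x η : ℝ} (hx : 0 ≤ x) (hη : |η| ≤ 4 / 5) :
    0 < (1 + Complex.exp (-(x * cc η))).re ∧ 0 < (1 + 2 * Complex.exp (-(x * cc η))).re :=
  ⟨by have := den1 hx hη; linarith, by have := den2 hx hη; linarith⟩

lemma norm_cc {η : ℝ} (hη : |η| ≤ 4 / 5) : ‖cc η‖ ≤ 3 / 2 := by
  have h : ‖cc η‖ ^ 2 = 1 + η ^ 2 := by
    rw [← Complex.normSq_eq_norm_sq, Complex.normSq_apply]; unfold cc; simp; ring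
  have h2 : η ^ 2 ≤ (4 / 5) ^ 2 := by rw [← sq_abs]; exact pow_le_pow_left₀ (abs_nonneg _) hη 2
  nlinarith [norm_nonneg (cc η)]

lemma hasDerivAt_ray {x η : ℝ} (hx : 0 ≤ x) (hη : |η| ≤ 4 / 5) :
    HasDerivAt (fun x : ℝ => f (x * cc η)) (cc η * f' (x * cc η)) x := by
  have h := hf_pos hx hη
  have h1 : HasDerivAt (fun y : ℂ => f (y * cc η)) (f' (x * cc η) * cc η) x := by
    have h2 : HasDerivAt (fun y : ℂ => y * cc η) (cc η) (x : ℂ) := by
      simpa using (hasDerivAt_id (x : ℂ)).mul_const (cc η)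
    exact (hasDerivAt_f h.1 h.2).comp (x : ℂ) h2
  have := h1.comp_ofReal
  rwa [mul_comm (f' _)] at this

lemma hasDerivAt_ray' {x η : ℝ} (hx : 0 ≤ x) (hη : |η| ≤ 4 / 5) :
    HasDerivAt (fun x : ℝ => f' (x * cc η)) (cc η * f'' (x * cc η)) x := by
  have h := hf_pos hx hη
  have h1 : HasDerivAt (fun y : ℂ => f' (y * cc η)) (f'' (x * cc η) * cc η) x := by
    have h2 : HasDerivAt (fun y : ℂ => y * cc η) (cc η) (x : ℂ) := by
      simpa using (hasDerivAt_id (x : ℂ)).mul_const (cc η)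
    exact (hasDerivAt_f' h.1 h.2).comp (x : ℂ) h2
  have := h1.comp_ofReal
  rwa [mul_comm (f'' _)] at this

lemma contOn_f {η : ℝ} (hη : |η| ≤ 4 / 5) : ContinuousOn (fun x : ℝ => f (x * cc η)) (Ici 0) :=
  fun x hx => (hasDerivAt_ray hx hη).continuousAt.continuousWithinAt

lemma contOn_f' {η : ℝ} (hη : |η| ≤ 4 / 5) : ContinuousOn (fun x : ℝ => f' (x * cc η)) (Ici 0) :=
  fun x hx => (hasDerivAt_ray' hx hη).continuousAt.continuousWithinAt

lemma contOn_f'' {η : ℝ} (hη : |η| ≤ 4 / 5) : ContinuousOn (fun x : ℝ => f'' (x * cc η)) (Ici 0) := by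
  unfold f''
  apply ContinuousOn.div
  · fun_prop
  · fun_prop
  · intro x hx
    have h := hf_pos (x := x) (mem_Ici.1 hx) hη
    have n1 : 1 + Complex.exp (-(x * cc η)) ≠ 0 := by
      intro h'; rw [h'] at h; simp at h
    have n2 : 1 + 2 * Complex.exp (-(x * cc η)) ≠ 0 := by
      intro h'; rw [h'] at h; simp at h
    exact pow_ne_zero _ (mul_ne_zero n1 n2)

lemma intOn_f {η : ℝ} (hη : |η| ≤ 4 / 5) : IntegrableOn (fun x : ℝ => f (x * cc η)) (Ioi 0) := by
  refine Integrable.mono' ((integrableOn_exp_neg_Ioi 0).const_mul 5)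
    (((contOn_f hη).mono Ioi_subset_Ici_self).aestronglyMeasurable measurableSet_Ioi) ?_
  rw [ae_restrict_iff' measurableSet_Ioi]
  exact Eventually.of_forall fun x hx => norm_f (le_of_lt hx) hη

/-- derivative in the angle -/
lemma hasDerivAt_angle {x η : ℝ} (hx : 0 ≤ x) (hη : |η| ≤ 4 / 5) :
    HasDerivAt (fun y : ℝ => cc y * f (x * cc y))
      (-Complex.I * (f (x * cc η) + x * (cc η * f' (x * cc η)))) η := by
  have h := hf_pos hx hη
  have e1 : HasDerivAt (fun y : ℂ => 1 - y * Complex.I) (-Complex.I) (η : ℂ) := by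
    have := ((hasDerivAt_id (η : ℂ)).mul_const Complex.I).const_sub 1
    simpa using this
  have e2 : HasDerivAt (fun y : ℂ => (x : ℂ) * (1 - y * Complex.I)) ((x : ℂ) * -Complex.I) (η : ℂ) :=
    e1.const_mul _
  have h' : HasDerivAt f (f' (x * cc η)) ((fun y : ℂ => (x : ℂ) * (1 - y * Complex.I)) (η : ℂ)) :=
    hasDerivAt_f h.1 h.2
  have e3 : HasDerivAt (fun y : ℂ => f ((x : ℂ) * (1 - y * Complex.I)))
      (f' (x * cc η) * (x * -Complex.I)) (η : ℂ) := by
    have := HasDerivAt.comp (η : ℂ) h' e2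
    exact this
  have e4 := (e1.mul e3).comp_ofReal
  refine HasDerivAt.congr_deriv e4 ?_
  unfold cc
  ring

lemma intOn_bound : IntegrableOn (fun x : ℝ => 6 * Real.exp (-(1 / 2) * x)) (Ioi 0) :=
  (exp_neg_integrableOn_Ioi 0 (by norm_num : (0 : ℝ) < 1 / 2)).const_mul 6

lemma angle_bound {x η : ℝ} (hx : 0 ≤ x) (hη : |η| ≤ 4 / 5) :
    ‖-Complex.I * (f (x * cc η) + x * (cc η * f' (x * cc η)))‖ ≤ 6 * Real.exp (-(1 / 2) * x) := by
  rw [norm_mul, norm_neg, Complex.norm_I, one_mul]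
  refine (norm_add_le _ _).trans ?_
  rw [norm_mul, norm_mul, Complex.norm_real, Real.norm_of_nonneg hx]
  have h1 := norm_f hx hη
  have h2 := norm_f' hx hη
  have h3 := norm_cc hη
  have h4 : ‖cc η‖ * ‖f' (x * cc η)‖ ≤ 3 / 2 * (2 * Real.exp (-x)) :=
    mul_le_mul h3 h2 (norm_nonneg _) (by norm_num)
  have h5 : x * (‖cc η‖ * ‖f' (x * cc η)‖) ≤ x * (3 / 2 * (2 * Real.exp (-x))) :=
    mul_le_mul_of_nonneg_left h4 hx
  have h6 : Real.exp (-x) = Real.exp (-(1 / 2) * x) * Real.exp (-(1 / 2) * x) := by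
    rw [← Real.exp_add]; congr 1; ring
  have h7 := Real.add_one_le_exp (1 / 2 * x)
  have h8 : Real.exp (-(1 / 2) * x) * Real.exp (1 / 2 * x) = 1 := by
    rw [← Real.exp_add]; simp
  have h9 := Real.exp_pos (-(1 / 2) * x)
  set y := Real.exp (-(1 / 2) * x)
  have h10 : y * (1 / 2 * x + 1) ≤ 1 :=
    (mul_le_mul_of_nonneg_left h7 h9.le).trans h8.le
  have h11 : 5 * Real.exp (-x) + x * (3 / 2 * (2 * Real.exp (-x))) = y * (6 * (y * (1 / 2 * x + 1)) - y) := by
    rw [h6]; ring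
  have h12 : y * (6 * (y * (1 / 2 * x + 1)) - y) ≤ y * 6 := by
    apply mul_le_mul_of_nonneg_left _ h9.le; linarith
  linarith

lemma deriv_J {η : ℝ} (hη : |η| ≤ 3 / 4) :
    HasDerivAt (fun y : ℝ => ∫ x in Ioi (0 : ℝ), cc y * f (x * cc y)) 0 η := by
  have hη' : |η| ≤ 4 / 5 := by linarith
  have hball : ∀ y ∈ Metric.ball η (1 / 20), |y| ≤ 4 / 5 := by
    intro y hy
    rw [Metric.mem_ball, Real.dist_eq] at hy
    have := abs_add_le (y - η) η
    rw [sub_add_cancel] at this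
    linarith
  have main := hasDerivAt_integral_of_dominated_loc_of_deriv_le
    (μ := volume.restrict (Ioi (0 : ℝ))) (s := Metric.ball η (1 / 20))
    (F := fun (y : ℝ) (x : ℝ) => cc y * f (x * cc y)) (x₀ := η)
    (F' := fun (y : ℝ) (x : ℝ) => -Complex.I * (f (x * cc y) + x * (cc y * f' (x * cc y))))
    (bound := fun x => 6 * Real.exp (-(1 / 2) * x))
    (Metric.ball_mem_nhds _ (by norm_num)) ?_ ?_ ?_ ?_ intOn_bound ?_
  · obtain ⟨h1, h2⟩ := main
    have h3 : (∫ (x : ℝ) in Ioi 0, -Complex.I * (f (x * cc η) + x * (cc η * f' (x * cc η)))) = 0 := by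
      -- the integral of the derivative of x f(x c)
      have hd : ∀ x ∈ Ioi (0 : ℝ), HasDerivAt (fun x : ℝ => -Complex.I * ((x : ℂ) * f (x * cc η)))
          (-Complex.I * (f (x * cc η) + x * (cc η * f' (x * cc η)))) x := by
        intro x hx
        have a1 : HasDerivAt (fun x : ℝ => (x : ℂ)) 1 x := by
          simpa using (hasDerivAt_id x).ofReal_comp
        have := (a1.mul (hasDerivAt_ray (le_of_lt hx) hη')).const_mul (-Complex.I)
        simpa using this
      have hc : ContinuousWithinAt (fun x : ℝ => -Complex.I * ((x : ℂ) * f (x * cc η))) (Ici 0) 0 := by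
        apply ContinuousWithinAt.mul continuousWithinAt_const
        apply ContinuousWithinAt.mul (Complex.continuous_ofReal.continuousWithinAt)
        exact contOn_f hη' 0 (mem_Ici.2 le_rfl)
      have hlim : Tendsto (fun x : ℝ => -Complex.I * ((x : ℂ) * f (x * cc η))) atTop (𝓝 0) := by
        rw [← mul_zero (-Complex.I)]
        apply Tendsto.const_mul
        apply squeeze_zero_norm' (a := fun x : ℝ => 5 * (x ^ 1 * Real.exp (-x)))
        · filter_upwards [eventually_ge_atTop 0] with x hx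
          rw [norm_mul, Complex.norm_real, Real.norm_of_nonneg hx]
          have := norm_f hx hη'
          nlinarith
        · have := (Real.tendsto_pow_mul_exp_neg_atTop_nhds_zero 1).const_mul 5
          simpa using this
      have := integral_Ioi_of_hasDerivAt_of_tendsto hc hd h1 hlim
      rw [this]; simp
    rw [h3] at h2
    exact h2
  · filter_upwards [Metric.ball_mem_nhds η (by norm_num : (0 : ℝ) < 1 / 20)] with y hy
    exact (((contOn_f (hball y hy)).mono Ioi_subset_Ici_self).aestronglyMeasurable measurableSet_Ioi).const_mul _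
  · exact (intOn_f hη').const_mul _
  · apply ContinuousOn.aestronglyMeasurable _ measurableSet_Ioi
    apply ContinuousOn.mul continuousOn_const
    apply ContinuousOn.add ((contOn_f hη').mono Ioi_subset_Ici_self)
    apply ContinuousOn.mul Complex.continuous_ofReal.continuousOn
    exact ContinuousOn.mul continuousOn_const ((contOn_f' hη').mono Ioi_subset_Ici_self)
  · rw [ae_restrict_iff' measurableSet_Ioi]
    exact Eventually.of_forall fun x hx y hy => angle_bound (le_of_lt hx) (hball y hy)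
  · rw [ae_restrict_iff' measurableSet_Ioi]
    exact Eventually.of_forall fun x hx y hy => hasDerivAt_angle (le_of_lt hx) (hball y hy)

/-- the constant -/
noncomputable def c1 : ℝ := ∫ x in Ioi (0 : ℝ), (Real.log (1 + 2 * Real.exp (-x)) - Real.log (1 + Real.exp (-x)))

lemma f_real (x : ℝ) : f (x * cc 0) = ((Real.log (1 + 2 * Real.exp (-x)) - Real.log (1 + Real.exp (-x)) : ℝ) : ℂ) := by
  unfold f cc
  have h1 : (1 : ℂ) + Complex.exp (-(x * (1 - ((0 : ℝ) : ℂ) * Complex.I))) = ((1 + Real.exp (-x) : ℝ) : ℂ) := by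
    push_cast; simp
  have h2 : (1 : ℂ) + 2 * Complex.exp (-(x * (1 - ((0 : ℝ) : ℂ) * Complex.I))) = ((1 + 2 * Real.exp (-x) : ℝ) : ℂ) := by
    push_cast; simp
  rw [h1, h2, ← Complex.ofReal_log (by positivity), ← Complex.ofReal_log (by positivity)]
  push_cast; rfl

lemma J_eq {η : ℝ} (hη : |η| ≤ 3 / 4) : ∫ x in Ioi (0 : ℝ), cc η * f (x * cc η) = c1 := by
  have hconv : Convex ℝ (Icc (-(3 / 4) : ℝ) (3 / 4)) := convex_Icc _ _
  have h := hconv.norm_image_sub_le_of_norm_hasDerivWithin_le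
    (f := fun y : ℝ => ∫ x in Ioi (0 : ℝ), cc y * f (x * cc y))
    (f' := fun _ => (0 : ℂ)) (C := 0) (x := 0) (y := η)
    (fun y hy => (deriv_J (abs_le.2 hy)).hasDerivWithinAt) (fun y _ => by simp)
    (by constructor <;> norm_num) (abs_le.1 hη)
  rw [zero_mul] at h
  have h2 : (∫ x in Ioi (0 : ℝ), cc η * f (x * cc η)) = ∫ x in Ioi (0 : ℝ), cc 0 * f (x * cc 0) := by
    have := norm_le_zero_iff.1 h
    exact sub_eq_zero.1 this
  rw [h2]
  simp_rw [f_real]
  have : cc 0 = 1 := by unfold cc; simp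
  rw [this]
  simp_rw [one_mul]
  exact integral_complex_ofReal

end K3h21.PP
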