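import Pool.Agent.K3h21.PP.Geo
import Pool.Agent.K3h21.PP.Alg

/-! Pointwise bounds for the factors. -/

namespace K3h21.PP

open Real Finset

lemma G_normSq (w : ℂ) (a : ℝ) (ha : a = ‖w‖ ^ 2) :
    (1 - a) * ‖G w‖ ^ 2 = 1 + 3 * a ^ 5 - 4 * a ^ 6
      + 2 * (w.re * (1 - 2 * a - a ^ 4 + 2 * a ^ 5)
        + (w ^ 2).re * (-1 + 2 * a + a ^ 3 - 2 * a ^ 4)
        + (w ^ 3).re * (1 - 2 * a - a ^ 2 + 2 * a ^ 3)
        + (w ^ 4).re * (-1 + 3 * a - 2 * a ^ 2)
        + (w ^ 5).re * (2 - 2 * a)) := by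
  apply Complex.ofReal_injective
  have h1 : ∀ z : ℂ, ((‖z‖ ^ 2 : ℝ) : ℂ) = z * (starRingEnd ℂ) z := by
    intro z; rw [Complex.mul_conj, Complex.normSq_eq_norm_sq]
  have h2 : ∀ z : ℂ, ((z.re : ℝ) : ℂ) = (z + (starRingEnd ℂ) z) / 2 := fun z => Complex.re_eq_add_conj z
  have h3 : (a : ℂ) = w * (starRingEnd ℂ) w := by rw [ha]; exact h1 w
  rw [Complex.ofReal_mul, h1 (G w)]
  simp only [Complex.ofReal_add, Complex.ofReal_mul, Complex.ofReal_sub, Complex.ofReal_one,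
    Complex.ofReal_pow, Complex.ofReal_ofNat, Complex.ofReal_neg, h2, map_pow, h3]
  unfold G
  simp only [map_add, map_sub, map_mul, map_pow, map_one, map_ofNat]
  ring

/-- the basic oscillating term -/
noncomputable def e (t θ : ℝ) (m k : ℕ) (j : ℕ) : ℝ :=
  Real.exp (-((m * t) * (j + 1))) * Real.cos ((k * θ) * (j + 1))

noncomputable def q (t θ : ℝ) : ℂ := Complex.exp (-t + θ * Complex.I)

lemma norm_q (t θ : ℝ) : ‖q t θ‖ = Real.exp (-t) := by
  unfold q; rw [Complex.norm_exp]; simp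

lemma q_pow_re (t θ : ℝ) (j k i : ℕ) :
    Real.exp (-(2 * t * (j + 1))) ^ i * (((q t θ ^ (j + 1)) ^ k).re) = e t θ (2 * i + k) k j := by
  unfold q e
  rw [← Complex.exp_nat_mul, ← Complex.exp_nat_mul, Complex.exp_re, ← Real.exp_nat_mul, ← mul_assoc,
    ← Real.exp_add]
  congr 1
  · congr 1; simp; ring
  · congr 1; simp; ring

lemma e_zero (t θ : ℝ) (j i : ℕ) :
    Real.exp (-(2 * t * (j + 1))) ^ i = e t θ (2 * i) 0 j := by
  have := q_pow_re t θ j 0 i
  simpa using this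

/-- log-free part of the bound for `G` -/
noncomputable def u (t θ : ℝ) (j : ℕ) : ℝ :=
  (3 * e t θ 10 0 j - 4 * e t θ 12 0 j) / 2
  + (e t θ 1 1 j - 2 * e t θ 3 1 j - e t θ 9 1 j + 2 * e t θ 11 1 j)
  + (- e t θ 2 2 j + 2 * e t θ 4 2 j + e t θ 8 2 j - 2 * e t θ 10 2 j)
  + (e t θ 3 3 j - 2 * e t θ 5 3 j - e t θ 7 3 j + 2 * e t θ 9 3 j)
  + (- e t θ 4 4 j + 3 * e t θ 6 4 j - 2 * e t θ 8 4 j)
  + (2 * e t θ 5 5 j - 2 * e t θ 7 5 j)

lemma norm_G_le {t : ℝ} (ht : 0 < t) (θ : ℝ) (j : ℕ) :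
    ‖G (q t θ ^ (j + 1))‖ ≤ Real.exp (-(1 / 2) * Real.log (1 - Real.exp (-(2 * t * (j + 1))))
      + u t θ j) := by
  set w := q t θ ^ (j + 1) with hw
  set a := Real.exp (-(2 * t * (j + 1))) with ha
  have haw : a = ‖w‖ ^ 2 := by
    rw [hw, norm_pow, norm_q, ← Real.exp_nat_mul, ← Real.exp_nat_mul, ha]
    congr 1; push_cast; ring
  have ha1 : a < 1 := by
    rw [ha]; apply Real.exp_lt_one_iff.2
    have : 0 < 2 * t * ((j : ℝ) + 1) := by positivity
    linarith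
  have h := G_normSq w a haw
  have hu : (1 - a) * ‖G w‖ ^ 2 - 1 = 2 * u t θ j := by
    rw [h]
    unfold u
    have r := fun k i => q_pow_re t θ j k i
    rw [← hw, ← ha] at r
    have z := fun i => e_zero t θ j i
    rw [← ha] at z
    have r11 := r 1 0; have r13 := r 1 1; have r19 := r 1 4; have r111 := r 1 5
    have r22 := r 2 0; have r24 := r 2 1; have r28 := r 2 3; have r210 := r 2 4
    have r33 := r 3 0; have r35 := r 3 1; have r37 := r 3 2; have r39 := r 3 3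
    have r44 := r 4 0; have r46 := r 4 1; have r48 := r 4 2
    have r55 := r 5 0; have r57 := r 5 1
    have z5 := z 5; have z6 := z 6
    norm_num at r11 r13 r19 r111 r22 r24 r28 r210 r33 r35 r37 r39 r44 r46 r48 r55 r57 z5 z6
    rw [← r11, ← r13, ← r19, ← r111, ← r22, ← r24, ← r28, ← r210, ← r33, ← r35, ← r37, ← r39,
      ← r44, ← r46, ← r48, ← r55, ← r57, ← z5, ← z6]
    ring
  have hx : (1 - a) * ‖G w‖ ^ 2 ≤ Real.exp (2 * u t θ j) := by
    rw [← hu]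
    have := Real.add_one_le_exp ((1 - a) * ‖G w‖ ^ 2 - 1)
    linarith
  have h1a : 0 < 1 - a := by linarith
  have hsq : ‖G w‖ ^ 2 ≤ (Real.exp (-(1 / 2) * Real.log (1 - a) + u t θ j)) ^ 2 := by
    rw [← Real.exp_nat_mul]
    have : ((2 : ℕ) : ℝ) * (-(1 / 2) * Real.log (1 - a) + u t θ j) = - Real.log (1 - a) + 2 * u t θ j := by
      push_cast; ring
    rw [this, Real.exp_add, Real.exp_neg, Real.exp_log h1a, ← div_eq_inv_mul, le_div_iff₀ h1a]
    linarith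
  exact (abs_le_of_sq_le_sq' hsq (Real.exp_nonneg _)).2

/-- log-free part of the bound for the odd factors -/
noncomputable def v (t θ : ℝ) (i : ℕ) : ℝ :=
  1 / 20 * e t θ 10 0 (2 * i) - 9 / 20 * e t θ 20 0 (2 * i) - e t θ 5 5 (2 * i)
    + 9 / 10 * e t θ 15 5 (2 * i)

lemma norm_odd_le {t : ℝ} (ht : 0 < t) (θ : ℝ) (i : ℕ) :
    ‖1 - (q t θ ^ 5) ^ (2 * i + 1)‖ ≤ Real.exp (-(1 / 2) * Real.log (1 - 9 / 10 *
      Real.exp (-(10 * t * (2 * i + 1)))) + v t θ i) := by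
  set y := (q t θ ^ 5) ^ (2 * i + 1) with hy
  set a := Real.exp (-(10 * t * (2 * i + 1))) with ha
  have hay : a = ‖y‖ ^ 2 := by
    rw [hy, norm_pow, norm_pow, norm_q, ← Real.exp_nat_mul, ← Real.exp_nat_mul, ← Real.exp_nat_mul, ha]
    congr 1; push_cast; ring
  have ha1 : a < 1 := by
    rw [ha]; apply Real.exp_lt_one_iff.2
    have : 0 < 10 * t * (2 * (i : ℝ) + 1) := by positivity
    linarith
  have ha0 : 0 < a := Real.exp_pos _
  have h1 : ‖1 - y‖ ^ 2 = 1 - 2 * y.re + a := by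
    rw [hay, ← Complex.normSq_eq_norm_sq, ← Complex.normSq_eq_norm_sq, Complex.normSq_apply,
      Complex.normSq_apply]
    simp only [Complex.sub_re, Complex.sub_im, Complex.one_re, Complex.one_im]
    ring
  have hu : (1 - 9 / 10 * a) * ‖1 - y‖ ^ 2 - 1 = 2 * v t θ i := by
    rw [h1]
    unfold v
    have r := fun k i' => q_pow_re t θ (2 * i) k i'
    have z := fun i' => e_zero t θ (2 * i) i'
    have hy2 : (q t θ ^ (2 * i + 1)) ^ 5 = y := by rw [hy, ← pow_mul, ← pow_mul, mul_comm]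
    have r55 := r 5 0; have r155 := r 5 5
    have z5 := z 5; have z10 := z 10
    rw [hy2] at r55 r155
    have hA : Real.exp (-(2 * t * (((2 * i : ℕ) : ℝ) + 1))) ^ 5 = a := by
      rw [← Real.exp_nat_mul, ha]; congr 1; push_cast; ring
    have hA2 : Real.exp (-(2 * t * (((2 * i : ℕ) : ℝ) + 1))) ^ 10 = a ^ 2 := by
      rw [← hA, ← pow_mul]
    rw [hA] at r155 z5
    rw [hA2] at z10
    rw [pow_zero, one_mul] at r55
    norm_num at r55 r155 z5 z10
    rw [← r55, ← r155, ← z5, ← z10]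
    ring
  have hx : (1 - 9 / 10 * a) * ‖1 - y‖ ^ 2 ≤ Real.exp (2 * v t θ i) := by
    rw [← hu]
    have := Real.add_one_le_exp ((1 - 9 / 10 * a) * ‖1 - y‖ ^ 2 - 1)
    linarith
  have h1a : 0 < 1 - 9 / 10 * a := by linarith
  have hsq : ‖1 - y‖ ^ 2 ≤ (Real.exp (-(1 / 2) * Real.log (1 - 9 / 10 * a) + v t θ i)) ^ 2 := by
    rw [← Real.exp_nat_mul]
    have : ((2 : ℕ) : ℝ) * (-(1 / 2) * Real.log (1 - 9 / 10 * a) + v t θ i)
        = - Real.log (1 - 9 / 10 * a) + 2 * v t θ i := by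
      push_cast; ring
    rw [this, Real.exp_add, Real.exp_neg, Real.exp_log h1a, ← div_eq_inv_mul, le_div_iff₀ h1a]
    linarith
  exact (abs_le_of_sq_le_sq' hsq (Real.exp_nonneg _)).2

lemma hasSum_e {t : ℝ} (ht : 0 < t) (θ : ℝ) {m : ℕ} (hm : 0 < m) (k : ℕ) :
    HasSum (e t θ m k) (S (m * t) (k * θ)) := by
  have : 0 < (m : ℝ) * t := by positivity
  exact hasSum_S this (k * θ)

lemma hasSum_e_odd {t : ℝ} (ht : 0 < t) (θ : ℝ) {m : ℕ} (hm : 0 < m) (k : ℕ) :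
    HasSum (fun i => e t θ m k (2 * i)) (S (m * t) (k * θ) - S (2 * (m * t)) (2 * (k * θ))) := by
  have hmt : 0 < (m : ℝ) * t := by positivity
  have h1 := hasSum_e ht θ hm k
  have h2 : HasSum (fun i => e t θ m k (2 * i + 1)) (S (2 * (m * t)) (2 * (k * θ))) := by
    have := hasSum_S (a := 2 * (m * t)) (by positivity) (2 * (k * θ))
    convert this using 1
    ext i
    unfold e
    congr 1
    · congr 1; push_cast; ring
    · congr 1; push_cast; ring
  have hs : Summable (fun i => e t θ m k (2 * i)) :=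
    h1.summable.comp_injective (fun a b h => by simpa using h)
  obtain ⟨s, hs⟩ := hs
  have h3 := hs.even_add_odd h2
  have h4 := h3.unique h1
  have : s = S (m * t) (k * θ) - S (2 * (m * t)) (2 * (k * θ)) := by linarith
  rwa [← this]

end K3h21.PP
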