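import Pool.Agent.K3h21.PP.Main2
import Pool.Agent.K3h21.PP.Minor1

/-! Trapezoidal rule and the value of the product on the main arc. -/

namespace K3h21.PP

open Filter Topology MeasureTheory Set Finset

lemma trap {g g' g'' : ℝ → ℂ} {a M : ℝ} (h1 : ∀ s ∈ Set.Icc a (a + 1), HasDerivAt g (g' s) s)
    (h2 : ∀ s ∈ Set.Icc a (a + 1), HasDerivAt g' (g'' s) s)
    (hc : ContinuousOn g'' (Set.Icc a (a + 1))) (hM : ∀ s ∈ Set.Icc a (a + 1), ‖g'' s‖ ≤ M) :
    ‖(1 / 2 : ℂ) * (g a + g (a + 1)) - ∫ s in a..(a + 1), g s‖ ≤ M / 8 := by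
  have hle : a ≤ a + 1 := by linarith
  have huI : Set.uIcc a (a + 1) = Set.Icc a (a + 1) := Set.uIcc_of_le hle
  have hg : ContinuousOn g (Set.Icc a (a + 1)) := fun s hs => (h1 s hs).continuousAt.continuousWithinAt
  have hk : ContinuousOn (fun s : ℝ => ((1 / 2 * (s - a) * (a + 1 - s) : ℝ) : ℂ) * g'' s) (Set.Icc a (a + 1)) := by
    apply ContinuousOn.mul _ hc
    exact (Complex.continuous_ofReal.comp (by fun_prop)).continuousOn
  have hH : ∀ s ∈ Set.uIcc a (a + 1), HasDerivAt (fun s : ℝ => ((1 / 2 * (s - a) * (a + 1 - s) : ℝ) : ℂ) * g' s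
      - ((a + 1 / 2 - s : ℝ) : ℂ) * g s) (((1 / 2 * (s - a) * (a + 1 - s) : ℝ) : ℂ) * g'' s + g s) s := by
    intro s hs
    rw [huI] at hs
    have e1 : HasDerivAt (fun s : ℝ => ((1 / 2 * (s - a) * (a + 1 - s) : ℝ) : ℂ)) ((a + 1 / 2 - s : ℝ) : ℂ) s := by
      have : HasDerivAt (fun s : ℝ => 1 / 2 * (s - a) * (a + 1 - s)) (a + 1 / 2 - s) s := by
        have := (((hasDerivAt_id s).sub_const a).const_mul (1 / 2)).mul ((hasDerivAt_id s).const_sub (a + 1))
        refine HasDerivAt.congr_deriv this ?_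
        simp; ring
      exact this.ofReal_comp
    have e2 : HasDerivAt (fun s : ℝ => ((a + 1 / 2 - s : ℝ) : ℂ)) (-1) s := by
      have : HasDerivAt (fun s : ℝ => a + 1 / 2 - s) (-1) s := by
        simpa using (hasDerivAt_id s).const_sub (a + 1 / 2)
      simpa using this.ofReal_comp
    have := (e1.mul (h2 s hs)).sub (e2.mul (h1 s hs))
    refine HasDerivAt.congr_deriv this ?_
    ring
  have hint1 : IntervalIntegrable (fun s : ℝ => ((1 / 2 * (s - a) * (a + 1 - s) : ℝ) : ℂ) * g'' s) volume a (a + 1) := by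
    apply ContinuousOn.intervalIntegrable; rw [huI]; exact hk
  have hint2 : IntervalIntegrable g volume a (a + 1) := by
    apply ContinuousOn.intervalIntegrable; rw [huI]; exact hg
  have hI := intervalIntegral.integral_eq_sub_of_hasDerivAt hH (hint1.add hint2)
  rw [intervalIntegral.integral_add hint1 hint2] at hI
  have hb : ‖∫ s in a..(a + 1), ((1 / 2 * (s - a) * (a + 1 - s) : ℝ) : ℂ) * g'' s‖ ≤ M / 8 * |a + 1 - a| := by
    apply intervalIntegral.norm_integral_le_of_norm_le_const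
    intro s hs
    rw [Set.uIoc_of_le hle] at hs
    have hs' : s ∈ Set.Icc a (a + 1) := ⟨hs.1.le, hs.2⟩
    rw [norm_mul, Complex.norm_real]
    have h0 : 0 ≤ 1 / 2 * (s - a) * (a + 1 - s) := by
      apply mul_nonneg <;> linarith [hs'.1, hs'.2]
    have h8 : 1 / 2 * (s - a) * (a + 1 - s) ≤ 1 / 8 := by nlinarith [sq_nonneg (s - a - 1 / 2)]
    rw [Real.norm_of_nonneg h0]
    have h9 := hM s hs'
    have hM0 : 0 ≤ M := (norm_nonneg _).trans h9
    calc _ ≤ 1 / 8 * M := mul_le_mul h8 h9 (norm_nonneg _) (by norm_num)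
      _ = M / 8 := by ring
  have hfin : (1 / 2 : ℂ) * (g a + g (a + 1)) - ∫ s in a..(a + 1), g s
      = ∫ s in a..(a + 1), ((1 / 2 * (s - a) * (a + 1 - s) : ℝ) : ℂ) * g'' s := by
    have : ((1 / 2 * (a + 1 - a) * (a + 1 - (a + 1)) : ℝ) : ℂ) = 0 := by simp
    rw [this] at hI
    have h2 : ((1 / 2 * (a - a) * (a + 1 - a) : ℝ) : ℂ) = 0 := by simp
    rw [h2] at hI
    have h3 : ((a + 1 / 2 - (a + 1) : ℝ) : ℂ) = -(1 / 2) := by push_cast; ring
    have h4 : ((a + 1 / 2 - a : ℝ) : ℂ) = 1 / 2 := by push_cast; ring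
    rw [h3, h4] at hI
    linear_combination -hI
  rw [hfin]
  simpa using hb

lemma g_deriv {t η s : ℝ} (ht : 0 < t) (hη : |η| ≤ 4 / 5) (hs : 0 ≤ s) :
    HasDerivAt (fun s : ℝ => f ((t * s : ℝ) * cc η)) (t * cc η * f' ((t * s : ℝ) * cc η)) s := by
  have h := hasDerivAt_ray (x := t * s) (by positivity) hη
  have h2 : HasDerivAt (fun s : ℝ => t * s) t s := by simpa using (hasDerivAt_id s).const_mul t
  have := h.scomp s h2
  refine HasDerivAt.congr_deriv this ?_
  simp; ring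

lemma g_deriv' {t η s : ℝ} (ht : 0 < t) (hη : |η| ≤ 4 / 5) (hs : 0 ≤ s) :
    HasDerivAt (fun s : ℝ => t * cc η * f' ((t * s : ℝ) * cc η))
      ((t * cc η) ^ 2 * f'' ((t * s : ℝ) * cc η)) s := by
  have h := hasDerivAt_ray' (x := t * s) (by positivity) hη
  have h2 : HasDerivAt (fun s : ℝ => t * s) t s := by simpa using (hasDerivAt_id s).const_mul t
  have := (h.scomp s h2).const_mul (t * cc η)
  refine HasDerivAt.congr_deriv this ?_
  simp; ring

lemma normsq_cc (η : ℝ) : ‖cc η‖ ^ 2 = 1 + η ^ 2 := by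
  rw [← Complex.normSq_eq_norm_sq, Complex.normSq_apply]; unfold cc; simp; ring

lemma cc_ne (η : ℝ) : cc η ≠ 0 := by
  intro h
  have := normsq_cc η
  rw [h] at this
  simp at this
  nlinarith [sq_nonneg η]

lemma f_zero : f 0 = ((Real.log (3 / 2) : ℝ) : ℂ) := by
  have := f_real 0
  simp only [Complex.ofReal_zero, zero_mul, neg_zero, Real.exp_zero] at this
  rw [this]
  congr 1
  rw [← Real.log_div (by norm_num) (by norm_num)]
  norm_num

lemma trap_sum {t η : ℝ} (ht : 0 < t) (hη : |η| ≤ 4 / 5) (J : ℕ) :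
    ‖(1 / 2 : ℂ) * f 0 + ∑ j ∈ range J, f ((t * (j + 1) : ℝ) * cc η) - 1 / 2 * f ((t * J : ℝ) * cc η)
      - ∫ s in (0 : ℝ)..J, f ((t * s : ℝ) * cc η)‖ ≤ 9 / 8 * (t * ‖cc η‖) ^ 2 / (1 - Real.exp (-t)) := by
  set g : ℝ → ℂ := fun s => f ((t * s : ℝ) * cc η) with hg
  have hx1 : Real.exp (-t) < 1 := Real.exp_lt_one_iff.2 (by linarith)
  have hx0 := Real.exp_pos (-t)
  have hgc : ContinuousOn g (Set.Ici 0) := fun s hs => (g_deriv ht hη hs).continuousAt.continuousWithinAt
  have hterm : ∀ j : ℕ, ‖(1 / 2 : ℂ) * (g j + g (j + 1)) - ∫ s in (j : ℝ)..(j + 1), g s‖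
      ≤ 9 / 8 * (t * ‖cc η‖) ^ 2 * Real.exp (-t) ^ j := by
    intro j
    have hj : (0 : ℝ) ≤ j := by positivity
    have := trap (g := g) (g' := fun s => t * cc η * f' ((t * s : ℝ) * cc η))
      (g'' := fun s => (t * cc η) ^ 2 * f'' ((t * s : ℝ) * cc η)) (a := j)
      (M := (t * ‖cc η‖) ^ 2 * (9 * Real.exp (-(t * j)))) ?_ ?_ ?_ ?_
    · refine this.trans (le_of_eq ?_)
      rw [← Real.exp_nat_mul]
      have : Real.exp (-(t * j)) = Real.exp ((j : ℝ) * -t) := by congr 1; ring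
      rw [this]; ring
    · intro s hs; exact g_deriv ht hη (hj.trans hs.1)
    · intro s hs; exact g_deriv' ht hη (hj.trans hs.1)
    · apply ContinuousOn.mul continuousOn_const
      have h3 := contOn_f'' hη
      refine h3.comp (f := fun s : ℝ => t * s) (by fun_prop) ?_
      intro s hs
      exact mul_nonneg ht.le (hj.trans hs.1)
    · intro s hs
      have hs0 : 0 ≤ s := hj.trans hs.1
      rw [norm_mul, norm_pow, norm_mul, Complex.norm_real, Real.norm_of_nonneg ht.le]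
      apply mul_le_mul_of_nonneg_left _ (by positivity)
      refine (norm_f'' (x := t * s) (by positivity) hη).trans ?_
      have : Real.exp (-(t * s)) ≤ Real.exp (-(t * j)) := by
        apply Real.exp_le_exp.2
        have := mul_le_mul_of_nonneg_left hs.1 ht.le
        linarith
      linarith
  have hsum : (1 / 2 : ℂ) * f 0 + ∑ j ∈ range J, f ((t * (j + 1) : ℝ) * cc η) - 1 / 2 * f ((t * J : ℝ) * cc η)
      - ∫ s in (0 : ℝ)..J, f ((t * s : ℝ) * cc η)
      = ∑ j ∈ range J, ((1 / 2 : ℂ) * (g j + g (j + 1)) - ∫ s in (j : ℝ)..(j + 1), g s) := by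
    induction J with
    | zero => simp
    | succ J ih =>
      rw [sum_range_succ, sum_range_succ, ← ih]
      have hadd : (∫ s in (0 : ℝ)..J, g s) + (∫ s in (J : ℝ)..(J + 1), g s) = ∫ s in (0 : ℝ)..(J + 1), g s := by
        have hJ : (0 : ℝ) ≤ J := by positivity
        apply intervalIntegral.integral_add_adjacent_intervals
        · apply ContinuousOn.intervalIntegrable
          rw [Set.uIcc_of_le hJ]
          exact hgc.mono (fun s hs => hs.1)
        · apply ContinuousOn.intervalIntegrable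
          rw [Set.uIcc_of_le (by linarith)]
          exact hgc.mono (fun s hs => hJ.trans hs.1)
      push_cast
      simp only [hg] at hadd ⊢
      push_cast at hadd ⊢
      rw [← hadd]
      ring
  rw [hsum]
  refine (norm_sum_le _ _).trans ((sum_le_sum (fun j _ => hterm j)).trans ?_)
  rw [← mul_sum, div_eq_mul_inv]
  apply mul_le_mul_of_nonneg_left _ (by positivity)
  have := (summable_geometric_of_lt_one hx0.le hx1).sum_le_tsum (range J) (fun i _ => by positivity)
  rwa [tsum_geometric_of_lt_one hx0.le hx1] at this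

lemma integral_ray {t η : ℝ} (ht : 0 < t) (hη : |η| ≤ 3 / 4) :
    ∫ s in Set.Ioi (0 : ℝ), f ((t * s : ℝ) * cc η) = c1 / (t * cc η) := by
  have h1 := MeasureTheory.integral_comp_mul_left_Ioi (fun x : ℝ => f (x * cc η)) 0 ht
  rw [mul_zero] at h1
  have h2 := J_eq hη
  rw [integral_const_mul] at h2
  rw [h1, ← h2]
  have h3 := cc_ne η
  have h4 : (t : ℂ) ≠ 0 := by exact_mod_cast ht.ne'
  rw [Complex.real_smul]
  generalize (∫ x in Set.Ioi (0 : ℝ), f (x * cc η)) = I0
  push_cast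
  field_simp

/-- error bound -/
theorem main_sum {t η : ℝ} (ht : 0 < t) (ht1 : t ≤ 1 / 160) (hη : |η| ≤ 3 / 4) :
    ∃ S : ℂ, Tendsto (fun J : ℕ => ∑ j ∈ range J, f ((t * (j + 1) : ℝ) * cc η)) atTop (𝓝 S) ∧
      ‖S - (c1 / (t * cc η) - ((1 / 2 * Real.log (3 / 2) : ℝ) : ℂ))‖ ≤ 2 * t := by
  have hη' : |η| ≤ 4 / 5 := by linarith
  have hx1 : Real.exp (-t) < 1 := Real.exp_lt_one_iff.2 (by linarith)
  have hx0 := Real.exp_pos (-t)
  have hsummable : Summable (fun j : ℕ => f ((t * (j + 1) : ℝ) * cc η)) := by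
    refine Summable.of_norm_bounded (g := fun j : ℕ => 5 * (Real.exp (-t) * Real.exp (-t) ^ j)) ?_ ?_
    · exact ((summable_geometric_of_lt_one hx0.le hx1).mul_left _).mul_left _
    · intro j
      refine (norm_f (x := t * (j + 1)) (by positivity) hη').trans (le_of_eq ?_)
      rw [← pow_succ', ← Real.exp_nat_mul]
      congr 2; push_cast; ring
  refine ⟨_, hsummable.hasSum.tendsto_sum_nat, ?_⟩
  set S := ∑' j : ℕ, f ((t * (j + 1) : ℝ) * cc η)
  have hT : Tendsto (fun J : ℕ => (1 / 2 : ℂ) * f 0 + ∑ j ∈ range J, f ((t * (j + 1) : ℝ) * cc η)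
      - 1 / 2 * f ((t * J : ℝ) * cc η) - ∫ s in (0 : ℝ)..J, f ((t * s : ℝ) * cc η)) atTop
      (𝓝 ((1 / 2 : ℂ) * f 0 + S - 1 / 2 * 0 - c1 / (t * cc η))) := by
    apply Tendsto.sub
    · apply Tendsto.sub
      · exact tendsto_const_nhds.add hsummable.hasSum.tendsto_sum_nat
      · apply Tendsto.const_mul
        apply squeeze_zero_norm (a := fun J : ℕ => 5 * Real.exp (-t) ^ J)
        · intro J
          refine (norm_f (x := t * J) (by positivity) hη').trans (le_of_eq ?_)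
          rw [← Real.exp_nat_mul]
          congr 2; ring
        · simpa using (tendsto_pow_atTop_nhds_zero_of_lt_one hx0.le hx1).const_mul 5
    · rw [← integral_ray ht hη]
      refine intervalIntegral_tendsto_integral_Ioi 0 ?_ tendsto_natCast_atTop_atTop
      have h5 := intOn_f hη'
      have h6 := (integrableOn_Ioi_comp_mul_left_iff (fun x : ℝ => f (x * cc η)) 0 ht).2 (by simpa using h5)
      exact h6
  have hle := le_of_tendsto' hT.norm (fun J => trap_sum ht hη' J)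
  have e1 : (1 / 2 : ℂ) * f 0 + S - 1 / 2 * 0 - c1 / (t * cc η)
      = S - (c1 / (t * cc η) - ((1 / 2 * Real.log (3 / 2) : ℝ) : ℂ)) := by
    rw [f_zero]; push_cast; ring
  rw [e1] at hle
  refine hle.trans ?_
  have h1 : 1 / (1 - Real.exp (-t)) ≤ (1 + t) / t := by
    rw [div_le_div_iff₀ (by linarith) ht]
    have h3 := Real.add_one_le_exp t
    have h4 : Real.exp (-t) * Real.exp t = 1 := by rw [← Real.exp_add]; simp
    nlinarith
  have h2 : ‖cc η‖ ^ 2 ≤ 25 / 16 := by
    rw [normsq_cc]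
    have : η ^ 2 ≤ (3 / 4) ^ 2 := by rw [← sq_abs]; exact pow_le_pow_left₀ (abs_nonneg _) hη 2
    linarith
  calc 9 / 8 * (t * ‖cc η‖) ^ 2 / (1 - Real.exp (-t))
      = 9 / 8 * t ^ 2 * ‖cc η‖ ^ 2 * (1 / (1 - Real.exp (-t))) := by ring
    _ ≤ 9 / 8 * t ^ 2 * (25 / 16) * ((1 + t) / t) := by
        apply mul_le_mul _ h1 (by positivity) (by positivity)
        apply mul_le_mul_of_nonneg_left h2 (by positivity)
    _ = 225 / 128 * t * (1 + t) := by field_simp; ring
    _ ≤ 2 * t := by nlinarith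

end K3h21.PP
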