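import Pool.Agent.K3h21.PP.Minor1

/-! Global bound for the limit of the products on the circle. -/

namespace K3h21.PP

open Real Finset Filter Topology

lemma log_sum_le {γ : ℝ} (hγ0 : 0 ≤ γ) (hγ1 : γ ≤ 1) {κ Λ : ℝ}
    (hΛ : HasSum (fun m : ℕ => γ ^ (m + 1) / ((m : ℝ) + 1) ^ 2) Λ) (N : ℕ) (y : ℕ → ℝ)
    (hy0 : ∀ i, 0 < y i) (hy1 : ∀ i, y i < 1)
    (hy : ∀ m : ℕ, ∑ i ∈ range N, y i ^ (m + 1) ≤ κ / (m + 1)) :
    ∑ i ∈ range N, -Real.log (1 - γ * y i) ≤ κ * Λ := by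
  have h1 : ∀ i ∈ range N, HasSum (fun m : ℕ => (γ * y i) ^ (m + 1) / ((m : ℝ) + 1))
      (-Real.log (1 - γ * y i)) := by
    intro i _
    apply Real.hasSum_pow_div_log_of_abs_lt_one
    rw [abs_of_nonneg (mul_nonneg hγ0 (hy0 i).le)]
    nlinarith [hy0 i, hy1 i]
  have h2 := hasSum_sum h1
  refine hasSum_le ?_ h2 (hΛ.mul_left κ)
  intro m
  have hm : (0 : ℝ) < m + 1 := by positivity
  have : ∑ i ∈ range N, (γ * y i) ^ (m + 1) / ((m : ℝ) + 1)
      = γ ^ (m + 1) / (m + 1) * ∑ i ∈ range N, y i ^ (m + 1) := by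
    rw [mul_sum]; apply sum_congr rfl; intro i _; rw [mul_pow]; ring
  rw [this]
  calc γ ^ (m + 1) / ((m : ℝ) + 1) * ∑ i ∈ range N, y i ^ (m + 1)
      ≤ γ ^ (m + 1) / ((m : ℝ) + 1) * (κ / (m + 1)) := by
        apply mul_le_mul_of_nonneg_left (hy m) (by positivity)
    _ = κ * (γ ^ (m + 1) / ((m : ℝ) + 1) ^ 2) := by field_simp

lemma exp_geo_le {s : ℝ} (hs : 0 < s) : Real.exp (-s) / (1 - Real.exp (-s)) ≤ 1 / s := by
  have h1 : Real.exp (-s) < 1 := Real.exp_lt_one_iff.2 (by linarith)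
  have h2 := Real.add_one_le_exp s
  have h3 : Real.exp (-s) * Real.exp s = 1 := by rw [← Real.exp_add]; simp
  rw [div_le_div_iff₀ (by linarith) hs]
  have h4 := Real.exp_pos (-s)
  nlinarith

lemma exp_geo_odd_le {s : ℝ} (hs : 0 < s) :
    Real.exp (-s) / (1 - Real.exp (-s) ^ 2) ≤ 1 / (2 * s) := by
  have h1 : Real.exp (-s) < 1 := Real.exp_lt_one_iff.2 (by linarith)
  have h2 := le_sinh hs.le
  rw [Real.sinh_eq] at h2
  have h3 : Real.exp (-s) * Real.exp s = 1 := by rw [← Real.exp_add]; simp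
  have h4 := Real.exp_pos (-s)
  rw [div_le_div_iff₀ (by nlinarith) (by linarith)]
  nlinarith

lemma zeta_two_shift : HasSum (fun m : ℕ => (1 : ℝ) ^ (m + 1) / ((m : ℝ) + 1) ^ 2) (π ^ 2 / 6) := by
  have h := (hasSum_nat_add_iff' 1).2 hasSum_zeta_two
  simp at h
  simpa using h

lemma log_even (t : ℝ) (ht : 0 < t) (N : ℕ) :
    ∑ j ∈ range N, -(1 / 2) * Real.log (1 - Real.exp (-(2 * t * (j + 1)))) ≤ π ^ 2 / (24 * t) := by
  have h := log_sum_le (γ := 1) (κ := 1 / (2 * t)) zero_le_one le_rfl zeta_two_shift N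
    (fun j => Real.exp (-(2 * t * (j + 1)))) (fun i => Real.exp_pos _)
    (fun i => Real.exp_lt_one_iff.2 (by
      have : 0 < 2 * t * ((i : ℝ) + 1) := by positivity
      linarith)) ?_
  · simp only [one_mul] at h
    rw [← mul_sum]
    rw [sum_neg_distrib] at h
    have h2 : 1 / (2 * t) * (π ^ 2 / 6) = 2 * (π ^ 2 / (24 * t)) := by field_simp; norm_num
    rw [h2] at h
    linarith
  · intro m
    have hm : (0 : ℝ) < m + 1 := by positivity
    set x := Real.exp (-(2 * t * (m + 1))) with hx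
    have hx0 : 0 < x := Real.exp_pos _
    have hx1 : x < 1 := Real.exp_lt_one_iff.2 (by
      have : 0 < 2 * t * ((m : ℝ) + 1) := by positivity
      linarith)
    have h1 : ∀ i : ℕ, Real.exp (-(2 * t * (i + 1))) ^ (m + 1) = x * x ^ i := by
      intro i
      rw [← pow_succ', hx, ← Real.exp_nat_mul, ← Real.exp_nat_mul]
      congr 1; push_cast; ring
    simp_rw [h1]
    rw [← mul_sum]
    have h2 := (summable_geometric_of_lt_one hx0.le hx1).sum_le_tsum (range N) (fun i _ => by positivity)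
    rw [tsum_geometric_of_lt_one hx0.le hx1] at h2
    have h3 := exp_geo_le (s := 2 * t * (m + 1)) (by positivity)
    rw [← hx] at h3
    calc x * ∑ i ∈ range N, x ^ i ≤ x * (1 - x)⁻¹ := mul_le_mul_of_nonneg_left h2 hx0.le
      _ = x / (1 - x) := by rw [div_eq_mul_inv]
      _ ≤ 1 / (2 * t * (m + 1)) := h3
      _ = 1 / (2 * t) / (m + 1) := by rw [div_div]

lemma li_bound : ∃ Λ : ℝ, HasSum (fun m : ℕ => (9 / 10 : ℝ) ^ (m + 1) / ((m : ℝ) + 1) ^ 2) Λ ∧
    Λ ≤ 131 / 100 := by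
  have hs : Summable (fun m : ℕ => (9 / 10 : ℝ) ^ (m + 1) / ((m : ℝ) + 1) ^ 2) := by
    refine Summable.of_nonneg_of_le (fun m => by positivity) (fun m => ?_)
      ((summable_geometric_of_lt_one (by norm_num) (by norm_num : (9 / 10 : ℝ) < 1)).mul_left (9 / 10))
    rw [pow_succ']
    apply div_le_self (by positivity)
    have : (0 : ℝ) ≤ m := by positivity
    nlinarith
  refine ⟨_, hs.hasSum, ?_⟩
  rw [← hs.sum_add_tsum_nat_add 20]
  have h2 : ∑' m : ℕ, (9 / 10 : ℝ) ^ (m + 20 + 1) / (((m + 20 : ℕ) : ℝ) + 1) ^ 2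
      ≤ ∑' m : ℕ, (9 / 10 : ℝ) ^ 21 / 441 * (9 / 10) ^ m := by
    apply Summable.tsum_le_tsum
    · intro m
      have h3 : (9 / 10 : ℝ) ^ (m + 20 + 1) = (9 / 10) ^ 21 * (9 / 10) ^ m := by
        rw [← pow_add]; congr 1; ring
      rw [h3, div_mul_eq_mul_div]
      apply div_le_div_of_nonneg_left (by positivity) (by norm_num)
      push_cast
      have : (0 : ℝ) ≤ m := by positivity
      nlinarith
    · exact (summable_nat_add_iff 20).2 hs
    · exact (summable_geometric_of_lt_one (by norm_num) (by norm_num)).mul_left _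
  rw [tsum_mul_left, tsum_geometric_of_lt_one (by norm_num) (by norm_num)] at h2
  refine (add_le_add_right h2 _).trans ?_
  simp only [sum_range_succ, sum_range_zero]
  norm_num

lemma log_odd (t : ℝ) (ht : 0 < t) (N : ℕ) :
    ∑ i ∈ range N, -(1 / 2) * Real.log (1 - 9 / 10 * Real.exp (-(10 * t * (2 * i + 1))))
      ≤ 131 / (4000 * t) := by
  obtain ⟨Λ, hΛ, hΛ1⟩ := li_bound
  have h := log_sum_le (γ := 9 / 10) (κ := 1 / (20 * t)) (by norm_num) (by norm_num) hΛ N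
    (fun i => Real.exp (-(10 * t * (2 * i + 1)))) (fun i => Real.exp_pos _)
    (fun i => Real.exp_lt_one_iff.2 (by
      have : 0 < 10 * t * (2 * (i : ℝ) + 1) := by positivity
      linarith)) ?_
  · rw [← mul_sum]
    rw [sum_neg_distrib] at h
    have h2 : 1 / (20 * t) * Λ ≤ 2 * (131 / (4000 * t)) := by
      have : 2 * (131 / (4000 * t)) = 1 / (20 * t) * (131 / 100) := by field_simp; norm_num
      rw [this]
      apply mul_le_mul_of_nonneg_left hΛ1 (by positivity)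
    linarith
  · intro m
    have hm : (0 : ℝ) < m + 1 := by positivity
    set x := Real.exp (-(10 * t * (m + 1))) with hx
    have hx0 : 0 < x := Real.exp_pos _
    have hx1 : x < 1 := Real.exp_lt_one_iff.2 (by
      have : 0 < 10 * t * ((m : ℝ) + 1) := by positivity
      linarith)
    have hxx0 : 0 ≤ x ^ 2 := by positivity
    have hxx1 : x ^ 2 < 1 := by nlinarith
    have h1 : ∀ i : ℕ, Real.exp (-(10 * t * (2 * i + 1))) ^ (m + 1) = x * (x ^ 2) ^ i := by
      intro i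
      rw [← pow_mul, ← pow_succ', hx, ← Real.exp_nat_mul, ← Real.exp_nat_mul]
      congr 1; push_cast; ring
    simp_rw [h1]
    rw [← mul_sum]
    have h2 := (summable_geometric_of_lt_one hxx0 hxx1).sum_le_tsum (range N) (fun i _ => by positivity)
    rw [tsum_geometric_of_lt_one hxx0 hxx1] at h2
    have h3 := exp_geo_odd_le (s := 10 * t * (m + 1)) (by positivity)
    rw [← hx] at h3
    calc x * ∑ i ∈ range N, (x ^ 2) ^ i ≤ x * (1 - x ^ 2)⁻¹ := mul_le_mul_of_nonneg_left h2 hx0.le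
      _ = x / (1 - x ^ 2) := by rw [div_eq_mul_inv]
      _ ≤ 1 / (2 * (10 * t * (m + 1))) := h3
      _ = 1 / (20 * t) / (m + 1) := by rw [div_div]; congr 1; ring

/-- value of `∑ u` -/
noncomputable def U (t θ : ℝ) : ℝ :=
  (3 * S (10 * t) (0 * θ) - 4 * S (12 * t) (0 * θ)) / 2
  + (S (1 * t) (1 * θ) - 2 * S (3 * t) (1 * θ) - S (9 * t) (1 * θ) + 2 * S (11 * t) (1 * θ))
  + (- S (2 * t) (2 * θ) + 2 * S (4 * t) (2 * θ) + S (8 * t) (2 * θ) - 2 * S (10 * t) (2 * θ))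
  + (S (3 * t) (3 * θ) - 2 * S (5 * t) (3 * θ) - S (7 * t) (3 * θ) + 2 * S (9 * t) (3 * θ))
  + (- S (4 * t) (4 * θ) + 3 * S (6 * t) (4 * θ) - 2 * S (8 * t) (4 * θ))
  + (2 * S (5 * t) (5 * θ) - 2 * S (7 * t) (5 * θ))

/-- value of `∑ v` -/
noncomputable def V (t θ : ℝ) : ℝ :=
  1 / 20 * (S (10 * t) (0 * θ) - S (20 * t) (0 * θ)) - 9 / 20 * (S (20 * t) (0 * θ) - S (40 * t) (0 * θ))
  - (S (5 * t) (5 * θ) - S (10 * t) (10 * θ))
  + 9 / 10 * (S (15 * t) (5 * θ) - S (30 * t) (10 * θ))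

lemma hasSum_u {t : ℝ} (ht : 0 < t) (θ : ℝ) : HasSum (u t θ) (U t θ) := by
  have h := fun (m k : ℕ) (hm : 0 < m) => hasSum_e ht θ hm k
  have z1 := h 10 0 (by norm_num); have z2 := h 12 0 (by norm_num)
  have a1 := h 1 1 (by norm_num); have a2 := h 3 1 (by norm_num)
  have a3 := h 9 1 (by norm_num); have a4 := h 11 1 (by norm_num)
  have b1 := h 2 2 (by norm_num); have b2 := h 4 2 (by norm_num)
  have b3 := h 8 2 (by norm_num); have b4 := h 10 2 (by norm_num)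
  have c1 := h 3 3 (by norm_num); have c2 := h 5 3 (by norm_num)
  have c3 := h 7 3 (by norm_num); have c4 := h 9 3 (by norm_num)
  have d1 := h 4 4 (by norm_num); have d2 := h 6 4 (by norm_num)
  have d3 := h 8 4 (by norm_num)
  have f1 := h 5 5 (by norm_num); have f2 := h 7 5 (by norm_num)
  push_cast at z1 z2 a1 a2 a3 a4 b1 b2 b3 b4 c1 c2 c3 c4 d1 d2 d3 f1 f2
  unfold U
  exact (((((((z1.mul_left 3).sub (z2.mul_left 4)).div_const 2).add
    (((a1.sub (a2.mul_left 2)).sub a3).add (a4.mul_left 2))).add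
    (((b1.neg.add (b2.mul_left 2)).add b3).sub (b4.mul_left 2))).add
    (((c1.sub (c2.mul_left 2)).sub c3).add (c4.mul_left 2))).add
    ((d1.neg.add (d2.mul_left 3)).sub (d3.mul_left 2))).add
    ((f1.mul_left 2).sub (f2.mul_left 2))

lemma hasSum_v {t : ℝ} (ht : 0 < t) (θ : ℝ) : HasSum (v t θ) (V t θ) := by
  have h := fun (m k : ℕ) (hm : 0 < m) => hasSum_e_odd ht θ hm k
  have z1 := h 10 0 (by norm_num); have z2 := h 20 0 (by norm_num)
  have f1 := h 5 5 (by norm_num); have f2 := h 15 5 (by norm_num)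
  have e1 : ∀ a b : ℝ, S (2 * (a * t)) (2 * (b * θ)) = S ((2 * a) * t) ((2 * b) * θ) := by
    intro a b; rw [mul_assoc, mul_assoc]
  simp only [e1] at z1 z2 f1 f2
  push_cast at z1 z2 f1 f2
  norm_num at z1 z2 f1 f2
  have := (((z1.mul_left (1 / 20)).sub (z2.mul_left (9 / 20))).sub f1).add (f2.mul_left (9 / 10))
  have hV : V t θ = 1 / 20 * (S (10 * t) 0 - S (20 * t) 0) - 9 / 20 * (S (20 * t) 0 - S (40 * t) 0) -
      (S (5 * t) (5 * θ) - S (10 * t) (10 * θ)) + 9 / 10 * (S (15 * t) (5 * θ) - S (30 * t) (10 * θ)) := by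
    unfold V; simp
  rw [hV]
  exact this

theorem limit_bound {t θ : ℝ} (ht : 0 < t) {L : ℂ}
    (hL : Tendsto (fun N => P N (q t θ)) atTop (𝓝 L)) :
    ‖L‖ ≤ Real.exp (π ^ 2 / (24 * t) + 131 / (4000 * t) + U t θ + V t θ) := by
  have hq : ‖q t θ‖ < 1 := by rw [norm_q]; exact Real.exp_lt_one_iff.2 (by linarith)
  have hq5 : ‖q t θ ^ 5‖ < 1 := by rw [norm_pow]; exact pow_lt_one₀ (norm_nonneg _) hq (by norm_num)
  have hE := E_tendsto hq
  have hE5 := E_tendsto hq5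
  have h1 : ∀ N, ‖P N (q t θ)‖ * ‖E N (q t θ ^ 5)‖ ≤
      Real.exp (π ^ 2 / (24 * t) + 131 / (4000 * t) + ∑ j ∈ range N, u t θ j
        + ∑ i ∈ range N, v t θ i) * ‖E N (q t θ)‖ := by
    intro N
    rw [← norm_mul, P_mul_E, norm_mul]
    apply mul_le_mul_of_nonneg_right _ (norm_nonneg _)
    rw [norm_mul, norm_prod, norm_prod]
    have k1 : ∏ j ∈ range N, ‖G (q t θ ^ (j + 1))‖ ≤ ∏ j ∈ range N, Real.exp (-(1 / 2) *
        Real.log (1 - Real.exp (-(2 * t * (j + 1)))) + u t θ j) :=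
      prod_le_prod (fun _ _ => norm_nonneg _) (fun j _ => norm_G_le ht θ j)
    have k2 : ∏ j ∈ range N, ‖1 - (q t θ ^ 5) ^ (2 * j + 1)‖ ≤ ∏ j ∈ range N, Real.exp (-(1 / 2) *
        Real.log (1 - 9 / 10 * Real.exp (-(10 * t * (2 * j + 1)))) + v t θ j) :=
      prod_le_prod (fun _ _ => norm_nonneg _) (fun j _ => norm_odd_le ht θ j)
    refine (mul_le_mul k1 k2 (prod_nonneg (fun _ _ => norm_nonneg _))
      (prod_nonneg (fun _ _ => Real.exp_nonneg _))).trans ?_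
    rw [← Real.exp_sum, ← Real.exp_sum, ← Real.exp_add, Real.exp_le_exp, sum_add_distrib,
      sum_add_distrib]
    have l1 := log_even t ht N
    have l2 := log_odd t ht N
    linarith
  have h2 : Tendsto (fun N => ‖P N (q t θ)‖ * ‖E N (q t θ ^ 5)‖) atTop (𝓝 (‖L‖ * ‖(1 : ℂ)‖)) :=
    hL.norm.mul hE5.norm
  have h3 : Tendsto (fun N => Real.exp (π ^ 2 / (24 * t) + 131 / (4000 * t) + ∑ j ∈ range N, u t θ j
        + ∑ i ∈ range N, v t θ i) * ‖E N (q t θ)‖) atTop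
      (𝓝 (Real.exp (π ^ 2 / (24 * t) + 131 / (4000 * t) + U t θ + V t θ) * ‖(1 : ℂ)‖)) := by
    apply Tendsto.mul _ hE.norm
    apply (Real.continuous_exp.tendsto _).comp
    exact ((tendsto_const_nhds.add (hasSum_u ht θ).tendsto_sum_nat).add
      (hasSum_v ht θ).tendsto_sum_nat)
  have := le_of_tendsto_of_tendsto' h2 h3 h1
  simpa using this

end K3h21.PP
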