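import Pool.Agent.K3h21.PP.Minor2

/-! Rational majorant of the exponent. -/

namespace K3h21.PP

open Real Finset Filter Topology

noncomputable def fr (x m : ℝ) : ℝ := m / (m ^ 2 + x)

noncomputable def X (t θ k : ℝ) : ℝ := 4 * Real.sin (k * θ / 2) ^ 2 / t ^ 2

lemma X_nonneg (t θ k : ℝ) : 0 ≤ X t θ k := by unfold X; positivity

lemma S_app {t θ m k : ℝ} (ht : 0 < t) (hm : 0 < m) (h : m * t ≤ 1 / 4) :
    |S (m * t) (k * θ) - (1 / t * fr (X t θ k) m - 1 / 2)| ≤ m * t / 5 := by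
  have h1 := S_approx (a := m * t) (ψ := k * θ) (by positivity) h
  have h2 : m * t / ((m * t) ^ 2 + 4 * Real.sin (k * θ / 2) ^ 2) = 1 / t * fr (X t θ k) m := by
    unfold fr X
    have : 0 < (m * t) ^ 2 + 4 * Real.sin (k * θ / 2) ^ 2 := by positivity
    have h3 : m ^ 2 + 4 * Real.sin (k * θ / 2) ^ 2 / t ^ 2
        = ((m * t) ^ 2 + 4 * Real.sin (k * θ / 2) ^ 2) / t ^ 2 := by field_simp
    rw [h3]
    field_simp
  rwa [h2] at h1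

noncomputable def R1 (x : ℝ) : ℝ := fr x 1 - 2 * fr x 3 - fr x 9 + 2 * fr x 11
noncomputable def R2 (x : ℝ) : ℝ := - fr x 2 + 2 * fr x 4 + fr x 8 - 2 * fr x 10
noncomputable def R3 (x : ℝ) : ℝ := fr x 3 - 2 * fr x 5 - fr x 7 + 2 * fr x 9
noncomputable def R4 (x : ℝ) : ℝ := - fr x 4 + 3 * fr x 6 - 2 * fr x 8
noncomputable def R5 (x : ℝ) : ℝ := fr x 5 - 2 * fr x 7 + 9 / 10 * fr x 15
noncomputable def R10 (x : ℝ) : ℝ := fr x 10 - 9 / 10 * fr x 30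

/-- the total -/
noncomputable def W (t θ : ℝ) : ℝ :=
  R1 (X t θ 1) + R2 (X t θ 2) + R3 (X t θ 3) + R4 (X t θ 4) + R5 (X t θ 5) + R10 (X t θ 10)

lemma X_zero (t θ : ℝ) : X t θ 0 = 0 := by unfold X; simp

lemma UV_le {t : ℝ} (ht : 0 < t) (ht1 : t ≤ 1 / 160) (θ : ℝ) :
    U t θ + V t θ ≤ 1 / t * W t θ + 1 / t * (-(1 / 60) - 7 / 800) + 1 / 4 + 60 * t := by
  have s := fun (m k : ℝ) (hm : 0 < m) (h : m ≤ 40) => S_app (θ := θ) (k := k) ht hm (by nlinarith)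
  have z10 := abs_le.1 (s 10 0 (by norm_num) (by norm_num))
  have z12 := abs_le.1 (s 12 0 (by norm_num) (by norm_num))
  have z20 := abs_le.1 (s 20 0 (by norm_num) (by norm_num))
  have z40 := abs_le.1 (s 40 0 (by norm_num) (by norm_num))
  have a1 := abs_le.1 (s 1 1 (by norm_num) (by norm_num))
  have a2 := abs_le.1 (s 3 1 (by norm_num) (by norm_num))
  have a3 := abs_le.1 (s 9 1 (by norm_num) (by norm_num))
  have a4 := abs_le.1 (s 11 1 (by norm_num) (by norm_num))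
  have b1 := abs_le.1 (s 2 2 (by norm_num) (by norm_num))
  have b2 := abs_le.1 (s 4 2 (by norm_num) (by norm_num))
  have b3 := abs_le.1 (s 8 2 (by norm_num) (by norm_num))
  have b4 := abs_le.1 (s 10 2 (by norm_num) (by norm_num))
  have c1 := abs_le.1 (s 3 3 (by norm_num) (by norm_num))
  have c2 := abs_le.1 (s 5 3 (by norm_num) (by norm_num))
  have c3 := abs_le.1 (s 7 3 (by norm_num) (by norm_num))
  have c4 := abs_le.1 (s 9 3 (by norm_num) (by norm_num))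
  have d1 := abs_le.1 (s 4 4 (by norm_num) (by norm_num))
  have d2 := abs_le.1 (s 6 4 (by norm_num) (by norm_num))
  have d3 := abs_le.1 (s 8 4 (by norm_num) (by norm_num))
  have f1 := abs_le.1 (s 5 5 (by norm_num) (by norm_num))
  have f2 := abs_le.1 (s 7 5 (by norm_num) (by norm_num))
  have f3 := abs_le.1 (s 15 5 (by norm_num) (by norm_num))
  have g1 := abs_le.1 (s 10 10 (by norm_num) (by norm_num))
  have g2 := abs_le.1 (s 30 10 (by norm_num) (by norm_num))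
  have w0 : ∀ m : ℝ, 0 < m → fr (X t θ 0) m = 1 / m := by
    intro m hm; rw [X_zero]; unfold fr; field_simp; ring
  rw [w0 10 (by norm_num)] at z10
  rw [w0 12 (by norm_num)] at z12
  rw [w0 20 (by norm_num)] at z20
  rw [w0 40 (by norm_num)] at z40
  clear s w0
  unfold U V W R1 R2 R3 R4 R5 R10
  generalize 1 / t = T at *
  obtain ⟨z10l, z10u⟩ := z10
  obtain ⟨z12l, z12u⟩ := z12
  obtain ⟨z20l, z20u⟩ := z20
  obtain ⟨z40l, z40u⟩ := z40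
  obtain ⟨a1l, a1u⟩ := a1
  obtain ⟨a2l, a2u⟩ := a2
  obtain ⟨a3l, a3u⟩ := a3
  obtain ⟨a4l, a4u⟩ := a4
  obtain ⟨b1l, b1u⟩ := b1
  obtain ⟨b2l, b2u⟩ := b2
  obtain ⟨b3l, b3u⟩ := b3
  obtain ⟨b4l, b4u⟩ := b4
  obtain ⟨c1l, c1u⟩ := c1
  obtain ⟨c2l, c2u⟩ := c2
  obtain ⟨c3l, c3u⟩ := c3
  obtain ⟨c4l, c4u⟩ := c4
  obtain ⟨d1l, d1u⟩ := d1
  obtain ⟨d2l, d2u⟩ := d2
  obtain ⟨d3l, d3u⟩ := d3
  obtain ⟨f1l, f1u⟩ := f1
  obtain ⟨f2l, f2u⟩ := f2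
  obtain ⟨f3l, f3u⟩ := f3
  obtain ⟨g1l, g1u⟩ := g1
  obtain ⟨g2l, g2u⟩ := g2
  have hz : (3 * S (10 * t) (0 * θ) - 4 * S (12 * t) (0 * θ)) / 2 ≤ T * (-(1 / 60)) + 1 / 4 + 78 / 10 * t := by
    linarith
  have ha : S (1 * t) (1 * θ) - 2 * S (3 * t) (1 * θ) - S (9 * t) (1 * θ) + 2 * S (11 * t) (1 * θ)
      ≤ T * (fr (X t θ 1) 1 - 2 * fr (X t θ 1) 3 - fr (X t θ 1) 9 + 2 * fr (X t θ 1) 11) + 76 / 10 * t := by
    linarith
  have hb : - S (2 * t) (2 * θ) + 2 * S (4 * t) (2 * θ) + S (8 * t) (2 * θ) - 2 * S (10 * t) (2 * θ)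
      ≤ T * (- fr (X t θ 2) 2 + 2 * fr (X t θ 2) 4 + fr (X t θ 2) 8 - 2 * fr (X t θ 2) 10) + 76 / 10 * t := by
    linarith
  have hc : S (3 * t) (3 * θ) - 2 * S (5 * t) (3 * θ) - S (7 * t) (3 * θ) + 2 * S (9 * t) (3 * θ)
      ≤ T * (fr (X t θ 3) 3 - 2 * fr (X t θ 3) 5 - fr (X t θ 3) 7 + 2 * fr (X t θ 3) 9) + 76 / 10 * t := by
    linarith
  have hd : - S (4 * t) (4 * θ) + 3 * S (6 * t) (4 * θ) - 2 * S (8 * t) (4 * θ)
      ≤ T * (- fr (X t θ 4) 4 + 3 * fr (X t θ 4) 6 - 2 * fr (X t θ 4) 8) + 76 / 10 * t := by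
    linarith
  have hf : (2 * S (5 * t) (5 * θ) - 2 * S (7 * t) (5 * θ)) - S (5 * t) (5 * θ) + 9 / 10 * S (15 * t) (5 * θ)
      ≤ T * (fr (X t θ 5) 5 - 2 * fr (X t θ 5) 7 + 9 / 10 * fr (X t θ 5) 15) - 1 / 2 * (-(1 / 10)) + 65 / 10 * t := by
    linarith
  have hg : S (10 * t) (10 * θ) - 9 / 10 * S (30 * t) (10 * θ)
      ≤ T * (fr (X t θ 10) 10 - 9 / 10 * fr (X t θ 10) 30) - 1 / 2 * (1 / 10) + 74 / 10 * t := by
    linarith
  have hv : 1 / 20 * (S (10 * t) (0 * θ) - S (20 * t) (0 * θ)) - 9 / 20 * (S (20 * t) (0 * θ) - S (40 * t) (0 * θ))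
      ≤ T * (-(7 / 800)) + 57 / 10 * t := by
    linarith
  linarith

end K3h21.PP
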