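import Mathlib

/-! Rational function inequalities. -/

namespace K3h21.PP

/-- second cusp -/
noncomputable def fb (y : ℝ) : ℝ := -(13 / 5) / (4 + y) + 4 / (16 + y) + 8 / (64 + y) - 20 / (100 + y) + (9 / 2) / (9 + y) - (27 / 25) / (36 + y)

/-- first cusp -/
noncomputable def fa (x : ℝ) : ℝ := (53 / 60) / (1 + x) - (373 / 100) / (9 + x) - 9 / (81 + x) + 22 / (121 + x) + 1 / (4 + x) + 2 / (16 + x) - 5 / (25 + x) - 10 / (25 + 9 * x) - 7 / (49 + 9 * x) + (9 / 2) / (9 + 4 * x) - 14 / (49 + 25 * x)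

lemma fb_le {y : ℝ} (hy : 0 ≤ y) : fb y ≤ 124 / 1000 := by
  have hQ : 0 < (4 + y) * (16 + y) * (64 + y) * (100 + y) * (9 + y) * (36 + y) := by positivity
  have key : (124 / 1000 - fb y) * ((4 + y) * (16 + y) * (64 + y) * (100 + y) * (9 + y) * (36 + y)) = (85598208 / 5) * y ^ 0 + (-508693248 / 125) * y ^ 1 + (-16045952 / 125) * y ^ 2 + (6231776 / 125) * y ^ 3 + (310824 / 125) * y ^ 4 + (4447 / 125) * y ^ 5 + (31 / 250) * y ^ 6 := by
    unfold fb
    field_simp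
    ring
  have hP : 0 ≤ (85598208 / 5) * y ^ 0 + (-508693248 / 125) * y ^ 1 + (-16045952 / 125) * y ^ 2 + (6231776 / 125) * y ^ 3 + (310824 / 125) * y ^ 4 + (4447 / 125) * y ^ 5 + (31 / 250) * y ^ 6 := by
    rcases le_total y 5 with h | h
    · have h5 : 0 ≤ 5 - y := by linarith
      have h0 : 0 ≤ y - 0 := by linarith
      have e : ((85598208 / 5) * y ^ 0 + (-508693248 / 125) * y ^ 1 + (-16045952 / 125) * y ^ 2 + (6231776 / 125) * y ^ 3 + (310824 / 125) * y ^ 4 + (4447 / 125) * y ^ 5 + (31 / 250) * y ^ 6) * 15625 = (85598208 / 5) * ((y - 0) ^ 0 * (5 - y) ^ 6) + (2059252992 / 25) * ((y - 0) ^ 1 * (5 - y) ^ 5) + 151846784 * ((y - 0) ^ 2 * (5 - y) ^ 4) + (661552736 / 5) * ((y - 0) ^ 3 * (5 - y) ^ 3) + (271558152 / 5) * ((y - 0) ^ 4 * (5 - y) ^ 2) + (50285907 / 5) * ((y - 0) ^ 5 * (5 - y) ^ 1) + (73086489 / 50) * ((y - 0) ^ 6 * (5 - y) ^ 0) := by ring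
      have e2 : 0 ≤ (85598208 / 5) * ((y - 0) ^ 0 * (5 - y) ^ 6) + (2059252992 / 25) * ((y - 0) ^ 1 * (5 - y) ^ 5) + 151846784 * ((y - 0) ^ 2 * (5 - y) ^ 4) + (661552736 / 5) * ((y - 0) ^ 3 * (5 - y) ^ 3) + (271558152 / 5) * ((y - 0) ^ 4 * (5 - y) ^ 2) + (50285907 / 5) * ((y - 0) ^ 5 * (5 - y) ^ 1) + (73086489 / 50) * ((y - 0) ^ 6 * (5 - y) ^ 0) := by positivity
      linarith
    rcases le_total y 10 with h' | h'
    · have h5 : 0 ≤ 10 - y := by linarith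
      have h0 : 0 ≤ y - 5 := by linarith
      have e : ((85598208 / 5) * y ^ 0 + (-508693248 / 125) * y ^ 1 + (-16045952 / 125) * y ^ 2 + (6231776 / 125) * y ^ 3 + (310824 / 125) * y ^ 4 + (4447 / 125) * y ^ 5 + (31 / 250) * y ^ 6) * 15625 = (73086489 / 50) * ((y - 5) ^ 0 * (10 - y) ^ 6) + (187089399 / 25) * ((y - 5) ^ 1 * (10 - y) ^ 5) + (207218016 / 5) * ((y - 5) ^ 2 * (10 - y) ^ 4) + (668860024 / 5) * ((y - 5) ^ 3 * (10 - y) ^ 3) + (1038516328 / 5) * ((y - 5) ^ 4 * (10 - y) ^ 2) + (3783505712 / 25) * ((y - 5) ^ 5 * (10 - y) ^ 1) + (1049728704 / 25) * ((y - 5) ^ 6 * (10 - y) ^ 0) := by ring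
      have e2 : 0 ≤ (73086489 / 50) * ((y - 5) ^ 0 * (10 - y) ^ 6) + (187089399 / 25) * ((y - 5) ^ 1 * (10 - y) ^ 5) + (207218016 / 5) * ((y - 5) ^ 2 * (10 - y) ^ 4) + (668860024 / 5) * ((y - 5) ^ 3 * (10 - y) ^ 3) + (1038516328 / 5) * ((y - 5) ^ 4 * (10 - y) ^ 2) + (3783505712 / 25) * ((y - 5) ^ 5 * (10 - y) ^ 1) + (1049728704 / 25) * ((y - 5) ^ 6 * (10 - y) ^ 0) := by positivity
      linarith
    · obtain ⟨s, hs⟩ : ∃ s, s = y - 10 := ⟨_, rfl⟩
      have hs0 : 0 ≤ s := by linarith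
      have e : ((85598208 / 5) * y ^ 0 + (-508693248 / 125) * y ^ 1 + (-16045952 / 125) * y ^ 2 + (6231776 / 125) * y ^ 3 + (310824 / 125) * y ^ 4 + (4447 / 125) * y ^ 5 + (31 / 250) * y ^ 6) = (1049728704 / 25) * s ^ 0 + (2514866512 / 125) * s ^ 1 + (404196728 / 125) * s ^ 2 + (23421736 / 125) * s ^ 3 + (556424 / 125) * s ^ 4 + (5377 / 125) * s ^ 5 + (31 / 250) * s ^ 6 := by rw [hs]; ring
      rw [e]; positivity
  by_contra hcon
  push Not at hcon
  have : (124 / 1000 - fb y) * ((4 + y) * (16 + y) * (64 + y) * (100 + y) * (9 + y) * (36 + y)) < 0 := mul_neg_of_neg_of_pos (by linarith) hQ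
  linarith

set_option maxHeartbeats 4000000 in
lemma fa_le {s : ℝ} (hs : 0 ≤ s) : fa (14 / 25 + s) ≤ 124 / 1000 := by
  obtain ⟨x, hx⟩ : ∃ x, x = 14 / 25 + s := ⟨_, rfl⟩
  have hx0 : 0 ≤ x := by linarith
  rw [← hx]
  have hQ : 0 < (1 + x) * (9 + x) * (81 + x) * (121 + x) * (4 + x) * (16 + x) * (25 + x) * (25 + 9 * x) * (49 + 9 * x) * (9 + 4 * x) * (49 + 25 * x) := by positivity
  have key : (124 / 1000 - fa x) * ((1 + x) * (9 + x) * (81 + x) * (121 + x) * (4 + x) * (16 + x) * (25 + x) * (25 + 9 * x) * (49 + 9 * x) * (9 + 4 * x) * (49 + 25 * x)) = (-19977885136440) * x ^ 0 + 1863289662759 * x ^ 1 + (11427666059007541 / 250) * x ^ 2 + (34045738025009627 / 750) * x ^ 3 + (15023650780434337 / 750) * x ^ 4 + (3522929476515503 / 750) * x ^ 5 + (90573777923719 / 150) * x ^ 6 + (31254866152333 / 750) * x ^ 7 + (1113499330427 / 750) * x ^ 8 + (6253350129 / 250) * x ^ 9 + (26912403 / 125) * x ^ 10 + (5022 / 5) *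 x ^ 11 := by
    unfold fa
    field_simp
    ring
  have hP : 0 ≤ (-19977885136440) * x ^ 0 + 1863289662759 * x ^ 1 + (11427666059007541 / 250) * x ^ 2 + (34045738025009627 / 750) * x ^ 3 + (15023650780434337 / 750) * x ^ 4 + (3522929476515503 / 750) * x ^ 5 + (90573777923719 / 150) * x ^ 6 + (31254866152333 / 750) * x ^ 7 + (1113499330427 / 750) * x ^ 8 + (6253350129 / 250) * x ^ 9 + (26912403 / 125) * x ^ 10 + (5022 / 5) * x ^ 11 := by
    have e : (-19977885136440) * x ^ 0 + 1863289662759 * x ^ 1 + (11427666059007541 / 250) * x ^ 2 + (34045738025009627 / 750) * x ^ 3 + (15023650780434337 / 750) * x ^ 4 + (3522929476515503 / 750) * x ^ 5 + (90573777923719 / 150) * x ^ 6 + (31254866152333 / 750) * x ^ 7 + (1113499330427 / 750) * x ^ 8 + (6253350129 / 250) * x ^ 9 + (26912403 / 125) * x ^ 10 + (5022 / 5) * x ^ 11 = (67000853411368004361288779136 / 11920928955078125) * s ^ 0 + (53575572797222510790089803287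 / 476837158203125) * s ^ 1 + (257650448576473266907197087 / 1525878906250) * s ^ 2 + (32734500202234670075515293 / 305175781250) * s ^ 3 + (443002200603224168678393 / 12207031250) * s ^ 4 + (51382679815736865153463 / 7324218750) * s ^ 5 + (76229879860012777407 / 97656250) * s ^ 6 + (7595534159153599 / 156250) * s ^ 7 + (151293817433401 / 93750) * s ^ 8 + (32795500077 / 1250) * s ^ 9 + (27685791 / 125) * s ^ 10 + (5022 / 5) * s ^ 11 := by rw [hx]; ring
    rw [e]; positivity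
  by_contra hcon
  push Not at hcon
  have : (124 / 1000 - fa x) * ((1 + x) * (9 + x) * (81 + x) * (121 + x) * (4 + x) * (16 + x) * (25 + x) * (25 + 9 * x) * (49 + 9 * x) * (9 + 4 * x) * (49 + 25 * x)) < 0 := mul_neg_of_neg_of_pos (by linarith) hQ
  linarith

end K3h21.PP
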