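import Pool.Agent.K3h21.PP.Uni
import Pool.Agent.K3h21.PP.Rat

/-! The exponent on the minor arcs. -/

namespace K3h21.PP

lemma fa_eq {x : ℝ} (hx : 0 ≤ x) :
    R1 x + R2 (4 * x) + R3 (9 * x) + R4 (16 * x) + R5 (25 * x) + R10 (100 * x) = fa x := by
  have h1_1 : fr x 1 = 1 * (1 / (1 + x)) := by
    unfold fr; rw [mul_one_div, div_eq_div_iff (by positivity) (by positivity)]; ring
  have h1_3 : fr x 3 = 3 * (1 / (9 + x)) := by
    unfold fr; rw [mul_one_div, div_eq_div_iff (by positivity) (by positivity)]; ring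
  have h1_9 : fr x 9 = 9 * (1 / (81 + x)) := by
    unfold fr; rw [mul_one_div, div_eq_div_iff (by positivity) (by positivity)]; ring
  have h1_11 : fr x 11 = 11 * (1 / (121 + x)) := by
    unfold fr; rw [mul_one_div, div_eq_div_iff (by positivity) (by positivity)]; ring
  have h2_2 : fr (4 * x) 2 = (1 / 2) * (1 / (1 + x)) := by
    unfold fr; rw [mul_one_div, div_eq_div_iff (by positivity) (by positivity)]; ring
  have h2_4 : fr (4 * x) 4 = 1 * (1 / (4 + x)) := by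
    unfold fr; rw [mul_one_div, div_eq_div_iff (by positivity) (by positivity)]; ring
  have h2_8 : fr (4 * x) 8 = 2 * (1 / (16 + x)) := by
    unfold fr; rw [mul_one_div, div_eq_div_iff (by positivity) (by positivity)]; ring
  have h2_10 : fr (4 * x) 10 = (5 / 2) * (1 / (25 + x)) := by
    unfold fr; rw [mul_one_div, div_eq_div_iff (by positivity) (by positivity)]; ring
  have h3_3 : fr (9 * x) 3 = (1 / 3) * (1 / (1 + x)) := by
    unfold fr; rw [mul_one_div, div_eq_div_iff (by positivity) (by positivity)]; ring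
  have h3_5 : fr (9 * x) 5 = 5 * (1 / (25 + 9 * x)) := by
    unfold fr; rw [mul_one_div, div_eq_div_iff (by positivity) (by positivity)]; ring
  have h3_7 : fr (9 * x) 7 = 7 * (1 / (49 + 9 * x)) := by
    unfold fr; rw [mul_one_div, div_eq_div_iff (by positivity) (by positivity)]; ring
  have h3_9 : fr (9 * x) 9 = 1 * (1 / (9 + x)) := by
    unfold fr; rw [mul_one_div, div_eq_div_iff (by positivity) (by positivity)]; ring
  have h4_4 : fr (16 * x) 4 = (1 / 4) * (1 / (1 + x)) := by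
    unfold fr; rw [mul_one_div, div_eq_div_iff (by positivity) (by positivity)]; ring
  have h4_6 : fr (16 * x) 6 = (3 / 2) * (1 / (9 + 4 * x)) := by
    unfold fr; rw [mul_one_div, div_eq_div_iff (by positivity) (by positivity)]; ring
  have h4_8 : fr (16 * x) 8 = (1 / 2) * (1 / (4 + x)) := by
    unfold fr; rw [mul_one_div, div_eq_div_iff (by positivity) (by positivity)]; ring
  have h5_5 : fr (25 * x) 5 = (1 / 5) * (1 / (1 + x)) := by
    unfold fr; rw [mul_one_div, div_eq_div_iff (by positivity) (by positivity)]; ring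
  have h5_7 : fr (25 * x) 7 = 7 * (1 / (49 + 25 * x)) := by
    unfold fr; rw [mul_one_div, div_eq_div_iff (by positivity) (by positivity)]; ring
  have h5_15 : fr (25 * x) 15 = (3 / 5) * (1 / (9 + x)) := by
    unfold fr; rw [mul_one_div, div_eq_div_iff (by positivity) (by positivity)]; ring
  have h10_10 : fr (100 * x) 10 = (1 / 10) * (1 / (1 + x)) := by
    unfold fr; rw [mul_one_div, div_eq_div_iff (by positivity) (by positivity)]; ring
  have h10_30 : fr (100 * x) 30 = (3 / 10) * (1 / (9 + x)) := by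
    unfold fr; rw [mul_one_div, div_eq_div_iff (by positivity) (by positivity)]; ring
  unfold R1 R2 R3 R4 R5 R10 fa
  rw [h1_1, h1_3, h1_9, h1_11, h2_2, h2_4, h2_8, h2_10, h3_3, h3_5, h3_7, h3_9, h4_4, h4_6, h4_8, h5_5, h5_7, h5_15, h10_10, h10_30]
  ring

lemma fb_eq {y : ℝ} (hy : 0 ≤ y) : R2 y + R4 (4 * y) + R10 (25 * y) = fb y := by
  have h2_2 : fr y 2 = 2 * (1 / (4 + y)) := by
    unfold fr; rw [mul_one_div, div_eq_div_iff (by positivity) (by positivity)]; ring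
  have h2_4 : fr y 4 = 4 * (1 / (16 + y)) := by
    unfold fr; rw [mul_one_div, div_eq_div_iff (by positivity) (by positivity)]; ring
  have h2_8 : fr y 8 = 8 * (1 / (64 + y)) := by
    unfold fr; rw [mul_one_div, div_eq_div_iff (by positivity) (by positivity)]; ring
  have h2_10 : fr y 10 = 10 * (1 / (100 + y)) := by
    unfold fr; rw [mul_one_div, div_eq_div_iff (by positivity) (by positivity)]; ring
  have h4_4 : fr (4 * y) 4 = 1 * (1 / (4 + y)) := by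
    unfold fr; rw [mul_one_div, div_eq_div_iff (by positivity) (by positivity)]; ring
  have h4_6 : fr (4 * y) 6 = (3 / 2) * (1 / (9 + y)) := by
    unfold fr; rw [mul_one_div, div_eq_div_iff (by positivity) (by positivity)]; ring
  have h4_8 : fr (4 * y) 8 = 2 * (1 / (16 + y)) := by
    unfold fr; rw [mul_one_div, div_eq_div_iff (by positivity) (by positivity)]; ring
  have h10_10 : fr (25 * y) 10 = (2 / 5) * (1 / (4 + y)) := by
    unfold fr; rw [mul_one_div, div_eq_div_iff (by positivity) (by positivity)]; ring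
  have h10_30 : fr (25 * y) 30 = (6 / 5) * (1 / (36 + y)) := by
    unfold fr; rw [mul_one_div, div_eq_div_iff (by positivity) (by positivity)]; ring
  unfold R2 R4 R10 fb
  rw [h2_2, h2_4, h2_8, h2_10, h4_4, h4_6, h4_8, h10_10, h10_30]
  ring

lemma fr_anti {Y Y' m : ℝ} (hm : 0 < m) (hY' : 0 ≤ Y') (h : Y' ≤ Y) : fr Y m ≤ fr Y' m := by
  unfold fr
  apply div_le_div_of_nonneg_left hm.le (by positivity) (by linarith)

lemma fr_dev {Y Y' m δ : ℝ} (hm : 0 < m) (hY' : 0 ≤ Y') (h1 : Y / 2 ≤ Y') (h2 : Y' ≤ Y)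
    (hδ : 0 ≤ δ) (h3 : Y - Y' ≤ δ * Y ^ 2) : fr Y' m ≤ fr Y m + 2 * m * δ := by
  unfold fr
  have hY : 0 ≤ Y := by linarith
  have p1 : 0 < m ^ 2 + Y' := by positivity
  have p2 : 0 < m ^ 2 + Y := by positivity
  have key : m / (m ^ 2 + Y') - m / (m ^ 2 + Y) ≤ 2 * m * δ := by
    rw [div_sub_div _ _ p1.ne' p2.ne', div_le_iff₀ (by positivity)]
    have e1 : m * (m ^ 2 + Y) - (m ^ 2 + Y') * m = m * (Y - Y') := by ring
    rw [e1]
    have e2 : Y ^ 2 ≤ 2 * ((m ^ 2 + Y') * (m ^ 2 + Y)) := by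
      have : Y * Y ≤ 2 * (Y' * Y) := by nlinarith
      have h4 : Y' * Y ≤ (m ^ 2 + Y') * (m ^ 2 + Y) := by
        apply mul_le_mul (by nlinarith) (by nlinarith) hY (by positivity)
      nlinarith
    calc m * (Y - Y') ≤ m * (δ * Y ^ 2) := mul_le_mul_of_nonneg_left h3 hm.le
      _ ≤ m * (δ * (2 * ((m ^ 2 + Y') * (m ^ 2 + Y)))) := by gcongr
      _ = 2 * m * δ * ((m ^ 2 + Y') * (m ^ 2 + Y)) := by ring
  linarith

lemma fr_le {x m : ℝ} (hm : 0 < m) (hx : 0 < x) : fr x m ≤ m / x := by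
  unfold fr
  apply div_le_div_of_nonneg_left hm.le hx; nlinarith

lemma fr_nonneg {x m : ℝ} (hm : 0 < m) (hx : 0 ≤ x) : 0 ≤ fr x m := by
  unfold fr; positivity

/-- generic dev: `Y - Y' ≤ c (D x)` -/
lemma dev_aux {τ x D c k Y' : ℝ} (hτ : 0 < τ) (hx0 : 0 < x) (hDx : D * x = τ * x ^ 2)
    (hDs : D ≤ 1 / 256) (hk : 0 < k) (hc : 0 ≤ c) (hc1 : c ≤ k ^ 2 / 12) (hc2 : c ≤ 128 * k)
    (h : k * x - Y' ≤ c * (D * x)) :
    k * x / 2 ≤ Y' ∧ k * x - Y' ≤ (τ / 12) * (k * x) ^ 2 := by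
  have hcD : c * D ≤ k / 2 := by
    calc c * D ≤ c * (1 / 256) := mul_le_mul_of_nonneg_left hDs hc
      _ ≤ k / 2 := by linarith
  constructor
  · have : c * (D * x) ≤ k / 2 * x := by
      rw [← mul_assoc]; exact mul_le_mul_of_nonneg_right hcD hx0.le
    linarith
  · refine h.trans ?_
    rw [hDx]
    have : 0 ≤ τ * x ^ 2 := by positivity
    calc c * (τ * x ^ 2) ≤ k ^ 2 / 12 * (τ * x ^ 2) := mul_le_mul_of_nonneg_right hc1 this
      _ = _ := by ring

lemma near3 {x D : ℝ} (hx0 : 0 < x) (hD0 : 0 < D) (hDs : D ≤ 1 / 256) :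
    x * (3 - D) ^ 2 ≤ 9 * x ∧ 9 * x - x * (3 - D) ^ 2 ≤ 6 * (D * x) := by
  have e1 : 9 * x - x * (3 - D) ^ 2 = x * (D * (6 - D)) := by ring
  have e2 : 0 ≤ x * (D * (6 - D)) := by
    apply mul_nonneg hx0.le (mul_nonneg hD0.le (by linarith))
  have e3 : x * (D * (6 - D)) = 6 * (D * x) - D * D * x := by ring
  have e4 : 0 ≤ D * D * x := by positivity
  constructor <;> linarith

lemma near4 {x D : ℝ} (hx0 : 0 < x) (hD0 : 0 < D) (hDs : D ≤ 1 / 256) :
    x * (16 - 20 * D + 8 * D ^ 2 - D ^ 3) ≤ 16 * x ∧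
      16 * x - x * (16 - 20 * D + 8 * D ^ 2 - D ^ 3) ≤ 20 * (D * x) := by
  have e1 : 16 * x - x * (16 - 20 * D + 8 * D ^ 2 - D ^ 3) = x * (D * (20 - 8 * D + D ^ 2)) := by ring
  have e2 : 0 ≤ x * (D * (20 - 8 * D + D ^ 2)) := by
    have := sq_nonneg D
    apply mul_nonneg hx0.le (mul_nonneg hD0.le (by linarith))
  have e3 : x * (D * (20 - 8 * D + D ^ 2)) = 20 * (D * x) - x * D ^ 2 * (8 - D) := by ring
  have e4 : 0 ≤ x * D ^ 2 * (8 - D) := mul_nonneg (by positivity) (by linarith)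
  constructor <;> linarith

lemma near5 {x D : ℝ} (hx0 : 0 ≤ x) (hD0 : 0 ≤ D) (hDs : D ≤ 1 / 64) :
    x * (25 - 50 * D + 35 * D ^ 2 - 10 * D ^ 3 + D ^ 4) ≤ 25 * x ∧
      25 * x - x * (25 - 50 * D + 35 * D ^ 2 - 10 * D ^ 3 + D ^ 4) ≤ 50 * (D * x) := by
  have e1 : 25 * x - x * (25 - 50 * D + 35 * D ^ 2 - 10 * D ^ 3 + D ^ 4)
      = x * (D * (50 - 35 * D + D ^ 2 * (10 - D))) := by ring
  have h2 : 0 ≤ D ^ 2 * (10 - D) := mul_nonneg (by positivity) (by linarith)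
  have e2 : 0 ≤ x * (D * (50 - 35 * D + D ^ 2 * (10 - D))) := by
    apply mul_nonneg hx0 (mul_nonneg hD0 (by linarith))
  have e3 : x * (D * (50 - 35 * D + D ^ 2 * (10 - D)))
      = 50 * (D * x) - x * D ^ 2 * (35 - 10 * D + D ^ 2) := by ring
  have e4 : 0 ≤ x * D ^ 2 * (35 - 10 * D + D ^ 2) := by
    have := sq_nonneg D
    exact mul_nonneg (by positivity) (by linarith)
  constructor <;> linarith

lemma near10 {x D x2 : ℝ} (hx0 : 0 < x) (hD0 : 0 < D) (hDs : D ≤ 1 / 256) (h2 : x2 = x * (4 - D))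
    {x10 : ℝ} (h10 : x10 = x2 * (5 - 5 * (D * (4 - D)) + (D * (4 - D)) ^ 2) ^ 2) :
    x10 ≤ 100 * x ∧ 100 * x - x10 ≤ 825 * (D * x) := by
  obtain ⟨E, hE⟩ : ∃ E, E = D * (4 - D) := ⟨_, rfl⟩
  have hE0 : 0 ≤ E := by rw [hE]; apply mul_nonneg hD0.le; linarith
  have hx2 : 0 ≤ x2 := by rw [h2]; apply mul_nonneg hx0.le; linarith
  have hE1 : E ≤ 1 / 64 := by
    rw [hE]
    calc D * (4 - D) ≤ (1 / 256) * 4 := mul_le_mul hDs (by linarith) (by linarith) (by norm_num)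
      _ = 1 / 64 := by norm_num
  rw [← hE] at h10
  have e10 : x10 = x2 * (25 - 50 * E + 35 * E ^ 2 - 10 * E ^ 3 + E ^ 4) := by rw [h10]; ring
  have h5 := near5 hx2 hE0 hE1
  rw [← e10] at h5
  have e2 : 0 ≤ x * D := by positivity
  constructor
  · have := h5.1
    rw [h2] at this
    linarith
  · have h6 := h5.2
    rw [h2, hE] at h6
    have e3 : x * (4 - D) * 25 - 50 * (D * (4 - D) * (x * (4 - D)))
        = 100 * x - 825 * (D * x) + D * D * x * (400 - 50 * D) := by ring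
    have h7 : 0 ≤ D * D * x * (400 - 50 * D) := by
      apply mul_nonneg (by positivity); linarith
    linarith

lemma W_near1 {τ x D : ℝ} (hτ : 0 < τ) (hτ1 : τ ≤ 1 / 25600) (hx : 14 / 25 ≤ x)
    (hD : D = τ * x) (hD0 : 0 < D) (hx0 : 0 < x)
    {x2 x3 x4 x5 x10 : ℝ} (h2 : x2 = x * (4 - D)) (h3 : x3 = x * (3 - D) ^ 2)
    (h4 : x4 = x2 * (4 - τ * x2)) (h5 : x5 = x * (5 - 5 * D + D ^ 2) ^ 2)
    (h10 : x10 = x2 * (5 - 5 * (τ * x2) + (τ * x2) ^ 2) ^ 2)
    (hD2 : τ * x2 = D * (4 - D)) (hx2 : 0 ≤ x2) (hx3 : 0 ≤ x3) (hx4' : 0 ≤ x4) (hx5 : 0 ≤ x5)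
    (hx10 : 0 ≤ x10) (hxs : x ≤ 100) :
    R1 x + R2 x2 + R3 x3 + R4 x4 + R5 x5 + R10 x10 ≤ 1 / 8 := by
  have hDs : D ≤ 1 / 256 := by
    rw [hD]
    calc τ * x ≤ (1 / 25600) * 100 := mul_le_mul hτ1 hxs hx0.le (by norm_num)
      _ = 1 / 256 := by norm_num
  have hfa := fa_le (s := x - 14 / 25) (by linarith)
  have hxs' : 14 / 25 + (x - 14 / 25) = x := by ring
  rw [hxs', ← fa_eq hx0.le] at hfa
  have hDx : D * x = τ * x ^ 2 := by rw [hD]; ring
  have hDx0 : 0 ≤ D * x := by positivity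
  have b2 : x2 ≤ 4 * x := by rw [h2]; linarith
  obtain ⟨a2, c2⟩ := dev_aux (c := 1) (k := 4) (Y' := x2) hτ hx0 hDx hDs (by norm_num) (by norm_num) (by norm_num)
    (by norm_num) (by rw [h2]; apply le_of_eq; ring)
  have t3 := near3 hx0 hD0 hDs
  rw [← h3] at t3
  obtain ⟨b3, t3'⟩ := t3
  obtain ⟨a3, c3⟩ := dev_aux (c := 6) (k := 9) (Y' := x3) hτ hx0 hDx hDs (by norm_num) (by norm_num) (by norm_num)
    (by norm_num) t3'
  have e4 : x4 = x * (16 - 20 * D + 8 * D ^ 2 - D ^ 3) := by rw [h4, hD2, h2]; ring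
  have t4 := near4 hx0 hD0 hDs
  rw [← e4] at t4
  obtain ⟨b4, t4'⟩ := t4
  obtain ⟨a4, c4⟩ := dev_aux (c := 20) (k := 16) (Y' := x4) hτ hx0 hDx hDs (by norm_num) (by norm_num) (by norm_num)
    (by norm_num) t4'
  have e5 : x5 = x * (25 - 50 * D + 35 * D ^ 2 - 10 * D ^ 3 + D ^ 4) := by rw [h5]; ring
  have t5 := near5 hx0.le hD0.le (by linarith)
  rw [← e5] at t5
  obtain ⟨b5, t5'⟩ := t5
  obtain ⟨a5, c5⟩ := dev_aux (c := 50) (k := 25) (Y' := x5) hτ hx0 hDx hDs (by norm_num) (by norm_num) (by norm_num)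
    (by norm_num) t5'
  rw [hD2] at h10
  obtain ⟨b10, t10'⟩ := near10 hx0 hD0 hDs h2 h10
  obtain ⟨a10, c10⟩ := dev_aux (c := 825) (k := 100) (Y' := x10) hτ hx0 hDx hDs (by norm_num) (by norm_num) (by norm_num)
    (by norm_num) t10'
  have hδ : 0 ≤ τ / 12 := by positivity
  have k2 : R2 x2 ≤ R2 (4 * x) + 32 * (τ / 12) := by
    unfold R2
    have i1 := fr_anti (m := 2) (by norm_num) hx2 b2
    have i2 := fr_dev (m := 4) (by norm_num) hx2 a2 b2 hδ c2
    have i3 := fr_dev (m := 8) (by norm_num) hx2 a2 b2 hδ c2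
    have i4 := fr_anti (m := 10) (by norm_num) hx2 b2
    linarith
  have k3 : R3 x3 ≤ R3 (9 * x) + 42 * (τ / 12) := by
    unfold R3
    have i1 := fr_dev (m := 3) (by norm_num) hx3 a3 b3 hδ c3
    have i2 := fr_anti (m := 5) (by norm_num) hx3 b3
    have i3 := fr_anti (m := 7) (by norm_num) hx3 b3
    have i4 := fr_dev (m := 9) (by norm_num) hx3 a3 b3 hδ c3
    linarith
  have k4 : R4 x4 ≤ R4 (16 * x) + 36 * (τ / 12) := by
    unfold R4
    have i1 := fr_anti (m := 4) (by norm_num) hx4' b4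
    have i2 := fr_dev (m := 6) (by norm_num) hx4' a4 b4 hδ c4
    have i3 := fr_anti (m := 8) (by norm_num) hx4' b4
    linarith
  have k5 : R5 x5 ≤ R5 (25 * x) + 37 * (τ / 12) := by
    unfold R5
    have i1 := fr_dev (m := 5) (by norm_num) hx5 a5 b5 hδ c5
    have i2 := fr_anti (m := 7) (by norm_num) hx5 b5
    have i3 := fr_dev (m := 15) (by norm_num) hx5 a5 b5 hδ c5
    linarith
  have k10 : R10 x10 ≤ R10 (100 * x) + 20 * (τ / 12) := by
    unfold R10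
    have i1 := fr_dev (m := 10) (by norm_num) hx10 a10 b10 hδ c10
    have i2 := fr_anti (m := 30) (by norm_num) hx10 b10
    linarith
  linarith

lemma W_near2 {τ x D : ℝ} (hτ : 0 < τ) (hτ1 : τ ≤ 1 / 25600)
    (hD : D = τ * x) (hD0 : 0 < D) (hx0 : 0 < x) (hx4 : D ≤ 4)
    {x2 x3 x4 x5 x10 : ℝ} (h3 : x3 = x * (3 - D) ^ 2)
    (h4 : x4 = x2 * (4 - τ * x2)) (h5 : x5 = x * (5 - 5 * D + D ^ 2) ^ 2)
    (h10 : x10 = x2 * (5 - 5 * (τ * x2) + (τ * x2) ^ 2) ^ 2)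
    (hD2 : τ * x2 = D * (4 - D)) (hx2 : 0 ≤ x2) (hx3 : 0 ≤ x3) (hx4' : 0 ≤ x4) (hx5 : 0 ≤ x5)
    (hx10 : 0 ≤ x10) (hxs : 100 ≤ x) (hys : x2 ≤ 100) :
    R1 x + R2 x2 + R3 x3 + R4 x4 + R5 x5 + R10 x10 ≤ 1 / 8 := by
  have hE2 : D * (4 - D) ≤ τ * 100 := by rw [← hD2]; exact mul_le_mul_of_nonneg_left hys hτ.le
  have hD1 : τ * 100 ≤ D := by rw [hD]; exact mul_le_mul_of_nonneg_left hxs hτ.le
  have hD2' : 2 < D := by
    by_contra hcon
    push Not at hcon
    have : 0 ≤ D * (2 - D) := mul_nonneg hD0.le (by linarith)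
    linarith
  have hD3 : 4 - D ≤ 1 / 512 := by
    have : 0 ≤ (D - 2) * (4 - D) := mul_nonneg (by linarith) (by linarith)
    linarith
  have hDx25 : D ≤ 1 / 25600 * x := by rw [hD]; exact mul_le_mul_of_nonneg_right hτ1 hx0.le
  have hxbig' : 102300 ≤ x := by linarith
  have hxbig : 100000 ≤ x := by linarith
  clear hE2 hD1 hDx25
  have hx3big : 100000 ≤ x3 := by
    rw [h3]
    obtain ⟨d, hd⟩ : ∃ d, d = 4 - D := ⟨_, rfl⟩
    have hd0 : 0 ≤ d := by linarith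
    have hd1 : d ≤ 1 / 512 := by linarith
    have e : (3 - D) ^ 2 = 1 - 2 * d + d ^ 2 := by rw [hd]; ring
    have : 99 / 100 ≤ (3 - D) ^ 2 := by rw [e]; have := sq_nonneg d; linarith
    calc (100000 : ℝ) ≤ 102300 * (99 / 100) := by norm_num
      _ ≤ x * (3 - D) ^ 2 := mul_le_mul hxbig' this (by norm_num) hx0.le
  have hx5big : 95000 ≤ x5 := by
    rw [h5]
    obtain ⟨d, hd⟩ : ∃ d, d = 4 - D := ⟨_, rfl⟩
    have hd0 : 0 ≤ d := by linarith
    have hd1 : d ≤ 1 / 512 := by linarith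
    have e : 5 - 5 * D + D ^ 2 = 1 - 3 * d + d ^ 2 := by rw [hd]; ring
    have h97 : 97 / 100 ≤ 5 - 5 * D + D ^ 2 := by rw [e]; have := sq_nonneg d; linarith
    have : (97 / 100) ^ 2 ≤ (5 - 5 * D + D ^ 2) ^ 2 := pow_le_pow_left₀ (by norm_num) h97 2
    calc (95000 : ℝ) ≤ 102300 * ((97 / 100) ^ 2) := by norm_num
      _ ≤ x * (5 - 5 * D + D ^ 2) ^ 2 := mul_le_mul hxbig' this (by norm_num) hx0.le
  have k1 : R1 x ≤ 23 / 100000 := by
    unfold R1
    have i1 := fr_le (m := 1) (by norm_num) hx0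
    have i2 := fr_nonneg (m := 3) (by norm_num) hx0.le
    have i3 := fr_nonneg (m := 9) (by norm_num) hx0.le
    have i4 := fr_le (m := 11) (by norm_num) hx0
    have i5 : 1 / x ≤ 1 / 100000 := by apply one_div_le_one_div_of_le (by norm_num) hxbig
    have i6 : 11 / x = 11 * (1 / x) := by ring
    linarith
  have k3 : R3 x3 ≤ 21 / 100000 := by
    unfold R3
    have hx0' : 0 < x3 := by linarith
    have i1 := fr_le (m := 3) (by norm_num) hx0'
    have i2 := fr_nonneg (m := 5) (by norm_num) hx3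
    have i3 := fr_nonneg (m := 7) (by norm_num) hx3
    have i4 := fr_le (m := 9) (by norm_num) hx0'
    have i5 : 1 / x3 ≤ 1 / 100000 := by apply one_div_le_one_div_of_le (by norm_num) hx3big
    have i6 : 3 / x3 = 3 * (1 / x3) := by ring
    have i7 : 9 / x3 = 9 * (1 / x3) := by ring
    linarith
  have k5 : R5 x5 ≤ 20 / 95000 := by
    unfold R5
    have hx0' : 0 < x5 := by linarith
    have i1 := fr_le (m := 5) (by norm_num) hx0'
    have i2 := fr_nonneg (m := 7) (by norm_num) hx5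
    have i4 := fr_le (m := 15) (by norm_num) hx0'
    have i5 : 1 / x5 ≤ 1 / 95000 := by apply one_div_le_one_div_of_le (by norm_num) hx5big
    have i6 : 5 / x5 = 5 * (1 / x5) := by ring
    have i7 : 15 / x5 = 15 * (1 / x5) := by ring
    linarith
  obtain ⟨E, hE⟩ : ∃ E, E = τ * x2 := ⟨_, rfl⟩
  have hE0 : 0 ≤ E := by rw [hE]; positivity
  have hE1 : E ≤ 1 / 256 := by
    rw [hE]
    calc τ * x2 ≤ (1 / 25600) * 100 := mul_le_mul hτ1 hys hx2 (by norm_num)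
      _ = 1 / 256 := by norm_num
  clear hD3 hxbig hxbig' hx3big hx5big hD2' hD0 hx4 h3 h5
  rw [← hE] at h4 h10
  have hδ : 0 ≤ τ / 12 := by positivity
  have hEx : E * x2 = τ * x2 ^ 2 := by rw [hE]; ring
  have hτx : 0 ≤ τ * x2 ^ 2 := by positivity
  have a4 : 4 * x2 / 2 ≤ x4 := by rw [h4]; nlinarith
  have b4 : x4 ≤ 4 * x2 := by rw [h4]; nlinarith
  have c4 : 4 * x2 - x4 ≤ (τ / 12) * (4 * x2) ^ 2 := by
    rw [h4]
    have : 4 * x2 - x2 * (4 - E) = E * x2 := by ring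
    rw [this, hEx]; nlinarith
  have e10 : x10 = x2 * (25 - 50 * E + 35 * E ^ 2 - 10 * E ^ 3 + E ^ 4) := by rw [h10]; ring
  have r10 : 25 - 50 * E ≤ 25 - 50 * E + 35 * E ^ 2 - 10 * E ^ 3 + E ^ 4 := by
    have : 35 * E ^ 2 - 10 * E ^ 3 + E ^ 4 = E ^ 2 * (35 - 10 * E + E ^ 2) := by ring
    have : 0 ≤ E ^ 2 * (35 - 10 * E + E ^ 2) := by
      apply mul_nonneg (by positivity); nlinarith
    linarith
  have r10' : 25 - 50 * E + 35 * E ^ 2 - 10 * E ^ 3 + E ^ 4 ≤ 25 := by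
    have : 50 * E - 35 * E ^ 2 + 10 * E ^ 3 - E ^ 4 = E * (50 - 35 * E + E ^ 2 * (10 - E)) := by ring
    have : 0 ≤ E * (50 - 35 * E + E ^ 2 * (10 - E)) := by
      apply mul_nonneg hE0
      have : 0 ≤ E ^ 2 * (10 - E) := by apply mul_nonneg (by positivity); linarith
      linarith
    linarith
  have l10 : x2 * (25 - 50 * E) ≤ x10 := by rw [e10]; exact mul_le_mul_of_nonneg_left r10 hx2
  have b10 : x10 ≤ 25 * x2 := by
    rw [e10]
    have := mul_le_mul_of_nonneg_left r10' hx2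
    linarith
  have l10b : 25 * x2 - 50 * (E * x2) ≤ x10 := by
    refine le_trans ?_ l10
    apply le_of_eq; ring
  have a10 : 25 * x2 / 2 ≤ x10 := by
    refine le_trans ?_ l10b
    nlinarith
  have c10 : 25 * x2 - x10 ≤ (τ / 12) * (25 * x2) ^ 2 := by
    have : 25 * x2 - x10 ≤ 50 * (E * x2) := by linarith
    rw [hEx] at this
    nlinarith
  have k4 : R4 x4 ≤ R4 (4 * x2) + 36 * (τ / 12) := by
    unfold R4
    have i1 := fr_anti (m := 4) (by norm_num) hx4' b4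
    have i2 := fr_dev (m := 6) (by norm_num) hx4' a4 b4 hδ c4
    have i3 := fr_anti (m := 8) (by norm_num) hx4' b4
    linarith
  have k10 : R10 x10 ≤ R10 (25 * x2) + 20 * (τ / 12) := by
    unfold R10
    have i1 := fr_dev (m := 10) (by norm_num) hx10 a10 b10 hδ c10
    have i2 := fr_anti (m := 30) (by norm_num) hx10 b10
    linarith
  have hfb := fb_le hx2
  rw [← fb_eq hx2] at hfb
  linarith

lemma W_real {τ x : ℝ} (hτ : 0 < τ) (hτ1 : τ ≤ 1 / 25600) (hx : 14 / 25 ≤ x) (hx4 : τ * x ≤ 4)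
    {x2 x3 x4 x5 x10 : ℝ} (h2 : x2 = x * (4 - τ * x)) (h3 : x3 = x * (3 - τ * x) ^ 2)
    (h4 : x4 = x2 * (4 - τ * x2)) (h5 : x5 = x * (5 - 5 * (τ * x) + (τ * x) ^ 2) ^ 2)
    (h10 : x10 = x2 * (5 - 5 * (τ * x2) + (τ * x2) ^ 2) ^ 2) :
    R1 x + R2 x2 + R3 x3 + R4 x4 + R5 x5 + R10 x10 ≤ 1 / 8 := by
  have hx0 : 0 < x := by linarith
  obtain ⟨D, hD⟩ : ∃ D, D = τ * x := ⟨_, rfl⟩
  have hD0 : 0 < D := by rw [hD]; positivity
  rw [← hD] at hx4 h2 h3 h5
  have hx2 : 0 ≤ x2 := by rw [h2]; apply mul_nonneg hx0.le; linarith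
  have hD2 : τ * x2 = D * (4 - D) := by rw [h2, hD]; ring
  have hD2a : D * (4 - D) ≤ 4 := by nlinarith [sq_nonneg (D - 2)]
  have hx3 : 0 ≤ x3 := by rw [h3]; positivity
  have hx4' : 0 ≤ x4 := by rw [h4, hD2]; apply mul_nonneg hx2; linarith
  have hx5 : 0 ≤ x5 := by rw [h5]; positivity
  have hx10 : 0 ≤ x10 := by rw [h10]; positivity
  rcases le_total x 100 with hxs | hxs
  · exact W_near1 hτ hτ1 hx hD hD0 hx0 h2 h3 h4 h5 h10 hD2 hx2 hx3 hx4' hx5 hx10 hxs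
  rcases le_total x2 100 with hys | hys
  · exact W_near2 hτ hτ1 hD hD0 hx0 hx4 h3 h4 h5 h10 hD2 hx2 hx3 hx4' hx5 hx10 hxs hys
  · have k1 := R1_le hxs
    have k2 := R2_le hys
    have k3 := R3_le hx3
    have k4 := R4_le hx4'
    have k5 := R5_le hx5
    have k10 := R10_le hx10
    linarith

end K3h21.PP
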