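import Pool.Agent.K3h21.PP.Minor4

/-! The minor arc estimate. -/

namespace K3h21.PP

open Real Filter Topology

lemma sq2 (φ : ℝ) : 4 * Real.sin (2 * φ / 2) ^ 2
    = (4 * Real.sin (φ / 2) ^ 2) * (4 - 4 * Real.sin (φ / 2) ^ 2) := by
  have h : Real.sin (2 * φ / 2) = 2 * Real.sin (φ / 2) * Real.cos (φ / 2) := by
    rw [← Real.sin_two_mul]; congr 1; ring
  rw [h]
  have h2 : Real.cos (φ / 2) ^ 2 = 1 - Real.sin (φ / 2) ^ 2 := by
    have := Real.sin_sq_add_cos_sq (φ / 2); linarith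
  calc 4 * (2 * Real.sin (φ / 2) * Real.cos (φ / 2)) ^ 2
      = 16 * Real.sin (φ / 2) ^ 2 * Real.cos (φ / 2) ^ 2 := by ring
    _ = _ := by rw [h2]; ring

lemma sq3 (φ : ℝ) : 4 * Real.sin (3 * φ / 2) ^ 2
    = (4 * Real.sin (φ / 2) ^ 2) * (3 - 4 * Real.sin (φ / 2) ^ 2) ^ 2 := by
  have h : Real.sin (3 * φ / 2) = 3 * Real.sin (φ / 2) - 4 * Real.sin (φ / 2) ^ 3 := by
    rw [← Real.sin_three_mul]; congr 1; ring
  rw [h]; ring

lemma sq5 (φ : ℝ) : 4 * Real.sin (5 * φ / 2) ^ 2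
    = (4 * Real.sin (φ / 2) ^ 2) * (5 - 5 * (4 * Real.sin (φ / 2) ^ 2)
      + (4 * Real.sin (φ / 2) ^ 2) ^ 2) ^ 2 := by
  have h : Real.sin (5 * φ / 2) = 5 * Real.sin (φ / 2) - 20 * Real.sin (φ / 2) ^ 3
      + 16 * Real.sin (φ / 2) ^ 5 := by
    have e : 5 * φ / 2 = 3 * (φ / 2) + 2 * (φ / 2) := by ring
    rw [e, Real.sin_add, Real.sin_three_mul, Real.cos_three_mul, Real.sin_two_mul, Real.cos_two_mul]
    have h2 : Real.cos (φ / 2) ^ 2 = 1 - Real.sin (φ / 2) ^ 2 := by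
      have := Real.sin_sq_add_cos_sq (φ / 2); linarith
    have h4 : Real.cos (φ / 2) ^ 4 = (1 - Real.sin (φ / 2) ^ 2) ^ 2 := by
      rw [← h2]; ring
    calc _ = (3 * Real.sin (φ / 2) - 4 * Real.sin (φ / 2) ^ 3) * (2 * Real.cos (φ / 2) ^ 2 - 1)
          + 2 * Real.sin (φ / 2) * (4 * Real.cos (φ / 2) ^ 4 - 3 * Real.cos (φ / 2) ^ 2) := by ring
      _ = _ := by rw [h2, h4]; ring
  rw [h]; ring

lemma W_le {t θ : ℝ} (ht : 0 < t) (ht1 : t ≤ 1 / 160) (hθ : 3 / 4 * t ≤ |θ|) (hθ2 : |θ| ≤ π) :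
    W t θ ≤ 1 / 8 := by
  have ht2 : 0 < t ^ 2 := by positivity
  have hτ1 : t ^ 2 ≤ 1 / 25600 := by
    calc t ^ 2 ≤ (1 / 160) ^ 2 := pow_le_pow_left₀ ht.le ht1 2
      _ = _ := by norm_num
  -- rewrite X in terms of x
  have hX : ∀ k : ℝ, t ^ 2 * X t θ k = 4 * Real.sin (k * θ / 2) ^ 2 := by
    intro k; unfold X; field_simp
  have hX' : ∀ k : ℝ, X t θ k = 4 * Real.sin (k * θ / 2) ^ 2 / t ^ 2 := by
    intro k; rfl
  have hx1 := hX 1
  rw [one_mul] at hx1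
  have h2 : X t θ 2 = X t θ 1 * (4 - t ^ 2 * X t θ 1) := by
    rw [hx1, hX' 2, sq2, hX' 1, one_mul]; ring
  have h3 : X t θ 3 = X t θ 1 * (3 - t ^ 2 * X t θ 1) ^ 2 := by
    rw [hx1, hX' 3, sq3, hX' 1, one_mul]; ring
  have hx2 := hX 2
  have h4 : X t θ 4 = X t θ 2 * (4 - t ^ 2 * X t θ 2) := by
    have e := sq2 (2 * θ)
    rw [hx2, hX' 4, hX' 2, show (4 : ℝ) * θ / 2 = 2 * (2 * θ) / 2 by ring, e]; ring
  have h5 : X t θ 5 = X t θ 1 * (5 - 5 * (t ^ 2 * X t θ 1) + (t ^ 2 * X t θ 1) ^ 2) ^ 2 := by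
    rw [hx1, hX' 5, sq5, hX' 1, one_mul]; ring
  have h10 : X t θ 10 = X t θ 2 * (5 - 5 * (t ^ 2 * X t θ 2) + (t ^ 2 * X t θ 2) ^ 2) ^ 2 := by
    have e := sq5 (2 * θ)
    rw [hx2, hX' 10, hX' 2, show (10 : ℝ) * θ / 2 = 5 * (2 * θ) / 2 by ring, e]; ring
  have hD4 : t ^ 2 * X t θ 1 ≤ 4 := by
    rw [hx1]; have := Real.sin_sq_le_one (θ / 2); linarith
  have hlow : 14 / 25 ≤ X t θ 1 := by
    rw [hX' 1, one_mul, le_div_iff₀ ht2]
    have hs : Real.sin (θ / 2) ^ 2 = Real.sin (|θ| / 2) ^ 2 := by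
      rcases abs_cases θ with ⟨h, _⟩ | ⟨h, _⟩
      · rw [h]
      · rw [h, neg_div, Real.sin_neg, neg_sq]
    rw [hs]
    have hmono : Real.sin (3 / 8 * t) ≤ Real.sin (|θ| / 2) := by
      apply Real.sin_le_sin_of_le_of_le_pi_div_two
      · have := Real.pi_pos; linarith
      · linarith
      · linarith
    have hs3 := Real.sin_gt_sub_cube (x := 3 / 8 * t) (by positivity)
    have hb : (3 / 8 * t) * (1 - 1 / 400) ≤ Real.sin (|θ| / 2) := by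
      have h7 : (3 / 8 * t) ^ 3 / 6 ≤ (3 / 8 * t) * (1 / 400) := by
        have : (3 / 8 * t) ^ 3 / 6 = (3 / 8 * t) * (9 / 384 * t ^ 2) := by ring
        rw [this]
        apply mul_le_mul_of_nonneg_left _ (by positivity)
        linarith
      linarith
    have hb2 : ((3 / 8 * t) * (1 - 1 / 400)) ^ 2 ≤ Real.sin (|θ| / 2) ^ 2 :=
      pow_le_pow_left₀ (by apply mul_nonneg (by positivity); norm_num) hb 2
    have : ((3 / 8 * t) * (1 - 1 / 400)) ^ 2 = 9 / 64 * (399 / 400) ^ 2 * t ^ 2 := by ring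
    rw [this] at hb2
    nlinarith
  exact W_real ht2 hτ1 hlow hD4 h2 h3 h4 h5 h10

/-- the minor arc bound -/
theorem minor_arc {t θ : ℝ} (ht : 0 < t) (ht1 : t ≤ 1 / 160) (hθ : 3 / 4 * t ≤ |θ|)
    (hθ2 : |θ| ≤ π) {L : ℂ} (hL : Tendsto (fun N => P N (q t θ)) atTop (𝓝 L)) :
    ‖L‖ ≤ Real.exp (5436 / 10000 / t + 5 / 8) := by
  refine (limit_bound ht hL).trans (Real.exp_le_exp.2 ?_)
  have h1 := UV_le ht ht1 θ
  have h2 := W_le ht ht1 hθ hθ2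
  have h3 : 1 / t * W t θ ≤ 1 / t * (1 / 8) := mul_le_mul_of_nonneg_left h2 (by positivity)
  have hpi : π ^ 2 ≤ 98697 / 10000 := by
    have := Real.pi_lt_d4
    have h0 := Real.pi_pos
    nlinarith
  have h4 : π ^ 2 / (24 * t) = 1 / t * (π ^ 2 / 24) := by field_simp
  have h5 : 131 / (4000 * t) = 1 / t * (131 / 4000) := by field_simp
  have h6 : 5436 / 10000 / t = 1 / t * (5436 / 10000) := by field_simp
  rw [h4, h5, h6]
  have h7 : 1 / t * (π ^ 2 / 24) ≤ 1 / t * (98697 / 240000) :=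
    mul_le_mul_of_nonneg_left (by linarith) (by positivity)
  have h8 : 0 < 1 / t := by positivity
  linarith

end K3h21.PP
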