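import Pool.Agent.K3h21.PP.QMain
import Pool.Agent.K3h21.PP.Minor5
import Pool.Agent.K3h21.PP.Cauchy

/-! The product `∏ (1 + q^j)`: limit function, Cauchy formula, minor arcs. -/

namespace K3h21.PQ

open Filter Topology MeasureTheory Set Finset
open K3h21.PP (cc re_w norm_w norm_ge_of_re den1 den2 norm_log_le norm_cc hf_pos trap normsq_cc cc_ne intOn_bound q norm_q
  poly_cauchy norm_osc e e_zero q_pow_re hasSum_e S S_approx fr X X_nonneg log_even X_zero S_app)

section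
variable {R : Type*} [CommRing R]

/-- generating polynomial of partitions into distinct parts `≤ N` -/
def Qn (N : ℕ) (x : R) : R := ∏ j ∈ range N, (1 + x ^ (j + 1))

end

/-- the products converge on the open disc -/
lemma Q_tendsto {q : ℂ} (hq : ‖q‖ < 1) : ∃ L : ℂ, Tendsto (fun N => Qn N q) atTop (𝓝 L) := by
  have hr0 : 0 ≤ ‖q‖ := norm_nonneg q
  have s1 : Summable (fun j : ℕ => ‖q ^ (j + 1)‖) := by
    have : (fun j : ℕ => ‖q ^ (j + 1)‖) = fun j : ℕ => ‖q‖ * ‖q‖ ^ j := by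
      ext j; rw [norm_pow, pow_succ']
    rw [this]
    exact (summable_geometric_of_lt_one hr0 hq).mul_left _
  exact ⟨_, (multipliable_one_add_of_summable s1).hasProd.tendsto_prod_nat⟩

/-- value on the main arc -/
theorem main_arc {t η : ℝ} (ht : 0 < t) (ht1 : t ≤ 1 / 128) (hη : |η| ≤ 3 / 4) {L : ℂ}
    (hL : Tendsto (fun N => Qn N (q t (η * t))) atTop (𝓝 L)) :
    ∃ ε : ℂ, ‖ε‖ ≤ 2 * t ∧
      L = Complex.exp (c2 / (t * cc η) - ((1 / 2 * Real.log 2 : ℝ) : ℂ) + ε) := by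
  obtain ⟨S, hS, hS2⟩ := main_sum ht ht1 hη
  refine ⟨S - (c2 / (t * cc η) - ((1 / 2 * Real.log 2 : ℝ) : ℂ)), hS2, ?_⟩
  rw [add_sub_cancel]
  have h1 : ∀ N, Qn N (q t (η * t)) = Complex.exp (∑ j ∈ range N, f ((t * (j + 1) : ℝ) * cc η)) := by
    intro N
    have hw : ∀ j : ℕ, q t (η * t) ^ (j + 1) = Complex.exp (-((t * (j + 1) : ℝ) * cc η)) := by
      intro j
      unfold q cc
      rw [← Complex.exp_nat_mul]
      congr 1; push_cast; ring
    have hp : ∀ j : ℕ, 0 < (1 + Complex.exp (-((t * (j + 1) : ℝ) * cc η))).re := by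
      intro j
      exact (hf_pos (x := t * (j + 1)) (by positivity) (by linarith)).1
    have hn1 : ∀ j : ℕ, 1 + Complex.exp (-((t * (j + 1) : ℝ) * cc η)) ≠ 0 := by
      intro j h; have := (hp j); rw [h] at this; simp at this
    rw [Complex.exp_sum]
    unfold Qn f
    apply prod_congr rfl
    intro j _
    rw [Complex.exp_log (hn1 j), hw]
  have h2 : Tendsto (fun N => Qn N (q t (η * t))) atTop (𝓝 (Complex.exp S)) := by
    simp_rw [h1]
    exact (Complex.continuous_exp.tendsto S).comp hS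
  exact tendsto_nhds_unique hL h2

/-- the limit function -/
noncomputable def Lf (t θ : ℝ) : ℂ := if h : 0 < t then
  Classical.choose (Q_tendsto (q := q t θ) (by rw [norm_q]; exact Real.exp_lt_one_iff.2 (by linarith))) else 0

lemma Lf_spec {t : ℝ} (ht : 0 < t) (θ : ℝ) : Tendsto (fun N => Qn N (q t θ)) atTop (𝓝 (Lf t θ)) := by
  unfold Lf
  rw [dif_pos ht]
  exact Classical.choose_spec (Q_tendsto (q := q t θ) (by rw [norm_q]; exact Real.exp_lt_one_iff.2 (by linarith)))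

lemma cont_Q (t : ℝ) (N : ℕ) : Continuous (fun θ : ℝ => Qn N (q t θ)) := by
  unfold Qn q
  fun_prop

lemma meas_Lf {t : ℝ} (ht : 0 < t) : Measurable (Lf t) := by
  apply measurable_of_tendsto_metrizable (f := fun N θ => Qn N (q t θ))
  · intro N; exact (cont_Q t N).measurable
  · rw [tendsto_pi_nhds]; exact fun θ => Lf_spec ht θ

/-- crude bound -/
noncomputable def Cb (t : ℝ) : ℝ := Real.exp (3 / (1 - Real.exp (-t)))

lemma Q_bound {t : ℝ} (ht : 0 < t) (θ : ℝ) (N : ℕ) : ‖Qn N (q t θ)‖ ≤ Cb t := by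
  unfold Cb Qn
  set r := Real.exp (-t) with hr
  have hr0 : 0 < r := Real.exp_pos _
  have hr1 : r < 1 := Real.exp_lt_one_iff.2 (by linarith)
  have hq : ‖q t θ‖ = r := norm_q t θ
  rw [norm_prod]
  have hg : ∀ M : ℕ, ∑ i ∈ range M, r ^ i ≤ 1 / (1 - r) := by
    intro M
    have := (summable_geometric_of_lt_one hr0.le hr1).sum_le_tsum (range M) (fun i _ => by positivity)
    rwa [tsum_geometric_of_lt_one hr0.le hr1, ← one_div] at this
  have a1 : ∏ j ∈ range N, ‖1 + q t θ ^ (j + 1)‖ ≤ ∏ j ∈ range N, Real.exp (r ^ j) := by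
    apply prod_le_prod (fun _ _ => norm_nonneg _)
    intro j _
    refine (norm_add_le _ _).trans ?_
    rw [norm_one, norm_pow, hq]
    have h2 : r ^ (j + 1) ≤ r ^ j := pow_le_pow_of_le_one hr0.le hr1.le (by omega)
    have := Real.add_one_le_exp (r ^ j)
    linarith
  refine a1.trans ?_
  rw [← Real.exp_sum, Real.exp_le_exp]
  refine (hg N).trans ?_
  have : 0 < 1 - r := by linarith
  gcongr
  norm_num

lemma Lf_bound {t : ℝ} (ht : 0 < t) (θ : ℝ) : ‖Lf t θ‖ ≤ Cb t :=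
  le_of_tendsto' (Lf_spec ht θ).norm (Q_bound ht θ)

/-- the integrand -/
noncomputable def integrand (t : ℝ) (n : ℕ) (θ : ℝ) : ℂ := Lf t θ * Complex.exp (-(n * θ) * Complex.I)

lemma integrand_int {t : ℝ} (ht : 0 < t) (n : ℕ) (a b : ℝ) :
    IntervalIntegrable (integrand t n) volume a b := by
  apply (intervalIntegrable_const (c := Cb t)).mono_fun
  · apply Measurable.aestronglyMeasurable
    unfold integrand
    exact (meas_Lf ht).mul (Continuous.measurable (by fun_prop))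
  · apply Eventually.of_forall
    intro θ
    show ‖integrand t n θ‖ ≤ ‖Cb t‖
    unfold integrand
    rw [norm_mul, norm_osc, mul_one]
    exact (Lf_bound ht θ).trans (le_abs_self _)

lemma coeff_formula {t : ℝ} (ht : 0 < t) {n : ℕ} {a : ℤ}
    (ha : ∀ N, n ≤ N → (Qn N (Polynomial.X : Polynomial ℤ)).coeff n = a) :
    ∫ θ in (-Real.pi)..Real.pi, integrand t n θ = 2 * Real.pi * (a * Real.exp (-t) ^ n) := by
  have h1 : ∀ N, n ≤ N → ∫ θ in (-Real.pi)..Real.pi, Qn N (q t θ) * Complex.exp (-(n * θ) * Complex.I)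
      = 2 * Real.pi * (a * Real.exp (-t) ^ n) := by
    intro N hN
    have h2 := poly_cauchy ((Qn N (Polynomial.X : Polynomial ℤ)).map (Int.castRingHom ℂ)) t n
    rw [Polynomial.coeff_map, ha N hN] at h2
    simp only [eq_intCast] at h2
    rw [← h2]
    congr 1
    ext θ
    congr 1
    unfold Qn
    simp [Polynomial.eval_prod, Polynomial.map_prod]
  have h2 : Tendsto (fun N => ∫ θ in (-Real.pi)..Real.pi, Qn N (q t θ) * Complex.exp (-(n * θ) * Complex.I))
      atTop (𝓝 (∫ θ in (-Real.pi)..Real.pi, integrand t n θ)) := by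
    apply intervalIntegral.tendsto_integral_filter_of_dominated_convergence (fun _ => Cb t)
    · apply Eventually.of_forall
      intro N
      apply Continuous.aestronglyMeasurable
      exact (cont_Q t N).mul (by fun_prop)
    · apply Eventually.of_forall
      intro N
      apply Eventually.of_forall
      intro θ _
      rw [norm_mul, norm_osc, mul_one]
      exact Q_bound ht θ N
    · exact intervalIntegrable_const
    · apply Eventually.of_forall
      intro θ _
      unfold integrand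
      exact (Lf_spec ht θ).mul_const _
  refine tendsto_nhds_unique h2 ?_
  refine tendsto_const_nhds.congr' ?_
  filter_upwards [eventually_ge_atTop n] with N hN
  exact (h1 N hN).symm


/-- log-free part -/
noncomputable def u (t θ : ℝ) (j : ℕ) : ℝ := -(1 / 2) * e t θ 4 0 j + e t θ 1 1 j - e t θ 3 1 j

lemma norm_le {t : ℝ} (ht : 0 < t) (θ : ℝ) (j : ℕ) :
    ‖1 + q t θ ^ (j + 1)‖ ≤ Real.exp (-(1 / 2) * Real.log (1 - Real.exp (-(2 * t * (j + 1))))
      + u t θ j) := by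
  set w := q t θ ^ (j + 1) with hw
  set a := Real.exp (-(2 * t * (j + 1))) with ha
  have haw : a = ‖w‖ ^ 2 := by
    rw [hw, norm_pow, norm_q, ← Real.exp_nat_mul, ← Real.exp_nat_mul, ha]
    congr 1; push_cast; ring
  have ha1 : a < 1 := by
    rw [ha]; apply Real.exp_lt_one_iff.2
    have : 0 < 2 * t * ((j : ℝ) + 1) := by positivity
    linarith
  have h : ‖1 + w‖ ^ 2 = 1 + 2 * w.re + a := by
    rw [haw, ← Complex.normSq_eq_norm_sq, ← Complex.normSq_eq_norm_sq, Complex.normSq_apply,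
      Complex.normSq_apply]
    simp only [Complex.add_re, Complex.add_im, Complex.one_re, Complex.one_im]
    ring
  have hu : (1 - a) * ‖1 + w‖ ^ 2 - 1 = 2 * u t θ j := by
    rw [h]
    unfold u
    have r := fun k i => q_pow_re t θ j k i
    rw [← hw, ← ha] at r
    have z := fun i => e_zero t θ j i
    rw [← ha] at z
    have r11 := r 1 0; have r13 := r 1 1
    have z2 := z 2
    norm_num at r11 r13 z2
    rw [← r11, ← r13, ← z2]
    ring
  have hx : (1 - a) * ‖1 + w‖ ^ 2 ≤ Real.exp (2 * u t θ j) := by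
    rw [← hu]
    have := Real.add_one_le_exp ((1 - a) * ‖1 + w‖ ^ 2 - 1)
    linarith
  have h1a : 0 < 1 - a := by linarith
  have hsq : ‖1 + w‖ ^ 2 ≤ (Real.exp (-(1 / 2) * Real.log (1 - a) + u t θ j)) ^ 2 := by
    rw [← Real.exp_nat_mul]
    have : ((2 : ℕ) : ℝ) * (-(1 / 2) * Real.log (1 - a) + u t θ j) = - Real.log (1 - a) + 2 * u t θ j := by
      push_cast; ring
    rw [this, Real.exp_add, Real.exp_neg, Real.exp_log h1a, ← div_eq_inv_mul, le_div_iff₀ h1a]
    linarith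
  exact (abs_le_of_sq_le_sq' hsq (Real.exp_nonneg _)).2

theorem limit_bound {t θ : ℝ} (ht : 0 < t) {L : ℂ}
    (hL : Tendsto (fun N => Qn N (q t θ)) atTop (𝓝 L)) :
    ‖L‖ ≤ Real.exp (Real.pi ^ 2 / (24 * t) + (-(1 / 2) * S (4 * t) (0 * θ) + S (1 * t) (1 * θ) - S (3 * t) (1 * θ))) := by
  have hsu : HasSum (u t θ) (-(1 / 2) * S (4 * t) (0 * θ) + S (1 * t) (1 * θ) - S (3 * t) (1 * θ)) := by
    have h := fun (m k : ℕ) (hm : 0 < m) => hasSum_e ht θ hm k
    have z1 := h 4 0 (by norm_num)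
    have a1 := h 1 1 (by norm_num); have a2 := h 3 1 (by norm_num)
    push_cast at z1 a1 a2
    exact ((z1.mul_left (-(1 / 2))).add a1).sub a2
  have h1 : ∀ N, ‖Qn N (q t θ)‖ ≤ Real.exp (Real.pi ^ 2 / (24 * t) + ∑ j ∈ range N, u t θ j) := by
    intro N
    unfold Qn
    rw [norm_prod]
    have k1 : ∏ j ∈ range N, ‖1 + q t θ ^ (j + 1)‖ ≤ ∏ j ∈ range N, Real.exp (-(1 / 2) *
        Real.log (1 - Real.exp (-(2 * t * (j + 1)))) + u t θ j) :=
      prod_le_prod (fun _ _ => norm_nonneg _) (fun j _ => norm_le ht θ j)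
    refine k1.trans ?_
    rw [← Real.exp_sum, Real.exp_le_exp, sum_add_distrib]
    have l1 := log_even t ht N
    linarith
  have h3 : Tendsto (fun N => Real.exp (Real.pi ^ 2 / (24 * t) + ∑ j ∈ range N, u t θ j)) atTop
      (𝓝 (Real.exp (Real.pi ^ 2 / (24 * t) + (-(1 / 2) * S (4 * t) (0 * θ) + S (1 * t) (1 * θ) - S (3 * t) (1 * θ))))) := by
    apply (Real.continuous_exp.tendsto _).comp
    exact tendsto_const_nhds.add hsu.tendsto_sum_nat
  exact le_of_tendsto_of_tendsto' hL.norm h3 h1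

lemma X_low {t θ : ℝ} (ht : 0 < t) (ht1 : t ≤ 1 / 128) (hθ : 3 / 4 * t ≤ |θ|) (hθ2 : |θ| ≤ Real.pi) :
    14 / 25 ≤ X t θ 1 := by
  have ht2 : 0 < t ^ 2 := by positivity
  have hτ1 : t ^ 2 ≤ 1 / 16384 := by
    calc t ^ 2 ≤ (1 / 128) ^ 2 := pow_le_pow_left₀ ht.le ht1 2
      _ = _ := by norm_num
  unfold X
  rw [one_mul, le_div_iff₀ ht2]
  have hs : Real.sin (θ / 2) ^ 2 = Real.sin (|θ| / 2) ^ 2 := by
    rcases abs_cases θ with ⟨h, _⟩ | ⟨h, _⟩
    · rw [h]
    · rw [h, neg_div, Real.sin_neg, neg_sq]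
  rw [hs]
  have hmono : Real.sin (3 / 8 * t) ≤ Real.sin (|θ| / 2) := by
    apply Real.sin_le_sin_of_le_of_le_pi_div_two
    · have := Real.pi_pos; linarith
    · linarith
    · linarith
  have hs3 := Real.sin_gt_sub_cube (x := 3 / 8 * t) (by positivity)
  have hb : (3 / 8 * t) * (1 - 1 / 400) ≤ Real.sin (|θ| / 2) := by
    have h7 : (3 / 8 * t) ^ 3 / 6 ≤ (3 / 8 * t) * (1 / 400) := by
      have : (3 / 8 * t) ^ 3 / 6 = (3 / 8 * t) * (9 / 384 * t ^ 2) := by ring
      rw [this]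
      apply mul_le_mul_of_nonneg_left _ (by positivity)
      linarith
    linarith
  have hb2 : ((3 / 8 * t) * (1 - 1 / 400)) ^ 2 ≤ Real.sin (|θ| / 2) ^ 2 :=
    pow_le_pow_left₀ (by apply mul_nonneg (by positivity); norm_num) hb 2
  have : ((3 / 8 * t) * (1 - 1 / 400)) ^ 2 = 9 / 64 * (399 / 400) ^ 2 * t ^ 2 := by ring
  rw [this] at hb2
  nlinarith

/-- the minor arc bound -/
theorem minor_arc {t θ : ℝ} (ht : 0 < t) (ht1 : t ≤ 1 / 128) (hθ : 3 / 4 * t ≤ |θ|)
    (hθ2 : |θ| ≤ Real.pi) {L : ℂ} (hL : Tendsto (fun N => Qn N (q t θ)) atTop (𝓝 L)) :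
    ‖L‖ ≤ Real.exp (6163 / 10000 / t + 3 / 10) := by
  refine (limit_bound ht hL).trans (Real.exp_le_exp.2 ?_)
  have hX := X_low ht ht1 hθ hθ2
  have z4 := abs_le.1 (S_app (θ := θ) (m := 4) (k := 0) ht (by norm_num) (by linarith))
  have a1 := abs_le.1 (S_app (θ := θ) (m := 1) (k := 1) ht (by norm_num) (by linarith))
  have a3 := abs_le.1 (S_app (θ := θ) (m := 3) (k := 1) ht (by norm_num) (by linarith))
  have w0 : fr (X t θ 0) 4 = 1 / 4 := by rw [X_zero]; unfold fr; norm_num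
  rw [w0] at z4
  have hfr : fr (X t θ 1) 1 - fr (X t θ 1) 3 ≤ 33 / 100 := by
    unfold fr
    set x := X t θ 1
    rw [div_sub_div _ _ (by nlinarith) (by nlinarith), div_le_div_iff₀ (by nlinarith) (by norm_num)]
    nlinarith
  have hpi : Real.pi ^ 2 ≤ 98697 / 10000 := by
    have := Real.pi_lt_d4
    have h0 := Real.pi_pos
    nlinarith
  have h4 : Real.pi ^ 2 / (24 * t) = 1 / t * (Real.pi ^ 2 / 24) := by field_simp
  have h6 : 6163 / 10000 / t = 1 / t * (6163 / 10000) := by field_simp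
  rw [h4, h6]
  have h8 : 0 < 1 / t := by positivity
  have h7 : 1 / t * (Real.pi ^ 2 / 24) ≤ 1 / t * (98697 / 240000) :=
    mul_le_mul_of_nonneg_left (by linarith) h8.le
  have h9 : 1 / t * (fr (X t θ 1) 1 - fr (X t θ 1) 3) ≤ 1 / t * (33 / 100) :=
    mul_le_mul_of_nonneg_left hfr h8.le
  generalize 1 / t = T at *
  obtain ⟨z4l, z4u⟩ := z4
  obtain ⟨a1l, a1u⟩ := a1
  obtain ⟨a3l, a3u⟩ := a3
  linarith

end K3h21.PQ
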