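import Pool.Agent.K3h21.PP.QSmall
import Pool.Agent.K3h21.PP.Comb2

/-! The number of partitions into distinct parts is the coefficient of `∏ (1 + x^j)`. -/

namespace K3h21.PQ

open Finset Filter Topology PowerSeries
open scoped PowerSeries.WithPiTopology

lemma map_Qn {R S : Type*} [CommRing R] [CommRing S] (φ : R →+* S) (M : ℕ) (x : R) :
    φ (Qn M x) = Qn M (φ x) := by
  unfold Qn
  rw [map_prod]
  apply prod_congr rfl; intro j _; simp

lemma Qn_coe (M : ℕ) : Qn M (X : ℤ⟦X⟧) = ((Qn M (Polynomial.X : Polynomial ℤ) : Polynomial ℤ) : ℤ⟦X⟧) := by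
  have h := map_Qn (Polynomial.coeToPowerSeries.ringHom (R := ℤ)) M Polynomial.X
  simp only [Polynomial.coeToPowerSeries.ringHom_apply, Polynomial.coe_X] at h
  exact h.symm

theorem card_distincts (n : ℕ) : ((Nat.Partition.distincts n).card : ℤ) = D n := by
  letI : TopologicalSpace ℤ := ⊥
  haveI : DiscreteTopology ℤ := ⟨rfl⟩
  have h := Nat.Partition.hasProd_powerSeriesMk_card_countRestricted ℤ (m := 2) two_pos
  have h1 := h.tendsto_prod_nat
  rw [PowerSeries.WithPiTopology.tendsto_iff_coeff_tendsto] at h1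
  have h2 := h1 n
  rw [PowerSeries.coeff_mk, Nat.Partition.countRestricted_two] at h2
  have h3 : Tendsto (fun N : ℕ => (PowerSeries.coeff n)
      (∏ i ∈ range N, ∑ j ∈ range 2, (X : ℤ⟦X⟧) ^ ((i + 1) * j))) atTop (𝓝 (D n)) := by
    apply tendsto_const_nhds.congr'
    filter_upwards [eventually_ge_atTop n] with N hN
    have e : ∏ i ∈ range N, ∑ j ∈ range 2, (X : ℤ⟦X⟧) ^ ((i + 1) * j) = Qn N (X : ℤ⟦X⟧) := by
      unfold Qn
      apply prod_congr rfl
      intro i _
      rw [sum_range_succ, sum_range_one, mul_zero, pow_zero, mul_one]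
    rw [e, Qn_coe, Polynomial.coeff_coe, coeff_stable hN]
  exact tendsto_nhds_unique h2 h3

end K3h21.PQ
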