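import Pool.Agent.K3h21.PP.QCauchy
import Pool.Agent.K3h21.PP.Large

/-! Lower bound for the number of partitions into distinct parts. -/

namespace K3h21.PQ

open Filter Topology MeasureTheory Set
open K3h21.PP (cc norm_cc normsq_cc cc_ne q norm_q norm_osc artanh_lower int_lower numA numB)

lemma log32_lower : 0.4 ≤ Real.log (3 / 2) := by
  rw [Real.le_log_iff_exp_le (by norm_num)]
  have h := Real.exp_bound' (x := 0.4) (by norm_num) (by norm_num) (n := 5) (by norm_num)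
  refine h.trans ?_
  simp only [Finset.sum_range_succ, Finset.sum_range_zero, Nat.factorial]
  norm_num

lemma h_int : IntegrableOn (fun x : ℝ => Real.log (1 + Real.exp (-x))) (Ioi 0) := by
  refine Integrable.mono' (integrableOn_exp_neg_Ioi 0) ?_ ?_
  · apply Measurable.aestronglyMeasurable; fun_prop
  · rw [ae_restrict_iff' measurableSet_Ioi]
    refine Eventually.of_forall fun x _ => ?_
    have h2 := Real.exp_pos (-x)
    rw [Real.norm_of_nonneg (Real.log_nonneg (by linarith))]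
    have := Real.log_le_sub_one_of_pos (x := 1 + Real.exp (-x)) (by positivity)
    linarith

theorem c2_lower : 0.8 ≤ c2 := by
  have hd : ∀ x ∈ Ioi (0 : ℝ), HasDerivAt (fun x : ℝ => -2 * Real.log (2 + Real.exp (-x)))
      (2 * (Real.exp (-x) / (2 + Real.exp (-x)))) x := by
    intro x _
    have h2 := Real.exp_pos (-x)
    have e : HasDerivAt (fun x : ℝ => 2 + Real.exp (-x)) (-Real.exp (-x)) x := by
      have := (hasDerivAt_neg x).exp.const_add 2
      simpa using this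
    have := (e.log (by positivity)).const_mul (-2)
    refine HasDerivAt.congr_deriv this ?_
    ring
  have hpos : ∀ x ∈ Ioi (0 : ℝ), 0 ≤ 2 * (Real.exp (-x) / (2 + Real.exp (-x))) := fun x _ => by positivity
  have hc : ContinuousWithinAt (fun x : ℝ => -2 * Real.log (2 + Real.exp (-x))) (Ici 0) 0 := by
    apply ContinuousAt.continuousWithinAt
    apply ContinuousAt.mul continuousAt_const
    apply ContinuousAt.log (by fun_prop)
    have := Real.exp_pos (-(0 : ℝ)); positivity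
  have hlim : Tendsto (fun x : ℝ => -2 * Real.log (2 + Real.exp (-x))) atTop (𝓝 (-2 * Real.log 2)) := by
    have h1 : Tendsto (fun x : ℝ => 2 + Real.exp (-x)) atTop (𝓝 (2 + 0)) :=
      Real.tendsto_exp_neg_atTop_nhds_zero.const_add 2
    rw [add_zero] at h1
    exact (h1.log (by norm_num)).const_mul (-2)
  have hI := integral_Ioi_of_hasDerivAt_of_nonneg hc hd hpos hlim
  have hint := integrableOn_Ioi_deriv_of_nonneg hc hd hpos hlim
  have h2 : ∫ x in Ioi (0 : ℝ), 2 * (Real.exp (-x) / (2 + Real.exp (-x))) ≤ c2 := by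
    unfold c2
    apply setIntegral_mono_on hint h_int measurableSet_Ioi
    intro x _
    have h2 := Real.exp_pos (-x)
    have h0 : 0 ≤ Real.exp (-x) / (2 + Real.exp (-x)) := by positivity
    have h1 : Real.exp (-x) / (2 + Real.exp (-x)) < 1 := by rw [div_lt_one (by positivity)]; linarith
    have h3 := artanh_lower h0 h1
    have e1 : 1 + Real.exp (-x) / (2 + Real.exp (-x)) = 2 * (1 + Real.exp (-x)) / (2 + Real.exp (-x)) := by
      field_simp; ring
    have e2 : 1 - Real.exp (-x) / (2 + Real.exp (-x)) = 2 / (2 + Real.exp (-x)) := by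
      field_simp; ring
    rw [e1, e2, ← Real.log_div (by positivity) (by positivity)] at h3
    have e3 : 2 * (1 + Real.exp (-x)) / (2 + Real.exp (-x)) / (2 / (2 + Real.exp (-x))) = 1 + Real.exp (-x) := by
      field_simp
    rw [e3] at h3
    have : 0 ≤ 2 / 3 * (Real.exp (-x) / (2 + Real.exp (-x))) ^ 3 := by positivity
    linarith
  rw [hI] at h2
  have e4 : -2 * Real.log 2 - -2 * Real.log (2 + Real.exp (-(0 : ℝ))) = 2 * Real.log (3 / 2) := by
    rw [neg_zero, Real.exp_zero, Real.log_div (by norm_num) (by norm_num)]; norm_num; ring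
  have h5 := log32_lower
  rw [e4] at h2
  linarith

theorem c2_upper : c2 ≤ 1 := by
  have h2 : c2 ≤ ∫ x in Ioi (0 : ℝ), Real.exp (-x) := by
    unfold c2
    apply setIntegral_mono_on h_int (integrableOn_exp_neg_Ioi 0) measurableSet_Ioi
    intro x _
    have := Real.log_le_sub_one_of_pos (x := 1 + Real.exp (-x)) (by positivity)
    linarith
  rw [integral_exp_neg_Ioi_zero] at h2
  exact h2

/-- data at the saddle point -/
structure Sad (n : ℕ) (t T Λ y : ℝ) : Prop where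
  t0 : 0 < t
  t1 : t ≤ 1 / 128
  tT : t * T = 1
  hΛ : Λ = n * t
  hΛ2 : Λ = c2 * T
  y0 : 0 < y
  hy : y ^ 6 = Λ
  y3 : 10 ≤ y ^ 3

lemma sad_exists {n : ℕ} (hn : 16384 ≤ n) : ∃ t T Λ y, Sad n t T Λ y := by
  have hcl := c2_lower
  have hcu := c2_upper
  have hn' : (16384 : ℝ) ≤ n := by exact_mod_cast hn
  have hn0 : (0 : ℝ) < n := by linarith
  set t := Real.sqrt (c2 / n) with ht
  have hq0 : 0 < c2 / n := by positivity
  have ht0 : 0 < t := Real.sqrt_pos.2 hq0
  have ht2 : t ^ 2 = c2 / n := Real.sq_sqrt hq0.le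
  have ht1 : t ≤ 1 / 128 := by
    apply Real.sqrt_le_iff.2
    constructor
    · norm_num
    · rw [div_le_iff₀ hn0]
      have : (1 / 128 : ℝ) ^ 2 * 16384 ≤ (1 / 128) ^ 2 * n := by
        apply mul_le_mul_of_nonneg_left hn' (by positivity)
      norm_num at this ⊢
      linarith
  set Λ := (n : ℝ) * t with hΛ
  have hΛ0 : 0 < Λ := by positivity
  have hΛ2 : Λ = c2 * (1 / t) := by
    rw [hΛ]
    have : (n : ℝ) * t ^ 2 = c2 := by rw [ht2]; field_simp
    field_simp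
    linarith
  have hΛsq : Λ ^ 2 = c2 * n := by
    rw [hΛ, mul_pow, ht2]; field_simp
  have hΛ100 : 100 ≤ Λ := by
    have : (100 : ℝ) ^ 2 ≤ Λ ^ 2 := by
      rw [hΛsq]
      have : (0.8 : ℝ) * 16384 ≤ c2 * n := mul_le_mul hcl hn' (by norm_num) (by linarith)
      norm_num at this ⊢
      linarith
    exact le_of_sq_le_sq this hΛ0.le
  refine ⟨t, 1 / t, Λ, Λ ^ ((1 : ℝ) / 6), ht0, ht1, by field_simp, hΛ, hΛ2, by positivity, ?_, ?_⟩
  · rw [← Real.rpow_natCast, ← Real.rpow_mul hΛ0.le]; norm_num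
  · have h1 : ((Λ ^ ((1 : ℝ) / 6)) ^ 3) ^ 2 = Λ := by
      rw [← pow_mul, ← Real.rpow_natCast, ← Real.rpow_mul hΛ0.le]; norm_num
    have h2 : (10 : ℝ) ^ 2 ≤ ((Λ ^ ((1 : ℝ) / 6)) ^ 3) ^ 2 := by rw [h1]; norm_num; exact hΛ100
    exact le_of_sq_le_sq h2 (by positivity)

/-- constant term -/
noncomputable def c0 : ℝ := 1 / 2 * Real.log 2

lemma c0_bounds : 0 ≤ c0 ∧ c0 ≤ 0.35 := by
  unfold c0
  have h1 := Real.log_two_lt_d9
  have h2 := Real.log_two_gt_d9
  constructor <;> linarith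

/-- the integrand on the main arc -/
lemma integrand_main {n : ℕ} {t T Λ y : ℝ} (h : Sad n t T Λ y) {η : ℝ} (hη : |η| ≤ 3 / 4) :
    ∃ a b : ℝ, |a| ≤ 2 * t ∧ |b| ≤ 2 * t ∧ (integrand t n (η * t)).re =
      Real.exp (Λ / (1 + η ^ 2) - c0 + a) * Real.cos (Λ * η ^ 3 / (1 + η ^ 2) + b) ∧
      ‖integrand t n (η * t)‖ = Real.exp (Λ / (1 + η ^ 2) - c0 + a) := by
  obtain ⟨ε, hε, hL⟩ := main_arc h.t0 h.t1 hη (Lf_spec h.t0 (η * t))
  have ht : (t : ℂ) ≠ 0 := by exact_mod_cast h.t0.ne'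
  have hd : (1 : ℝ) + η ^ 2 ≠ 0 := by positivity
  have hd' : (1 : ℂ) + (η : ℂ) ^ 2 ≠ 0 := by exact_mod_cast hd
  have hcc : cc η ≠ 0 := cc_ne η
  have hcu : (c2 : ℂ) = Λ * t := by
    have : c2 = Λ * t := by
      have h1 := h.hΛ2; have h2 := h.tT
      rw [h1, mul_assoc, mul_comm T t, h2, mul_one]
    rw [this]; push_cast; rfl
  have hn : (n : ℂ) * t = Λ := by
    have := h.hΛ
    rw [this]; push_cast; rfl
  have e1 : (c2 : ℂ) / (t * cc η) = ((Λ / (1 + η ^ 2) : ℝ) : ℂ) + ((Λ * η / (1 + η ^ 2) : ℝ) : ℂ) * Complex.I := by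
    rw [hcu]
    have e2 : cc η * (1 + η * Complex.I) = 1 + (η : ℂ) ^ 2 := by
      unfold cc; linear_combination (-(η : ℂ) ^ 2) * Complex.I_sq
    push_cast
    rw [div_eq_iff (mul_ne_zero ht hcc)]
    field_simp
    linear_combination -(Λ : ℂ) * e2
  have e3 : integrand t n (η * t) = Complex.exp (((Λ / (1 + η ^ 2) - c0 + ε.re : ℝ) : ℂ)
      + ((-(Λ * η ^ 3 / (1 + η ^ 2) + -ε.im) : ℝ) : ℂ) * Complex.I) := by
    unfold integrand
    rw [hL, ← Complex.exp_add]
    congr 1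
    rw [e1]
    have e4 : (-(n * ((η * t : ℝ) : ℂ)) * Complex.I : ℂ) = -((Λ * η : ℝ) : ℂ) * Complex.I := by
      push_cast; rw [← hn]; ring
    rw [e4]
    have e5 : ε = (ε.re : ℂ) + (ε.im : ℂ) * Complex.I := (Complex.re_add_im ε).symm
    have e6 : ((Λ * η / (1 + η ^ 2) : ℝ) : ℂ) = ((Λ * η : ℝ) : ℂ) - ((Λ * η ^ 3 / (1 + η ^ 2) : ℝ) : ℂ) := by
      rw [← Complex.ofReal_sub]; congr 1; field_simp; ring
    rw [e6]
    unfold c0
    conv_lhs => rw [e5]
    push_cast
    ring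
  refine ⟨ε.re, -ε.im, (Complex.abs_re_le_norm ε).trans hε, ?_, ?_, ?_⟩
  · rw [abs_neg]; exact (Complex.abs_im_le_norm ε).trans hε
  · rw [e3, Complex.exp_re]
    simp only [Complex.add_re, Complex.ofReal_re, Complex.mul_re, Complex.I_re, Complex.I_im,
      Complex.ofReal_im, Complex.add_im, Complex.mul_im]
    rw [show (Λ / (1 + η ^ 2) - c0 + ε.re + (-(Λ * η ^ 3 / (1 + η ^ 2) + -ε.im) * 0 - 0 * 1))
        = Λ / (1 + η ^ 2) - c0 + ε.re by ring,
      show (0 + (-(Λ * η ^ 3 / (1 + η ^ 2) + -ε.im) * 1 + 0 * 0))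
        = -(Λ * η ^ 3 / (1 + η ^ 2) + -ε.im) by ring, Real.cos_neg]
  · rw [e3, Complex.norm_exp]
    congr 1
    simp only [Complex.add_re, Complex.ofReal_re, Complex.mul_re, Complex.I_re, Complex.I_im,
      Complex.ofReal_im]
    ring

lemma exp_small {t : ℝ} (h1 : t ≤ 1 / 128) : Real.exp (2 * t) ≤ 1.016 := by
  have : Real.exp (2 * t) ≤ Real.exp (1 / 64) := Real.exp_le_exp.2 (by linarith)
  refine this.trans ?_
  have h := Real.exp_bound' (x := 1 / 64) (by norm_num) (by norm_num) (n := 2) (by norm_num)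
  refine h.trans ?_
  simp only [Finset.sum_range_succ, Finset.sum_range_zero, Nat.factorial]
  norm_num

/-- comparison of the main term with the minor arcs -/
lemma numC {n : ℕ} {t T Λ y : ℝ} (h : Sad n t T Λ y) :
    2 * Real.pi * Real.exp (6163 / 10000 / t + 3 / 10) ≤ t * (0.15 / y ^ 3) * Real.exp (Λ - c0) := by
  have ht := h.t0
  have hT : T = 1 / t := by have := h.tT; field_simp; linarith
  have hT0 : 0 < T := by rw [hT]; positivity
  have hy3 : 0 < y ^ 3 := by have := h.y0; positivity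
  have hB := numB h.y3
  have hc1 := c2_lower
  have hY2 : (y ^ 3) ^ 2 = Λ := by rw [← h.hy]; ring
  have hΛ100 : 100 ≤ Λ := by rw [← hY2]; have := h.y3; nlinarith
  rw [hY2] at hB
  have hT1 : T * 0.8 ≤ Λ := by rw [h.hΛ2]; nlinarith
  have hc0 := c0_bounds.2
  have key : 280 * (y ^ 3) ^ 3 ≤ Real.exp (Λ - c0 - (6163 / 10000 / t + 3 / 10)) := by
    have e1 : 6163 / 10000 / t = 6163 / 10000 * T := by rw [hT]; ring
    have e2 : (0.1147 * Λ - 0.835) + 11 ≤ Λ - c0 - (6163 / 10000 / t + 3 / 10) := by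
      rw [e1]; linarith
    have e3 := Real.add_one_le_exp (11 : ℝ)
    calc 280 * (y ^ 3) ^ 3 ≤ (27.1 * (y ^ 3) ^ 3) * 12 := by nlinarith [pow_pos hy3 3]
      _ ≤ Real.exp (0.1147 * Λ - 0.835) * Real.exp 11 := by
          apply mul_le_mul hB.le (by linarith) (by norm_num) (Real.exp_nonneg _)
      _ = Real.exp ((0.1147 * Λ - 0.835) + 11) := (Real.exp_add _ _).symm
      _ ≤ _ := Real.exp_le_exp.2 e2
  have e1 : Real.exp (Λ - c0) = Real.exp (Λ - c0 - (6163 / 10000 / t + 3 / 10)) *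
      Real.exp (6163 / 10000 / t + 3 / 10) := by
    rw [← Real.exp_add]; congr 1; ring
  rw [e1]
  have h6 := Real.exp_pos (6163 / 10000 / t + 3 / 10)
  have h7 : 2 * Real.pi ≤ t * (0.15 / y ^ 3) * Real.exp (Λ - c0 - (6163 / 10000 / t + 3 / 10)) := by
    have hpi := Real.pi_lt_d2
    have h8 : 2 * Real.pi * T * y ^ 3 / 0.15 ≤ 280 * (y ^ 3) ^ 3 := by
      rw [div_le_iff₀ (by norm_num)]
      have : (y ^ 3) ^ 3 = Λ * y ^ 3 := by rw [← hY2]; ring
      rw [this]
      have h9 : 2 * Real.pi * T ≤ 8 * Λ := by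
        have : 2 * Real.pi * T ≤ 6.3 * T := by nlinarith
        linarith
      nlinarith
    have h10 : 2 * Real.pi * T * y ^ 3 / 0.15 ≤ Real.exp (Λ - c0 - (6163 / 10000 / t + 3 / 10)) := h8.trans key
    have h11 : 2 * Real.pi = t * (0.15 / y ^ 3) * (2 * Real.pi * T * y ^ 3 / 0.15) := by
      have e2 : t * (0.15 / y ^ 3) * (2 * Real.pi * T * y ^ 3 / 0.15) = (t * T) * (2 * Real.pi) := by
        have hne := hy3.ne'
        generalize y ^ 3 = Y at hne
        field_simp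
      rw [e2, h.tT, one_mul]
    calc 2 * Real.pi = t * (0.15 / y ^ 3) * (2 * Real.pi * T * y ^ 3 / 0.15) := h11
      _ ≤ _ := mul_le_mul_of_nonneg_left h10 (by positivity)
  nlinarith

lemma re_int {t : ℝ} (ht : 0 < t) (n : ℕ) (a b : ℝ) :
    IntervalIntegrable (fun θ => (integrand t n θ).re) volume a b ∧
    ∫ θ in a..b, (integrand t n θ).re = (∫ θ in a..b, integrand t n θ).re := by
  have h := integrand_int ht n a b
  constructor
  · exact ⟨h.1.re, h.2.re⟩
  · exact Complex.reCLM.intervalIntegral_comp_comm h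

section
variable {n : ℕ} {t T Λ y : ℝ}

lemma Λ_pos (h : Sad n t T Λ y) : 0 < Λ := by rw [← h.hy]; have := h.y0; positivity

lemma lower_inner (h : Sad n t T Λ y) {η : ℝ} (hη : |η| ≤ 1 / y ^ 3) :
    0.35 * Real.exp (Λ - c0) ≤ (integrand t n (η * t)).re := by
  have hy3 := h.y3
  have hy0 := h.y0
  have hy3' : 0 < y ^ 3 := by positivity
  have h10 : 1 / y ^ 3 ≤ 1 / 10 := one_div_le_one_div_of_le (by norm_num) hy3
  obtain ⟨a, b, ha, hb, hre, -⟩ := integrand_main h (η := η) (by linarith)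
  rw [hre]
  have ht := h.t0
  have ht1 := h.t1
  have ha' := (abs_le.1 ha).1
  have hΛ := Λ_pos h
  have hΛη : Λ * η ^ 2 ≤ 1 := by
    have : η ^ 2 ≤ (1 / y ^ 3) ^ 2 := by rw [← sq_abs]; exact pow_le_pow_left₀ (abs_nonneg _) hη 2
    calc Λ * η ^ 2 ≤ Λ * (1 / y ^ 3) ^ 2 := mul_le_mul_of_nonneg_left this hΛ.le
      _ = 1 := by rw [← h.hy]; field_simp
  have e1 : Λ - 1 ≤ Λ / (1 + η ^ 2) := by
    rw [le_div_iff₀ (by positivity)]
    nlinarith [sq_nonneg η]
  have hphase : |Λ * η ^ 3 / (1 + η ^ 2) + b| ≤ 0.116 := by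
    refine (abs_add_le _ _).trans ?_
    have : |Λ * η ^ 3 / (1 + η ^ 2)| ≤ 0.1 := by
      rw [abs_div, abs_of_pos (by positivity : (0 : ℝ) < 1 + η ^ 2), div_le_iff₀ (by positivity)]
      have e : |Λ * η ^ 3| = Λ * η ^ 2 * |η| := by
        rw [abs_mul, abs_of_pos hΛ, abs_pow, pow_succ, sq_abs]; ring
      rw [e]
      have : Λ * η ^ 2 * |η| ≤ 1 * (1 / 10) := mul_le_mul hΛη (by linarith) (abs_nonneg _) (by norm_num)
      nlinarith [sq_nonneg η]
    have : |b| ≤ 0.015625 := by linarith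
    linarith
  have hcos : 0.993 ≤ Real.cos (Λ * η ^ 3 / (1 + η ^ 2) + b) := by
    have := Real.one_sub_sq_div_two_le_cos (x := Λ * η ^ 3 / (1 + η ^ 2) + b)
    have h2 : (Λ * η ^ 3 / (1 + η ^ 2) + b) ^ 2 ≤ 0.116 ^ 2 := by
      rw [← sq_abs]; exact pow_le_pow_left₀ (abs_nonneg _) hphase 2
    norm_num at h2 ⊢
    linarith
  have hexp : 0.36 * Real.exp (Λ - c0) ≤ Real.exp (Λ / (1 + η ^ 2) - c0 + a) := by
    have e2 : Real.exp (Λ - c0) * Real.exp (-1.015625) ≤ Real.exp (Λ / (1 + η ^ 2) - c0 + a) := by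
      rw [← Real.exp_add]; apply Real.exp_le_exp.2; linarith
    have e3 : 0.36 ≤ Real.exp (-1.015625) := by
      have e4 : Real.exp (-1.015625) = Real.exp (-1) * Real.exp (-0.015625) := by
        rw [← Real.exp_add]; norm_num
      have e5 := Real.exp_neg_one_gt_d9
      have e6 := Real.add_one_le_exp (-0.015625 : ℝ)
      rw [e4]
      calc (0.36 : ℝ) ≤ 0.3678 * 0.984 := by norm_num
        _ ≤ _ := mul_le_mul (by linarith) (by linarith) (by norm_num) (Real.exp_nonneg _)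
    have := Real.exp_pos (Λ - c0)
    nlinarith
  have := Real.exp_pos (Λ - c0)
  calc 0.35 * Real.exp (Λ - c0) ≤ (0.36 * Real.exp (Λ - c0)) * 0.993 := by nlinarith
    _ ≤ _ := mul_le_mul hexp hcos (by norm_num) (Real.exp_nonneg _)

lemma lower_mid (h : Sad n t T Λ y) {η : ℝ} (hη : |η| ≤ 8 / 7 / y ^ 2) :
    0 ≤ (integrand t n (η * t)).re := by
  have hy3 := h.y3
  have hy0 := h.y0
  have hy2 : 2 ≤ y := by
    by_contra hcon
    push Not at hcon
    have : y ^ 3 < 2 ^ 3 := pow_lt_pow_left₀ hcon hy0.le (by norm_num)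
    norm_num at this
    linarith
  have hη2 : |η| ≤ 3 / 4 := by
    refine hη.trans ?_
    rw [div_le_iff₀ (by positivity)]
    nlinarith
  obtain ⟨a, b, ha, hb, hre, -⟩ := integrand_main h hη2
  rw [hre]
  have ht := h.t0
  have ht1 := h.t1
  have hΛ := Λ_pos h
  apply mul_nonneg (Real.exp_nonneg _)
  apply Real.cos_nonneg_of_mem_Icc
  have hphase : |Λ * η ^ 3 / (1 + η ^ 2) + b| ≤ Real.pi / 2 := by
    refine (abs_add_le _ _).trans ?_
    have : |Λ * η ^ 3 / (1 + η ^ 2)| ≤ 512 / 343 := by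
      rw [abs_div, abs_of_pos (by positivity : (0 : ℝ) < 1 + η ^ 2), div_le_iff₀ (by positivity)]
      have e : |Λ * η ^ 3| = Λ * |η| ^ 3 := by
        rw [abs_mul, abs_of_pos hΛ, abs_pow]
      rw [e]
      have e2 : |η| ^ 3 ≤ (8 / 7 / y ^ 2) ^ 3 := pow_le_pow_left₀ (abs_nonneg _) hη 3
      have e3 : Λ * (8 / 7 / y ^ 2) ^ 3 = 512 / 343 := by
        rw [← h.hy]; field_simp; norm_num
      have e4 : Λ * |η| ^ 3 ≤ 512 / 343 := by
        rw [← e3]; exact mul_le_mul_of_nonneg_left e2 hΛ.le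
      nlinarith [sq_nonneg η]
    have hb' : |b| ≤ 0.015625 := by linarith
    have := Real.pi_gt_d2
    linarith
  exact abs_le.1 hphase

lemma upper_outer (h : Sad n t T Λ y) {η : ℝ} (hη : |η| ≤ 3 / 4) (hη2 : 8 / 7 / y ^ 2 ≤ |η|) :
    ‖integrand t n (η * t)‖ ≤ 1.016 * Real.exp (Λ - c0) * Real.exp (-(1024 / 1225 * y ^ 2)) := by
  have hy0 := h.y0
  obtain ⟨a, b, ha, hb, -, hnorm⟩ := integrand_main h hη
  rw [hnorm]
  have hΛ := Λ_pos h
  have h2t := exp_small h.t1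
  have ha' := (abs_le.1 ha).2
  have e1 : Λ / (1 + η ^ 2) ≤ Λ - 1024 / 1225 * y ^ 2 := by
    have h1 : (8 / 7 / y ^ 2) ^ 2 ≤ η ^ 2 := by
      rw [← sq_abs η]; exact pow_le_pow_left₀ (by positivity) hη2 2
    have h2 : η ^ 2 ≤ (3 / 4) ^ 2 := by rw [← sq_abs]; exact pow_le_pow_left₀ (abs_nonneg _) hη 2
    have h3 : Λ * (8 / 7 / y ^ 2) ^ 2 = 64 / 49 * y ^ 2 := by
      rw [← h.hy]; field_simp; norm_num
    have h4 : 64 / 49 * y ^ 2 ≤ Λ * η ^ 2 := by rw [← h3]; exact mul_le_mul_of_nonneg_left h1 hΛ.le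
    have h5 : Λ / (1 + η ^ 2) = Λ - Λ * η ^ 2 / (1 + η ^ 2) := by field_simp; ring
    rw [h5]
    have h6 : 1024 / 1225 * y ^ 2 ≤ Λ * η ^ 2 / (1 + η ^ 2) := by
      rw [le_div_iff₀ (by positivity)]
      have h7 : 1 + η ^ 2 ≤ 25 / 16 := by norm_num at h2 ⊢; linarith
      have h8 : 0 ≤ 1024 / 1225 * y ^ 2 := by positivity
      calc 1024 / 1225 * y ^ 2 * (1 + η ^ 2) ≤ 1024 / 1225 * y ^ 2 * (25 / 16) :=
            mul_le_mul_of_nonneg_left h7 h8
        _ = 64 / 49 * y ^ 2 := by ring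
        _ ≤ _ := h4
    linarith
  calc Real.exp (Λ / (1 + η ^ 2) - c0 + a) ≤ Real.exp (2 * t + (Λ - c0) + (-(1024 / 1225 * y ^ 2))) := by
        apply Real.exp_le_exp.2; linarith
    _ = Real.exp (2 * t) * Real.exp (Λ - c0) * Real.exp (-(1024 / 1225 * y ^ 2)) := by
        rw [Real.exp_add, Real.exp_add]
    _ ≤ _ := by
        apply mul_le_mul_of_nonneg_right _ (Real.exp_nonneg _)
        apply mul_le_mul_of_nonneg_right h2t (Real.exp_nonneg _)

lemma upper_minor (h : Sad n t T Λ y) {θ : ℝ} (hθ : 3 / 4 * t ≤ |θ|) (hθ2 : |θ| ≤ Real.pi) :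
    ‖integrand t n θ‖ ≤ Real.exp (6163 / 10000 / t + 3 / 10) := by
  unfold integrand
  rw [norm_mul, norm_osc, mul_one]
  exact minor_arc h.t0 h.t1 hθ hθ2 (Lf_spec h.t0 θ)

end

/-- lower bound -/
theorem q_lower {n : ℕ} {t T Λ y : ℝ} (h : Sad n t T Λ y) {a : ℤ}
    (ha : ∀ N, n ≤ N → (Qn N (Polynomial.X : Polynomial ℤ)).coeff n = a) :
    t * (0.2 / y ^ 3) * Real.exp (2 * Λ - c0) ≤ 2 * Real.pi * a := by
  have ht := h.t0
  have hy0 := h.y0
  have hy3 := h.y3
  have hy2 : 2 ≤ y := by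
    by_contra hcon
    push Not at hcon
    have : y ^ 3 < 2 ^ 3 := pow_lt_pow_left₀ hcon hy0.le (by norm_num)
    norm_num at this
    linarith
  have hf := coeff_formula ht ha
  set g : ℝ → ℝ := fun θ => (integrand t n θ).re with hg
  have hint : ∀ a b, IntervalIntegrable g volume a b := fun a b => (re_int ht n a b).1
  set A0 := 1 / y ^ 3 * t with hA0
  set A1 := 8 / 7 / y ^ 2 * t with hA1
  set A2 := 3 / 4 * t with hA2
  set M := Real.exp (6163 / 10000 / t + 3 / 10) with hM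
  set Ex := Real.exp (Λ - c0) with hEx
  set K := 1.016 * Ex * Real.exp (-(1024 / 1225 * y ^ 2)) with hK
  have hpi := Real.pi_gt_d2
  have ht1 := h.t1
  have h00 : 0 < A0 := by positivity
  have h01 : A0 ≤ A1 := by
    apply mul_le_mul_of_nonneg_right _ ht.le
    rw [div_le_div_iff₀ (by positivity) (by positivity)]
    nlinarith [pow_pos hy0 2]
  have h12 : A1 ≤ A2 := by
    apply mul_le_mul_of_nonneg_right _ ht.le
    rw [div_le_iff₀ (by positivity)]
    nlinarith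
  have h23 : A2 ≤ Real.pi := by
    have : A2 ≤ 3 / 4 * (1 / 128) := by
      apply mul_le_mul_of_nonneg_left ht1 (by norm_num)
    linarith
  have hηθ : ∀ θ : ℝ, θ / t * t = θ := fun θ => by field_simp
  have habs : ∀ θ : ℝ, |θ / t| = |θ| / t := fun θ => by rw [abs_div, abs_of_pos ht]
  have b0 : ∀ θ, |θ| ≤ A0 → 0.35 * Ex ≤ g θ := by
    intro θ hθ
    have := lower_inner h (η := θ / t) (by rw [habs, div_le_iff₀ ht]; exact hθ)
    rwa [hηθ] at this
  have b1 : ∀ θ, |θ| ≤ A1 → 0 ≤ g θ := by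
    intro θ hθ
    have := lower_mid h (η := θ / t) (by rw [habs, div_le_iff₀ ht]; exact hθ)
    rwa [hηθ] at this
  have b2 : ∀ θ, |θ| ≤ A2 → A1 ≤ |θ| → -K ≤ g θ := by
    intro θ hθ hθ'
    have := upper_outer h (η := θ / t) (by rw [habs, div_le_iff₀ ht]; exact hθ)
      (by rw [habs, le_div_iff₀ ht]; exact hθ')
    rw [hηθ] at this
    have h2 := (abs_le.1 (Complex.abs_re_le_norm (integrand t n θ))).1
    linarith
  have b3 : ∀ θ, |θ| ≤ Real.pi → A2 ≤ |θ| → -M ≤ g θ := by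
    intro θ hθ hθ'
    have := upper_minor h hθ' hθ
    have h2 := (abs_le.1 (Complex.abs_re_le_norm (integrand t n θ))).1
    linarith
  -- the pieces
  have i1 := int_lower (h := g) (a := -Real.pi) (b := -A2) (c := -M) (by linarith) (hint _ _)
    (fun x hx => b3 x (abs_le.2 ⟨hx.1, by linarith [hx.2]⟩) (by rw [abs_of_nonpos (by linarith [hx.2])]; linarith [hx.2]))
  have i2 := int_lower (h := g) (a := -A2) (b := -A1) (c := -K) (by linarith) (hint _ _)
    (fun x hx => b2 x (abs_le.2 ⟨hx.1, by linarith [hx.2]⟩) (by rw [abs_of_nonpos (by linarith [hx.2])]; linarith [hx.2]))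
  have i3 := int_lower (h := g) (a := -A1) (b := -A0) (c := 0) (by linarith) (hint _ _)
    (fun x hx => b1 x (abs_le.2 ⟨hx.1, by linarith [hx.2]⟩))
  have i4 := int_lower (h := g) (a := -A0) (b := A0) (c := 0.35 * Ex) (by linarith) (hint _ _)
    (fun x hx => b0 x (abs_le.2 ⟨hx.1, hx.2⟩))
  have i5 := int_lower (h := g) (a := A0) (b := A1) (c := 0) (by linarith) (hint _ _)
    (fun x hx => b1 x (abs_le.2 ⟨by linarith [hx.1], hx.2⟩))
  have i6 := int_lower (h := g) (a := A1) (b := A2) (c := -K) (by linarith) (hint _ _)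
    (fun x hx => b2 x (abs_le.2 ⟨by linarith [hx.1], hx.2⟩) (by rw [abs_of_nonneg (by linarith [hx.1])]; exact hx.1))
  have i7 := int_lower (h := g) (a := A2) (b := Real.pi) (c := -M) (by linarith) (hint _ _)
    (fun x hx => b3 x (abs_le.2 ⟨by linarith [hx.1], hx.2⟩) (by rw [abs_of_nonneg (by linarith [hx.1])]; exact hx.1))
  have hsum : ∫ θ in (-Real.pi)..Real.pi, g θ = (∫ θ in (-Real.pi)..(-A2), g θ) + (∫ θ in (-A2)..(-A1), g θ)
      + (∫ θ in (-A1)..(-A0), g θ) + (∫ θ in (-A0)..A0, g θ) + (∫ θ in A0..A1, g θ) + (∫ θ in A1..A2, g θ)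
      + (∫ θ in A2..Real.pi, g θ) := by
    rw [intervalIntegral.integral_add_adjacent_intervals (hint _ _) (hint _ _),
      intervalIntegral.integral_add_adjacent_intervals (hint _ _) (hint _ _),
      intervalIntegral.integral_add_adjacent_intervals (hint _ _) (hint _ _),
      intervalIntegral.integral_add_adjacent_intervals (hint _ _) (hint _ _),
      intervalIntegral.integral_add_adjacent_intervals (hint _ _) (hint _ _),
      intervalIntegral.integral_add_adjacent_intervals (hint _ _) (hint _ _)]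
  have hM0 : 0 < M := Real.exp_pos _
  have hEx0 : 0 < Ex := Real.exp_pos _
  have hK0 : 0 ≤ K := by positivity
  have hnA := numA hy0 hy3
  have hnC := numC h
  rw [← hM, ← hEx] at hnC
  have hKt : 2 * (K * A2) ≤ t * (0.35 / y ^ 3) * Ex := by
    have e1 : 2 * (K * A2) = 1.524 * Real.exp (-(1024 / 1225 * y ^ 2)) * (t * Ex) := by
      rw [hK, hA2]; ring
    rw [e1]
    have e2 := Real.exp_pos (-(1024 / 1225 * y ^ 2))
    have e3 : 1.524 * Real.exp (-(1024 / 1225 * y ^ 2)) ≤ 0.35 / y ^ 3 := by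
      have e4 : (0.35 : ℝ) / y ^ 3 = (35 / 34) * (0.34 / y ^ 3) := by ring
      rw [e4]
      linarith
    calc _ ≤ 0.35 / y ^ 3 * (t * Ex) := mul_le_mul_of_nonneg_right e3 (by positivity)
      _ = _ := by ring
  have hpos : t * (0.2 / y ^ 3) * Ex ≤ ∫ θ in (-Real.pi)..Real.pi, g θ := by
    rw [hsum]
    have e0 : 0.35 * Ex * (A0 - -A0) = t * (0.70 / y ^ 3) * Ex := by rw [hA0]; ring
    rw [e0] at i4
    have e4 : t * (0.70 / y ^ 3) * Ex = t * (0.35 / y ^ 3) * Ex + t * (0.15 / y ^ 3) * Ex + t * (0.2 / y ^ 3) * Ex := by ring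
    have e5 : -K * (-A1 - -A2) ≥ -(K * A2) := by
      have : 0 ≤ K * A1 := mul_nonneg hK0 (by linarith)
      linarith
    have e6 : -K * (A2 - A1) ≥ -(K * A2) := by
      have : 0 ≤ K * A1 := mul_nonneg hK0 (by linarith)
      linarith
    have e7 : -M * (-A2 - -Real.pi) ≥ -(Real.pi * M) := by
      have : 0 ≤ M * A2 := mul_nonneg hM0.le (by linarith)
      linarith
    have e8 : -M * (Real.pi - A2) ≥ -(Real.pi * M) := by
      have : 0 ≤ M * A2 := mul_nonneg hM0.le (by linarith)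
      linarith
    linarith
  rw [(re_int ht n _ _).2, hf] at hpos
  have e9 : (2 * (Real.pi : ℂ) * ((a : ℂ) * (Real.exp (-t) : ℂ) ^ n)).re
      = 2 * Real.pi * (a * Real.exp (-t) ^ n) := by
    rw [← Complex.ofReal_re (2 * Real.pi * (a * Real.exp (-t) ^ n))]
    congr 1
    push_cast
    rfl
  rw [e9] at hpos
  have h4 : Real.exp (-t) ^ n * Real.exp Λ = 1 := by
    rw [← Real.exp_nat_mul, ← Real.exp_add, h.hΛ]; simp
  have h5 := mul_le_mul_of_nonneg_right hpos (Real.exp_nonneg Λ)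
  calc t * (0.2 / y ^ 3) * Real.exp (2 * Λ - c0) = t * (0.2 / y ^ 3) * Ex * Real.exp Λ := by
        rw [hEx, mul_assoc (t * (0.2 / y ^ 3)), ← Real.exp_add]; congr 2; ring
    _ ≤ 2 * Real.pi * (a * Real.exp (-t) ^ n) * Real.exp Λ := h5
    _ = 2 * Real.pi * a * (Real.exp (-t) ^ n * Real.exp Λ) := by ring
    _ = 2 * Real.pi * a := by rw [h4, mul_one]

end K3h21.PQ
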