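import Pool.Agent.K3h21.PP.Main3

/-! The factor `1 + q^j` in a sector. -/

namespace K3h21.PQ

open Filter Topology MeasureTheory Set Finset
open K3h21.PP (cc re_w norm_w norm_ge_of_re den1 den2 norm_log_le norm_cc hf_pos trap normsq_cc cc_ne intOn_bound E P q norm_q)

/-- logarithm of the factor -/
noncomputable def f (u : ℂ) : ℂ := Complex.log (1 + Complex.exp (-u))

noncomputable def f' (u : ℂ) : ℂ := -Complex.exp (-u) / (1 + Complex.exp (-u))

noncomputable def f'' (u : ℂ) : ℂ := Complex.exp (-u) / (1 + Complex.exp (-u)) ^ 2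

lemma hasDerivAt_f {u : ℂ} (h1 : 0 < (1 + Complex.exp (-u)).re) :
    HasDerivAt f (f' u) u := by
  have e : HasDerivAt (fun u : ℂ => Complex.exp (-u)) (-Complex.exp (-u)) u := by
    simpa using (hasDerivAt_neg u).cexp
  have a1 := (e.const_add 1).clog (Or.inl h1)
  exact a1

lemma hasDerivAt_f' {u : ℂ} (h1 : 0 < (1 + Complex.exp (-u)).re) :
    HasDerivAt f' (f'' u) u := by
  have e : HasDerivAt (fun u : ℂ => Complex.exp (-u)) (-Complex.exp (-u)) u := by
    simpa using (hasDerivAt_neg u).cexp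
  have n1 : 1 + Complex.exp (-u) ≠ 0 := by
    intro h; rw [h] at h1; simp at h1
  have a1 := e.neg.div (e.const_add 1) n1
  refine HasDerivAt.congr_deriv a1 ?_
  unfold f''
  simp only [Pi.neg_apply]
  field_simp
  ring

lemma norm_f' {x η : ℝ} (hx : 0 ≤ x) (hη : |η| ≤ 4 / 5) : ‖f' (x * cc η)‖ ≤ 2 * Real.exp (-x) := by
  unfold f'
  rw [norm_div, norm_neg, norm_w]
  have h1 := norm_ge_of_re (den1 hx hη)
  rw [div_le_iff₀ (by linarith)]
  have := Real.exp_pos (-x)
  nlinarith

lemma norm_f'' {x η : ℝ} (hx : 0 ≤ x) (hη : |η| ≤ 4 / 5) : ‖f'' (x * cc η)‖ ≤ 9 * Real.exp (-x) := by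
  unfold f''
  rw [norm_div, norm_pow, norm_w]
  have h1 := norm_ge_of_re (den1 hx hη)
  have h4 : ((6 / 7 : ℝ)) ^ 2 ≤ (‖1 + Complex.exp (-(x * cc η))‖) ^ 2 :=
    pow_le_pow_left₀ (by norm_num) h1 2
  rw [div_le_iff₀ (by positivity)]
  have := Real.exp_pos (-x)
  norm_num at h4
  nlinarith

lemma norm_f {x η : ℝ} (hx : 0 ≤ x) (hη : |η| ≤ 4 / 5) : ‖f (x * cc η)‖ ≤ 5 * Real.exp (-x) := by
  unfold f
  have h := re_w hx hη
  have h1 := norm_log_le (z := Complex.exp (-(x * cc η))) (by linarith)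
  rw [norm_w] at h1
  have := Real.exp_pos (-x)
  linarith

lemma hasDerivAt_ray {x η : ℝ} (hx : 0 ≤ x) (hη : |η| ≤ 4 / 5) :
    HasDerivAt (fun x : ℝ => f (x * cc η)) (cc η * f' (x * cc η)) x := by
  have h := (hf_pos hx hη).1
  have h1 : HasDerivAt (fun y : ℂ => f (y * cc η)) (f' (x * cc η) * cc η) x := by
    have h2 : HasDerivAt (fun y : ℂ => y * cc η) (cc η) (x : ℂ) := by
      simpa using (hasDerivAt_id (x : ℂ)).mul_const (cc η)
    have h4 := HasDerivAt.comp (h₂ := f) (x : ℂ) (hasDerivAt_f h) h2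
    exact h4
  have := h1.comp_ofReal
  rwa [mul_comm (f' _)] at this

lemma hasDerivAt_ray' {x η : ℝ} (hx : 0 ≤ x) (hη : |η| ≤ 4 / 5) :
    HasDerivAt (fun x : ℝ => f' (x * cc η)) (cc η * f'' (x * cc η)) x := by
  have h := (hf_pos hx hη).1
  have h1 : HasDerivAt (fun y : ℂ => f' (y * cc η)) (f'' (x * cc η) * cc η) x := by
    have h2 : HasDerivAt (fun y : ℂ => y * cc η) (cc η) (x : ℂ) := by
      simpa using (hasDerivAt_id (x : ℂ)).mul_const (cc η)
    have h4 := HasDerivAt.comp (h₂ := f') (x : ℂ) (hasDerivAt_f' h) h2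
    exact h4
  have := h1.comp_ofReal
  rwa [mul_comm (f'' _)] at this

lemma contOn_f {η : ℝ} (hη : |η| ≤ 4 / 5) : ContinuousOn (fun x : ℝ => f (x * cc η)) (Set.Ici 0) :=
  fun x hx => (hasDerivAt_ray hx hη).continuousAt.continuousWithinAt

lemma contOn_f' {η : ℝ} (hη : |η| ≤ 4 / 5) : ContinuousOn (fun x : ℝ => f' (x * cc η)) (Set.Ici 0) :=
  fun x hx => (hasDerivAt_ray' hx hη).continuousAt.continuousWithinAt

lemma contOn_f'' {η : ℝ} (hη : |η| ≤ 4 / 5) : ContinuousOn (fun x : ℝ => f'' (x * cc η)) (Set.Ici 0) := by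
  unfold f''
  apply ContinuousOn.div
  · fun_prop
  · fun_prop
  · intro x hx
    have h := (hf_pos (x := x) (mem_Ici.1 hx) hη).1
    have n1 : 1 + Complex.exp (-(x * cc η)) ≠ 0 := by
      intro h'; rw [h'] at h; simp at h
    exact pow_ne_zero _ n1

lemma intOn_f {η : ℝ} (hη : |η| ≤ 4 / 5) : IntegrableOn (fun x : ℝ => f (x * cc η)) (Set.Ioi 0) := by
  refine Integrable.mono' ((integrableOn_exp_neg_Ioi 0).const_mul 5)
    (((contOn_f hη).mono Set.Ioi_subset_Ici_self).aestronglyMeasurable measurableSet_Ioi) ?_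
  rw [ae_restrict_iff' measurableSet_Ioi]
  exact Eventually.of_forall fun x hx => norm_f (le_of_lt hx) hη

/-- derivative in the angle -/
lemma hasDerivAt_angle {x η : ℝ} (hx : 0 ≤ x) (hη : |η| ≤ 4 / 5) :
    HasDerivAt (fun y : ℝ => cc y * f (x * cc y))
      (-Complex.I * (f (x * cc η) + x * (cc η * f' (x * cc η)))) η := by
  have h := (hf_pos hx hη).1
  have e1 : HasDerivAt (fun y : ℂ => 1 - y * Complex.I) (-Complex.I) (η : ℂ) := by
    have := ((hasDerivAt_id (η : ℂ)).mul_const Complex.I).const_sub 1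
    simpa using this
  have e2 : HasDerivAt (fun y : ℂ => (x : ℂ) * (1 - y * Complex.I)) ((x : ℂ) * -Complex.I) (η : ℂ) :=
    e1.const_mul _
  have h' : HasDerivAt f (f' (x * cc η)) ((fun y : ℂ => (x : ℂ) * (1 - y * Complex.I)) (η : ℂ)) :=
    hasDerivAt_f h
  have e3 : HasDerivAt (fun y : ℂ => f ((x : ℂ) * (1 - y * Complex.I)))
      (f' (x * cc η) * (x * -Complex.I)) (η : ℂ) := by
    have := HasDerivAt.comp (η : ℂ) h' e2
    exact this
  have e4 := (e1.mul e3).comp_ofReal
  refine HasDerivAt.congr_deriv e4 ?_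
  unfold cc
  ring

lemma angle_bound {x η : ℝ} (hx : 0 ≤ x) (hη : |η| ≤ 4 / 5) :
    ‖-Complex.I * (f (x * cc η) + x * (cc η * f' (x * cc η)))‖ ≤ 6 * Real.exp (-(1 / 2) * x) := by
  rw [norm_mul, norm_neg, Complex.norm_I, one_mul]
  refine (norm_add_le _ _).trans ?_
  rw [norm_mul, norm_mul, Complex.norm_real, Real.norm_of_nonneg hx]
  have h1 := norm_f hx hη
  have h2 := norm_f' hx hη
  have h3 := norm_cc hη
  have h4 : ‖cc η‖ * ‖f' (x * cc η)‖ ≤ 3 / 2 * (2 * Real.exp (-x)) :=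
    mul_le_mul h3 h2 (norm_nonneg _) (by norm_num)
  have h5 : x * (‖cc η‖ * ‖f' (x * cc η)‖) ≤ x * (3 / 2 * (2 * Real.exp (-x))) :=
    mul_le_mul_of_nonneg_left h4 hx
  have h6 : Real.exp (-x) = Real.exp (-(1 / 2) * x) * Real.exp (-(1 / 2) * x) := by
    rw [← Real.exp_add]; congr 1; ring
  have h7 := Real.add_one_le_exp (1 / 2 * x)
  have h8 : Real.exp (-(1 / 2) * x) * Real.exp (1 / 2 * x) = 1 := by
    rw [← Real.exp_add]; simp
  have h9 := Real.exp_pos (-(1 / 2) * x)
  set y := Real.exp (-(1 / 2) * x)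
  have h10 : y * (1 / 2 * x + 1) ≤ 1 :=
    (mul_le_mul_of_nonneg_left h7 h9.le).trans h8.le
  have h11 : 5 * Real.exp (-x) + x * (3 / 2 * (2 * Real.exp (-x))) = y * (6 * (y * (1 / 2 * x + 1)) - y) := by
    rw [h6]; ring
  have h12 : y * (6 * (y * (1 / 2 * x + 1)) - y) ≤ y * 6 := by
    apply mul_le_mul_of_nonneg_left _ h9.le; linarith
  linarith

lemma deriv_J {η : ℝ} (hη : |η| ≤ 3 / 4) :
    HasDerivAt (fun y : ℝ => ∫ x in Set.Ioi (0 : ℝ), cc y * f (x * cc y)) 0 η := by
  have hη' : |η| ≤ 4 / 5 := by linarith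
  have hball : ∀ y ∈ Metric.ball η (1 / 20), |y| ≤ 4 / 5 := by
    intro y hy
    rw [Metric.mem_ball, Real.dist_eq] at hy
    have := abs_add_le (y - η) η
    rw [sub_add_cancel] at this
    linarith
  have main := hasDerivAt_integral_of_dominated_loc_of_deriv_le
    (μ := volume.restrict (Set.Ioi (0 : ℝ))) (s := Metric.ball η (1 / 20))
    (F := fun (y : ℝ) (x : ℝ) => cc y * f (x * cc y)) (x₀ := η)
    (F' := fun (y : ℝ) (x : ℝ) => -Complex.I * (f (x * cc y) + x * (cc y * f' (x * cc y))))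
    (bound := fun x => 6 * Real.exp (-(1 / 2) * x))
    (Metric.ball_mem_nhds _ (by norm_num)) ?_ ?_ ?_ ?_ intOn_bound ?_
  · obtain ⟨h1, h2⟩ := main
    have h3 : (∫ (x : ℝ) in Set.Ioi 0, -Complex.I * (f (x * cc η) + x * (cc η * f' (x * cc η)))) = 0 := by
      -- the integral of the derivative of x f(x c)
      have hd : ∀ x ∈ Set.Ioi (0 : ℝ), HasDerivAt (fun x : ℝ => -Complex.I * ((x : ℂ) * f (x * cc η)))
          (-Complex.I * (f (x * cc η) + x * (cc η * f' (x * cc η)))) x := by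
        intro x hx
        have a1 : HasDerivAt (fun x : ℝ => (x : ℂ)) 1 x := by
          simpa using (hasDerivAt_id x).ofReal_comp
        have := (a1.mul (hasDerivAt_ray (le_of_lt hx) hη')).const_mul (-Complex.I)
        simpa using this
      have hc : ContinuousWithinAt (fun x : ℝ => -Complex.I * ((x : ℂ) * f (x * cc η))) (Set.Ici 0) 0 := by
        apply ContinuousWithinAt.mul continuousWithinAt_const
        apply ContinuousWithinAt.mul (Complex.continuous_ofReal.continuousWithinAt)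
        exact contOn_f hη' 0 (mem_Ici.2 le_rfl)
      have hlim : Tendsto (fun x : ℝ => -Complex.I * ((x : ℂ) * f (x * cc η))) atTop (𝓝 0) := by
        rw [← mul_zero (-Complex.I)]
        apply Tendsto.const_mul
        apply squeeze_zero_norm' (a := fun x : ℝ => 5 * (x ^ 1 * Real.exp (-x)))
        · filter_upwards [eventually_ge_atTop 0] with x hx
          rw [norm_mul, Complex.norm_real, Real.norm_of_nonneg hx]
          have := norm_f hx hη'
          nlinarith
        · have := (Real.tendsto_pow_mul_exp_neg_atTop_nhds_zero 1).const_mul 5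
          simpa using this
      have := integral_Ioi_of_hasDerivAt_of_tendsto hc hd h1 hlim
      rw [this]; simp
    rw [h3] at h2
    exact h2
  · filter_upwards [Metric.ball_mem_nhds η (by norm_num : (0 : ℝ) < 1 / 20)] with y hy
    exact (((contOn_f (hball y hy)).mono Set.Ioi_subset_Ici_self).aestronglyMeasurable measurableSet_Ioi).const_mul _
  · exact (intOn_f hη').const_mul _
  · apply ContinuousOn.aestronglyMeasurable _ measurableSet_Ioi
    apply ContinuousOn.mul continuousOn_const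
    apply ContinuousOn.add ((contOn_f hη').mono Set.Ioi_subset_Ici_self)
    apply ContinuousOn.mul Complex.continuous_ofReal.continuousOn
    exact ContinuousOn.mul continuousOn_const ((contOn_f' hη').mono Set.Ioi_subset_Ici_self)
  · rw [ae_restrict_iff' measurableSet_Ioi]
    exact Eventually.of_forall fun x hx y hy => angle_bound (le_of_lt hx) (hball y hy)
  · rw [ae_restrict_iff' measurableSet_Ioi]
    exact Eventually.of_forall fun x hx y hy => hasDerivAt_angle (le_of_lt hx) (hball y hy)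

/-- the constant -/
noncomputable def c2 : ℝ := ∫ x in Set.Ioi (0 : ℝ), Real.log (1 + Real.exp (-x))

lemma f_real (x : ℝ) : f (x * cc 0) = ((Real.log (1 + Real.exp (-x)) : ℝ) : ℂ) := by
  unfold f cc
  have h1 : (1 : ℂ) + Complex.exp (-(x * (1 - ((0 : ℝ) : ℂ) * Complex.I))) = ((1 + Real.exp (-x) : ℝ) : ℂ) := by
    push_cast; simp
  rw [h1, ← Complex.ofReal_log (by positivity)]

lemma J_eq {η : ℝ} (hη : |η| ≤ 3 / 4) : ∫ x in Set.Ioi (0 : ℝ), cc η * f (x * cc η) = c2 := by
  have hconv : Convex ℝ (Set.Icc (-(3 / 4) : ℝ) (3 / 4)) := convex_Icc _ _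
  have h := hconv.norm_image_sub_le_of_norm_hasDerivWithin_le
    (f := fun y : ℝ => ∫ x in Set.Ioi (0 : ℝ), cc y * f (x * cc y))
    (f' := fun _ => (0 : ℂ)) (C := 0) (x := 0) (y := η)
    (fun y hy => (deriv_J (abs_le.2 hy)).hasDerivWithinAt) (fun y _ => by simp)
    (by constructor <;> norm_num) (abs_le.1 hη)
  rw [zero_mul] at h
  have h2 : (∫ x in Set.Ioi (0 : ℝ), cc η * f (x * cc η)) = ∫ x in Set.Ioi (0 : ℝ), cc 0 * f (x * cc 0) := by
    have := norm_le_zero_iff.1 h
    exact sub_eq_zero.1 this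
  rw [h2]
  simp_rw [f_real]
  have : cc 0 = 1 := by unfold cc; simp
  rw [this]
  simp_rw [one_mul]
  exact integral_complex_ofReal

lemma g_deriv {t η s : ℝ} (ht : 0 < t) (hη : |η| ≤ 4 / 5) (hs : 0 ≤ s) :
    HasDerivAt (fun s : ℝ => f ((t * s : ℝ) * cc η)) (t * cc η * f' ((t * s : ℝ) * cc η)) s := by
  have h := hasDerivAt_ray (x := t * s) (by positivity) hη
  have h2 : HasDerivAt (fun s : ℝ => t * s) t s := by simpa using (hasDerivAt_id s).const_mul t
  have := h.scomp s h2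
  refine HasDerivAt.congr_deriv this ?_
  simp; ring

lemma g_deriv' {t η s : ℝ} (ht : 0 < t) (hη : |η| ≤ 4 / 5) (hs : 0 ≤ s) :
    HasDerivAt (fun s : ℝ => t * cc η * f' ((t * s : ℝ) * cc η))
      ((t * cc η) ^ 2 * f'' ((t * s : ℝ) * cc η)) s := by
  have h := hasDerivAt_ray' (x := t * s) (by positivity) hη
  have h2 : HasDerivAt (fun s : ℝ => t * s) t s := by simpa using (hasDerivAt_id s).const_mul t
  have := (h.scomp s h2).const_mul (t * cc η)
  refine HasDerivAt.congr_deriv this ?_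
  simp; ring

lemma f_zero : f 0 = ((Real.log 2 : ℝ) : ℂ) := by
  have := f_real 0
  simp only [Complex.ofReal_zero, zero_mul, neg_zero, Real.exp_zero] at this
  rw [this]
  norm_num

lemma trap_sum {t η : ℝ} (ht : 0 < t) (hη : |η| ≤ 4 / 5) (J : ℕ) :
    ‖(1 / 2 : ℂ) * f 0 + ∑ j ∈ range J, f ((t * (j + 1) : ℝ) * cc η) - 1 / 2 * f ((t * J : ℝ) * cc η)
      - ∫ s in (0 : ℝ)..J, f ((t * s : ℝ) * cc η)‖ ≤ 9 / 8 * (t * ‖cc η‖) ^ 2 / (1 - Real.exp (-t)) := by
  set g : ℝ → ℂ := fun s => f ((t * s : ℝ) * cc η) with hg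
  have hx1 : Real.exp (-t) < 1 := Real.exp_lt_one_iff.2 (by linarith)
  have hx0 := Real.exp_pos (-t)
  have hgc : ContinuousOn g (Set.Ici 0) := fun s hs => (g_deriv ht hη hs).continuousAt.continuousWithinAt
  have hterm : ∀ j : ℕ, ‖(1 / 2 : ℂ) * (g j + g (j + 1)) - ∫ s in (j : ℝ)..(j + 1), g s‖
      ≤ 9 / 8 * (t * ‖cc η‖) ^ 2 * Real.exp (-t) ^ j := by
    intro j
    have hj : (0 : ℝ) ≤ j := by positivity
    have := trap (g := g) (g' := fun s => t * cc η * f' ((t * s : ℝ) * cc η))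
      (g'' := fun s => (t * cc η) ^ 2 * f'' ((t * s : ℝ) * cc η)) (a := j)
      (M := (t * ‖cc η‖) ^ 2 * (9 * Real.exp (-(t * j)))) ?_ ?_ ?_ ?_
    · refine this.trans (le_of_eq ?_)
      rw [← Real.exp_nat_mul]
      have : Real.exp (-(t * j)) = Real.exp ((j : ℝ) * -t) := by congr 1; ring
      rw [this]; ring
    · intro s hs; exact g_deriv ht hη (hj.trans hs.1)
    · intro s hs; exact g_deriv' ht hη (hj.trans hs.1)
    · apply ContinuousOn.mul continuousOn_const
      have h3 := contOn_f'' hη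
      refine h3.comp (f := fun s : ℝ => t * s) (by fun_prop) ?_
      intro s hs
      exact mul_nonneg ht.le (hj.trans hs.1)
    · intro s hs
      have hs0 : 0 ≤ s := hj.trans hs.1
      rw [norm_mul, norm_pow, norm_mul, Complex.norm_real, Real.norm_of_nonneg ht.le]
      apply mul_le_mul_of_nonneg_left _ (by positivity)
      refine (norm_f'' (x := t * s) (by positivity) hη).trans ?_
      have : Real.exp (-(t * s)) ≤ Real.exp (-(t * j)) := by
        apply Real.exp_le_exp.2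
        have := mul_le_mul_of_nonneg_left hs.1 ht.le
        linarith
      linarith
  have hsum : (1 / 2 : ℂ) * f 0 + ∑ j ∈ range J, f ((t * (j + 1) : ℝ) * cc η) - 1 / 2 * f ((t * J : ℝ) * cc η)
      - ∫ s in (0 : ℝ)..J, f ((t * s : ℝ) * cc η)
      = ∑ j ∈ range J, ((1 / 2 : ℂ) * (g j + g (j + 1)) - ∫ s in (j : ℝ)..(j + 1), g s) := by
    induction J with
    | zero => simp
    | succ J ih =>
      rw [sum_range_succ, sum_range_succ, ← ih]
      have hadd : (∫ s in (0 : ℝ)..J, g s) + (∫ s in (J : ℝ)..(J + 1), g s) = ∫ s in (0 : ℝ)..(J + 1), g s := by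
        have hJ : (0 : ℝ) ≤ J := by positivity
        apply intervalIntegral.integral_add_adjacent_intervals
        · apply ContinuousOn.intervalIntegrable
          rw [Set.uIcc_of_le hJ]
          exact hgc.mono (fun s hs => hs.1)
        · apply ContinuousOn.intervalIntegrable
          rw [Set.uIcc_of_le (by linarith)]
          exact hgc.mono (fun s hs => hJ.trans hs.1)
      push_cast
      simp only [hg] at hadd ⊢
      push_cast at hadd ⊢
      rw [← hadd]
      ring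
  rw [hsum]
  refine (norm_sum_le _ _).trans ((sum_le_sum (fun j _ => hterm j)).trans ?_)
  rw [← mul_sum, div_eq_mul_inv]
  apply mul_le_mul_of_nonneg_left _ (by positivity)
  have := (summable_geometric_of_lt_one hx0.le hx1).sum_le_tsum (range J) (fun i _ => by positivity)
  rwa [tsum_geometric_of_lt_one hx0.le hx1] at this

lemma integral_ray {t η : ℝ} (ht : 0 < t) (hη : |η| ≤ 3 / 4) :
    ∫ s in Set.Ioi (0 : ℝ), f ((t * s : ℝ) * cc η) = c2 / (t * cc η) := by
  have h1 := MeasureTheory.integral_comp_mul_left_Ioi (fun x : ℝ => f (x * cc η)) 0 ht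
  rw [mul_zero] at h1
  have h2 := J_eq hη
  rw [integral_const_mul] at h2
  rw [h1, ← h2]
  have h3 := cc_ne η
  have h4 : (t : ℂ) ≠ 0 := by exact_mod_cast ht.ne'
  rw [Complex.real_smul]
  generalize (∫ x in Set.Ioi (0 : ℝ), f (x * cc η)) = I0
  push_cast
  field_simp

/-- error bound -/
theorem main_sum {t η : ℝ} (ht : 0 < t) (ht1 : t ≤ 1 / 128) (hη : |η| ≤ 3 / 4) :
    ∃ S : ℂ, Tendsto (fun J : ℕ => ∑ j ∈ range J, f ((t * (j + 1) : ℝ) * cc η)) atTop (𝓝 S) ∧
      ‖S - (c2 / (t * cc η) - ((1 / 2 * Real.log 2 : ℝ) : ℂ))‖ ≤ 2 * t := by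
  have hη' : |η| ≤ 4 / 5 := by linarith
  have hx1 : Real.exp (-t) < 1 := Real.exp_lt_one_iff.2 (by linarith)
  have hx0 := Real.exp_pos (-t)
  have hsummable : Summable (fun j : ℕ => f ((t * (j + 1) : ℝ) * cc η)) := by
    refine Summable.of_norm_bounded (g := fun j : ℕ => 5 * (Real.exp (-t) * Real.exp (-t) ^ j)) ?_ ?_
    · exact ((summable_geometric_of_lt_one hx0.le hx1).mul_left _).mul_left _
    · intro j
      refine (norm_f (x := t * (j + 1)) (by positivity) hη').trans (le_of_eq ?_)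
      rw [← pow_succ', ← Real.exp_nat_mul]
      congr 2; push_cast; ring
  refine ⟨_, hsummable.hasSum.tendsto_sum_nat, ?_⟩
  set S := ∑' j : ℕ, f ((t * (j + 1) : ℝ) * cc η)
  have hT : Tendsto (fun J : ℕ => (1 / 2 : ℂ) * f 0 + ∑ j ∈ range J, f ((t * (j + 1) : ℝ) * cc η)
      - 1 / 2 * f ((t * J : ℝ) * cc η) - ∫ s in (0 : ℝ)..J, f ((t * s : ℝ) * cc η)) atTop
      (𝓝 ((1 / 2 : ℂ) * f 0 + S - 1 / 2 * 0 - c2 / (t * cc η))) := by
    apply Tendsto.sub
    · apply Tendsto.sub
      · exact tendsto_const_nhds.add hsummable.hasSum.tendsto_sum_nat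
      · apply Tendsto.const_mul
        apply squeeze_zero_norm (a := fun J : ℕ => 5 * Real.exp (-t) ^ J)
        · intro J
          refine (norm_f (x := t * J) (by positivity) hη').trans (le_of_eq ?_)
          rw [← Real.exp_nat_mul]
          congr 2; ring
        · simpa using (tendsto_pow_atTop_nhds_zero_of_lt_one hx0.le hx1).const_mul 5
    · rw [← integral_ray ht hη]
      refine intervalIntegral_tendsto_integral_Ioi 0 ?_ tendsto_natCast_atTop_atTop
      have h5 := intOn_f hη'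
      have h6 := (integrableOn_Ioi_comp_mul_left_iff (fun x : ℝ => f (x * cc η)) 0 ht).2 (by simpa using h5)
      exact h6
  have hle := le_of_tendsto' hT.norm (fun J => trap_sum ht hη' J)
  have e1 : (1 / 2 : ℂ) * f 0 + S - 1 / 2 * 0 - c2 / (t * cc η)
      = S - (c2 / (t * cc η) - ((1 / 2 * Real.log 2 : ℝ) : ℂ)) := by
    rw [f_zero]; push_cast; ring
  rw [e1] at hle
  refine hle.trans ?_
  have h1 : 1 / (1 - Real.exp (-t)) ≤ (1 + t) / t := by
    rw [div_le_div_iff₀ (by linarith) ht]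
    have h3 := Real.add_one_le_exp t
    have h4 : Real.exp (-t) * Real.exp t = 1 := by rw [← Real.exp_add]; simp
    nlinarith
  have h2 : ‖cc η‖ ^ 2 ≤ 25 / 16 := by
    rw [normsq_cc]
    have : η ^ 2 ≤ (3 / 4) ^ 2 := by rw [← sq_abs]; exact pow_le_pow_left₀ (abs_nonneg _) hη 2
    linarith
  calc 9 / 8 * (t * ‖cc η‖) ^ 2 / (1 - Real.exp (-t))
      = 9 / 8 * t ^ 2 * ‖cc η‖ ^ 2 * (1 / (1 - Real.exp (-t))) := by ring
    _ ≤ 9 / 8 * t ^ 2 * (25 / 16) * ((1 + t) / t) := by
        apply mul_le_mul _ h1 (by positivity) (by positivity)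
        apply mul_le_mul_of_nonneg_left h2 (by positivity)
    _ = 225 / 128 * t * (1 + t) := by field_simp; ring
    _ ≤ 2 * t := by nlinarith

end K3h21.PQ
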