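import Pool.Agent.K3h21.PP.Large
import Pool.Agent.K3h21.PP.Comp

/-! Positivity in the finite range and the conclusion for the coefficients. -/

namespace K3h21.PP

open Filter Topology MeasureTheory Finset

/-- the coefficient -/
noncomputable def A (n : ℕ) : ℤ := (P n (Polynomial.X : Polynomial ℤ)).coeff n

lemma coeff_step {n N : ℕ} (h : n ≤ N) :
    (P (N + 1) (Polynomial.X : Polynomial ℤ)).coeff n = (P N (Polynomial.X : Polynomial ℤ)).coeff n := by
  have e : P (N + 1) (Polynomial.X : Polynomial ℤ) = P N (Polynomial.X : Polynomial ℤ)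
      + Polynomial.X ^ (N + 1) * ((2 - Polynomial.X ^ N - 2 * Polynomial.X ^ (2 * N + 1)) * P N (Polynomial.X : Polynomial ℤ)) := by
    unfold P
    rw [prod_range_succ, prod_range_succ]
    have h1 : (Polynomial.X : Polynomial ℤ) ^ (2 * N + 1) = Polynomial.X ^ (N + 1) * Polynomial.X ^ N := by
      rw [← pow_add]; congr 1; ring
    rw [h1]; ring
  rw [e, Polynomial.coeff_add, Polynomial.coeff_X_pow_mul', if_neg (by omega), add_zero]

lemma coeff_stable {n N : ℕ} (h : n ≤ N) : (P N (Polynomial.X : Polynomial ℤ)).coeff n = A n := by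
  obtain ⟨k, rfl⟩ := Nat.exists_eq_add_of_le h
  induction k with
  | zero => rfl
  | succ k ih => rw [← add_assoc, coeff_step (by omega), ih (by omega)]

lemma Lf_all {t θ : ℝ} (ht : 0 < t) (ht1 : t ≤ 1 / 160) (hθ : |θ| ≤ Real.pi) :
    ‖Lf t θ‖ ≤ Real.exp (0.6145 / t + 2 * t) := by
  rcases le_total (|θ|) (3 / 4 * t) with h | h
  · have hη : |θ / t| ≤ 3 / 4 := by rw [abs_div, abs_of_pos ht, div_le_iff₀ ht]; exact h
    have hL := Lf_spec ht (θ / t * t)
    obtain ⟨ε, hε, he⟩ := main_arc ht ht1 hη hL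
    have hθt : θ / t * t = θ := by field_simp
    rw [hθt] at he
    rw [he, Complex.norm_exp]
    apply Real.exp_le_exp.2
    have h1 : (c1 / (t * cc (θ / t)) : ℂ).re ≤ 0.6145 / t := by
      refine (Complex.re_le_norm _).trans ?_
      rw [norm_div, norm_mul, Complex.norm_real, Complex.norm_real, Real.norm_of_nonneg ht.le,
        Real.norm_of_nonneg (by have := c1_lower; linarith)]
      have h2 := normsq_cc (θ / t)
      have h3 : 1 ≤ ‖cc (θ / t)‖ := by
        by_contra hcon
        push Not at hcon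
        have := norm_nonneg (cc (θ / t))
        nlinarith [sq_nonneg (θ / t)]
      have hc := c1_upper
      have h4 : 0 ≤ c1 := by have := c1_lower; linarith
      calc c1 / (t * ‖cc (θ / t)‖) ≤ c1 / t := by
            apply div_le_div_of_nonneg_left h4 ht; nlinarith
        _ ≤ _ := by gcongr
    have h5 : ε.re ≤ 2 * t := (Complex.re_le_norm ε).trans hε
    have h6 := c0_bounds.1
    unfold c0 at h6
    simp only [Complex.add_re, Complex.sub_re, Complex.ofReal_re]
    linarith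
  · refine (minor_arc ht ht1 h hθ (Lf_spec ht θ)).trans (Real.exp_le_exp.2 ?_)
    have : (0.0709 : ℝ) / t ≥ 0.0709 * 160 := by
      rw [ge_iff_le, le_div_iff₀ ht]; nlinarith
    have e : 0.6145 / t = 5436 / 10000 / t + 0.0709 / t := by field_simp; norm_num
    rw [e]
    linarith

lemma coef_bound (n : ℕ) {t : ℝ} (ht : 0 < t) (ht1 : t ≤ 1 / 160) :
    |(A n : ℝ)| ≤ Real.exp (n * t + 0.6145 / t + 2 * t) := by
  have hf := coeff_formula ht (n := n) (a := A n) (fun N hN => coeff_stable hN)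
  have h1 : ‖∫ θ in (-Real.pi)..Real.pi, integrand t n θ‖ ≤ Real.exp (0.6145 / t + 2 * t) * |Real.pi - -Real.pi| := by
    apply intervalIntegral.norm_integral_le_of_norm_le_const
    intro θ hθ
    rw [Set.uIoc_of_le (by have := Real.pi_pos; linarith)] at hθ
    unfold integrand
    rw [norm_mul, norm_osc, mul_one]
    exact Lf_all ht ht1 (abs_le.2 ⟨hθ.1.le, hθ.2⟩)
  have hpi := Real.pi_pos
  rw [hf] at h1
  have h2 : ‖(2 * (Real.pi : ℂ) * ((A n : ℂ) * (Real.exp (-t) : ℂ) ^ n))‖
      = 2 * Real.pi * (|(A n : ℝ)| * Real.exp (-t) ^ n) := by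
    rw [norm_mul, norm_mul, norm_mul, norm_pow, Complex.norm_real, Complex.norm_real,
      Real.norm_of_nonneg hpi.le, Real.norm_of_nonneg (Real.exp_nonneg _), Complex.norm_intCast]
    norm_num
  have habs : |Real.pi - -Real.pi| = 2 * Real.pi := by rw [abs_of_nonneg (by linarith)]; ring
  rw [h2, habs] at h1
  have h3 : |(A n : ℝ)| * Real.exp (-t) ^ n ≤ Real.exp (0.6145 / t + 2 * t) := by
    have : 2 * Real.pi * (|(A n : ℝ)| * Real.exp (-t) ^ n) ≤ 2 * Real.pi * Real.exp (0.6145 / t + 2 * t) := by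
      linarith
    exact le_of_mul_le_mul_left this (by positivity)
  have h4 : Real.exp (-t) ^ n * Real.exp (n * t) = 1 := by
    rw [← Real.exp_nat_mul, ← Real.exp_add]; simp
  calc |(A n : ℝ)| = |(A n : ℝ)| * Real.exp (-t) ^ n * Real.exp (n * t) := by rw [mul_assoc, h4, mul_one]
    _ ≤ Real.exp (0.6145 / t + 2 * t) * Real.exp (n * t) := mul_le_mul_of_nonneg_right h3 (Real.exp_nonneg _)
    _ = _ := by rw [← Real.exp_add]; congr 1; ring

lemma A_small {n : ℕ} (hn : n ≤ 16383) : |A n| < 2 ^ (291 - 1) := by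
  have h := coef_bound n (t := 1 / 160) (by norm_num) le_rfl
  have hn' : (n : ℝ) ≤ 16383 := by exact_mod_cast hn
  have h2 : Real.exp (n * (1 / 160) + 0.6145 / (1 / 160) + 2 * (1 / 160)) < 2 ^ 290 := by
    have h3 : (2 : ℝ) ^ 290 = Real.exp (((290 : ℕ) : ℝ) * Real.log 2) := by
      rw [Real.exp_nat_mul, Real.exp_log two_pos]
    rw [h3]
    apply Real.exp_lt_exp.2
    have := Real.log_two_gt_d9
    norm_num
    linarith
  have h4 : |(A n : ℝ)| < 2 ^ 290 := lt_of_le_of_lt h h2
  have : ((|A n| : ℤ) : ℝ) < ((2 ^ 290 : ℤ) : ℝ) := by push_cast; exact h4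
  exact_mod_cast this

lemma hF_E {R : Type*} [CommRing R] {B : ℕ} {x : R} {z : ℕ} (o r W : ℕ) :
    x ^ o * ((Nat.add 1 (Nat.mul z W) : ℕ) : R) = x ^ o * (1 + (z : R) * (W : R)) := by
  have : Nat.add 1 (Nat.mul z W) = 1 + z * W := rfl
  rw [this, Nat.cast_add, Nat.cast_mul, Nat.cast_one]

lemma hF_O {R : Type*} [CommRing R] {B N : ℕ} {x : R} (hx : x = 2 ^ B) (hN : x ^ (N + 1) = 0)
    (o r W : ℕ) (hor : o + r = N + 1) (hW : W < 2 ^ (B * r)) :
    x ^ o * ((Nat.add 1 (Nat.sub (Nat.shiftLeft 1 (B * r)) W) : ℕ) : R) = x ^ o * (1 + (-1) * (W : R)) := by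
  have e1 : Nat.shiftLeft 1 (B * r) = 2 ^ (B * r) := by
    rw [show ∀ a b : ℕ, Nat.shiftLeft a b = a * 2 ^ b from fun a b => Nat.shiftLeft_eq a b, one_mul]
  have e0 : Nat.add 1 (Nat.sub (Nat.shiftLeft 1 (B * r)) W) = 1 + (2 ^ (B * r) - W) := by rw [e1]; rfl
  rw [e0, Nat.cast_add, Nat.cast_sub hW.le, Nat.cast_pow, Nat.cast_one]
  have e2 : ((2 : ℕ) : R) ^ (B * r) = x ^ r := by rw [hx, ← pow_mul]; push_cast; rfl
  rw [e2]
  have e3 : x ^ o * x ^ r = 0 := by rw [← pow_add, hor, hN]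
  linear_combination e3

/-- the Kronecker value is congruent to the truncated series -/
lemma val_spec {B N ME rE MO rO : ℕ} (hB : 0 < B) (h1 : off 1 ME + rE = N + 1) (h2 : N + 1 ≤ off 1 (ME + 1))
    (h3 : off 2 MO + rO = N + 1) (h4 : N + 1 ≤ off 2 (MO + 1)) :
    ((val B ME rE MO rO : ℕ) : ZMod (2 ^ (B * (N + 1)))) =
      ((∑ k ∈ range (N + 1), A k * 2 ^ (B * k) : ℤ) : ZMod (2 ^ (B * (N + 1)))) := by
  set R := ZMod (2 ^ (B * (N + 1)))
  set x : R := 2 ^ B with hx
  have hN : x ^ (N + 1) = 0 := by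
    rw [hx, ← pow_mul]
    have := ZMod.natCast_self (2 ^ (B * (N + 1)))
    push_cast at this
    exact this
  have hE := prod_eq_run (c := 1) (ζ := ((2 : ℕ) : R)) (F := fun _ W => Nat.add 1 (Nat.mul 2 W)) hB hx hN one_pos
    (fun o r W _ _ => hF_E (B := B) o r W) h1 h2
  have hO := prod_eq_run (c := 2) (ζ := (-1 : R)) (F := fun K W => Nat.add 1 (Nat.sub (Nat.shiftLeft 1 K) W)) hB hx hN
    two_pos (fun o r W hor hW => hF_O hx hN o r W hor hW) h3 h4
  have hval : ((val B ME rE MO rO : ℕ) : R) = P N x := by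
    show (((run B 1 _ ME rE 1) * (run B 2 _ MO rO 1) : ℕ) : R) = _
    rw [Nat.cast_mul, ← hE, ← hO]
    unfold P
    congr 1
    · apply prod_congr rfl; intro i _; rw [one_mul, Nat.cast_ofNat]
    · apply prod_congr rfl; intro i _; ring
  rw [hval]
  have h5 : P N x = (P N (Polynomial.X : Polynomial ℤ)).eval₂ (Int.castRingHom R) x := by
    unfold P
    rw [Polynomial.eval₂_mul, Polynomial.eval₂_finsetProd, Polynomial.eval₂_finsetProd]
    congr 1
    · apply prod_congr rfl; intro i _; simp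
    · apply prod_congr rfl; intro i _; simp
  rw [h5, Polynomial.eval₂_eq_sum_range' (Int.castRingHom R)
    (n := (N + 1) + ((P N (Polynomial.X : Polynomial ℤ)).natDegree + 1)) (by omega), sum_range_add]
  have h6 : ∑ k ∈ range ((P N (Polynomial.X : Polynomial ℤ)).natDegree + 1),
      (Int.castRingHom R) ((P N (Polynomial.X : Polynomial ℤ)).coeff (N + 1 + k)) * x ^ (N + 1 + k) = 0 := by
    apply sum_eq_zero; intro k _; rw [pow_add, hN, zero_mul, mul_zero]
  rw [h6, add_zero]
  push_cast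
  apply sum_congr rfl
  intro k hk
  rw [coeff_stable (by simpa [Nat.lt_succ_iff] using hk), hx, ← pow_mul]
  rfl

theorem A_pos_small {n : ℕ} (h1 : 35 ≤ n) (h2 : n ≤ 16383) : 0 < A n := by
  have hv := val_spec (B := 291) (N := 16383) (ME := 180) (rE := 94) (MO := 127) (rO := 255)
    (by norm_num) (by decide +kernel) (by decide +kernel) (by decide +kernel) (by decide +kernel)
  exact chk_spec (by norm_num) A hv (fun k hk => A_small hk) (by norm_num) comp1 n h1 h2

/-- positivity of all coefficients beyond 34 -/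
theorem A_pos {n : ℕ} (h : 34 < n) : 0 < A n := by
  rcases le_or_gt n 16383 with h2 | h2
  · exact A_pos_small h h2
  · exact large_pos (by omega) (fun N hN => coeff_stable hN)

end K3h21.PP
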