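import Pool.Agent.K3h21.PP.QLarge
import Pool.Agent.K3h21.PP.Small
import Pool.Agent.K3h21.PP.Comp2

/-! Comparison with the number of partitions into distinct parts. -/

namespace K3h21.PQ

open Filter Topology MeasureTheory Finset
open K3h21.PP (cc q norm_q norm_osc A)

/-- coefficient of the product `∏ (1 + x^j)` -/
noncomputable def D (n : ℕ) : ℤ := (Qn n (Polynomial.X : Polynomial ℤ)).coeff n

lemma coeff_step {n N : ℕ} (h : n ≤ N) :
    (Qn (N + 1) (Polynomial.X : Polynomial ℤ)).coeff n = (Qn N (Polynomial.X : Polynomial ℤ)).coeff n := by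
  have e : Qn (N + 1) (Polynomial.X : Polynomial ℤ) = Qn N (Polynomial.X : Polynomial ℤ)
      + Polynomial.X ^ (N + 1) * Qn N (Polynomial.X : Polynomial ℤ) := by
    unfold Qn
    rw [prod_range_succ]; ring
  rw [e, Polynomial.coeff_add, Polynomial.coeff_X_pow_mul', if_neg (by omega), add_zero]

lemma coeff_stable {n N : ℕ} (h : n ≤ N) : (Qn N (Polynomial.X : Polynomial ℤ)).coeff n = D n := by
  obtain ⟨k, rfl⟩ := Nat.exists_eq_add_of_le h
  induction k with
  | zero => rfl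
  | succ k ih => rw [← add_assoc, coeff_step (by omega), ih (by omega)]

lemma Lf_le {t : ℝ} (ht : 0 < t) (θ : ℝ) : ‖Lf t θ‖ ≤ Real.exp (1 / t) := by
  apply le_of_tendsto' (Lf_spec ht θ).norm
  intro N
  unfold Qn
  set r := Real.exp (-t) with hr
  have hr0 : 0 < r := Real.exp_pos _
  have hr1 : r < 1 := Real.exp_lt_one_iff.2 (by linarith)
  have hq : ‖q t θ‖ = r := norm_q t θ
  rw [norm_prod]
  have a1 : ∏ j ∈ range N, ‖1 + q t θ ^ (j + 1)‖ ≤ ∏ j ∈ range N, Real.exp (r * r ^ j) := by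
    apply prod_le_prod (fun _ _ => norm_nonneg _)
    intro j _
    refine (norm_add_le _ _).trans ?_
    rw [norm_one, norm_pow, hq, pow_succ']
    have := Real.add_one_le_exp (r * r ^ j)
    linarith
  refine a1.trans ?_
  rw [← Real.exp_sum, Real.exp_le_exp, ← mul_sum]
  have h2 := (summable_geometric_of_lt_one hr0.le hr1).sum_le_tsum (range N) (fun i _ => by positivity)
  rw [tsum_geometric_of_lt_one hr0.le hr1] at h2
  have h3 := K3h21.PP.exp_geo_le ht
  rw [← hr] at h3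
  calc r * ∑ i ∈ range N, r ^ i ≤ r * (1 - r)⁻¹ := mul_le_mul_of_nonneg_left h2 hr0.le
    _ = r / (1 - r) := by rw [div_eq_mul_inv]
    _ ≤ 1 / t := h3

lemma coef_bound (n : ℕ) {t : ℝ} (ht : 0 < t) : |(D n : ℝ)| ≤ Real.exp (n * t + 1 / t) := by
  have hf := coeff_formula ht (n := n) (a := D n) (fun N hN => coeff_stable hN)
  have h1 : ‖∫ θ in (-Real.pi)..Real.pi, integrand t n θ‖ ≤ Real.exp (1 / t) * |Real.pi - -Real.pi| := by
    apply intervalIntegral.norm_integral_le_of_norm_le_const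
    intro θ hθ
    unfold integrand
    rw [norm_mul, norm_osc, mul_one]
    exact Lf_le ht θ
  have hpi := Real.pi_pos
  rw [hf] at h1
  have h2 : ‖(2 * (Real.pi : ℂ) * ((D n : ℂ) * (Real.exp (-t) : ℂ) ^ n))‖
      = 2 * Real.pi * (|(D n : ℝ)| * Real.exp (-t) ^ n) := by
    rw [norm_mul, norm_mul, norm_mul, norm_pow, Complex.norm_real, Complex.norm_real,
      Real.norm_of_nonneg hpi.le, Real.norm_of_nonneg (Real.exp_nonneg _), Complex.norm_intCast]
    norm_num
  have habs : |Real.pi - -Real.pi| = 2 * Real.pi := by rw [abs_of_nonneg (by linarith)]; ring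
  rw [h2, habs] at h1
  have h3 : |(D n : ℝ)| * Real.exp (-t) ^ n ≤ Real.exp (1 / t) := by
    have : 2 * Real.pi * (|(D n : ℝ)| * Real.exp (-t) ^ n) ≤ 2 * Real.pi * Real.exp (1 / t) := by
      linarith
    exact le_of_mul_le_mul_left this (by positivity)
  have h4 : Real.exp (-t) ^ n * Real.exp (n * t) = 1 := by
    rw [← Real.exp_nat_mul, ← Real.exp_add]; simp
  calc |(D n : ℝ)| = |(D n : ℝ)| * Real.exp (-t) ^ n * Real.exp (n * t) := by rw [mul_assoc, h4, mul_one]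
    _ ≤ Real.exp (1 / t) * Real.exp (n * t) := mul_le_mul_of_nonneg_right h3 (Real.exp_nonneg _)
    _ = _ := by rw [← Real.exp_add]; congr 1; ring

/-- the difference -/
noncomputable def DA (n : ℕ) : ℤ := D n - A n

lemma D_small_aux {D A Z W : ℝ} (h1 : |D| ≤ Z * 1.3) (h2 : |A| < W) (h3 : W ≤ Z * 0.5) (hZ : 0 < Z) :
    |D - A| < Z * 2 := by
  have h4 : |D - A| ≤ |D| + |A| := abs_sub _ _
  linarith

lemma D_small {n : ℕ} (hn : n ≤ 16383) : |DA n| < 2 ^ (371 - 1) := by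
  unfold DA
  have h := coef_bound n (t := 1 / 128) (by norm_num)
  have hn' : (n : ℝ) ≤ 16383 := by exact_mod_cast hn
  have h2 : Real.exp (n * (1 / 128) + 1 / (1 / 128)) ≤ 2 ^ 369 * 1.3 := by
    have h3 : (2 : ℝ) ^ 369 = Real.exp (((369 : ℕ) : ℝ) * Real.log 2) := by
      rw [Real.exp_nat_mul, Real.exp_log two_pos]
    have h5 : Real.exp (0.23) ≤ 1.3 := by
      have h := Real.exp_bound' (x := 0.23) (by norm_num) (by norm_num) (n := 3) (by norm_num)
      refine h.trans ?_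
      simp only [Finset.sum_range_succ, Finset.sum_range_zero, Nat.factorial]
      norm_num
    rw [h3]
    calc Real.exp (n * (1 / 128) + 1 / (1 / 128)) ≤ Real.exp (((369 : ℕ) : ℝ) * Real.log 2 + 0.23) := by
          apply Real.exp_le_exp.2
          have := Real.log_two_gt_d9
          norm_num
          linarith
      _ = Real.exp (((369 : ℕ) : ℝ) * Real.log 2) * Real.exp 0.23 := Real.exp_add _ _
      _ ≤ _ := mul_le_mul_of_nonneg_left h5 (Real.exp_nonneg _)
  have hA := K3h21.PP.A_small hn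
  have hA' : |(A n : ℝ)| < 2 ^ 290 := by
    have : ((|A n| : ℤ) : ℝ) < ((2 ^ (291 - 1) : ℤ) : ℝ) := by exact_mod_cast hA
    push_cast at this
    exact this
  have h8 : (2 : ℝ) ^ 290 ≤ 2 ^ 369 * 0.5 := by
    have : (2 : ℝ) ^ 369 = 2 ^ 290 * 2 ^ 79 := by rw [← pow_add]
    rw [this, mul_assoc]
    apply le_mul_of_one_le_right (by positivity)
    norm_num
  have h6 : |(D n : ℝ) - (A n : ℝ)| < 2 ^ 370 := by
    have h9 : (2 : ℝ) ^ 370 = 2 ^ 369 * 2 := pow_succ _ _
    rw [h9]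
    exact D_small_aux (h.trans h2) hA' h8 (by positivity)
  have : ((|D n - A n| : ℤ) : ℝ) < ((2 ^ 370 : ℤ) : ℝ) := by push_cast; exact h6
  exact_mod_cast this

lemma Q_val {R : Type*} [CommRing R] {B N ME rE : ℕ} {x : R} (hB : 0 < B) (hx : x = 2 ^ B)
    (hN : x ^ (N + 1) = 0) (h1 : K3h21.PP.off 1 ME + rE = N + 1) (h2 : N + 1 ≤ K3h21.PP.off 1 (ME + 1)) :
    ((K3h21.PP.run B 1 (fun _ W => Nat.add 1 (Nat.mul 1 W)) ME rE 1 : ℕ) : R)
      = ((∑ k ∈ range (N + 1), D k * 2 ^ (B * k) : ℤ) : R) := by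
  have hE := K3h21.PP.prod_eq_run (c := 1) (ζ := ((1 : ℕ) : R)) (F := fun _ W => Nat.add 1 (Nat.mul 1 W)) hB hx hN one_pos
    (fun o r W _ _ => K3h21.PP.hF_E (B := B) o r W) h1 h2
  have hQ : ((K3h21.PP.run B 1 (fun _ W => Nat.add 1 (Nat.mul 1 W)) ME rE 1 : ℕ) : R) = Qn N x := by
    rw [← hE]
    unfold Qn
    apply prod_congr rfl; intro i _; rw [one_mul, Nat.cast_one, one_mul]
  have h5 : Qn N x = (Qn N (Polynomial.X : Polynomial ℤ)).eval₂ (Int.castRingHom R) x := by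
    unfold Qn
    rw [Polynomial.eval₂_finsetProd]
    apply prod_congr rfl; intro i _; simp
  rw [h5, Polynomial.eval₂_eq_sum_range' (Int.castRingHom R)
    (n := (N + 1) + ((Qn N (Polynomial.X : Polynomial ℤ)).natDegree + 1)) (by omega), sum_range_add] at hQ
  have h6 : ∑ k ∈ range ((Qn N (Polynomial.X : Polynomial ℤ)).natDegree + 1),
      (Int.castRingHom R) ((Qn N (Polynomial.X : Polynomial ℤ)).coeff (N + 1 + k)) * x ^ (N + 1 + k) = 0 := by
    apply sum_eq_zero; intro k _; rw [pow_add, hN, zero_mul, mul_zero]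
  rw [h6, add_zero] at hQ
  rw [hQ]
  push_cast
  apply sum_congr rfl
  intro k hk
  rw [coeff_stable (by simpa [Nat.lt_succ_iff] using hk), hx, ← pow_mul]
  rfl

/-- congruence for the second computation -/
lemma val2_spec {B N ME rE MO rO : ℕ} (hB : 0 < B) (h1 : K3h21.PP.off 1 ME + rE = N + 1)
    (h2 : N + 1 ≤ K3h21.PP.off 1 (ME + 1))
    (h3 : K3h21.PP.off 2 MO + rO = N + 1) (h4 : N + 1 ≤ K3h21.PP.off 2 (MO + 1)) :
    ((K3h21.PP.val2 B N ME rE MO rO : ℕ) : ZMod (2 ^ (B * (N + 1)))) =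
      ((∑ k ∈ range (N + 1), DA k * 2 ^ (B * k) : ℤ) : ZMod (2 ^ (B * (N + 1)))) := by
  have hA := K3h21.PP.val_spec hB h1 h2 h3 h4
  have hM : ((2 ^ (B * (N + 1)) : ℕ) : ZMod (2 ^ (B * (N + 1)))) = 0 := ZMod.natCast_self _
  have hN : ((2 : ZMod (2 ^ (B * (N + 1)))) ^ B) ^ (N + 1) = 0 := by
    rw [← pow_mul]
    push_cast at hM
    exact hM
  have hQ' := Q_val (R := ZMod (2 ^ (B * (N + 1)))) hB rfl hN h1 h2
  have e1 : Nat.shiftLeft 1 (Nat.mul B (Nat.add N 1)) = 2 ^ (B * (N + 1)) := by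
    rw [show ∀ a b : ℕ, Nat.shiftLeft a b = a * 2 ^ b from fun a b => Nat.shiftLeft_eq a b, one_mul]; rfl
  have e2 : K3h21.PP.val2 B N ME rE MO rO = K3h21.PP.run B 1 (fun _ W => Nat.add 1 (Nat.mul 1 W)) ME rE 1
      + (2 ^ (B * (N + 1)) - K3h21.PP.val B ME rE MO rO % 2 ^ (B * (N + 1))) := by
    unfold K3h21.PP.val2
    rw [e1]
    have h7 : ∀ a b : ℕ, Nat.land a (Nat.sub (2 ^ b) 1) = a % 2 ^ b := fun a b => Nat.and_two_pow_sub_one_eq_mod a b
    rw [h7]
    rfl
  have h8 : K3h21.PP.val B ME rE MO rO % 2 ^ (B * (N + 1)) ≤ 2 ^ (B * (N + 1)) :=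
    (Nat.mod_lt _ (by positivity)).le
  have h9 : ((K3h21.PP.val B ME rE MO rO % 2 ^ (B * (N + 1)) : ℕ) : ZMod (2 ^ (B * (N + 1))))
      = ((K3h21.PP.val B ME rE MO rO : ℕ) : ZMod (2 ^ (B * (N + 1)))) :=
    ZMod.natCast_mod _ _
  rw [e2, Nat.cast_add, Nat.cast_sub h8, hM, zero_sub, h9, hQ', hA, ← sub_eq_add_neg, ← Int.cast_sub,
    ← sum_sub_distrib]
  congr 1
  apply sum_congr rfl
  intro k _
  unfold DA
  ring

theorem DA_pos_small {n : ℕ} (h1 : 11 ≤ n) (h2 : n ≤ 16383) : 0 < DA n := by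
  have hv := val2_spec (B := 371) (N := 16383) (ME := 180) (rE := 94) (MO := 127) (rO := 255)
    (by norm_num) (by decide +kernel) (by decide +kernel) (by decide +kernel) (by decide +kernel)
  exact K3h21.PP.chk_spec (by norm_num) DA hv (fun k hk => D_small hk) (by norm_num) K3h21.PP.comp2 n h1 h2

theorem lt_small {n : ℕ} (h1 : 11 ≤ n) (h2 : n ≤ 16383) : A n < D n := by
  have h3 := DA_pos_small h1 h2
  unfold DA at h3
  exact sub_pos.1 h3

theorem lt_large {n : ℕ} (hn : 16384 ≤ n) : A n < D n := by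
  obtain ⟨t, T, Λ, y, h⟩ := sad_exists hn
  have ht := h.t0
  have hT : T = 1 / t := by have := h.tT; field_simp; linarith
  have hT0 : 0 < T := by rw [hT]; positivity
  have hy0 := h.y0
  have hy3 : 0 < y ^ 3 := by positivity
  have hq := q_lower h (a := D n) (fun N hN => coeff_stable hN)
  have ht' : 4 / 5 * t ≤ 1 / 160 := by have := h.t1; linarith
  have hA := K3h21.PP.coef_bound n (t := 4 / 5 * t) (by positivity) ht'
  have hc := c2_lower
  have hY2 : (y ^ 3) ^ 2 = Λ := by rw [← h.hy]; ring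
  have hΛ100 : 100 ≤ Λ := by rw [← hY2]; have := h.y3; nlinarith
  have hT1 : T * 0.8 ≤ Λ := by rw [h.hΛ2]; nlinarith
  have e1 : n * (4 / 5 * t) + 0.6145 / (4 / 5 * t) + 2 * (4 / 5 * t) ≤ 1.7611 * Λ := by
    have a1 : n * (4 / 5 * t) = 4 / 5 * Λ := by rw [h.hΛ]; ring
    have a2 : 0.6145 / (4 / 5 * t) = 0.768125 * T := by rw [hT]; field_simp; norm_num
    have a3 : 2 * (4 / 5 * t) ≤ 0.0125 := by linarith
    rw [a1, a2]
    linarith
  have hA' : (A n : ℝ) ≤ Real.exp (1.7611 * Λ) :=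
    (le_abs_self _).trans (hA.trans (Real.exp_le_exp.2 e1))
  -- lower bound for D
  have hB := K3h21.PP.numB h.y3
  rw [hY2] at hB
  have hc0 := c0_bounds.2
  have e2 : Real.exp (1.7611 * Λ) * (27.1 * (y ^ 3) ^ 3 * 12) ≤ Real.exp (2 * Λ - c0) := by
    have e3 := Real.add_one_le_exp (11 : ℝ)
    calc Real.exp (1.7611 * Λ) * (27.1 * (y ^ 3) ^ 3 * 12)
        ≤ Real.exp (1.7611 * Λ) * (Real.exp (0.1147 * Λ - 0.835) * Real.exp 11) := by
          apply mul_le_mul_of_nonneg_left _ (Real.exp_nonneg _)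
          apply mul_le_mul hB.le (by linarith) (by norm_num) (Real.exp_nonneg _)
      _ = Real.exp (1.7611 * Λ + ((0.1147 * Λ - 0.835) + 11)) := by rw [← Real.exp_add, ← Real.exp_add]
      _ ≤ _ := by apply Real.exp_le_exp.2; linarith
  have e4 : t * (0.2 / y ^ 3) * (Real.exp (1.7611 * Λ) * (27.1 * (y ^ 3) ^ 3 * 12)) ≤ 2 * Real.pi * D n :=
    (mul_le_mul_of_nonneg_left e2 (by positivity)).trans hq
  have e5 : t * (0.2 / y ^ 3) * (Real.exp (1.7611 * Λ) * (27.1 * (y ^ 3) ^ 3 * 12))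
      = Real.exp (1.7611 * Λ) * (65.04 * (t * Λ)) := by
    rw [← hY2]; field_simp; ring
  have e6 : 0.8 ≤ t * Λ := by
    rw [h.hΛ2]
    have : t * (c2 * T) = c2 * (t * T) := by ring
    rw [this, h.tT, mul_one]; exact hc
  rw [e5] at e4
  have hE := Real.exp_pos (1.7611 * Λ)
  have e7 : Real.exp (1.7611 * Λ) * 52 ≤ 2 * Real.pi * D n := by
    refine le_trans ?_ e4
    apply mul_le_mul_of_nonneg_left _ hE.le
    linarith
  have hpi := Real.pi_lt_d2
  have hpi0 := Real.pi_pos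
  have hlt : (A n : ℝ) < (D n : ℝ) := by
    by_contra hcon
    push Not at hcon
    have h9 : 2 * Real.pi * (D n : ℝ) ≤ 2 * Real.pi * Real.exp (1.7611 * Λ) :=
      mul_le_mul_of_nonneg_left (hcon.trans hA') (by positivity)
    nlinarith
  exact_mod_cast hlt

theorem A_lt_D {n : ℕ} (hn : 10 < n) : A n < D n := by
  rcases le_or_gt n 16383 with h | h
  · exact lt_small hn h
  · exact lt_large (by omega)

end K3h21.PQ
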