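import Pool.Agent.K3h21.PP.Alg

/-! Evaluation of the truncated products by Kronecker substitution. -/

namespace K3h21.PP

open Finset

/-- one division step -/
def qstep (B r d A : ℕ) : ℕ :=
  Nat.land (Nat.div (Nat.sub (Nat.shiftLeft A (Nat.mul (Nat.mul B d) (Nat.add (Nat.div r d) 1))) A)
    (Nat.sub (Nat.shiftLeft 1 (Nat.mul B d)) 1)) (Nat.sub (Nat.shiftLeft 1 (Nat.mul B r)) 1)

/-- Horner evaluation -/
def run (B c : ℕ) (F : ℕ → ℕ → ℕ) : ℕ → ℕ → ℕ → ℕ
  | 0, _, A => A
  | m + 1, r, A => run B c F m (Nat.add r (Nat.add (Nat.mul c m) 1))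
      (F (Nat.mul B (Nat.add r (Nat.add (Nat.mul c m) 1)))
        (Nat.shiftLeft (qstep B r (Nat.mul c (m + 1)) A) (Nat.mul B (Nat.add (Nat.mul c m) 1))))

lemma qstep_eq (B r d A : ℕ) : qstep B r d A =
    ((A * 2 ^ (B * d * (r / d + 1)) - A) / (2 ^ (B * d) - 1)) % 2 ^ (B * r) := by
  unfold qstep
  have h1 : ∀ a b : ℕ, Nat.shiftLeft a b = a * 2 ^ b := fun a b => Nat.shiftLeft_eq a b
  rw [h1, h1, h1, one_mul, one_mul]
  exact Nat.and_two_pow_sub_one_eq_mod _ _

lemma qstep_lt (B r d A : ℕ) : qstep B r d A < 2 ^ (B * r) := by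
  rw [qstep_eq]; exact Nat.mod_lt _ (by positivity)

section ring
variable {R : Type*} [CommRing R] {B N : ℕ} {x : R}

lemma qstep_spec (hB : 0 < B) (hx : x = 2 ^ B) (hN : x ^ (N + 1) = 0) {r d o A : ℕ} (hd : 0 < d)
    (hor : o + r = N + 1) :
    x ^ o * ((1 - x ^ d) * (qstep B r d A : R)) = x ^ o * A := by
  set J := r / d + 1 with hJ
  have hdJ : r ≤ d * J := by
    rw [hJ]; have := Nat.lt_mul_div_succ r hd; omega
  set T := A * 2 ^ (B * d * J) - A with hT
  set D := 2 ^ (B * d) - 1 with hD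
  have hTD : D ∣ T := by
    rw [hT, hD]
    have e1 : A * 2 ^ (B * d * J) - A = A * (2 ^ (B * d * J) - 1) := by rw [Nat.mul_sub, mul_one]
    rw [e1, pow_mul 2 (B * d) J]
    exact Dvd.dvd.mul_left (Nat.sub_one_dvd_pow_sub_one _ _) _
  obtain ⟨Q0, hQ0⟩ := hTD
  have hDpos : 0 < D := by
    rw [hD]
    have : 2 ^ 1 ≤ 2 ^ (B * d) := Nat.pow_le_pow_right (by norm_num) (Nat.mul_pos hB hd)
    omega
  have hq : qstep B r d A = Q0 % 2 ^ (B * r) := by
    rw [qstep_eq, ← hJ, ← hT, ← hD, hQ0, Nat.mul_div_cancel_left _ hDpos]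
  have hxd : ((2 ^ (B * d) : ℕ) : R) = x ^ d := by push_cast; rw [hx, ← pow_mul]
  have hxdJ : ((2 ^ (B * d * J) : ℕ) : R) = x ^ (d * J) := by
    push_cast; rw [hx, ← pow_mul, mul_assoc]
  have hxr : ((2 ^ (B * r) : ℕ) : R) = x ^ r := by push_cast; rw [hx, ← pow_mul]
  have hDc : (D : R) = x ^ d - 1 := by
    rw [hD, Nat.cast_sub Nat.one_le_two_pow, hxd, Nat.cast_one]
  have hTc : (T : R) = A * x ^ (d * J) - A := by
    rw [hT, Nat.cast_sub (Nat.le_mul_of_pos_right _ (by positivity)), Nat.cast_mul, hxdJ]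
  have h1 : (x ^ d - 1) * (Q0 : R) = A * x ^ (d * J) - A := by
    rw [← hDc, ← hTc, hQ0, Nat.cast_mul]
  have h2 : x ^ o * x ^ (d * J) = 0 := by
    rw [← pow_add]
    have : N + 1 ≤ o + d * J := by omega
    obtain ⟨k, hk⟩ := Nat.exists_eq_add_of_le this
    rw [hk, pow_add, hN, zero_mul]
  have h3 : x ^ o * (Q0 : R) = x ^ o * ((Q0 % 2 ^ (B * r) : ℕ) : R) := by
    have e := Nat.mod_add_div Q0 (2 ^ (B * r))
    have : (Q0 : R) = ((Q0 % 2 ^ (B * r) : ℕ) : R) + x ^ r * ((Q0 / 2 ^ (B * r) : ℕ) : R) := by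
      rw [← hxr, ← Nat.cast_mul, ← Nat.cast_add, e]
    rw [this, mul_add, ← mul_assoc, ← pow_add, hor, hN, zero_mul, add_zero]
  rw [hq]
  calc x ^ o * ((1 - x ^ d) * ((Q0 % 2 ^ (B * r) : ℕ) : R))
      = (1 - x ^ d) * (x ^ o * ((Q0 % 2 ^ (B * r) : ℕ) : R)) := by ring
    _ = (1 - x ^ d) * (x ^ o * (Q0 : R)) := by rw [h3]
    _ = x ^ o * (-((x ^ d - 1) * (Q0 : R))) := by ring
    _ = x ^ o * A - A * (x ^ o * x ^ (d * J)) := by rw [h1]; ring
    _ = x ^ o * A := by rw [h2]; ring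

/-- offsets -/
def off (c : ℕ) : ℕ → ℕ
  | 0 => 0
  | m + 1 => off c m + (c * m + 1)

/-- inverse of `1 - x^d` -/
def iv (N : ℕ) (x : R) (d : ℕ) : R := ∑ j ∈ range (N + 1), (x ^ d) ^ j

lemma iv_mul (hN : x ^ (N + 1) = 0) {d : ℕ} (hd : 0 < d) : (1 - x ^ d) * iv N x d = 1 := by
  unfold iv
  have h := mul_neg_geom_sum (x ^ d) (N + 1)
  rw [h, ← pow_mul]
  have : N + 1 ≤ d * (N + 1) := Nat.le_mul_of_pos_left _ hd
  obtain ⟨k, hk⟩ := Nat.exists_eq_add_of_le this
  rw [hk, pow_add, hN, zero_mul, sub_zero]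

/-- products of inverses -/
def hh (N c : ℕ) (x : R) : ℕ → R
  | 0 => 1
  | m + 1 => hh N c x m * iv N x (c * (m + 1))

theorem run_spec (hB : 0 < B) (hx : x = 2 ^ B) (hN : x ^ (N + 1) = 0) {c : ℕ} (hc : 0 < c)
    {ζ : R} {F : ℕ → ℕ → ℕ}
    (hF : ∀ o r W : ℕ, o + r = N + 1 → W < 2 ^ (B * r) →
      x ^ o * (F (B * r) W : R) = x ^ o * (1 + ζ * (W : R))) :
    ∀ m r A : ℕ, off c m + r = N + 1 → (run B c F m r A : R) =
      ∑ k ∈ range m, x ^ off c k * hh N c x k * ζ ^ k + ζ ^ m * hh N c x m * (x ^ off c m * A) := by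
  intro m
  induction m with
  | zero => intro r A _; simp [run, hh, off]
  | succ m ih =>
    intro r A hr
    have hoff : off c (m + 1) = off c m + (c * m + 1) := rfl
    have hr' : off c m + (r + (c * m + 1)) = N + 1 := by omega
    have hrun : run B c F (m + 1) r A = run B c F m (r + (c * m + 1))
      (F (B * (r + (c * m + 1))) (qstep B r (c * (m + 1)) A * 2 ^ (B * (c * m + 1)))) := by
      show run B c F m _ (F _ (Nat.shiftLeft _ _)) = _
      rw [show ∀ a b : ℕ, Nat.shiftLeft a b = a * 2 ^ b from fun a b => Nat.shiftLeft_eq a b]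
      rfl
    rw [hrun, ih _ _ hr', sum_range_succ]
    have hlt : qstep B r (c * (m + 1)) A * 2 ^ (B * (c * m + 1)) < 2 ^ (B * (r + (c * m + 1))) := by
      rw [mul_add B r, pow_add]
      exact Nat.mul_lt_mul_of_pos_right (qstep_lt _ _ _ _) (by positivity)
    rw [hF _ _ _ hr' hlt]
    have hd : 0 < c * (m + 1) := by positivity
    have hq := qstep_spec hB hx hN (r := r) (d := c * (m + 1)) (o := off c (m + 1)) (A := A) hd hr
    have hi := iv_mul (N := N) (x := x) hN hd
    have hxe : ((2 ^ (B * (c * m + 1)) : ℕ) : R) = x ^ (c * m + 1) := by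
      push_cast; rw [hx, ← pow_mul]
    have hq' : x ^ off c (m + 1) * (qstep B r (c * (m + 1)) A : R)
        = iv N x (c * (m + 1)) * (x ^ off c (m + 1) * A) := by
      rw [← hq]
      calc x ^ off c (m + 1) * (qstep B r (c * (m + 1)) A : R)
          = ((1 - x ^ (c * (m + 1))) * iv N x (c * (m + 1))) *
            (x ^ off c (m + 1) * (qstep B r (c * (m + 1)) A : R)) := by rw [hi, one_mul]
        _ = _ := by ring
    have hh1 : hh N c x (m + 1) = hh N c x m * iv N x (c * (m + 1)) := rfl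
    rw [hh1]
    have e : x ^ off c m * (1 + ζ * ((qstep B r (c * (m + 1)) A * 2 ^ (B * (c * m + 1)) : ℕ) : R))
        = x ^ off c m + ζ * (x ^ off c (m + 1) * (qstep B r (c * (m + 1)) A : R)) := by
      rw [Nat.cast_mul, hxe, hoff, pow_add]; ring
    rw [e, hq', pow_succ]
    ring

/-- the coefficients of the product -/
lemma coeff_rec {b y : R} {L : ℕ} (hL : b * y ^ L = 0) (m : ℕ) :
    (1 - y ^ (m + 1)) * (∏ i ∈ range L, (1 + Polynomial.C (b * y ^ i) * Polynomial.X)).coeff (m + 1)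
      = b * y ^ m * (∏ i ∈ range L, (1 + Polynomial.C (b * y ^ i) * Polynomial.X)).coeff m := by
  set G := ∏ i ∈ range L, (1 + Polynomial.C (b * y ^ i) * Polynomial.X) with hG
  have h1 : G = (1 + Polynomial.C b * Polynomial.X) * G.comp (Polynomial.C y * Polynomial.X) := by
    have h2 : G.comp (Polynomial.C y * Polynomial.X) =
        ∏ i ∈ range L, (1 + Polynomial.C (b * y ^ (i + 1)) * Polynomial.X) := by
      rw [hG, Polynomial.prod_comp]
      apply prod_congr rfl
      intro i _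
      simp only [Polynomial.add_comp, Polynomial.one_comp, Polynomial.mul_comp, Polynomial.C_comp,
        Polynomial.X_comp]
      rw [← mul_assoc, ← Polynomial.C_mul, mul_assoc b, ← pow_succ]
    have h3 : ∏ i ∈ range (L + 1), (1 + Polynomial.C (b * y ^ i) * (Polynomial.X : Polynomial R)) = G := by
      rw [prod_range_succ, hL]; simp [hG]
    rw [h2]
    conv_lhs => rw [← h3, prod_range_succ']
    simp
    ring
  have h4 := congrArg (fun p => Polynomial.coeff p (m + 1)) h1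
  simp only [add_mul, one_mul, Polynomial.coeff_add, Polynomial.comp_C_mul_X_coeff, mul_assoc,
    Polynomial.coeff_C_mul, Polynomial.coeff_X_mul] at h4
  linear_combination h4

lemma prod_eq_run (hB : 0 < B) (hx : x = 2 ^ B) (hN : x ^ (N + 1) = 0) {c : ℕ} (hc : 0 < c)
    {ζ : R} {F : ℕ → ℕ → ℕ}
    (hF : ∀ o r W : ℕ, o + r = N + 1 → W < 2 ^ (B * r) →
      x ^ o * (F (B * r) W : R) = x ^ o * (1 + ζ * (W : R)))
    {M r : ℕ} (hM : off c M + r = N + 1) (hM2 : N + 1 ≤ off c (M + 1)) :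
    ∏ i ∈ range N, (1 + ζ * x ^ (c * i + 1)) = (run B c F M r 1 : R) := by
  set G := ∏ i ∈ range N, (1 + Polynomial.C (x * (x ^ c) ^ i) * (Polynomial.X : Polynomial R)) with hG
  have hL : x * (x ^ c) ^ N = 0 := by
    rw [← pow_mul, ← pow_succ']
    have : N + 1 ≤ c * N + 1 := by have := Nat.le_mul_of_pos_left N hc; omega
    obtain ⟨k, hk⟩ := Nat.exists_eq_add_of_le this
    rw [hk, pow_add, hN, zero_mul]
  have hrec := coeff_rec hL
  rw [← hG] at hrec
  have hg0 : G.coeff 0 = 1 := by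
    rw [Polynomial.coeff_zero_eq_eval_zero, hG, Polynomial.eval_prod]
    apply prod_eq_one
    intro i _
    simp
  have hg : ∀ m, G.coeff m = x ^ off c m * hh N c x m := by
    intro m
    induction m with
    | zero => rw [hg0]; simp [off, hh]
    | succ m ih =>
      have h1 := hrec m
      rw [ih] at h1
      have hd : 0 < c * (m + 1) := by positivity
      have hi := iv_mul (N := N) (x := x) hN hd
      have h2 : G.coeff (m + 1) = iv N x (c * (m + 1)) * ((1 - (x ^ c) ^ (m + 1)) * G.coeff (m + 1)) := by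
        rw [← mul_assoc, ← pow_mul]
        have : iv N x (c * (m + 1)) * (1 - x ^ (c * (m + 1))) = 1 := by rw [mul_comm]; exact hi
        rw [this, one_mul]
      rw [h2, h1]
      have h3 : off c (m + 1) = off c m + (c * m + 1) := rfl
      have h4 : hh N c x (m + 1) = hh N c x m * iv N x (c * (m + 1)) := rfl
      rw [h3, h4, ← pow_mul, pow_add, pow_succ]
      ring
  have hz : ∀ m, M < m → G.coeff m = 0 := by
    intro m hm
    rw [hg]
    have hmono : ∀ k, off c (M + 1) ≤ off c (M + 1 + k) := by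
      intro k
      induction k with
      | zero => exact le_rfl
      | succ k ih =>
        have : off c (M + 1 + (k + 1)) = off c (M + 1 + k) + (c * (M + 1 + k) + 1) := rfl
        omega
    obtain ⟨k, hk⟩ := Nat.exists_eq_add_of_le (show M + 1 ≤ m from hm)
    have h5 := hmono k
    rw [← hk] at h5
    obtain ⟨l, hl⟩ := Nat.exists_eq_add_of_le (hM2.trans h5)
    rw [hl, pow_add, hN, zero_mul, zero_mul]
  have heval : G.eval ζ = ∏ i ∈ range N, (1 + ζ * x ^ (c * i + 1)) := by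
    rw [hG, Polynomial.eval_prod]
    apply prod_congr rfl
    intro i _
    simp only [Polynomial.eval_add, Polynomial.eval_one, Polynomial.eval_mul, Polynomial.eval_C,
      Polynomial.eval_X]
    rw [← pow_mul, ← pow_succ']
    ring
  rw [← heval, run_spec hB hx hN hc hF M r 1 hM]
  have h6 : G.eval ζ = ∑ k ∈ range (M + 1 + G.natDegree + 1), G.coeff k * ζ ^ k :=
    Polynomial.eval_eq_sum_range' (by omega) ζ
  rw [h6, show M + 1 + G.natDegree + 1 = (M + 1) + (G.natDegree + 1) by ring, sum_range_add,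
    sum_range_succ]
  have h7 : ∑ k ∈ range (G.natDegree + 1), G.coeff (M + 1 + k) * ζ ^ (M + 1 + k) = 0 := by
    apply sum_eq_zero; intro k _; rw [hz _ (by omega), zero_mul]
  rw [h7, add_zero, hg M]
  congr 1
  · apply sum_congr rfl; intro k _; rw [hg k]
  · simp; ring

end ring

end K3h21.PP
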