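import Pool.Agent.K3h21.PP.Cauchy
import Pool.Agent.K3h21.PP.Const
import Pool.Agent.K3h21.PP.Minor5

/-! Assembling the lower bound for large `n`. -/

namespace K3h21.PP

open Filter Topology MeasureTheory Set

/-- data at the saddle point -/
structure Sad (n : ℕ) (t T Λ y : ℝ) : Prop where
  t0 : 0 < t
  t1 : t ≤ 1 / 160
  tT : t * T = 1
  hΛ : Λ = n * t
  hΛ2 : Λ = c1 * T
  y0 : 0 < y
  hy : y ^ 6 = Λ
  y3 : 10 ≤ y ^ 3

lemma sad_exists {n : ℕ} (hn : 16384 ≤ n) : ∃ t T Λ y, Sad n t T Λ y := by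
  have hc1 := c1_lower
  have hc2 := c1_upper
  have hn' : (16384 : ℝ) ≤ n := by exact_mod_cast hn
  have hn0 : (0 : ℝ) < n := by linarith
  set t := Real.sqrt (c1 / n) with ht
  have hq0 : 0 < c1 / n := by positivity
  have ht0 : 0 < t := Real.sqrt_pos.2 hq0
  have ht2 : t ^ 2 = c1 / n := Real.sq_sqrt hq0.le
  have ht1 : t ≤ 1 / 160 := by
    apply Real.sqrt_le_iff.2
    constructor
    · norm_num
    · rw [div_le_iff₀ hn0]
      have : (1 / 160 : ℝ) ^ 2 * 16384 ≤ (1 / 160) ^ 2 * n := by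
        apply mul_le_mul_of_nonneg_left hn' (by positivity)
      norm_num at this ⊢
      linarith
  set Λ := (n : ℝ) * t with hΛ
  have hΛ0 : 0 < Λ := by positivity
  have hΛ2 : Λ = c1 * (1 / t) := by
    rw [hΛ]
    have : (n : ℝ) * t ^ 2 = c1 := by rw [ht2]; field_simp
    field_simp
    linarith
  have hΛsq : Λ ^ 2 = c1 * n := by
    rw [hΛ, mul_pow, ht2]; field_simp
  have hΛ100 : 100 ≤ Λ := by
    have : (100 : ℝ) ^ 2 ≤ Λ ^ 2 := by
      rw [hΛsq]
      have : (0.6141 : ℝ) * 16384 ≤ c1 * n := mul_le_mul hc1 hn' (by norm_num) (by linarith)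
      norm_num at this ⊢
      linarith
    exact le_of_sq_le_sq this hΛ0.le
  refine ⟨t, 1 / t, Λ, Λ ^ ((1 : ℝ) / 6), ht0, ht1, by field_simp, hΛ, hΛ2, by positivity, ?_, ?_⟩
  · rw [← Real.rpow_natCast, ← Real.rpow_mul hΛ0.le]; norm_num
  · have h1 : ((Λ ^ ((1 : ℝ) / 6)) ^ 3) ^ 2 = Λ := by
      rw [← pow_mul, ← Real.rpow_natCast, ← Real.rpow_mul hΛ0.le]; norm_num
    have h2 : (10 : ℝ) ^ 2 ≤ ((Λ ^ ((1 : ℝ) / 6)) ^ 3) ^ 2 := by rw [h1]; norm_num; exact hΛ100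
    exact le_of_sq_le_sq h2 (by positivity)

/-- constant term -/
noncomputable def c0 : ℝ := 1 / 2 * Real.log (3 / 2)

lemma c0_bounds : 0 ≤ c0 ∧ c0 ≤ 0.21 := by
  unfold c0
  constructor
  · have := Real.log_nonneg (by norm_num : (1 : ℝ) ≤ 3 / 2)
    positivity
  · have : Real.log (3 / 2) ≤ 0.42 := by
      rw [Real.log_le_iff_le_exp (by norm_num)]
      have h := Real.sum_le_exp_of_nonneg (x := 0.42) (by norm_num) 4
      refine le_trans ?_ h
      simp only [Finset.sum_range_succ, Finset.sum_range_zero, Nat.factorial]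
      norm_num
    linarith

/-- the integrand on the main arc -/
lemma integrand_main {n : ℕ} {t T Λ y : ℝ} (h : Sad n t T Λ y) {η : ℝ} (hη : |η| ≤ 3 / 4) :
    ∃ a b : ℝ, |a| ≤ 2 * t ∧ |b| ≤ 2 * t ∧ (integrand t n (η * t)).re =
      Real.exp (Λ / (1 + η ^ 2) - c0 + a) * Real.cos (Λ * η ^ 3 / (1 + η ^ 2) + b) ∧
      ‖integrand t n (η * t)‖ = Real.exp (Λ / (1 + η ^ 2) - c0 + a) := by
  obtain ⟨ε, hε, hL⟩ := main_arc h.t0 h.t1 hη (Lf_spec h.t0 (η * t))
  have ht : (t : ℂ) ≠ 0 := by exact_mod_cast h.t0.ne'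
  have hd : (1 : ℝ) + η ^ 2 ≠ 0 := by positivity
  have hd' : (1 : ℂ) + (η : ℂ) ^ 2 ≠ 0 := by exact_mod_cast hd
  have hcc : cc η ≠ 0 := cc_ne η
  have hc1 : (c1 : ℂ) = Λ * t := by
    have : c1 = Λ * t := by
      have h1 := h.hΛ2; have h2 := h.tT
      rw [h1, mul_assoc, mul_comm T t, h2, mul_one]
    rw [this]; push_cast; rfl
  have hn : (n : ℂ) * t = Λ := by
    have := h.hΛ
    rw [this]; push_cast; rfl
  have e1 : (c1 : ℂ) / (t * cc η) = ((Λ / (1 + η ^ 2) : ℝ) : ℂ) + ((Λ * η / (1 + η ^ 2) : ℝ) : ℂ) * Complex.I := by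
    rw [hc1]
    have e2 : cc η * (1 + η * Complex.I) = 1 + (η : ℂ) ^ 2 := by
      unfold cc; linear_combination (-(η : ℂ) ^ 2) * Complex.I_sq
    push_cast
    rw [div_eq_iff (mul_ne_zero ht hcc)]
    field_simp
    linear_combination -(Λ : ℂ) * e2
  have e3 : integrand t n (η * t) = Complex.exp (((Λ / (1 + η ^ 2) - c0 + ε.re : ℝ) : ℂ)
      + ((-(Λ * η ^ 3 / (1 + η ^ 2) + -ε.im) : ℝ) : ℂ) * Complex.I) := by
    unfold integrand
    rw [hL, ← Complex.exp_add]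
    congr 1
    rw [e1]
    have e4 : (-(n * ((η * t : ℝ) : ℂ)) * Complex.I : ℂ) = -((Λ * η : ℝ) : ℂ) * Complex.I := by
      push_cast; rw [← hn]; ring
    rw [e4]
    have e5 : ε = (ε.re : ℂ) + (ε.im : ℂ) * Complex.I := (Complex.re_add_im ε).symm
    have e6 : ((Λ * η / (1 + η ^ 2) : ℝ) : ℂ) = ((Λ * η : ℝ) : ℂ) - ((Λ * η ^ 3 / (1 + η ^ 2) : ℝ) : ℂ) := by
      rw [← Complex.ofReal_sub]; congr 1; field_simp; ring
    rw [e6]
    unfold c0
    conv_lhs => rw [e5]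
    push_cast
    ring
  refine ⟨ε.re, -ε.im, (Complex.abs_re_le_norm ε).trans hε, ?_, ?_, ?_⟩
  · rw [abs_neg]; exact (Complex.abs_im_le_norm ε).trans hε
  · rw [e3, Complex.exp_re]
    simp only [Complex.add_re, Complex.ofReal_re, Complex.mul_re, Complex.I_re, Complex.I_im,
      Complex.ofReal_im, Complex.add_im, Complex.mul_im]
    rw [show (Λ / (1 + η ^ 2) - c0 + ε.re + (-(Λ * η ^ 3 / (1 + η ^ 2) + -ε.im) * 0 - 0 * 1))
        = Λ / (1 + η ^ 2) - c0 + ε.re by ring,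
      show (0 + (-(Λ * η ^ 3 / (1 + η ^ 2) + -ε.im) * 1 + 0 * 0))
        = -(Λ * η ^ 3 / (1 + η ^ 2) + -ε.im) by ring, Real.cos_neg]
  · rw [e3, Complex.norm_exp]
    congr 1
    simp only [Complex.add_re, Complex.ofReal_re, Complex.mul_re, Complex.I_re, Complex.I_im,
      Complex.ofReal_im]
    ring

lemma exp_small {t : ℝ} (h1 : t ≤ 1 / 160) : Real.exp (2 * t) ≤ 1.013 := by
  have : Real.exp (2 * t) ≤ Real.exp (1 / 80) := Real.exp_le_exp.2 (by linarith)
  refine this.trans ?_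
  have h := Real.exp_bound' (x := 1 / 80) (by norm_num) (by norm_num) (n := 2) (by norm_num)
  refine h.trans ?_
  simp only [Finset.sum_range_succ, Finset.sum_range_zero, Nat.factorial]
  norm_num

lemma int_lower {h : ℝ → ℝ} {a b c : ℝ} (hab : a ≤ b) (hi : IntervalIntegrable h volume a b)
    (hc : ∀ x ∈ Set.Icc a b, c ≤ h x) : c * (b - a) ≤ ∫ x in a..b, h x := by
  have := intervalIntegral.integral_mono_on hab (intervalIntegrable_const (c := c)) hi hc
  rw [intervalIntegral.integral_const, smul_eq_mul] at this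
  linarith

/-- numerical inequality A -/
lemma numA {y : ℝ} (hy0 : 0 < y) (hy : 10 ≤ y ^ 3) :
    1.52 * Real.exp (-(1024 / 1225 * y ^ 2)) ≤ 0.34 / y ^ 3 := by
  have hy2 : 2.154 ≤ y := by
    by_contra hcon
    push Not at hcon
    have : y ^ 3 < 2.154 ^ 3 := pow_lt_pow_left₀ hcon hy0.le (by norm_num)
    norm_num at this
    linarith
  obtain ⟨d, hd⟩ : ∃ d, d = y - 2.154 := ⟨_, rfl⟩
  have hd0 : 0 ≤ d := by linarith
  have h1 : 3.878 + 1.5 * d ≤ 1024 / 1225 * y ^ 2 := by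
    have : y = 2.154 + d := by linarith
    rw [this]; nlinarith
  have h2 : y ^ 3 ≤ 9.995 * Real.exp (1.5 * d) := by
    have e1 : y ≤ 2.154 * Real.exp (0.5 * d) := by
      have := Real.add_one_le_exp (0.5 * d)
      nlinarith
    calc y ^ 3 ≤ (2.154 * Real.exp (0.5 * d)) ^ 3 := pow_le_pow_left₀ hy0.le e1 3
      _ = 2.154 ^ 3 * Real.exp (1.5 * d) := by
          rw [mul_pow, ← Real.exp_nat_mul]; congr 2; push_cast; ring
      _ ≤ _ := by
          apply mul_le_mul_of_nonneg_right _ (Real.exp_nonneg _); norm_num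
  have h3 : 47.9 ≤ Real.exp 3.878 := by
    have e1 : Real.exp 3.878 = Real.exp 1 ^ 4 * Real.exp (-0.122) := by
      rw [← Real.exp_nat_mul, ← Real.exp_add]; norm_num
    have e2 := Real.exp_one_gt_d9
    have e3 := Real.add_one_le_exp (-0.122 : ℝ)
    have e4 : (2.7182 : ℝ) ^ 4 ≤ Real.exp 1 ^ 4 := pow_le_pow_left₀ (by norm_num) (by linarith) 4
    rw [e1]
    calc (47.9 : ℝ) ≤ 2.7182 ^ 4 * (1 - 0.122) := by norm_num
      _ ≤ Real.exp 1 ^ 4 * Real.exp (-0.122) := by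
        apply mul_le_mul e4 (by linarith) (by norm_num) (by positivity)
  have h4 : 47.9 * Real.exp (1.5 * d) ≤ Real.exp (1024 / 1225 * y ^ 2) := by
    calc 47.9 * Real.exp (1.5 * d) ≤ Real.exp 3.878 * Real.exp (1.5 * d) :=
          mul_le_mul_of_nonneg_right h3 (Real.exp_nonneg _)
      _ = Real.exp (3.878 + 1.5 * d) := (Real.exp_add _ _).symm
      _ ≤ _ := Real.exp_le_exp.2 h1
  have hy3 : 0 < y ^ 3 := by positivity
  rw [Real.exp_neg, ← div_eq_mul_inv, div_le_div_iff₀ (Real.exp_pos _) hy3]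
  have h5 := Real.exp_pos (1.5 * d)
  calc 1.52 * y ^ 3 ≤ 1.52 * (9.995 * Real.exp (1.5 * d)) := by linarith
    _ ≤ 0.34 * (47.9 * Real.exp (1.5 * d)) := by nlinarith
    _ ≤ _ := by linarith

/-- numerical inequality B; `Y = y ^ 3` -/
lemma numB {Y : ℝ} (hY : 10 ≤ Y) : 27.1 * Y ^ 3 < Real.exp (0.1147 * Y ^ 2 - 0.835) := by
  obtain ⟨d, hd⟩ : ∃ d, d = Y - 10 := ⟨_, rfl⟩
  have hd0 : 0 ≤ d := by linarith
  have h1 : 10.635 + 0.3 * d ≤ 0.1147 * Y ^ 2 - 0.835 := by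
    have : Y = 10 + d := by linarith
    rw [this]; nlinarith
  have h2 : Y ^ 3 ≤ 1000 * Real.exp (0.3 * d) := by
    have e1 : Y ≤ 10 * Real.exp (0.1 * d) := by
      have := Real.add_one_le_exp (0.1 * d)
      linarith
    calc Y ^ 3 ≤ (10 * Real.exp (0.1 * d)) ^ 3 := pow_le_pow_left₀ (by linarith) e1 3
      _ = 1000 * Real.exp (0.3 * d) := by
          rw [mul_pow, ← Real.exp_nat_mul]; congr 1
          · norm_num
          · congr 1; push_cast; ring
  have h3 : 27101 ≤ Real.exp 10.635 := by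
    have e1 : Real.exp 10.635 = Real.exp 1 ^ 10 * Real.exp 0.635 := by
      rw [← Real.exp_nat_mul, ← Real.exp_add]; norm_num
    have e2 := Real.exp_one_gt_d9
    have e3 := Real.add_one_le_exp (0.635 : ℝ)
    have e4 : (2.7182 : ℝ) ^ 10 ≤ Real.exp 1 ^ 10 := pow_le_pow_left₀ (by norm_num) (by linarith) 10
    rw [e1]
    calc (27101 : ℝ) ≤ 2.7182 ^ 10 * 1.635 := by norm_num
      _ ≤ Real.exp 1 ^ 10 * Real.exp 0.635 := by
        apply mul_le_mul e4 (by linarith) (by norm_num) (by positivity)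
  have h5 := Real.exp_pos (0.3 * d)
  calc 27.1 * Y ^ 3 ≤ 27.1 * (1000 * Real.exp (0.3 * d)) := by linarith
    _ < 27101 * Real.exp (0.3 * d) := by nlinarith
    _ ≤ Real.exp 10.635 * Real.exp (0.3 * d) := mul_le_mul_of_nonneg_right h3 h5.le
    _ = Real.exp (10.635 + 0.3 * d) := (Real.exp_add _ _).symm
    _ ≤ _ := Real.exp_le_exp.2 h1

/-- comparison of the main term with the minor arcs -/
lemma numC {n : ℕ} {t T Λ y : ℝ} (h : Sad n t T Λ y) :
    2 * Real.pi * Real.exp (5436 / 10000 / t + 5 / 8) < t * (0.38 / y ^ 3) * Real.exp (Λ - c0) := by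
  have ht := h.t0
  have hT : T = 1 / t := by have := h.tT; field_simp; linarith
  have hT0 : 0 < T := by rw [hT]; positivity
  have hy3 : 0 < y ^ 3 := by have := h.y0; positivity
  have hB := numB h.y3
  have hc1 := c1_lower
  have hc2 := c1_upper
  have hY2 : (y ^ 3) ^ 2 = Λ := by rw [← h.hy]; ring
  rw [hY2] at hB
  have hT1 : T * 0.6141 ≤ Λ := by rw [h.hΛ2]; nlinarith
  have hexp : 0.1147 * Λ ≤ Λ - 5436 / 10000 * T := by
    -- Λ = c1 T, so (1-0.1147) Λ ≥ 0.5436 T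
    have : 5436 / 10000 * T ≤ 0.8853 * Λ := by
      have : (0.8853 : ℝ) * (T * 0.6141) ≤ 0.8853 * Λ := by linarith
      linarith
    linarith
  have hc0 := c0_bounds.2
  have key : 27.1 * (y ^ 3) ^ 3 < Real.exp (Λ - c0 - (5436 / 10000 / t + 5 / 8)) := by
    refine lt_of_lt_of_le hB (Real.exp_le_exp.2 ?_)
    have : 5436 / 10000 / t = 5436 / 10000 * T := by rw [hT]; ring
    rw [this]
    linarith
  have e1 : Real.exp (Λ - c0) = Real.exp (Λ - c0 - (5436 / 10000 / t + 5 / 8)) *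
      Real.exp (5436 / 10000 / t + 5 / 8) := by
    rw [← Real.exp_add]; congr 1; ring
  rw [e1]
  have h6 := Real.exp_pos (5436 / 10000 / t + 5 / 8)
  have h7 : 2 * Real.pi < t * (0.38 / y ^ 3) * Real.exp (Λ - c0 - (5436 / 10000 / t + 5 / 8)) := by
    have hpi := Real.pi_lt_d2
    have h8 : 2 * Real.pi * T * y ^ 3 / 0.38 ≤ 27.1 * (y ^ 3) ^ 3 := by
      rw [div_le_iff₀ (by norm_num)]
      have : (y ^ 3) ^ 3 = Λ * y ^ 3 := by rw [← hY2]; ring
      rw [this]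
      have h9 : 2 * Real.pi * T ≤ 10.29 * Λ := by
        have : 2 * Real.pi * T ≤ 6.3 * T := by nlinarith
        linarith
      nlinarith
    have h10 : 2 * Real.pi * T * y ^ 3 / 0.38 < Real.exp (Λ - c0 - (5436 / 10000 / t + 5 / 8)) :=
      lt_of_le_of_lt h8 key
    have h11 : 2 * Real.pi = t * (0.38 / y ^ 3) * (2 * Real.pi * T * y ^ 3 / 0.38) := by
      have e2 : t * (0.38 / y ^ 3) * (2 * Real.pi * T * y ^ 3 / 0.38) = (t * T) * (2 * Real.pi) := by
        have hne := hy3.ne'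
        generalize y ^ 3 = Y at hne
        field_simp
      rw [e2, h.tT, one_mul]
    rw [h11]
    apply mul_lt_mul_of_pos_left h10 (by positivity)
  nlinarith

end K3h21.PP
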