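import Pool.Agent.K3h21.PP.Minor3

/-! Univariate bounds. -/

namespace K3h21.PP

lemma R1_le {x : ℝ} (hx : 100 ≤ x) : R1 x ≤ (131 / 10000) := by
  have hx0 : 0 ≤ x := by linarith
  have hQ : 0 < (1 + x) * (9 + x) * (81 + x) * (121 + x) := by positivity
  have key : ((131 / 10000) - R1 x) * ((1 + x) * (9 + x) * (81 + x) * (121 + x)) = (-344844621 / 10000) * x ^ 0 + (106649367 / 2500) * x ^ 1 + (338973 / 1000) * x ^ 2 + (-13057 / 2500) * x ^ 3 + (131 / 10000) * x ^ 4 := by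
    unfold R1 fr
    norm_num
    field_simp
    ring
  have hP : 0 ≤ (-344844621 / 10000) * x ^ 0 + (106649367 / 2500) * x ^ 1 + (338973 / 1000) * x ^ 2 + (-13057 / 2500) * x ^ 3 + (131 / 10000) * x ^ 4 := by
    rcases le_total x 228 with h | h
    · have h5 : 0 ≤ 228 - x := by linarith
      have h0 : 0 ≤ x - 100 := by linarith
      have e : ((-344844621 / 10000) * x ^ 0 + (106649367 / 2500) * x ^ 1 + (338973 / 1000) * x ^ 2 + (-13057 / 2500) * x ^ 3 + (131 / 10000) * x ^ 4) * 268435456 = (37084202179 / 10000) * ((x - 100) ^ 0 * (228 - x) ^ 4) + (7811742631 / 500) * ((x - 100) ^ 1 * (228 - x) ^ 3) + (86901927753 / 5000) * ((x - 100) ^ 2 * (228 - x) ^ 2) + (6900168003 / 2500) * ((x - 100) ^ 3 * (228 - x) ^ 1) + (8112511683 / 10000) * ((x - 100) ^ 4 * (228 - x) ^ 0) := by ring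
      have e2 : 0 ≤ (37084202179 / 10000) * ((x - 100) ^ 0 * (228 - x) ^ 4) + (7811742631 / 500) * ((x - 100) ^ 1 * (228 - x) ^ 3) + (86901927753 / 5000) * ((x - 100) ^ 2 * (228 - x) ^ 2) + (6900168003 / 2500) * ((x - 100) ^ 3 * (228 - x) ^ 1) + (8112511683 / 10000) * ((x - 100) ^ 4 * (228 - x) ^ 0) := by positivity
      linarith
    clear hx
    rename' h => hx
    obtain ⟨s, hs⟩ : ∃ s, s = x - 228 := ⟨_, rfl⟩
    have hs0 : 0 ≤ s := by linarith
    have e : (-344844621 / 10000) * x ^ 0 + (106649367 / 2500) * x ^ 1 + (338973 / 1000) * x ^ 2 + (-13057 / 2500) * x ^ 3 + (131 / 10000) * x ^ 4 = (8112511683 / 10000) * s ^ 0 + (1894287 / 500) * s ^ 1 + (4262601 / 5000) * s ^ 2 + (16811 / 2500) * s ^ 3 + (131 / 10000) * s ^ 4 := by rw [hs]; ring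
    rw [e]; positivity
  by_contra hcon
  push Not at hcon
  have : ((131 / 10000) - R1 x) * ((1 + x) * (9 + x) * (81 + x) * (121 + x)) < 0 := mul_neg_of_neg_of_pos (by linarith) hQ
  linarith

lemma R2_le {x : ℝ} (hx : 100 ≤ x) : R2 x ≤ 0 := by
  have hx0 : 0 ≤ x := by linarith
  have hQ : 0 < (4 + x) * (16 + x) * (64 + x) * (100 + x) := by positivity
  have key : (0 - R2 x) * ((4 + x) * (16 + x) * (64 + x) * (100 + x)) = 30720 * x ^ 0 + (-28032) * x ^ 1 + (-264) * x ^ 2 + 6 * x ^ 3 := by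
    unfold R2 fr
    norm_num
    field_simp
    ring
  have hP : 0 ≤ 30720 * x ^ 0 + (-28032) * x ^ 1 + (-264) * x ^ 2 + 6 * x ^ 3 := by
    obtain ⟨s, hs⟩ : ∃ s, s = x - 100 := ⟨_, rfl⟩
    have hs0 : 0 ≤ s := by linarith
    have e : 30720 * x ^ 0 + (-28032) * x ^ 1 + (-264) * x ^ 2 + 6 * x ^ 3 = 587520 * s ^ 0 + 99168 * s ^ 1 + 1536 * s ^ 2 + 6 * s ^ 3 := by rw [hs]; ring
    rw [e]; positivity
  by_contra hcon
  push Not at hcon
  have : (0 - R2 x) * ((4 + x) * (16 + x) * (64 + x) * (100 + x)) < 0 := mul_neg_of_neg_of_pos (by linarith) hQ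
  linarith

lemma R3_le {x : ℝ} (hx : 0 ≤ x) : R3 x ≤ (8 / 625) := by
  have hx0 : 0 ≤ x := by linarith
  have hQ : 0 < (9 + x) * (25 + x) * (49 + x) * (81 + x) := by positivity
  have key : ((8 / 625) - R3 x) * ((9 + x) * (25 + x) * (49 + x) * (81 + x)) = (2268 / 25) * x ^ 0 + (11656068 / 625) * x ^ 1 + (216412 / 625) * x ^ 2 + (-1188 / 625) * x ^ 3 + (8 / 625) * x ^ 4 := by
    unfold R3 fr
    norm_num
    field_simp
    ring
  have hP : 0 ≤ (2268 / 25) * x ^ 0 + (11656068 / 625) * x ^ 1 + (216412 / 625) * x ^ 2 + (-1188 / 625) * x ^ 3 + (8 / 625) * x ^ 4 := by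
    rcases le_total x 256 with h | h
    · have h5 : 0 ≤ 256 - x := by linarith
      have h0 : 0 ≤ x - 0 := by linarith
      have e : ((2268 / 25) * x ^ 0 + (11656068 / 625) * x ^ 1 + (216412 / 625) * x ^ 2 + (-1188 / 625) * x ^ 3 + (8 / 625) * x ^ 4) * 4294967296 = (2268 / 25) * ((x - 0) ^ 0 * (256 - x) ^ 4) + (2984180208 / 625) * ((x - 0) ^ 1 * (256 - x) ^ 3) + (23134977256 / 625) * ((x - 0) ^ 2 * (256 - x) ^ 2) + (3477261616 / 125) * ((x - 0) ^ 3 * (256 - x) ^ 1) + (1263807708 / 25) * ((x - 0) ^ 4 * (256 - x) ^ 0) := by ring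
      have e2 : 0 ≤ (2268 / 25) * ((x - 0) ^ 0 * (256 - x) ^ 4) + (2984180208 / 625) * ((x - 0) ^ 1 * (256 - x) ^ 3) + (23134977256 / 625) * ((x - 0) ^ 2 * (256 - x) ^ 2) + (3477261616 / 125) * ((x - 0) ^ 3 * (256 - x) ^ 1) + (1263807708 / 25) * ((x - 0) ^ 4 * (256 - x) ^ 0) := by positivity
      linarith
    clear hx
    rename' h => hx
    obtain ⟨s, hs⟩ : ∃ s, s = x - 256 := ⟨_, rfl⟩
    have hs0 : 0 ≤ s := by linarith
    have e : (2268 / 25) * x ^ 0 + (11656068 / 625) * x ^ 1 + (216412 / 625) * x ^ 2 + (-1188 / 625) * x ^ 3 + (8 / 625) * x ^ 4 = (1263807708 / 25) * s ^ 0 + (85151924 / 125) * s ^ 1 + (2449756 / 625) * s ^ 2 + (7004 / 625) * s ^ 3 + (8 / 625) * s ^ 4 := by rw [hs]; ring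
    rw [e]; positivity
  by_contra hcon
  push Not at hcon
  have : ((8 / 625) - R3 x) * ((9 + x) * (25 + x) * (49 + x) * (81 + x)) < 0 := mul_neg_of_neg_of_pos (by linarith) hQ
  linarith

lemma R4_le {x : ℝ} (hx : 0 ≤ x) : R4 x ≤ (217 / 10000) := by
  have hx0 : 0 ≤ x := by linarith
  have hQ : 0 < (16 + x) * (36 + x) * (64 + x) := by positivity
  have key : ((217 / 10000) - R4 x) * ((16 + x) * (36 + x) * (64 + x)) = (499968 / 625) * x ^ 0 + (-77052 / 625) * x ^ 1 + (11293 / 2500) * x ^ 2 + (217 / 10000) * x ^ 3 := by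
    unfold R4 fr
    norm_num
    field_simp
    ring
  have hP : 0 ≤ (499968 / 625) * x ^ 0 + (-77052 / 625) * x ^ 1 + (11293 / 2500) * x ^ 2 + (217 / 10000) * x ^ 3 := by
    rcases le_total x 8 with h | h
    · have h5 : 0 ≤ 8 - x := by linarith
      have h0 : 0 ≤ x - 0 := by linarith
      have e : ((499968 / 625) * x ^ 0 + (-77052 / 625) * x ^ 1 + (11293 / 2500) * x ^ 2 + (217 / 10000) * x ^ 3) * 512 = (499968 / 625) * ((x - 0) ^ 0 * (8 - x) ^ 3) + (883488 / 625) * ((x - 0) ^ 1 * (8 - x) ^ 2) + (89552 / 125) * ((x - 0) ^ 2 * (8 - x) ^ 1) + (71184 / 625) * ((x - 0) ^ 3 * (8 - x) ^ 0) := by ring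
      have e2 : 0 ≤ (499968 / 625) * ((x - 0) ^ 0 * (8 - x) ^ 3) + (883488 / 625) * ((x - 0) ^ 1 * (8 - x) ^ 2) + (89552 / 125) * ((x - 0) ^ 2 * (8 - x) ^ 1) + (71184 / 625) * ((x - 0) ^ 3 * (8 - x) ^ 0) := by positivity
      linarith
    clear hx
    rename' h => hx
    rcases le_total x 12 with h | h
    · have h5 : 0 ≤ 12 - x := by linarith
      have h0 : 0 ≤ x - 8 := by linarith
      have e : ((499968 / 625) * x ^ 0 + (-77052 / 625) * x ^ 1 + (11293 / 2500) * x ^ 2 + (217 / 10000) * x ^ 3) * 64 = (71184 / 625) * ((x - 8) ^ 0 * (12 - x) ^ 3) + (96448 / 625) * ((x - 8) ^ 1 * (12 - x) ^ 2) + (29724 / 625) * ((x - 8) ^ 2 * (12 - x) ^ 1) + (5328 / 625) * ((x - 8) ^ 3 * (12 - x) ^ 0) := by ring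
      have e2 : 0 ≤ (71184 / 625) * ((x - 8) ^ 0 * (12 - x) ^ 3) + (96448 / 625) * ((x - 8) ^ 1 * (12 - x) ^ 2) + (29724 / 625) * ((x - 8) ^ 2 * (12 - x) ^ 1) + (5328 / 625) * ((x - 8) ^ 3 * (12 - x) ^ 0) := by positivity
      linarith
    clear hx
    rename' h => hx
    rcases le_total x 16 with h | h
    · have h5 : 0 ≤ 16 - x := by linarith
      have h0 : 0 ≤ x - 12 := by linarith
      have e : ((499968 / 625) * x ^ 0 + (-77052 / 625) * x ^ 1 + (11293 / 2500) * x ^ 2 + (217 / 10000) * x ^ 3) * 64 = (5328 / 625) * ((x - 12) ^ 0 * (16 - x) ^ 3) + (2244 / 625) * ((x - 12) ^ 1 * (16 - x) ^ 2) + (41488 / 625) * ((x - 12) ^ 2 * (16 - x) ^ 1) + (9088 / 125) * ((x - 12) ^ 3 * (16 - x) ^ 0) := by ring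
      have e2 : 0 ≤ (5328 / 625) * ((x - 12) ^ 0 * (16 - x) ^ 3) + (2244 / 625) * ((x - 12) ^ 1 * (16 - x) ^ 2) + (41488 / 625) * ((x - 12) ^ 2 * (16 - x) ^ 1) + (9088 / 125) * ((x - 12) ^ 3 * (16 - x) ^ 0) := by positivity
      linarith
    clear hx
    rename' h => hx
    obtain ⟨s, hs⟩ : ∃ s, s = x - 16 := ⟨_, rfl⟩
    have hs0 : 0 ≤ s := by linarith
    have e : (499968 / 625) * x ^ 0 + (-77052 / 625) * x ^ 1 + (11293 / 2500) * x ^ 2 + (217 / 10000) * x ^ 3 = (9088 / 125) * s ^ 0 + (23708 / 625) * s ^ 1 + (13897 / 2500) * s ^ 2 + (217 / 10000) * s ^ 3 := by rw [hs]; ring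
    rw [e]; positivity
  by_contra hcon
  push Not at hcon
  have : ((217 / 10000) - R4 x) * ((16 + x) * (36 + x) * (64 + x)) < 0 := mul_neg_of_neg_of_pos (by linarith) hQ
  linarith

lemma R5_le {x : ℝ} (hx : 0 ≤ x) : R5 x ≤ (29 / 10000) := by
  have hx0 : 0 ≤ x := by linarith
  have hQ : 0 < (25 + x) * (49 + x) * (225 + x) := by positivity
  have key : ((29 / 10000) - R5 x) * ((25 + x) * (49 + x) * (225 + x)) = (126189 / 16) * x ^ 0 + (94627 / 80) * x ^ 1 + (-36329 / 10000) * x ^ 2 + (29 / 10000) * x ^ 3 := by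
    unfold R5 fr
    norm_num
    field_simp
    ring
  have hP : 0 ≤ (126189 / 16) * x ^ 0 + (94627 / 80) * x ^ 1 + (-36329 / 10000) * x ^ 2 + (29 / 10000) * x ^ 3 := by
    rcases le_total x 512 with h | h
    · have h5 : 0 ≤ 512 - x := by linarith
      have h0 : 0 ≤ x - 0 := by linarith
      have e : ((126189 / 16) * x ^ 0 + (94627 / 80) * x ^ 1 + (-36329 / 10000) * x ^ 2 + (29 / 10000) * x ^ 3) * 134217728 = (126189 / 16) * ((x - 0) ^ 0 * (512 - x) ^ 3) + (50341859 / 80) * ((x - 0) ^ 1 * (512 - x) ^ 2) + (2825430999 / 10000) * ((x - 0) ^ 2 * (512 - x) ^ 1) + (503880861 / 10000) * ((x - 0) ^ 3 * (512 - x) ^ 0) := by ring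
      have e2 : 0 ≤ (126189 / 16) * ((x - 0) ^ 0 * (512 - x) ^ 3) + (50341859 / 80) * ((x - 0) ^ 1 * (512 - x) ^ 2) + (2825430999 / 10000) * ((x - 0) ^ 2 * (512 - x) ^ 1) + (503880861 / 10000) * ((x - 0) ^ 3 * (512 - x) ^ 0) := by positivity
      linarith
    clear hx
    rename' h => hx
    rcases le_total x 1024 with h | h
    · have h5 : 0 ≤ 1024 - x := by linarith
      have h0 : 0 ≤ x - 512 := by linarith
      have e : ((126189 / 16) * x ^ 0 + (94627 / 80) * x ^ 1 + (-36329 / 10000) * x ^ 2 + (29 / 10000) * x ^ 3) * 134217728 = (503880861 / 10000) * ((x - 512) ^ 0 * (1024 - x) ^ 3) + (197854167 / 10000) * ((x - 512) ^ 1 * (1024 - x) ^ 2) + (1037578711 / 10000) * ((x - 512) ^ 2 * (1024 - x) ^ 1) + (5235919517 / 10000) * ((x - 512) ^ 3 * (1024 - x) ^ 0) := by ring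
      have e2 : 0 ≤ (503880861 / 10000) * ((x - 512) ^ 0 * (1024 - x) ^ 3) + (197854167 / 10000) * ((x - 512) ^ 1 * (1024 - x) ^ 2) + (1037578711 / 10000) * ((x - 512) ^ 2 * (1024 - x) ^ 1) + (5235919517 / 10000) * ((x - 512) ^ 3 * (1024 - x) ^ 0) := by positivity
      linarith
    clear hx
    rename' h => hx
    obtain ⟨s, hs⟩ : ∃ s, s = x - 1024 := ⟨_, rfl⟩
    have hs0 : 0 ≤ s := by linarith
    have e : (126189 / 16) * x ^ 0 + (94627 / 80) * x ^ 1 + (-36329 / 10000) * x ^ 2 + (29 / 10000) * x ^ 3 = (5235919517 / 10000) * s ^ 0 + (5730539 / 2000) * s ^ 1 + (52759 / 10000) * s ^ 2 + (29 / 10000) * s ^ 3 := by rw [hs]; ring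
    rw [e]; positivity
  by_contra hcon
  push Not at hcon
  have : ((29 / 10000) - R5 x) * ((25 + x) * (49 + x) * (225 + x)) < 0 := mul_neg_of_neg_of_pos (by linarith) hQ
  linarith

lemma R10_le {x : ℝ} (hx : 0 ≤ x) : R10 x ≤ (7 / 100) := by
  have hx0 : 0 ≤ x := by linarith
  have hQ : 0 < (100 + x) * (900 + x) := by positivity
  have key : ((7 / 100) - R10 x) * ((100 + x) * (900 + x)) = 0 * x ^ 0 + 87 * x ^ 1 + (7 / 100) * x ^ 2 := by
    unfold R10 fr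
    norm_num
    field_simp
    ring
  have hP : 0 ≤ 0 * x ^ 0 + 87 * x ^ 1 + (7 / 100) * x ^ 2 := by
    obtain ⟨s, hs⟩ : ∃ s, s = x - 0 := ⟨_, rfl⟩
    have hs0 : 0 ≤ s := by linarith
    have e : 0 * x ^ 0 + 87 * x ^ 1 + (7 / 100) * x ^ 2 = 87 * s ^ 1 + (7 / 100) * s ^ 2 := by rw [hs]; ring
    rw [e]; positivity
  by_contra hcon
  push Not at hcon
  have : ((7 / 100) - R10 x) * ((100 + x) * (900 + x)) < 0 := mul_neg_of_neg_of_pos (by linarith) hQ
  linarith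

end K3h21.PP
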